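import Mathlib

/-!
Derivations given as additive maps with the Leibniz rule; Wronskians.
-/

set_option autoImplicit false

namespace Pool.Agent.MP_c69980_ag.H60

open Finset

/-- The Leibniz rule. -/
def Leib {A : Type*} [CommRing A] (D : A →+ A) : Prop :=
  ∀ x y, D (x * y) = D x * y + x * D y

section Ring

variable {A : Type*} [CommRing A] {D : A →+ A}

lemma Leib.one (h : Leib D) : D 1 = 0 := by
  have := h 1 1
  simp only [mul_one, one_mul] at this
  linear_combination -this

lemma it_add (D : A →+ A) (j : ℕ) (x y : A) : D^[j] (x + y) = D^[j] x + D^[j] y := by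
  induction j with
  | zero => rfl
  | succ j ih => simp only [Function.iterate_succ_apply', ih, map_add]

lemma it_zero (D : A →+ A) (j : ℕ) : D^[j] 0 = 0 := by
  induction j with
  | zero => rfl
  | succ j ih => simp only [Function.iterate_succ_apply', ih, map_zero]

lemma it_sum (D : A →+ A) (j : ℕ) {ι : Type*} (s : Finset ι) (f : ι → A) :
    D^[j] (∑ i ∈ s, f i) = ∑ i ∈ s, D^[j] (f i) := by
  induction j with
  | zero => rfl
  | succ j ih => simp only [Function.iterate_succ_apply', ih, map_sum]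

lemma Leib.it_const (h : Leib D) {c : A} (hc : D c = 0) (j : ℕ) (x : A) :
    D^[j] (c * x) = c * D^[j] x := by
  induction j with
  | zero => rfl
  | succ j ih => simp only [Function.iterate_succ_apply', ih]; rw [h, hc]; ring

lemma Leib.tri (h : Leib D) (y : A) : ∃ L : ℕ → ℕ → A, (∀ j, L j j = y) ∧
    (∀ j k, j < k → L j k = 0) ∧
    ∀ j M x, j < M → D^[j] (y * x) = ∑ k ∈ range M, L j k * D^[k] x := by
  let L : ℕ → ℕ → A := fun j => Nat.rec (fun k => if k = 0 then y else 0)
    (fun _ l k => D (l k) + if k = 0 then 0 else l (k - 1)) j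
  have L0 : ∀ k, L 0 k = if k = 0 then y else 0 := fun _ => rfl
  have LS : ∀ j k, L (j + 1) k = D (L j k) + if k = 0 then 0 else L j (k - 1) := fun _ _ => rfl
  have h2 : ∀ j k, j < k → L j k = 0 := by
    intro j
    induction j with
    | zero => intro k hk; rw [L0, if_neg (by omega)]
    | succ j ih =>
      intro k hk
      rw [LS, ih k (by omega), if_neg (by omega), ih _ (by omega)]; simp
  refine ⟨L, ?_, h2, ?_⟩
  · intro j
    induction j with
    | zero => rw [L0, if_pos rfl]
    | succ j ih => rw [LS, h2 j _ (by omega), if_neg (by omega)]; simpa using ih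
  · intro j
    induction j with
    | zero =>
      intro M x hM
      rw [Finset.sum_eq_single 0]
      · simp [L0]
      · intro b _ hb; rw [L0, if_neg hb, zero_mul]
      · intro h0; exact absurd (mem_range.2 hM) h0
    | succ j ih =>
      intro M x hM
      obtain ⟨M, rfl⟩ : ∃ M', M = M' + 1 := ⟨M - 1, by omega⟩
      rw [Function.iterate_succ_apply', ih M x (by omega), map_sum]
      simp only [LS, add_mul, sum_add_distrib]
      rw [sum_range_succ, sum_range_succ', h2 j M (by omega)]
      simp only [h _ _, sum_add_distrib, Function.iterate_succ_apply']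
      simp

lemma Leib.det_mul (h : Leib D) (y : A) {M : ℕ} (x : Fin M → A) :
    (Matrix.of fun (j i : Fin M) => D^[j] (y * x i)).det =
      y ^ M * (Matrix.of fun (j i : Fin M) => D^[j] (x i)).det := by
  obtain ⟨L, h1, h2, h3⟩ := h.tri y
  have : (Matrix.of fun (j i : Fin M) => D^[j] (y * x i)) =
      (Matrix.of fun (j k : Fin M) => L j k) * (Matrix.of fun (j i : Fin M) => D^[j] (x i)) := by
    ext j i
    simp only [Matrix.of_apply, Matrix.mul_apply]
    rw [h3 j M _ j.2, Finset.sum_range]
  rw [this, Matrix.det_mul, Matrix.det_of_isLowerTriangular]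
  · simp [h1]
  · intro j k hjk
    exact h2 _ _ hjk

/-- Multilinear expansion of a Wronskian. -/
lemma Leib.det_expand (h : Leib D) {M : ℕ} {B : Type*} [Fintype B] [DecidableEq B]
    (c : Fin M → B → A) (hc : ∀ i b, D (c i b) = 0) (β : B → A) :
    (Matrix.of fun (j i : Fin M) => D^[j] (∑ b, c i b * β b)).det =
      ∑ f ∈ univ.filter (fun f : Fin M → B => Function.Injective f),
        (∏ i, c i (f i)) * (Matrix.of fun (j i : Fin M) => D^[j] (β (f i))).det := by
  have e1 : (Matrix.of fun (j i : Fin M) => D^[j] (∑ b, c i b * β b)).det =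
      Matrix.detRowAlternating (fun (i : Fin M) => ∑ b, c i b • fun j : Fin M => D^[j] (β b)) := by
    rw [← Matrix.det_transpose]
    unfold Matrix.det
    congr 1
    ext i j
    simp [it_sum, h.it_const (hc _ _)]
  rw [e1]
  have e2 := (Matrix.detRowAlternating (R := A) (n := Fin M)).toMultilinearMap.map_sum
    (fun (i : Fin M) (b : B) => c i b • fun j : Fin M => D^[j] (β b))
  simp only [AlternatingMap.coe_multilinearMap] at e2
  rw [e2, Finset.sum_filter]
  refine Finset.sum_congr rfl fun f _ => ?_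
  have e3 := (Matrix.detRowAlternating (R := A) (n := Fin M)).toMultilinearMap.map_smul_univ
    (fun i => c i (f i)) (fun (i : Fin M) => fun j : Fin M => D^[j] (β (f i)))
  simp only [AlternatingMap.coe_multilinearMap] at e3
  rw [e3]
  split_ifs with hf
  · rw [← Matrix.det_transpose]; rfl
  · rw [AlternatingMap.map_eq_zero_of_not_injective, smul_zero]
    intro hi
    apply hf
    intro a b hab
    apply hi
    simp [hab]

end Ring

section Field

variable {Ω : Type*} [Field Ω] {D : Ω →+ Ω}

lemma Leib.div (h : Leib D) (x y : Ω) (hy : y ≠ 0) :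
    D (x / y) * y ^ 2 = D x * y - x * D y := by
  have := h (x / y) y
  rw [div_mul_cancel₀ _ hy] at this
  rw [this]
  field_simp
  ring

lemma Leib.wr_aux (h : Leib D) {ι : Type*} [Fintype ι] [DecidableEq ι] (x : ι → Ω)
    (hx : ∀ c : ι → Ω, (∀ i, D (c i) = 0) → ∑ i, c i * x i = 0 → ∀ i, c i = 0) :
    ∀ (m : ℕ) (s : Finset ι), s.card = m → ∀ v : ι → Ω,
      (∀ j < m, ∑ i ∈ s, v i * D^[j] (x i) = 0) → ∀ i ∈ s, v i = 0 := by
  intro m
  induction m with
  | zero => intro s hs v _ i hi; rw [Finset.card_eq_zero.1 hs] at hi; simp at hi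
  | succ m ih =>
    intro s hs v hv
    by_contra hne
    push Not at hne
    obtain ⟨i0, hi0, hv0⟩ := hne
    have hc : (s.erase i0).card = m := by rw [Finset.card_erase_of_mem hi0, hs]; rfl
    have hu : ∀ j < m + 1, ∑ i ∈ s, v i / v i0 * D^[j] (x i) = 0 := by
      intro j hj
      have := hv j hj
      calc _ = (∑ i ∈ s, v i * D^[j] (x i)) / v i0 := by
            rw [Finset.sum_div]; exact Finset.sum_congr rfl fun i _ => by ring
        _ = 0 := by rw [this, zero_div]
    have hd : ∀ i ∈ s.erase i0, D (v i / v i0) = 0 := by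
      apply ih _ hc (fun i => D (v i / v i0))
      intro j hj
      have e1 := congrArg D (hu j (by omega))
      have e2 := hu (j + 1) (by omega)
      rw [map_sum, map_zero] at e1
      simp only [h _ _, sum_add_distrib] at e1
      simp only [Function.iterate_succ_apply'] at e2
      rw [e2, add_zero, ← Finset.add_sum_erase s _ hi0, div_self hv0, h.one] at e1
      simpa using e1
    have := hx (fun i => if i ∈ s then v i / v i0 else 0) ?_ ?_ i0
    · simp [hi0, hv0] at this
    · intro i
      by_cases hi : i ∈ s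
      · by_cases e : i = i0
        · subst e; simp [hi, hv0, h.one]
        · simpa [hi] using hd i (Finset.mem_erase.2 ⟨e, hi⟩)
      · simp [hi]
    · have := hu 0 (by omega)
      simp only [Function.iterate_zero, id] at this
      simp only [ite_mul, zero_mul]
      rw [← Finset.sum_filter]
      simpa using this

lemma Leib.wr_ne (h : Leib D) {M : ℕ} (x : Fin M → Ω)
    (hx : ∀ c : Fin M → Ω, (∀ i, D (c i) = 0) → ∑ i, c i * x i = 0 → ∀ i, c i = 0) :
    (Matrix.of fun (j i : Fin M) => D^[j] (x i)).det ≠ 0 := by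
  intro h0
  obtain ⟨v, hv, hv0⟩ := Matrix.exists_mulVec_eq_zero_iff.2 h0
  apply hv
  funext i
  refine h.wr_aux x hx M univ (by simp) v ?_ i (mem_univ _)
  intro j hj
  have := congrFun hv0 ⟨j, hj⟩
  simp only [Matrix.mulVec, dotProduct, Matrix.of_apply, Pi.zero_apply] at this
  rw [← this]
  exact Finset.sum_congr rfl fun i _ => mul_comm _ _

end Field

lemma Leib.extend_aux {V Ω : Type*} [CommRing V] {D : V →+ V} (h : Leib D) (P : Ideal V)
    [P.IsPrime] (hP : ∀ x ∈ P, D x ∈ P) [Field Ω] [Algebra (V ⧸ P) Ω] [IsFractionRing (V ⧸ P) Ω] :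
    ∃ D' : Ω →+ Ω, Leib D' ∧
      ∀ v, D' (algebraMap (V ⧸ P) _ (Ideal.Quotient.mk P v)) =
        algebraMap (V ⧸ P) _ (Ideal.Quotient.mk P (D v)) := by
  let φ : V →+* Ω := (algebraMap (V ⧸ P) Ω).comp (Ideal.Quotient.mk P)
  let ψ : V →+* DualNumber Ω :=
    { toFun := fun v => TrivSqZeroExt.inl (φ v) + TrivSqZeroExt.inr (φ (D v))
      map_one' := by ext <;> simp [h.one]
      map_mul' := fun a b => by ext <;> simp [h a b, mul_comm]; ring
      map_zero' := by ext <;> simp
      map_add' := fun a b => by ext <;> simp }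
  have hφ : ∀ v ∈ P, φ v = 0 := fun v hv => by
    simp [φ, Ideal.Quotient.eq_zero_iff_mem.2 hv]
  let ψ1 : V ⧸ P →+* DualNumber Ω := Ideal.Quotient.lift P ψ fun v hv => by
    ext <;> simp [ψ, hφ v hv, hφ _ (hP v hv)]
  have h1 : ∀ u, (ψ1 u).fst = algebraMap (V ⧸ P) Ω u := by
    intro u
    obtain ⟨v, rfl⟩ := Ideal.Quotient.mk_surjective u
    simp [ψ1, ψ, φ]
  have hu : ∀ u : nonZeroDivisors (V ⧸ P), IsUnit (ψ1 u) := by
    intro u
    rw [TrivSqZeroExt.isUnit_iff_isUnit_fst, h1, isUnit_iff_ne_zero]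
    exact IsFractionRing.to_map_ne_zero_of_mem_nonZeroDivisors u.2
  let ψ2 : Ω →+* DualNumber Ω := IsLocalization.lift hu
  have h3 : ∀ u, ψ2 (algebraMap (V ⧸ P) Ω u) = ψ1 u := fun u => IsLocalization.lift_eq hu u
  have h2 : ∀ x, (ψ2 x).fst = x := by
    intro x
    have : (TrivSqZeroExt.fstHom Ω Ω Ω).toRingHom.comp ψ2 = RingHom.id Ω := by
      apply IsLocalization.ringHom_ext (nonZeroDivisors (V ⧸ P))
      ext v
      simp [h3, h1]
    exact RingHom.congr_fun this x
  refine ⟨{ toFun := fun x => (ψ2 x).snd, map_zero' := by simp, map_add' := by simp }, ?_, ?_⟩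
  · intro x y
    simp [h2]
    ring
  · intro v
    change (ψ2 (algebraMap (V ⧸ P) Ω (Ideal.Quotient.mk P v))).snd = φ (D v)
    rw [h3]
    simp [ψ1, ψ]

/-- A derivation preserving a prime ideal extends to the fraction field of the quotient. -/
theorem Leib.extend {V : Type} [CommRing V] {D : V →+ V} (h : Leib D) (P : Ideal V)
    [P.IsPrime] (hP : ∀ x ∈ P, D x ∈ P) :
    ∃ (Ω : Type) (_ : Field Ω) (φ : V →+* Ω) (D' : Ω →+ Ω), Leib D' ∧
      (∀ v, D' (φ v) = φ (D v)) ∧ (∀ v, φ v = 0 ↔ v ∈ P) ∧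
      ∀ x : Ω, ∃ g h, h ∉ P ∧ x = φ g / φ h := by
  obtain ⟨D', h1, h2⟩ := h.extend_aux (Ω := FractionRing (V ⧸ P)) P hP
  refine ⟨FractionRing (V ⧸ P), inferInstance,
    (algebraMap (V ⧸ P) _).comp (Ideal.Quotient.mk P), D', h1, h2, fun v => ?_, fun x => ?_⟩
  · simp [Ideal.Quotient.eq_zero_iff_mem]
  · obtain ⟨a, b, hb, rfl⟩ := IsFractionRing.div_surjective (A := V ⧸ P) x
    obtain ⟨g, rfl⟩ := Ideal.Quotient.mk_surjective a
    obtain ⟨h, rfl⟩ := Ideal.Quotient.mk_surjective b
    refine ⟨g, h, fun hh => ?_, rfl⟩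
    exact nonZeroDivisors.ne_zero hb (Ideal.Quotient.eq_zero_iff_mem.2 hh)

end Pool.Agent.MP_c69980_ag.H60
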