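import Mathlib

/-!
Circle means of `log |f|` for holomorphic functions on a disc.
-/

set_option autoImplicit false

namespace Pool.Agent.MP_c69980_ag.H60

open Finset Metric Real Filter Topology

/-- Holomorphic on the disc of radius `R`. -/
abbrev Hol (R : ℝ) (f : ℂ → ℂ) : Prop := DifferentiableOn ℂ f (ball 0 R)

/-- Not identically zero on the disc of radius `R`. -/
def NZ (R : ℝ) (f : ℂ → ℂ) : Prop := ∃ z ∈ ball (0 : ℂ) R, f z ≠ 0

/-- The mean of `log |f|` over the circle of radius `ρ`. -/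
noncomputable def av (f : ℂ → ℂ) (ρ : ℝ) : ℝ := circleAverage (fun z => log ‖f z‖) 0 ρ

variable {R ρ : ℝ} {f g : ℂ → ℂ}

lemma Hol.an (hf : Hol R f) : AnalyticOnNhd ℂ f (ball 0 R) := hf.analyticOnNhd isOpen_ball

lemma zeros_fin (hf : Hol R f) (hn : NZ R f) (h : ρ < R) : {z | ‖z‖ ≤ ρ ∧ f z = 0}.Finite := by
  obtain ⟨x, hx, h0⟩ := hn
  have h1 := hf.an.preimage_zero_mem_codiscreteWithin h0 hx
    ⟨⟨x, hx⟩, (convex_ball 0 R).isPreconnected⟩
  refine ((isCompact_closedBall (0 : ℂ) ρ).finite_sdiff_of_mem_codiscreteWithin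
    (codiscreteWithin_mono (closedBall_subset_ball h) h1)).subset fun z hz => ?_
  simpa using hz

lemma NZ.mul (hf : Hol R f) (hg : Hol R g) (h1 : NZ R f) (h2 : NZ R g) :
    NZ R fun z => f z * g z := by
  by_contra hn
  simp only [NZ, not_exists, not_and, not_not] at hn
  rcases hf.an.eq_zero_or_eq_zero_of_mul_eq_zero hg.an hn (convex_ball 0 R).isPreconnected with h | h
  · obtain ⟨z, a, b⟩ := h1; exact b (h z a)
  · obtain ⟨z, a, b⟩ := h2; exact b (h z a)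

lemma factor (hf : Hol R f) (hn : NZ R f) (h : ρ < R) :
    ∃ (N : ℕ) (a : Fin N → ℂ) (g : ℂ → ℂ), (∀ i, ‖a i‖ ≤ ρ) ∧ Hol R g ∧
      (∀ z, f z = (∏ i, (z - a i)) * g z) ∧ ∀ z, ‖z‖ ≤ ρ → g z ≠ 0 := by
  have top : ∀ f, Hol R f → NZ R f → ∀ z, ‖z‖ ≤ ρ → analyticOrderAt f z ≠ ⊤ := by
    rintro f hf ⟨x, hx, h0⟩ z hz e
    exact h0 (hf.an.eqOn_zero_of_preconnected_of_eventuallyEq_zero (convex_ball 0 R).isPreconnected
      (mem_ball_zero_iff.2 (hz.trans_lt h)) (analyticOrderAt_eq_top.1 e) hx)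
  obtain ⟨Z, hZ, hZ'⟩ : ∃ Z : Finset ℂ, (∀ z ∈ Z, ‖z‖ ≤ ρ) ∧ ∀ z, ‖z‖ ≤ ρ → f z = 0 → z ∈ Z :=
    ⟨(zeros_fin hf hn h).toFinset, fun z hz => ((Set.Finite.mem_toFinset _).1 hz).1,
      fun z a b => (Set.Finite.mem_toFinset _).2 ⟨a, b⟩⟩
  induction hm : ∑ z ∈ Z, analyticOrderNatAt f z using Nat.strong_induction_on generalizing f with
  | _ m ih =>
  by_cases h0 : ∃ a, ‖a‖ ≤ ρ ∧ f a = 0
  · obtain ⟨a, ha, hfa⟩ := h0
    have hb : ∀ z : ℂ, ‖z‖ ≤ ρ → z ∈ ball (0 : ℂ) R := fun z hz => mem_ball_zero_iff.2 (hz.trans_lt h)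
    have hd : Hol R (dslope f a) :=
      (Complex.differentiableOn_dslope (isOpen_ball.mem_nhds (hb a ha))).2 hf
    have he : ∀ z, f z = (z - a) * dslope f a z := fun z => by
      have := sub_smul_dslope f a z
      rw [hfa, sub_zero, smul_eq_mul] at this; exact this.symm
    have hn' : NZ R (dslope f a) := by
      obtain ⟨x, hx, h0⟩ := hn
      exact ⟨x, hx, fun e => h0 (by rw [he, e, mul_zero])⟩
    have ho : ∀ z ∈ Z, analyticOrderNatAt f z =
        analyticOrderNatAt (fun z => z - a) z + analyticOrderNatAt (dslope f a) z := by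
      intro z hz
      rw [← analyticOrderNatAt_mul (by fun_prop) (hd.an z (hb z (hZ z hz))) ?_
        (top _ hd hn' z (hZ z hz))]
      · exact congrArg (analyticOrderNatAt · z) (funext he)
      · by_cases e : z = a
        · rw [e, analyticOrderAt_id_sub_const_self]; simp
        · rw [analyticOrderAt_id_sub_const_of_ne e]; simp
    obtain ⟨N, b, g, h1, h2, h3, h4⟩ := ih _ (by
      rw [← hm]
      refine sum_lt_sum (fun z hz => by rw [ho z hz]; omega) ⟨a, hZ' a ha hfa, ?_⟩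
      rw [ho a (hZ' a ha hfa), lt_add_iff_pos_left, analyticOrderNatAt,
        analyticOrderAt_id_sub_const_self]
      simp) hd hn' (fun z hz e => hZ' z hz (by rw [he, e, mul_zero])) rfl
    refine ⟨N + 1, Fin.cons a b, g, fun i => ?_, h2, fun z => ?_, h4⟩
    · refine Fin.cases ?_ (fun i => ?_) i
      · exact ha
      · exact h1 i
    · rw [he, h3, Fin.prod_univ_succ, mul_assoc]; rfl
  · exact ⟨0, Fin.elim0, f, fun i => i.elim0, hf, by simp, fun z hz e => h0 ⟨z, hz, e⟩⟩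

lemma ev_off {Z : Set ℂ} (hZ : Z.Finite) (h0 : 0 < ρ) {p : ℂ → Prop}
    (h : ∀ z, ‖z‖ = ρ → z ∉ Z → p z) : ∀ᶠ z in codiscreteWithin (sphere (0 : ℂ) |ρ|), p z := by
  filter_upwards [compl_finite_mem_codiscreteWithin hZ, self_mem_codiscreteWithin _] with z h1 h2
  exact h z (by simpa [abs_of_pos h0] using h2) h1

lemma avg_mono_off {Z : Set ℂ} (hZ : Z.Finite) (h0 : 0 < ρ) {u v : ℂ → ℝ}
    (hu : CircleIntegrable u 0 ρ) (hv : CircleIntegrable v 0 ρ)
    (h : ∀ z, ‖z‖ = ρ → z ∉ Z → u z ≤ v z) : circleAverage u 0 ρ ≤ circleAverage v 0 ρ := by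
  classical
  have e : u =ᶠ[codiscreteWithin (sphere (0 : ℂ) |ρ|)] fun z => if z ∈ Z then v z else u z :=
    ev_off hZ h0 fun z _ hz => by simp [hz]
  rw [circleAverage_congr_codiscreteWithin e h0.ne']
  refine circleAverage_mono (hu.congr_codiscreteWithin e) hv fun z hz => ?_
  split_ifs with hZ
  · rfl
  · exact h z (by simpa [abs_of_pos h0] using hz) hZ

lemma sph_sub (h0 : 0 < ρ) (h : ρ < R) : sphere (0 : ℂ) |ρ| ⊆ ball 0 R := by
  rw [abs_of_pos h0]; exact sphere_subset_ball h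

lemma Hol.int (hf : Hol R f) (h0 : 0 < ρ) (h : ρ < R) :
    CircleIntegrable (fun z => log ‖f z‖) 0 ρ :=
  (hf.an.mono (sph_sub h0 h)).meromorphicOn.circleIntegrable_log_norm

lemma av_mul (hf : Hol R f) (hg : Hol R g) (h1 : NZ R f) (h2 : NZ R g) (h0 : 0 < ρ) (h : ρ < R) :
    av (fun z => f z * g z) ρ = av f ρ + av g ρ := by
  rw [av, av, av, ← circleAverage_fun_add (hf.int h0 h) (hg.int h0 h)]
  refine circleAverage_congr_codiscreteWithin
    (ev_off (zeros_fin (hf.mul hg) (h1.mul hf hg h2) h) h0 fun z hz hZ => ?_) h0.ne'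
  have : f z * g z ≠ 0 := fun e => hZ ⟨hz.le, e⟩
  simp only [norm_mul]
  exact log_mul (by simpa using left_ne_zero_of_mul this) (by simpa using right_ne_zero_of_mul this)

lemma av_le (hf : Hol R f) (hn : NZ R f) (h0 : 0 < ρ) (h : ρ < R) {A : ℝ}
    (hA : ∀ z, ‖z‖ = ρ → ‖f z‖ ≤ exp A) : av f ρ ≤ A := by
  rw [← circleAverage_const A 0 ρ]
  refine avg_mono_off (zeros_fin hf hn h) h0 (hf.int h0 h) (circleIntegrable_const _ _ _)
    fun z hz hZ => ?_
  exact (log_le_iff_le_exp (norm_pos_iff.2 fun e => hZ ⟨hz.le, e⟩)).2 (hA z hz)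

/-- The Poisson kernel. -/
noncomputable def pk (w z : ℂ) : ℝ := (herglotzRieszKernel 0 w z).re

/-- The harmonic majorant of `log |w - a|` on the disc of radius `ρ`. -/
noncomputable def hh (ρ : ℝ) (a w : ℂ) : ℝ :=
  if ‖a‖ ≤ ρ then ‖((ρ : ℂ) ^ 2 - (starRingEnd ℂ) a * w) / ρ‖ else ‖w - a‖

lemma pk_harm {u : ℂ → ℝ} {w : ℂ} (hw : ‖w‖ < ρ)
    (hu : InnerProductSpace.HarmonicOnNhd u (closedBall 0 ρ)) :
    circleAverage (fun z => pk w z * u z) 0 ρ = u w :=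
  hu.circleAverage_re_herglotzRieszKernel_smul (mem_ball_zero_iff.2 hw)

lemma pk_int {u : ℂ → ℝ} {w : ℂ} (hw : ‖w‖ < ρ) (hu : CircleIntegrable u 0 ρ) :
    CircleIntegrable (fun z => pk w z * u z) 0 ρ :=
  hu.continuousOn_mul (Complex.continuous_re.comp_continuousOn
    (continuousOn_herglotzRieszKernel_sphere (mem_ball_zero_iff.2 hw)))

lemma pk_le {w z : ℂ} (hw : ‖w‖ < ρ) (hz : ‖z‖ = ρ) : pk w z ≤ (ρ + ‖w‖) / (ρ - ‖w‖) := by
  simpa [pk, herglotzRieszKernel_def] using re_herglotzRieszKernel_le (c := 0)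
    (mem_sphere_zero_iff_norm.2 hz) (mem_ball_zero_iff.2 hw)

lemma le_pk {w z : ℂ} (hw : ‖w‖ < ρ) (hz : ‖z‖ = ρ) : (ρ - ‖w‖) / (ρ + ‖w‖) ≤ pk w z := by
  simpa [pk, herglotzRieszKernel_def] using le_re_herglotzRieszKernel (c := 0)
    (mem_sphere_zero_iff_norm.2 hz) (mem_ball_zero_iff.2 hw)

lemma norm_refl {a z : ℂ} (h0 : 0 < ρ) (hz : ‖z‖ = ρ) :
    ‖((ρ : ℂ) ^ 2 - (starRingEnd ℂ) a * z) / ρ‖ = ‖z - a‖ := by
  have : (ρ : ℂ) ^ 2 - (starRingEnd ℂ) a * z = (starRingEnd ℂ) (z - a) * z := by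
    rw [← hz, ← Complex.conj_mul', map_sub]; ring
  rw [this, norm_div, norm_mul, hz, Complex.norm_conj, Complex.norm_real, Real.norm_eq_abs,
    abs_of_pos h0, mul_div_cancel_right₀ _ h0.ne']

lemma pk_lin (a : ℂ) {w : ℂ} (hw : ‖w‖ < ρ) :
    circleAverage (fun z => pk w z * log ‖z - a‖) 0 ρ = log (hh ρ a w) := by
  have h0 : 0 < ρ := (norm_nonneg _).trans_lt hw
  rcases lt_trichotomy ‖a‖ ρ with h | h | h
  · rw [hh, if_pos h.le, ← pk_harm hw (u := fun z => log ‖((ρ : ℂ) ^ 2 - (starRingEnd ℂ) a * z) / ρ‖)]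
    · refine circleAverage_congr_sphere fun z hz => ?_
      rw [norm_refl h0 (by simpa [abs_of_pos h0] using hz)]
    · intro z hz
      refine AnalyticAt.harmonicAt_log_norm (by fun_prop) (div_ne_zero (sub_ne_zero.2 fun e => ?_)
        (by simpa using h0.ne'))
      have := congrArg norm e
      rw [norm_mul, Complex.norm_conj, norm_pow, Complex.norm_real, Real.norm_eq_abs,
        abs_of_pos h0] at this
      have hz' := mem_closedBall_zero_iff.1 hz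
      nlinarith [norm_nonneg a, norm_nonneg z]
  · rw [hh, if_pos h.le]
    have e : ‖((ρ : ℂ) ^ 2 - (starRingEnd ℂ) a * w) / ρ‖ = ‖w - a‖ := by
      have : (ρ : ℂ) ^ 2 - (starRingEnd ℂ) a * w = (starRingEnd ℂ) a * (a - w) := by
        rw [← h, ← Complex.conj_mul']; ring
      rw [this, norm_div, norm_mul, Complex.norm_conj, h, Complex.norm_real, Real.norm_eq_abs,
        abs_of_pos h0, mul_div_cancel_left₀ _ h0.ne', norm_sub_rev]
    rw [e]
    exact circleAverage_re_herglotzRieszKernel_mul_log₀ (mem_sphere_zero_iff_norm.2 h)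
      (mem_ball_zero_iff.2 hw)
  · rw [hh, if_neg h.not_ge]
    refine pk_harm hw (u := fun z => log ‖z - a‖) fun z hz =>
      AnalyticAt.harmonicAt_log_norm (by fun_prop) (sub_ne_zero.2 fun e => ?_)
    rw [e] at hz
    exact h.not_ge (mem_closedBall_zero_iff.1 hz)

lemma le_hh (a : ℂ) {w : ℂ} (hw : ‖w‖ < ρ) : ‖w - a‖ ≤ hh ρ a w := by
  have h0 : 0 < ρ := (norm_nonneg _).trans_lt hw
  rw [hh]
  split_ifs with h
  · rw [norm_div, Complex.norm_real, Real.norm_eq_abs, abs_of_pos h0, le_div_iff₀ h0]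
    apply le_of_sq_le_sq _ (norm_nonneg _)
    rw [mul_pow, ← Complex.normSq_eq_norm_sq, ← Complex.normSq_eq_norm_sq]
    have h1 : ‖a‖ ^ 2 ≤ ρ ^ 2 := by gcongr
    have h2 : ‖w‖ ^ 2 ≤ ρ ^ 2 := by gcongr
    rw [← Complex.normSq_eq_norm_sq] at h1 h2
    have h3 := mul_nonneg (sub_nonneg.2 h1) (sub_nonneg.2 h2)
    simp only [Complex.normSq_apply, ← Complex.ofReal_pow, Complex.sub_re, Complex.sub_im,
      Complex.mul_re, Complex.mul_im, Complex.conj_re, Complex.conj_im, Complex.ofReal_re,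
      Complex.ofReal_im] at *
    nlinarith
  · rfl

/-- The Poisson-Jensen formula. -/
lemma pj {ρ₀ : ℝ} {N : ℕ} {a : Fin N → ℂ} (hg : Hol R g) (he : ∀ z, f z = (∏ i, (z - a i)) * g z)
    (h0 : ∀ z, ‖z‖ ≤ ρ₀ → g z ≠ 0) (h1 : ρ ≤ ρ₀) (h2 : ρ₀ < R) {w : ℂ} (hw : ‖w‖ < ρ) :
    circleAverage (fun z => pk w z * log ‖f z‖) 0 ρ = log ‖g w‖ + ∑ i, log (hh ρ (a i) w) := by
  have hρ : 0 < ρ := (norm_nonneg _).trans_lt hw
  simp only [← pk_lin _ hw]
  rw [← pk_harm hw (u := fun z => log ‖g z‖) (fun z hz => AnalyticAt.harmonicAt_log_norm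
      (hg.an z (closedBall_subset_ball (h1.trans_lt h2) hz))
      (h0 z ((mem_closedBall_zero_iff.1 hz).trans h1))),
    ← circleAverage_fun_sum (fun i _ => pk_int hw (circleIntegrable_log_norm_sub_const ρ)),
    ← circleAverage_fun_add (pk_int hw (hg.int hρ (h1.trans_lt h2)))]
  · refine circleAverage_congr_codiscreteWithin (ev_off (Set.finite_range a) hρ fun z hz hZ => ?_)
      hρ.ne'
    have n1 : ∀ i ∈ univ, ‖z - a i‖ ≠ 0 := fun i _ => by
      simpa [sub_eq_zero] using fun e => hZ ⟨i, e.symm⟩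
    simp only [he z, norm_mul, norm_prod]
    rw [log_mul (prod_ne_zero_iff.2 n1) (by simpa using h0 z (hz.le.trans h1)), log_prod n1,
      ← mul_sum]
    ring
  · exact CircleIntegrable.fun_sum _ fun i _ => pk_int hw (circleIntegrable_log_norm_sub_const ρ)

lemma av_eq {ρ₀ : ℝ} {N : ℕ} {a : Fin N → ℂ} (hg : Hol R g)
    (he : ∀ z, f z = (∏ i, (z - a i)) * g z) (h0 : ∀ z, ‖z‖ ≤ ρ₀ → g z ≠ 0) (hρ : 0 < ρ)
    (h1 : ρ ≤ ρ₀) (h2 : ρ₀ < R) : av f ρ = log ‖g 0‖ + ∑ i, log (max ρ ‖a i‖) := by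
  have := pj hg he h0 h1 h2 (w := 0) (by simpa using hρ)
  rw [circleAverage_congr_sphere (f₂ := fun z => log ‖f z‖) (fun z hz => by
    have : z ≠ 0 := by rintro rfl; simp [abs_of_pos hρ, hρ.ne] at hz
    simp [pk, herglotzRieszKernel_def, this])] at this
  rw [av, this]
  congr 1
  refine sum_congr rfl fun i _ => ?_
  rw [hh]
  split_ifs with h
  · rw [max_eq_left h]
    simp [pow_two, hρ.ne', abs_of_pos hρ]
  · rw [max_eq_right (not_le.1 h).le]; simp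

lemma av_mono (hf : Hol R f) (hn : NZ R f) {ρ' : ℝ} (h0 : 0 < ρ) (h1 : ρ ≤ ρ') (h : ρ' < R) :
    av f ρ ≤ av f ρ' := by
  obtain ⟨N, a, g, -, hg, he, hz⟩ := factor hf hn h
  rw [av_eq hg he hz h0 h1 h, av_eq hg he hz (h0.trans_le h1) le_rfl h]
  gcongr

lemma av_conv (hf : Hol R f) (hn : NZ R f) (h1 : 1 ≤ ρ) (h : ρ ^ 2 < R) :
    2 * av f ρ ≤ av f 1 + av f (ρ ^ 2) := by
  obtain ⟨N, a, g, -, hg, he, hz⟩ := factor hf hn h
  have h2 : ρ ≤ ρ ^ 2 := by nlinarith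
  rw [av_eq hg he hz (by linarith) h2 h, av_eq hg he hz one_pos (h1.trans h2) h,
    av_eq hg he hz (by linarith) le_rfl h]
  have : ∑ i, 2 * log (max ρ ‖a i‖) ≤ ∑ i, (log (max 1 ‖a i‖) + log (max (ρ ^ 2) ‖a i‖)) := by
    refine sum_le_sum fun i _ => ?_
    rw [← log_mul (by positivity) (by positivity), two_mul, ← log_mul (by positivity) (by positivity)]
    refine log_le_log (by positivity) ?_
    rcases le_total ρ ‖a i‖ with h3 | h3
    · rw [max_eq_right h3]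
      exact mul_le_mul (le_max_right _ _) (le_max_right _ _) (norm_nonneg _) (by positivity)
    · rw [max_eq_left h3, ← pow_two, ← one_mul (ρ ^ 2)]
      exact mul_le_mul (le_max_left _ _) (by rw [one_mul]; exact le_max_left _ _) (by positivity)
        (by positivity)
  rw [← mul_sum, sum_add_distrib] at this
  linarith

lemma count_le {ρ₀ ρ' : ℝ} {N : ℕ} {a : Fin N → ℂ} (hg : Hol R g)
    (he : ∀ z, f z = (∏ i, (z - a i)) * g z) (h0 : ∀ z, ‖z‖ ≤ ρ₀ → g z ≠ 0) (hρ : 0 < ρ)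
    (h1 : ρ ≤ ρ') (h2 : ρ' ≤ ρ₀) (h3 : ρ₀ < R) :
    (univ.filter fun i => ‖a i‖ ≤ ρ).card * log (ρ' / ρ) ≤ av f ρ' - av f ρ := by
  rw [av_eq hg he h0 hρ (h1.trans h2) h3, av_eq hg he h0 (hρ.trans_le h1) h2 h3,
    add_sub_add_left_eq_sub, ← sum_sub_distrib, ← nsmul_eq_mul, ← sum_const, sum_filter]
  refine sum_le_sum fun i _ => ?_
  split_ifs with h
  · rw [max_eq_left h, max_eq_left (h.trans h1), log_div (by linarith) hρ.ne']
  · rw [sub_nonneg]
    gcongr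

lemma pk_bounds {u : ℂ → ℝ} {w : ℂ} (hw : ‖w‖ < ρ) (hu : CircleIntegrable u 0 ρ) {A : ℝ}
    (hA : ∀ z, ‖z‖ = ρ → u z ≤ A) :
    circleAverage (fun z => pk w z * u z) 0 ρ ≤
      A - (ρ - ‖w‖) / (ρ + ‖w‖) * (A - circleAverage u 0 ρ) ∧
    A - (ρ + ‖w‖) / (ρ - ‖w‖) * (A - circleAverage u 0 ρ) ≤
      circleAverage (fun z => pk w z * u z) 0 ρ := by
  have hρ : 0 < ρ := (norm_nonneg _).trans_lt hw
  have hc := circleIntegrable_const A (0 : ℂ) ρ
  have e1 : circleAverage (fun z => pk w z * (A - u z)) 0 ρ =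
      A - circleAverage (fun z => pk w z * u z) 0 ρ := by
    simp only [mul_sub]
    rw [circleAverage_fun_sub (pk_int hw hc) (pk_int hw hu),
      pk_harm hw (u := fun _ => A) (fun _ _ => InnerProductSpace.harmonicAt_const _)]
  have e2 : ∀ c : ℝ, circleAverage (fun z => c * (A - u z)) 0 ρ = c * (A - circleAverage u 0 ρ) :=
    fun c => by
      have := circleAverage_fun_smul (a := c) (f := fun z => A - u z) (c := 0) (R := ρ)
      simp only [smul_eq_mul] at this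
      rw [this, circleAverage_fun_sub hc hu, circleAverage_const]
  have i1 := pk_int hw (hc.sub hu)
  have i2 : ∀ c : ℝ, CircleIntegrable (fun z => c * (A - u z)) 0 ρ := fun c =>
    (hc.sub hu).const_smul (a := c)
  constructor
  · have := avg_mono_off Set.finite_empty hρ (i2 _) i1 fun z hz _ =>
      mul_le_mul_of_nonneg_right (le_pk hw hz) (sub_nonneg.2 (hA z hz))
    simp only [Pi.sub_apply] at this
    rw [e1, e2] at this
    linarith
  · have := avg_mono_off Set.finite_empty hρ i1 (i2 _) fun z hz _ =>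
      mul_le_mul_of_nonneg_right (pk_le hw hz) (sub_nonneg.2 (hA z hz))
    simp only [Pi.sub_apply] at this
    rw [e1, e2] at this
    linarith

lemma log_fac {N : ℕ} {a : Fin N → ℂ} (he : ∀ z, f z = (∏ i, (z - a i)) * g z) {w : ℂ}
    (hw : f w ≠ 0) : (∀ i, w - a i ≠ 0) ∧ log ‖f w‖ = log ‖g w‖ + ∑ i, log ‖w - a i‖ := by
  rw [he] at hw
  have n1 := prod_ne_zero_iff.1 (left_ne_zero_of_mul hw)
  refine ⟨fun i => n1 i (mem_univ _), ?_⟩
  rw [he, norm_mul, norm_prod, log_mul (prod_ne_zero_iff.2 fun i hi => by simpa using n1 i hi)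
    (by simpa using right_ne_zero_of_mul hw), log_prod fun i hi => by simpa using n1 i hi]
  ring

lemma log_le_of {A : ℝ} {x : ℝ} (hA : 0 ≤ A) (h0 : 0 ≤ x) (h : x ≤ exp A) : log x ≤ A := by
  rcases h0.eq_or_lt with e | e
  · rw [← e]; simpa using hA
  · exact (log_le_iff_le_exp e).2 h

lemma sup_le_av (hf : Hol R f) (hn : NZ R f) (h : ρ < R) {A : ℝ} (hA0 : 0 ≤ A)
    (hA : ∀ z, ‖z‖ = ρ → ‖f z‖ ≤ exp A) {w : ℂ} (h0 : 0 < ρ) (hw : ‖w‖ ≤ ρ / 2) :
    ‖f w‖ ≤ exp (A - (A - av f ρ) / 3) := by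
  by_cases hw0 : f w = 0
  · rw [hw0, norm_zero]; positivity
  have hw' : ‖w‖ < ρ := by linarith
  obtain ⟨N, a, g, -, hg, he, hz⟩ := factor hf hn h
  rw [← log_le_iff_le_exp (norm_pos_iff.2 hw0)]
  obtain ⟨n1, e1⟩ := log_fac he hw0
  have e2 := (pk_bounds hw' (hf.int h0 h) fun z hz => log_le_of hA0 (norm_nonneg _) (hA z hz)).1
  rw [pj hg he hz le_rfl h hw'] at e2
  have e3 : ∑ i, log ‖w - a i‖ ≤ ∑ i, log (hh ρ (a i) w) :=
    sum_le_sum fun i _ => log_le_log (norm_pos_iff.2 (n1 i)) (le_hh _ hw')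
  have e4 := av_le hf hn h0 h hA
  have e5 : 1 / 3 ≤ (ρ - ‖w‖) / (ρ + ‖w‖) := by
    rw [le_div_iff₀ (by positivity)]; linarith
  have e6 := mul_le_mul_of_nonneg_right e5 (sub_nonneg.2 e4)
  unfold av at *
  linarith

lemma le_av (hf : Hol R f) (h0 : 0 < ρ) (h : ρ < R) (hw : f 0 ≠ 0) : log ‖f 0‖ ≤ av f ρ := by
  obtain ⟨N, a, g, -, hg, he, hz⟩ := factor hf ⟨0, mem_ball_self (h0.trans h), hw⟩ h
  obtain ⟨n1, e1⟩ := log_fac he hw
  rw [av_eq hg he hz h0 le_rfl h, e1]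
  gcongr with i
  · exact norm_pos_iff.2 (n1 i)
  · simp

end Pool.Agent.MP_c69980_ag.H60
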