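import Pool.Agent.MP_c69980_ag.H60.Dat

/-!
The truncated second main theorem for sequences of discs in a torus, in contradiction form.
-/

set_option autoImplicit false

namespace Pool.Agent.MP_c69980_ag.H60

open Finset Metric Real Filter Topology MvPolynomial

lemma ex_hol {N : ℕ} {α : ℕ → ℂ → Fin N → ℂ} {R : ℝ} {k : ℕ}
    (h : DifferentiableOn ℂ (α k) (ball 0 R)) (m : Fin N → ℤ) : Hol R (ex α m k) :=
  (DifferentiableOn.fun_sum fun i _ => (differentiableOn_pi.1 h i).const_mul _).cexp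

lemma norm_ex {N : ℕ} (α : ℕ → ℂ → Fin N → ℂ) (m : Fin N → ℤ) (k : ℕ) (z : ℂ) :
    ‖ex α m k z‖ = exp (∑ i, (m i : ℝ) * (α k z i).re) := by
  simp [ex, Complex.norm_exp]

lemma ex_bound {N : ℕ} (α : ℕ → ℂ → Fin N → ℂ) (m : Fin N → ℤ) (k : ℕ) (z : ℂ) :
    ‖ex α m k z‖ ≤ exp ((∑ i, |(m i : ℝ)|) * (‖α k z‖ + 1)) := by
  rw [norm_ex, exp_le_exp, sum_mul]
  refine sum_le_sum fun i _ => (le_abs_self _).trans ?_
  rw [abs_mul]
  gcongr
  linarith [Complex.abs_re_le_norm (α k z i), norm_le_pi_norm (α k z) i]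

namespace Dat

variable {N : ℕ} {k₀ : Type} [Field k₀] (d : Dat N k₀)

/-- Constants. -/
def ιV : k₀ →+* d.V :=
  ((Pi.constRingHom ℕ (ℂ → ℂ)).comp ((Pi.constRingHom ℂ ℂ).comp d.ι)).codRestrict d.V fun c =>
    ⟨d.Tc c, fun _ => differentiableOn_const _, Gr.const d.s1 _, Gr.const d.t1 _⟩

/-- Exponentials. -/
noncomputable def e (m : Fin N → ℤ) : d.V :=
  ⟨ex d.α m, d.mem_of_bound (d.Te m) (fun k => ex_hol (d.hα k) m)
    (sum_nonneg fun _ _ => abs_nonneg _) fun _ _ _ => ex_bound _ _ _ _⟩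

lemma be_hol (i : Fin N) (k : ℕ) : Hol (d.R k) (be d.α i k) :=
  (differentiableOn_pi.1 (d.hα k) i).sub_const _

lemma be_gr (i : Fin N) {u b t : ℕ → ℝ} (hb : ∀ k, 0 < b k) (h : ∀ k, u k + b k < d.R k)
    (ht : ∀ k, sc (d.α k) (u k + b k) ≤ exp (t k)) : Gr d.U u b t (be d.α i) :=
  Gr.of_le zero_le_one hb (Eventually.of_forall fun k z hz => by
    rw [one_mul]
    exact ((norm_le_pi_norm (d.α k z - d.α k 0) i).trans (le_sc (d.hα k) (h k) hz.le)).trans (ht k))

/-- Logarithmic derivatives. -/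
noncomputable def a (i : Fin N) : d.V :=
  ⟨dd d.R (be d.α i), d.Ta i, fun k => dd_hol (d.be_hol i k), d.gr_dd (d.be_hol i)
    (d.be_gr i d.σ0 (fun k => by
        obtain ⟨-, -, -, -, a, b, c, -⟩ := d.num k
        simp only [Pi.zero_apply]; linarith)
      fun k => by simpa [s] using (le_add_of_nonneg_right zero_le_one).trans (add_one_le_exp (d.s k)))
    (d.be_gr i (fun k => pow_pos (d.σ0 k) _) (fun k => by simpa using (d.num k).2.2.2.2.2.2.1)
      fun k => by simpa [t] using (le_add_of_nonneg_right zero_le_one).trans (add_one_le_exp (d.t k)))⟩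

lemma e0 : d.e 0 = 1 := by ext k z; simp [e, ex]

lemma ea (m m' : Fin N → ℤ) : d.e (m + m') = d.e m * d.e m' := by
  ext k z; simp [e, ex, add_mul, sum_add_distrib, Complex.exp_add]

lemma e_not (m : Fin N → ℤ) : d.e m ∉ d.P := fun h => d.prime.ne_top
  (Ideal.eq_top_of_isUnit_mem _ h (IsUnit.of_mul_eq_one (d.e (-m)) (by
    rw [← d.ea, add_neg_cancel, d.e0])))

/-- Evaluation at a point of a disc. -/
def evp (k : ℕ) (z : ℂ) : d.V →+* ℂ :=
  (Pi.evalRingHom _ z).comp ((Pi.evalRingHom _ k).comp d.V.subtype)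

lemma ev_apply (δ : MvPolynomial (Fin N) k₀) (k : ℕ) (z : ℂ) :
    (eval₂Hom d.ιV (fun i => d.e (Pi.single i 1)) δ).1 k z =
      eval₂Hom d.ι (fun i => Complex.exp (d.α k z i)) δ := by
  change d.evp k z _ = _
  rw [map_eval₂Hom]
  congr 2
  funext i
  change ex _ _ k z = _
  simp [ex, Pi.single_apply]

lemma pkg : Pkg d.ιV d.D d.P d.S d.e d.a where
  leib := d.leib
  prime := d.prime
  dP := d.dP
  PS := d.PS
  dk c := by
    ext k z
    change dd d.R (fun _ _ => d.ι c) k z = 0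
    simp [dd]
  kS c := d.sm_const _ (c := d.ι c) fun _ _ => rfl
  e0 := d.e0
  ea := d.ea
  de m := by
    ext k z
    change dd d.R (ex d.α m) k z = d.evp k z ((∑ i, (m i : d.V) * d.a i) * d.e m)
    simp only [map_mul, map_sum, map_intCast]
    change _ = (∑ i, (m i : ℂ) * dd d.R (be d.α i) k z) * ex d.α m k z
    by_cases h : z ∈ ball (0 : ℂ) (d.R k)
    · simp only [dd_in _ h]
      have h1 : ∀ i, HasDerivAt (fun z => d.α k z i) (deriv (be d.α i k) z) z := fun i => by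
        have := ((d.be_hol i k).differentiableAt (isOpen_ball.mem_nhds h)).hasDerivAt.add_const
          (d.α k 0 i)
        simpa [be] using this
      rw [mul_comm]
      exact (HasDerivAt.fun_sum fun i _ => (h1 i).const_mul (m i : ℂ)).cexp.deriv
    · simp [dd_out _ h]
  aS i j := by
    let ℓ : ℕ → ℝ := fun k => log (2 ^ 32 * d.τ k ^ 2)
    have q : ∀ k, exp (ℓ k) = 2 ^ 32 * d.τ k ^ 2 := fun k => exp_log (by have := d.τ1 k; positivity)
    have ℓ1 : ∀ k, 1 ≤ ℓ k := fun k => by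
      rw [← exp_le_exp, q]
      nlinarith [d.τ1 k, exp_one_lt_d9]
    have rR : ∀ k, d.r k + d.η k < d.R k := fun k => (d.num k).2.2.2.2.2.2.2.1.trans_lt (d.σ3 k).2
    have key : ∀ j, (∀ k, Hol (d.R k) ((dd d.R)^[j] (be d.α i) k)) ∧
        Gr d.U d.r d.η ℓ ((dd d.R)^[j] (be d.α i)) := by
      intro j
      induction j with
      | zero => exact ⟨d.be_hol i, d.be_gr i (fun k => (d.st k).η0) rR fun k => q k ▸ (d.st k).s2⟩
      | succ j ih =>
        rw [Function.iterate_succ_apply']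
        refine ⟨fun k => dd_hol (ih.1 k), ih.2.dd ℓ1 (fun k => (d.st k).η0) (fun k => (rR k).le)
          (fun k => ?_) ih.1⟩
        have h3 : 1 ≤ 2 ^ 11 * d.τ k * d.η k := (d.st k).s3
        rw [q]
        nlinarith [d.τ1 k, mul_le_mul_of_nonneg_left (d.τ1 k)
          (mul_nonneg (zero_le_one.trans (d.τ1 k)) (d.st k).η0.le)]
    obtain ⟨C, c0, c1⟩ := (key (j + 1)).2 0 le_rfl one_pos
    refine d.sm_of_le _ (t := ℓ) (fun ε hε => ?_) c0 (fun k => zero_le_one.trans (ℓ1 k)) ?_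
    · filter_upwards [log_small d.τtop (log (2 ^ 32)) 2 hε] with k hk
      simp only [ℓ]
      rw [log_mul (by norm_num) (by have := d.τ1 k; positivity), log_pow (d.τ k)]
      exact_mod_cast hk
    · filter_upwards [c1] with k hk z hz
      rw [D_iter]
      exact hk z (by simp [hz])
  const := d.const
  unit m g h1 g' h2 h3 h4 := by
    have := d.small_of_mul (x := d.e m) h3 h1 (by
      rw [← sub_add_cancel (g * d.e m) g']; exact add_mem (d.PS _ h4) h2)
    exact ⟨this, d.small_of_mul (d.e_not m) this (by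
      rw [← d.ea, add_neg_cancel, d.e0]; exact one_mem _)⟩
  sat m j hj h := Sm.mono h (Eventually.of_forall (d.cont _)) fun k z => by
    have : ‖(d.e (j • m)).1 k z‖ = ‖(d.e m).1 k z‖ ^ j := by
      simp only [e, norm_ex, ← exp_nat_mul, mul_sum]
      simp [mul_assoc]
    rw [this, posLog_pow]
    exact le_mul_of_one_le_left posLog_nonneg (by exact_mod_cast hj)
  gen δ h := by
    by_contra h0
    refine d.not_mem ?_ h
    filter_upwards [d.hU (d.gen δ h0)] with k hk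
    rw [← d.ev_apply] at hk
    have n := norm_pos_iff.1 ((exp_pos _).trans_le hk)
    refine ⟨⟨0, mem_ball_self (by linarith [d.R1 k]), n⟩, le_trans ?_
      (le_av ((eval₂Hom d.ιV (fun i => d.e (Pi.single i 1)) δ).2.2.1 k) one_pos (d.R1 k) n)⟩
    rw [le_log_iff_exp_le (norm_pos_iff.2 n)]
    exact (exp_le_exp.2 (by linarith [(d.num k).1, (d.hσ k).2.2.1])).trans hk

lemma span_bound (K : ℕ) (v : d.V) (hv : v ∈ AddSubmonoid.closure
    {z | ∃ s ∈ d.S, ∃ m : Fin N → ℤ, (∀ i, |m i| ≤ K) ∧ z = s * d.e m}) :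
    ∃ g, Sm d.U d.r d.τ g ∧ ∀ k z, ‖(v * d.e fun _ => K).1 k z‖ ≤
      g k z * exp (2 * K * tp (d.α k) z) := by
  induction hv using AddSubmonoid.closure_induction with
  | mem z hz =>
    obtain ⟨s, h1, m, h2, rfl⟩ := hz
    refine ⟨_, h1, fun k z => ?_⟩
    rw [mul_assoc, ← d.ea]
    refine (norm_mul _ _).le.trans (mul_le_mul_of_nonneg_left ?_ (norm_nonneg _))
    simp only [e, norm_ex, exp_le_exp, tp, mul_sum]
    refine sum_le_sum fun i _ => ?_
    have := abs_le.1 (h2 i)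
    have a1 : (0 : ℝ) ≤ ((m i + K : ℤ) : ℝ) := by exact_mod_cast (by omega : 0 ≤ m i + K)
    have a2 : ((m i + K : ℤ) : ℝ) ≤ 2 * K := by exact_mod_cast (by omega : m i + K ≤ 2 * K)
    exact (mul_le_mul_of_nonneg_left (le_max_left _ 0) a1).trans
      (mul_le_mul_of_nonneg_right a2 (le_max_right _ _))
  | zero => exact ⟨0, Sm.zero d.τtop, fun k z => by simp⟩
  | add x y _ _ hx hy =>
    obtain ⟨g, g1, g2⟩ := hx
    obtain ⟨h, h1, h2⟩ := hy
    refine ⟨g + h, g1.add d.τtop h1, fun k z => ?_⟩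
    rw [add_mul, Pi.add_apply, Pi.add_apply, add_mul]
    exact norm_add_le_of_le (g2 k z) (h2 k z)

lemma log_le_pl {x g c : ℝ} (h0 : 0 < x) (h : x ≤ g * exp c) : log x ≤ log⁺ g + c := by
  have hg : 0 < g := (mul_pos_iff_of_pos_right (exp_pos c)).1 (h0.trans_le h)
  refine (log_le_log h0 h).trans ?_
  rw [log_mul hg.ne' (exp_pos c).ne', log_exp]
  linarith [le_max_right 0 (log g), posLog_apply (x := g)]

theorem false [CharZero k₀] {F : MvPolynomial (Fin N) k₀} (hF : Prime F) {y Q : d.V}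
    (hf : ∀ k z, d.f k z = eval₂Hom d.ι (fun i => Complex.exp (d.α k z i)) F)
    (hy : ∀ k z, d.f k z = y.1 k z ^ 2 * Q.1 k z) {c₀ C : ℝ} (hc : 0 < c₀) (hC : 0 ≤ C)
    (gap : ∀ k, ∀ z ∈ ball (0 : ℂ) (d.R k), ‖Q.1 k z‖ * exp (c₀ * tp (d.α k) z) ≤
      exp (C * (d.L k + 1)) * ∑ m ∈ F.support, ‖ex d.α (toZ m) k z‖) : False := by
  set Φ := eval₂Hom d.ιV (fun i => d.e (Pi.single i 1)) F with hΦ
  have Φf : Φ.1 = d.f := by funext k z; rw [hf, hΦ, d.ev_apply]
  have Φy : Φ = y ^ 2 * Q := by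
    ext k z; rw [Φf, hy]; rfl
  have Φn : Φ ∉ d.P := fun h => hF.ne_zero (d.pkg.gen F h)
  have yn : y ∉ d.P := fun h => Φn (by
    rw [Φy, pow_two, mul_assoc]; exact Ideal.mul_mem_right _ _ h)
  obtain ⟨p1, w, w1, w2, J, p2⟩ := d.pkg.main hF Φy
  obtain ⟨M, K, m₀, x, x1, hM, hK, x2⟩ := p1 (c₀ / 16) (by positivity)
  obtain ⟨g, g1, g2⟩ := d.span_bound K _ x2
  choose! s s1 s2 using p2
  have yM : y ^ M ∉ d.P := fun h => yn (d.prime.mem_of_pow_mem _ h)
  have xn : x * d.e m₀ * d.e (fun _ => K) ∉ d.P := fun h => by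
    rcases d.prime.mem_or_mem h with h | h
    · exact (d.prime.mem_or_mem h).elim x1 (d.e_not _)
    · exact d.e_not _ h
  have lld := (d.big Φn).mono fun k hk => (d.st k).lld (Φf ▸ hk.1) (Φf ▸ hk.2)
  have G1 : Sm d.U d.r d.τ (∑ m ∈ F.support, ∑ j : Fin J, (fun k z => ‖(s m j).1 k z‖) *
      fun k z => ‖iteratedDeriv j (d.f k) z / d.f k z‖) := by
    refine Sm.sum d.τtop _ fun m hm => Sm.sum d.τtop _ fun j _ => Sm.mul d.τtop (s1 m hm j) ?_
    intro ε hε
    filter_upwards [lld, log_small d.τtop (log (3 * (j : ℕ).factorial) + j * (2 ^ 90 * (d.C + 1)))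
      (j * 7) hε] with k a b
    have hol : Hol (d.R k) (d.f k) := Φf ▸ Φ.2.2.1 k
    refine ⟨(((hol.iter j).continuousOn.mono (sph_sub (d.r0 k) (d.rR k))).div
      (hol.continuousOn.mono (sph_sub (d.r0 k) (d.rR k))) fun z hz =>
        a.1 z (by simpa [abs_of_pos (d.r0 k)] using hz)).norm, (a.2 j).trans ?_⟩
    change _ ≤ ε * d.τ k at b
    change _ + _ * (_ + _ * log (d.τ k)) ≤ _
    linarith
  set G := ∑ m ∈ F.support, ∑ j : Fin J, (fun k z => ‖(s m j).1 k z‖) *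
      fun k z => ‖iteratedDeriv j (d.f k) z / d.f k z‖ with hG
  obtain ⟨k, ⟨⟨⟨⟨a1, a2⟩, a3⟩, a4⟩, ⟨a5, a6⟩, a7⟩, a8⟩ := (((((lld.and (d.av_ge yM)).and
    (d.av_ge xn)).and (d.av_ge w2)).and (((g1 (c₀ / 16) (by positivity)).and
      (G1 (c₀ / 16) (by positivity))).and (d.av_ge yn))).and
        (d.ssmall (c₀ / 16 / (3 + 2 * c₀ + 2 * C)) (by positivity))).exists
  have r0 := d.r0 k
  have rR := d.rR k
  have it := tp_int (d.hα k) r0 rR
  have tτ : circleAverage (tp (d.α k)) 0 (d.r k) = d.τ k - (d.L k + 1) := by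
    unfold τ ta; ring
  -- first estimate
  have e1 : M * av (y.1 k) (d.r k) - d.s k ≤ c₀ / 16 * d.τ k + 2 * K * (d.τ k - (d.L k + 1)) := by
    have h1 := (y ^ M).2.2.1 k
    have h2 := (x * d.e m₀ * d.e (fun _ => K)).2.2.1 k
    have b1 := av_mul h1 h2 a2.1 a3.1 r0 rR
    have b2 : av ((y ^ M).1 k) (d.r k) = M * av (y.1 k) (d.r k) := by
      have := avg_aff ((y.2.2.1 k).int r0 rR) 0 M
      simp only [zero_add] at this
      rw [av, av, ← this]
      simp
    have b3 := avg_mono_off (zeros_fin (h1.mul h2) (a2.1.mul h1 h2 a3.1) rR) r0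
      (Hol.int (h1.mul h2) r0 rR) ((pl_int a5.1).add (int_aff it 0 (2 * K))) fun z hz hZ => by
        have := g2 k z
        rw [mul_assoc, mul_assoc, ← mul_assoc x] at this
        simpa using log_le_pl (norm_pos_iff.2 fun e => hZ ⟨hz.le, e⟩) this
    rw [circleAverage_add (pl_int a5.1) (int_aff it _ _), avg_aff it, tτ] at b3
    change av (fun z => (y ^ M).1 k z * (x * d.e m₀ * d.e (fun _ => K)).1 k z) _ ≤ _ at b3
    linarith [a3.2, a5.2]
  -- second estimate
  have e2 : -d.s k + c₀ * (d.τ k - (d.L k + 1)) ≤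
      C * (d.L k + 1) + c₀ / 16 * d.τ k + 2 * av (y.1 k) (d.r k) := by
    have h1 := w.2.2.1 k
    have h2 := y.2.2.1 k
    have b3 := avg_mono_off (zeros_fin h1 a4.1 rR) r0 ((h1.int r0 rR).add (int_aff it 0 c₀))
      ((pl_int a6.1).add (int_aff (h2.int r0 rR) (C * (d.L k + 1)) 2)) fun z hz hZ => by
        have zb : z ∈ ball (0 : ℂ) (d.R k) := mem_ball_zero_iff.2 (hz ▸ rR)
        have n1 : 0 < ‖w.1 k z‖ := norm_pos_iff.2 fun e => hZ ⟨hz.le, e⟩
        have n2 := a1.1 z hz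
        have n3 := n2
        rw [hy] at n3
        have n4 : 0 < ‖Q.1 k z‖ := norm_pos_iff.2 (right_ne_zero_of_mul n3)
        have n5 : 0 < ‖y.1 k z‖ := norm_pos_iff.2 (pow_ne_zero_iff two_ne_zero |>.1
          (left_ne_zero_of_mul n3))
        have c1 : ‖w.1 k z‖ * ∑ m ∈ F.support, ‖ex d.α (toZ m) k z‖ ≤ G k z * ‖d.f k z‖ := by
          simp only [hG, Finset.sum_apply, Pi.mul_apply, mul_sum, sum_mul]
          refine sum_le_sum fun m hm => ?_
          have := congrArg (d.evp k z) (s2 m hm)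
          simp only [map_mul, map_sum] at this
          rw [← norm_mul]
          change ‖d.evp k z w * d.evp k z (d.e (toZ m))‖ ≤ _
          rw [this]
          refine (norm_sum_le _ _).trans (le_of_eq (sum_congr rfl fun j _ => ?_))
          change ‖(s m j).1 k z * (d.D^[j] Φ).1 k z‖ = _
          rw [D_iter, dd_iter _ _ _ z zb, Φf, norm_mul, norm_div, mul_assoc,
            div_mul_cancel₀ _ (norm_ne_zero_iff.2 n2)]
        have c2 : ‖w.1 k z‖ * exp (c₀ * tp (d.α k) z) ≤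
            G k z * exp (C * (d.L k + 1) + 2 * log ‖y.1 k z‖) := by
          apply le_of_mul_le_mul_left _ n4
          rw [hy, norm_mul, norm_pow] at c1
          have c3 := mul_le_mul_of_nonneg_left (gap k z zb) n1.le
          have c4 := mul_le_mul_of_nonneg_left c1 (exp_pos (C * (d.L k + 1))).le
          rw [exp_add, two_mul, exp_add, exp_log n5]
          linarith
        have := log_le_pl (by positivity) c2
        rw [log_mul n1.ne' (exp_pos _).ne', log_exp] at this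
        simpa using this
    rw [circleAverage_add (h1.int r0 rR) (int_aff it _ _), avg_aff it, tτ,
      circleAverage_add (pl_int a6.1) (int_aff (h2.int r0 rR) _ _), avg_aff (h2.int r0 rR)] at b3
    have := a4.2
    unfold av at *
    linarith [a6.2]
  have M1 : (1 : ℝ) ≤ M := by exact_mod_cast hM
  have τ1 := d.τ1 k
  have s1 := d.s1 k
  have Ls := d.Ls k
  have L0 := (d.num k).2.2.2.1
  have K0 : (0 : ℝ) ≤ K := Nat.cast_nonneg _
  rw [div_mul_eq_mul_div, le_div_iff₀ (by positivity)] at a8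
  have e3 : av (y.1 k) (d.r k) ≤ d.s k + c₀ / 16 * d.τ k + 2 * (c₀ / 16) * d.τ k := by
    apply le_of_mul_le_mul_left _ (zero_lt_one.trans_le M1)
    have q1 := mul_le_mul_of_nonneg_right hK (zero_le_one.trans τ1)
    have q2 := mul_le_mul_of_nonneg_right M1 (show 0 ≤ d.s k + c₀ / 16 * d.τ k by positivity)
    have q3 := mul_nonneg K0 (show 0 ≤ d.L k + 1 by linarith)
    linarith
  have q4 := mul_le_mul_of_nonneg_left Ls hC
  have q5 := mul_le_mul_of_nonneg_left Ls hc.le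
  have q6 := mul_pos hc (zero_lt_one.trans_le τ1)
  linarith

end Dat

theorem core {N : ℕ} {k₀ : Type} [Field k₀] [CharZero k₀] [Countable k₀] (ι : k₀ →+* ℂ)
    {F : MvPolynomial (Fin N) k₀} (hF : Prime F) {c₀ C : ℝ} (hc : 0 < c₀) (hC : 0 ≤ C)
    (L : ℕ → ℝ) (α : ℕ → ℂ → Fin N → ℂ) (y Q : ℕ → ℂ → ℂ)
    (hα : ∀ k, DifferentiableOn ℂ (α k) (ball 0 (rad k (L k)))) (hd : ∀ k, 1 ≤ ‖deriv (α k) 0‖)
    (hL : ∀ k, ‖α k 0‖ ≤ L k) (hy : ∀ k, Hol (rad k (L k)) (y k))
    (hQ : ∀ k, Hol (rad k (L k)) (Q k))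
    (hb : ∀ k, ∀ z ∈ ball (0 : ℂ) (rad k (L k)), ‖y k z‖ ≤ exp (C * (‖α k z‖ + 1)) ∧
      ‖Q k z‖ ≤ exp (C * (‖α k z‖ + 1)))
    (he : ∀ k, ∀ z ∈ ball (0 : ℂ) (rad k (L k)),
      eval₂Hom ι (fun i => Complex.exp (α k z i)) F = y k z ^ 2 * Q k z)
    (gap : ∀ k, ∀ z ∈ ball (0 : ℂ) (rad k (L k)), ‖Q k z‖ * exp (c₀ * tp (α k) z) ≤
      exp (C * (L k + 1)) * ∑ m ∈ F.support, ‖ex α (toZ m) k z‖)
    (gen : ∀ δ : MvPolynomial (Fin N) k₀, δ ≠ 0 → ∀ᶠ k in atTop,
      exp (-L k) ≤ ‖eval₂Hom ι (fun i => Complex.exp (α k 0 i)) δ‖) : False := by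
  classical
  let R : ℕ → ℝ := fun k => rad k (L k)
  let f : ℕ → ℂ → ℂ := fun k z => eval₂Hom ι (fun i => Complex.exp (α k z i)) F
  let y' : ℕ → ℂ → ℂ := fun k z => if z ∈ ball (0 : ℂ) (R k) then y k z else 1
  let Q' : ℕ → ℂ → ℂ := fun k z => if z ∈ ball (0 : ℂ) (R k) then Q k z else f k z
  have hpt : ∀ (h : ℂ → ℂ) (R' : ℝ), ∃ ρ : ℝ, 2 ≤ ρ ∧ ρ ≤ 3 ∧ (Hol R' h → 8 < R' → ∀ A s : ℝ,
      0 ≤ A → 0 ≤ s → NZ R' h → (∀ z, ‖z‖ ≤ 8 → ‖h z‖ ≤ exp A) → -s ≤ av h 1 →
      ∀ w, ‖w‖ = ρ → exp (-(12 * (A + s) + 1)) ≤ ‖h w‖) := fun h R' => by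
    by_cases hh : Hol R' h ∧ 8 < R'
    · obtain ⟨ρ, a, b, c⟩ := minmod hh.1 hh.2
      exact ⟨ρ, a, b, fun _ _ => c⟩
    · exact ⟨2, le_rfl, by norm_num, fun a b => absurd ⟨a, b⟩ hh⟩
  choose pt hpt using hpt
  obtain ⟨T, T1, T2, T3⟩ := exists_closed
    ((Set.range fun c (_ : ℕ) (_ : ℂ) => ι c) ∪ Set.range (ex α) ∪
      (Set.range fun i => dd R (be α i)) ∪ {y', Q'})
    ((((Set.countable_range _).union (Set.countable_range _)).union (Set.countable_range _)).union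
      (Set.toFinite _).countable)
    ![fun x y => x + y, fun x y => x * y, fun x _ => -x, fun x _ => dd R x,
      fun x y k _ => x k (pt (y k) (R k)) / y k (pt (y k) (R k))]
  obtain ⟨en, hen⟩ := T1.exists_eq_range ⟨y', T2 (by simp)⟩
  choose σ σ1 σ2 σ3 σ4 σ5 using fun k => window (hα k) k le_rfl fun j => av (en j k) 1
  have fb : ∀ k, ∀ z ∈ ball (0 : ℂ) (R k), ‖f k z‖ ≤ exp (3 * C * (‖α k z‖ + 1)) := by
    intro k z hz
    simp only [f]
    rw [he k z hz, norm_mul, norm_pow, show 3 * C * (‖α k z‖ + 1) =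
      (2 : ℕ) * (C * (‖α k z‖ + 1)) + C * (‖α k z‖ + 1) by push_cast; ring, exp_add, exp_nat_mul]
    gcongr
    exacts [(hb k z hz).1, (hb k z hz).2]
  choose r η st using fun k => stage (hα k) (hd k) (hL k) (σ1 k) (σ4 k) (f := f k)
    ((((hy k).pow 2).mul (hQ k)).congr (he k)) (C := 3 * C) (by positivity) (fb k)
  let d : Dat N k₀ :=
    { ι := ι, R := R, L := L, σ := σ, r := r, η := η, α := α, U := hyperfilter ℕ, T := T, pt := pt
      C := 3 * C, f := f
      hU := Nat.hyperfilter_le_atTop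
      hα := hα, hd := hd, hL := hL
      hσ := fun k => ⟨σ1 k, σ2 k, σ3 k, σ4 k⟩
      dich := fun x hx => by
        rw [hen] at hx
        obtain ⟨j, rfl⟩ := hx
        filter_upwards [eventually_gt_atTop j] with k hk using σ5 k j hk
      st := st
      hpt := hpt
      Tadd := T3 0
      Tmul := T3 1
      Tneg := fun x hx => T3 2 x hx x hx
      Tdd := fun x hx => T3 3 x hx x hx
      Tcc := T3 4
      Tc := fun c => T2 (by simp)
      Te := fun m => T2 (by simp)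
      Ta := fun i => T2 (by simp)
      gen := gen }
  refine d.false hF (y := ⟨y', d.mem_of_bound (T2 (by simp))
      (fun k => (hy k).congr fun z hz => if_pos hz) hC fun k z hz => ?_⟩)
    (Q := ⟨Q', d.mem_of_bound (T2 (by simp))
      (fun k => (hQ k).congr fun z hz => if_pos hz) hC fun k z hz => ?_⟩)
    (fun _ _ => rfl) (fun k z => ?_) hc hC fun k z hz => ?_
  · rw [show y' k z = y k z from if_pos hz]; exact (hb k z hz).1
  · rw [show Q' k z = Q k z from if_pos hz]; exact (hb k z hz).2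
  · change f k z = y' k z ^ 2 * Q' k z
    simp only [y', Q']
    split_ifs with hz
    · exact he k z hz
    · simp
  · change ‖Q' k z‖ * _ ≤ _
    rw [show Q' k z = Q k z from if_pos hz]; exact gap k z hz

end Pool.Agent.MP_c69980_ag.H60
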