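import Pool.Agent.MP_c69980_ag.H60.Bnd
import Pool.Agent.MP_c69980_ag.H60.Core

/-!
Outside a hypersurface, the derivatives of normalised discs are locally bounded.
-/

set_option autoImplicit false

namespace Pool.Agent.MP_c69980_ag.H60

open Finset MvPolynomial Real Metric Filter Topology Matrix

variable {N : ℕ} {C : Fin N → PR N} {d : Fin N → ℕ}

/-- A holomorphic disc on which no form vanishes and the form `C o` is constant. -/
def Dsc (C : Fin N → PR N) (o : Fin N) (c : ℂ) (R : ℝ) (x : ℂ → Fin N → ℂ) : Prop :=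
  DifferentiableOn ℂ x (ball c R) ∧
    ∀ z ∈ ball c R, (∀ i, eval (x z) (C i) ≠ 0) ∧ eval (x z) (C o) = eval (x c) (C o)

/-- Normalised discs centred near `p` have bounded derivative. -/
def Good (C : Fin N → PR N) (o : Fin N) (p : Fin N → ℂ) : Prop :=
  ∃ ε M : ℝ, 0 < ε ∧ ∀ c R x, 0 < R → Dsc C o c R x → ‖x c - p‖ < ε → R * ‖deriv x c‖ ≤ M

lemma chain {x : ℂ → Fin N → ℂ} {v : Fin N → ℂ} {z : ℂ} (h : HasDerivAt x v z) (P : PR N) :
    HasDerivAt (fun z => eval (x z) P) (∑ j, eval (x z) (pderiv j P) * v j) z := by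
  induction P using MvPolynomial.induction_on with
  | C c => simpa using hasDerivAt_const z c
  | add p q hp hq => simpa [add_mul, sum_add_distrib] using hp.fun_add hq
  | mul_X p i hp =>
    have := hp.fun_mul (hasDerivAt_pi.1 h i)
    simp only [map_mul, eval_X]
    refine this.congr_deriv ?_
    simp only [Derivation.leibniz, smul_eq_mul, map_add, map_mul, add_mul, sum_add_distrib, eval_X,
      pderiv_X, mul_assoc, ← mul_sum]
    simp [Pi.single_apply, apply_ite (eval (x z)), mul_comm, add_comm]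

lemma eval_diff {x : ℂ → Fin N → ℂ} {c : ℂ} {R : ℝ} (h : DifferentiableOn ℂ x (ball c R))
    (P : PR N) : DifferentiableOn ℂ (fun z => eval (x z) P) (ball c R) := fun _ hz =>
  (chain (h.differentiableAt (isOpen_ball.mem_nhds hz)).hasDerivAt
    P).differentiableAt.differentiableWithinAt

lemma ev_aeval {k : Type} [Field k] (ι : k →+* ℂ) (x : Fin N → ℂ) (δ : MvPolynomial (Fin N) k) :
    eval₂Hom ι (fun i => eval x (C i)) δ = eval x (aeval C (map ι δ)) := by
  induction δ using MvPolynomial.induction_on with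
  | C c => simp
  | add p q hp hq => rw [map_add, map_add, map_add, map_add, hp, hq]
  | mul_X p i hp => rw [map_mul, map_mul, map_mul, map_mul, hp, map_X, aeval_X, eval₂Hom_X']

lemma local_bd {p : Fin N → ℂ} (h1 : eval p (jac C) ≠ 0) (h2 : ∀ i, eval p (C i) ≠ 0)
    (s : Finset ℕ) (g : ℕ → PR N) (h3 : ∀ j ∈ s, eval p (g j) ≠ 0) :
    ∃ ε L : ℝ, 0 < ε ∧ 0 < L ∧ ∀ y, ‖y - p‖ < ε →
      ‖fun i => Complex.log (eval y (C i))‖ ≤ L ∧ (∀ j ∈ s, exp (-L) ≤ ‖eval y (g j)‖) ∧
      ∀ v a : Fin N → ℂ, (∀ i, ∑ j, eval y (pderiv j (C i)) * v j = eval y (C i) * a i) →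
        ‖v‖ ≤ L * ‖a‖ := by
  let M : (Fin N → ℂ) → Matrix (Fin N) (Fin N) ℂ := fun y =>
    Matrix.of fun i j => eval y (pderiv j (C i))
  have hM : Continuous M := continuous_matrix fun i j => MvPolynomial.continuous_eval _
  let κ : (Fin N → ℂ) → ℝ := fun y =>
    ∑ j, ∑ i, ‖(M y).adjugate j i * eval y (C i) / eval y (jac C)‖
  let β : (Fin N → ℂ) → ℝ := fun y => κ y + ∑ i, (|log ‖eval y (C i)‖| + π) +
    ∑ j ∈ s, |log ‖eval y (g j)‖|
  have cl : ∀ P : PR N, eval p P ≠ 0 → ContinuousAt (fun y => |log ‖eval y P‖|) p := fun P hP =>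
    ((MvPolynomial.continuous_eval P).norm.continuousAt.log (norm_ne_zero_iff.2 hP)).abs
  have hβ : ContinuousAt β p := by
    refine (ContinuousAt.add ?_ ?_).add ?_
    · refine tendsto_finsetSum _ fun j _ => tendsto_finsetSum _ fun i _ => ?_
      exact (((hM.matrix_adjugate.matrix_elem j i).mul
        (MvPolynomial.continuous_eval _)).continuousAt.div
        (MvPolynomial.continuous_eval _).continuousAt h1).norm
    · exact tendsto_finsetSum _ fun i _ => (cl _ (h2 i)).add continuousAt_const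
    · exact tendsto_finsetSum _ fun j hj => cl _ (h3 j hj)
  have e1 := hβ.eventually (gt_mem_nhds (lt_add_one (β p)))
  have e2 := (MvPolynomial.continuous_eval (jac C)).continuousAt.eventually_ne h1
  have e3 : ∀ᶠ y in 𝓝 p, ∀ j ∈ s, eval y (g j) ≠ 0 := (eventually_all_finset s).2 fun j hj =>
    (MvPolynomial.continuous_eval (g j)).continuousAt.eventually_ne (h3 j hj)
  obtain ⟨ε, ε0, hε⟩ := Metric.eventually_nhds_iff.1 (e1.and (e2.and e3))
  have κ0 : ∀ y, 0 ≤ κ y := fun y => by positivity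
  have β0 : 0 ≤ β p := by have := κ0 p; positivity
  refine ⟨ε, β p + 1, ε0, by linarith, fun y hy => ?_⟩
  obtain ⟨a1, a2, a3⟩ := hε (dist_eq_norm y p ▸ hy)
  have b1 : 0 ≤ ∑ i, (|log ‖eval y (C i)‖| + π) := by positivity
  have b2 : 0 ≤ ∑ j ∈ s, |log ‖eval y (g j)‖| := by positivity
  have b3 := κ0 y
  simp only [β] at a1
  refine ⟨(pi_norm_le_iff_of_nonneg (by linarith)).2 fun i => ?_, fun j hj => ?_,
    fun v a hv => ?_⟩
  · have := single_le_sum (f := fun i => |log ‖eval y (C i)‖| + π) (fun i _ => by positivity)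
      (mem_univ i)
    have := Complex.norm_le_abs_re_add_abs_im (Complex.log (eval y (C i)))
    rw [Complex.log_re, Complex.log_im] at this
    linarith [Complex.abs_arg_le_pi (eval y (C i))]
  · have := single_le_sum (f := fun j => |log ‖eval y (g j)‖|) (fun i _ => by positivity) hj
    rw [← le_log_iff_exp_le (norm_pos_iff.2 (a3 j hj))]
    linarith [neg_abs_le (log ‖eval y (g j)‖)]
  refine (pi_norm_le_iff_of_nonneg (by positivity)).2 fun j => ?_
  have c1 : M y *ᵥ v = fun i => eval y (C i) * a i := _root_.funext hv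
  have c2 := congrFun (congrArg ((M y).adjugate *ᵥ ·) c1) j
  simp only [mulVec_mulVec, adjugate_mul, smul_mulVec, one_mulVec, Pi.smul_apply,
    smul_eq_mul] at c2
  have c3 : v j = ∑ i, (M y).adjugate j i * eval y (C i) / eval y (jac C) * a i := by
    refine mul_left_cancel₀ a2 ?_
    rw [eval_jac y] at a2 ⊢
    rw [c2, mul_sum, mulVec, dotProduct]
    exact sum_congr rfl fun i _ => by field_simp
  have c4 := single_le_sum (f := fun j => ∑ i, ‖(M y).adjugate j i * eval y (C i) /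
    eval y (jac C)‖) (fun i _ => by positivity) (mem_univ j)
  rw [c3]
  refine (norm_sum_le _ _).trans (le_trans (sum_le_sum fun i _ => (norm_mul_le _ _).trans
    (mul_le_mul_of_nonneg_left (norm_le_pi_norm a i) (norm_nonneg _))) ?_)
  rw [← sum_mul]
  exact mul_le_mul_of_nonneg_right (by simp only [κ] at *; linarith) (norm_nonneg _)

lemma not_good {o : Fin N} {p : Fin N → ℂ} (h : ¬Good C o p) {ε : ℝ} (hε : 0 < ε) (L : ℝ)
    {R : ℝ} (hR : 0 < R) : ∃ x, Dsc C o 0 R x ∧ ‖x 0 - p‖ < ε ∧ L < ‖deriv x 0‖ := by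
  simp only [Good, not_exists, not_and, not_forall, not_le] at h
  obtain ⟨c, r, x, r0, ⟨x1, x2⟩, x3, x4⟩ := h ε (L * R) hε
  let σ : ℂ → ℂ := fun w => c + (r / R : ℝ) * w
  have s0 : σ 0 = c := by simp [σ]
  have s1 : Set.MapsTo σ (ball 0 R) (ball c r) := fun w hw => by
    rw [mem_ball_iff_norm, add_sub_cancel_left, norm_mul, Complex.norm_real,
      Real.norm_of_nonneg (by positivity), div_mul_eq_mul_div, div_lt_iff₀ hR]
    exact mul_lt_mul_of_pos_left (mem_ball_zero_iff.1 hw) r0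
  have s2 : ∀ w, HasDerivAt σ (r / R : ℝ) w := fun w => by
    simpa only [mul_one, id] using ((hasDerivAt_id' w).const_mul ((r / R : ℝ) : ℂ)).const_add c
  refine ⟨x ∘ σ, ⟨x1.comp (fun w _ => (s2 w).differentiableAt.differentiableWithinAt) s1,
    fun z hz => by simpa [s0] using x2 _ (s1 hz)⟩, by simpa [s0] using x3, ?_⟩
  have := (x1.differentiableAt (isOpen_ball.mem_nhds (mem_ball_self r0))).hasDerivAt
  rw [(HasDerivAt.scomp 0 (s0 ▸ this) (s2 0)).deriv, norm_smul, Complex.norm_real,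
    Real.norm_of_nonneg (by positivity), div_mul_eq_mul_div, lt_div_iff₀ hR, s0]
  exact x4

theorem generic_good (hC : ∀ i, (C i).IsHomogeneous (d i)) (hd : ∀ i, 0 < d i)
    (hs : N < ∑ i, d i) (H : ∀ x ≠ 0, ∀ i, (∀ j ≠ i, eval x (C j) = 0) → eval x (jac C) ≠ 0)
    (o : Fin N) :
    ∃ g : PR N, g ≠ 0 ∧ ∀ p, (∀ i, eval p (C i) ≠ 0) → eval p g ≠ 0 → Good C o p := by
  classical
  obtain ⟨h0, j0, inj, Φ, J, Q, e, e', Φ1, Φ2, he, Φ3, Φ4, hJ, hQ⟩ := geom hC hd hs H
  obtain ⟨c₀, K, c0, K0, hb⟩ := bounds hC hd h0 o Φ2 he Φ3 hJ hQ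
  obtain ⟨k₀, F, hk, hF, rfl⟩ := descend Φ1
  by_contra hn
  push Not at hn
  have : Countable (MvPolynomial (Fin N) k₀) :=
    Function.Injective.countable (f := fun P => (AddMonoidAlgebra.coeff P : (Fin N →₀ ℕ) →₀ k₀))
      AddMonoidAlgebra.coeff_injective
  obtain ⟨δ, hδ⟩ := exists_surjective_nat (MvPolynomial (Fin N) k₀)
  let g : ℕ → PR N := fun j => aeval C (map k₀.subtype (δ j))
  let s : ℕ → Finset ℕ := fun k => (range (k + 1)).filter fun j => δ j ≠ 0
  have step : ∀ k, ∃ (L : ℝ) (x α : ℂ → Fin N → ℂ), Dsc C o 0 (rad k L) x ∧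
      DifferentiableOn ℂ α (ball 0 (rad k L)) ∧ 1 ≤ ‖deriv α 0‖ ∧ ‖α 0‖ ≤ L ∧ 0 < rad k L ∧
      (∀ z ∈ ball 0 (rad k L), ∀ i, Complex.exp (α z i) = eval (x z) (C i)) ∧
      ∀ j ∈ s k, exp (-L) ≤ ‖eval (x 0) (g j)‖ := fun k => by
    obtain ⟨p, p1, p2, p3⟩ := hn (jac C * ∏ j ∈ s k, g j) (mul_ne_zero j0
      (prod_ne_zero_iff.2 fun j hj => inj _ fun z => (mem_filter.1 hj).2
        (map_injective _ k₀.subtype.injective (by rw [z, map_zero]))))
    rw [map_mul, map_prod] at p2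
    obtain ⟨ε, L, ε0, L0, hL⟩ := local_bd (left_ne_zero_of_mul p2) p1 (s k) g
      (prod_ne_zero_iff.1 (right_ne_zero_of_mul p2))
    have R0 : 0 < rad k L := by unfold rad; positivity
    obtain ⟨x, x1, x2, x3⟩ := not_good p3 ε0 L R0
    obtain ⟨a1, a2, a3⟩ := hL _ x2
    choose h h1 h2 h3 using fun i => exists_log R0 (eval_diff x1.1 (C i)) fun z hz => (x1.2 z hz).1 i
    let α : ℂ → Fin N → ℂ := fun z i => Complex.log (eval (x 0) (C i)) + h i z
    have m0 := mem_ball_self (x := (0 : ℂ)) R0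
    have n0 := isOpen_ball.mem_nhds m0
    have α1 : DifferentiableOn ℂ α (ball 0 (rad k L)) :=
      differentiableOn_pi.2 fun i => (h1 i).const_add _
    have α2 : ∀ z ∈ ball 0 (rad k L), ∀ i, Complex.exp (α z i) = eval (x z) (C i) :=
      fun z hz i => by rw [h3 i z hz, Complex.exp_add, Complex.exp_log ((x1.2 0 m0).1 i)]
    refine ⟨L, x, α, x1, α1, ?_, by simpa [α, h2] using a1, R0, α2, a2⟩
    have := a3 (deriv x 0) (deriv α 0) fun i => by
      have b1 := chain (x1.1.differentiableAt n0).hasDerivAt (C i)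
      have b2 := (hasDerivAt_pi.1 (α1.differentiableAt n0).hasDerivAt i).cexp
      rw [α2 0 m0] at b2
      exact b1.unique (b2.congr_of_eventuallyEq (mem_of_superset n0 fun z hz => (α2 z hz i).symm))
    nlinarith
  choose L x α x1 α1 α2 α3 R0 α4 α5 using step
  have ev : ∀ k, ∀ z ∈ ball (0 : ℂ) (rad k (L k)), ∀ P, eval₂Hom k₀.subtype
      (fun i => Complex.exp (α k z i)) P = eval (x k z) (aeval C (map k₀.subtype P)) :=
    fun k z hz P => by rw [← ev_aeval, _root_.funext (α4 k z hz)]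
  refine core k₀.subtype hF c0 K0 L α (fun k z => eval (x k z) J) (fun k z => eval (x k z) Q) α1 α2
    α3 (fun k => eval_diff (x1 k).1 J) (fun k => eval_diff (x1 k).1 Q)
    (fun k z hz => (hb _ _ (α4 k z hz)).1) (fun k z hz => by rw [ev k z hz, Φ4]; simp)
    (fun k z hz => ?_) fun P hP => ?_
  · have m0 := mem_ball_self (x := (0 : ℂ)) (R0 k)
    have := (hb _ _ (α4 k z hz)).2 (L k) ((norm_nonneg _).trans (α3 k)) (by
      have b1 : (α k z o).re = (α k 0 o).re := by
        rw [← exp_eq_exp, ← Complex.norm_exp, ← Complex.norm_exp, α4 k z hz, α4 k 0 m0,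
          ((x1 k).2 z hz).2]
      have b2 := (Complex.abs_re_le_norm (α k 0 o)).trans ((norm_le_pi_norm _ o).trans (α3 k))
      linarith [neg_abs_le (α k 0 o).re])
    rwa [support_map_of_injective _ k₀.subtype.injective] at this
  · obtain ⟨j, rfl⟩ := hδ P
    filter_upwards [eventually_ge_atTop j] with k hk
    rw [ev k 0 (mem_ball_self (R0 k))]
    exact α5 k j (mem_filter.2 ⟨mem_range.2 (by omega), hP⟩)

end Pool.Agent.MP_c69980_ag.H60
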