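import Pool.Agent.MP_c69980_ag.H60.Defs
import Pool.Agent.MP_c69980_ag.H60.Good

/-!
Global lifts of holomorphic discs in projective space.
-/

set_option autoImplicit false

namespace Pool.Agent.MP_c69980_ag.H60

open Finset MvPolynomial Real Metric Filter Topology

variable {N : ℕ} {C : Fin N → PR N} {d : Fin N → ℕ}

/-- The affine chart where the coordinate `j` is one. -/
noncomputable def nrm (j : Fin N) (x : Fin N → ℂ) : Fin N → ℂ := (x j)⁻¹ • x

lemma nrm_smul (j : Fin N) {t : ℂ} (ht : t ≠ 0) (x : Fin N → ℂ) : nrm j (t • x) = nrm j x := by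
  rw [nrm, nrm, smul_smul, Pi.smul_apply, smul_eq_mul, mul_inv, mul_right_comm,
    inv_mul_cancel₀ ht, one_mul]

lemma rep_mk {x : Fin N → ℂ} (h : x ≠ 0) :
    ∃ t : ℂ, t ≠ 0 ∧ (Projectivization.mk ℂ x h).rep = t • x := by
  obtain ⟨a, ha⟩ := Projectivization.exists_smul_eq_mk_rep ℂ x h
  exact ⟨a, a.ne_zero, ha.symm⟩

lemma nrm_mk (j : Fin N) {x : Fin N → ℂ} (h : x ≠ 0) :
    nrm j (Projectivization.mk ℂ x h).rep = nrm j x := by
  obtain ⟨t, t0, ht⟩ := rep_mk h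
  rw [ht, nrm_smul j t0]

lemma eval_mk {P : PR N} {e : ℕ} (hP : P.IsHomogeneous e) {x : Fin N → ℂ} (h : x ≠ 0) :
    eval (Projectivization.mk ℂ x h).rep P = 0 ↔ eval x P = 0 := by
  obtain ⟨t, t0, ht⟩ := rep_mk h
  simp [ht, eval_smul_hom hP, t0]

lemma lift {f : ℂ → PS N} (hf : Holo (ball 0 1) f) :
    ∃ G : ℂ → Fin N → ℂ, DifferentiableOn ℂ G (ball 0 (3 / 4)) ∧
      ∀ z ∈ ball (0 : ℂ) (3 / 4), ∃ h : G z ≠ 0, f z = Projectivization.mk ℂ (G z) h := by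
  obtain ⟨i, hi⟩ := Function.ne_iff.1 (f 0).rep_nonzero
  let v : ℂ → Fin N → ℂ := fun z => nrm i (f z).rep
  let U := closedBall (0 : ℂ) (3 / 4)
  have hU : U ⊆ ball 0 1 := closedBall_subset_ball (by norm_num)
  have loc : ∀ t ∈ U, ∃ g : ℂ → Fin N → ℂ, AnalyticAt ℂ g t ∧ (∃ h : g t ≠ 0,
      f t = Projectivization.mk ℂ (g t) h) ∧ ∀ᶠ s in 𝓝 t, v s = (g s i)⁻¹ • g s := fun t ht => by
    obtain ⟨g, g1, g2⟩ := hf t (hU ht)
    refine ⟨g, g1, g2.self_of_nhds, g2.mono fun s hs => ?_⟩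
    obtain ⟨h, hs⟩ := hs
    simp only [v, hs, nrm_mk]
    rfl
  have mer : MeromorphicOn v U := fun t ht => by
    obtain ⟨g, g1, -, g2⟩ := loc t ht
    exact (((analyticAt_pi_iff.1 g1 i).meromorphicAt.inv).smul g1.meromorphicAt).congr
      (eventually_nhdsWithin_of_eventually_nhds (g2.mono fun s hs => hs.symm))
  have m0 : (0 : ℂ) ∈ U := mem_closedBall_self (by norm_num)
  have ord : ∀ u : U, meromorphicOrderAt v u ≠ ⊤ := by
    refine (mer.exists_meromorphicOrderAt_ne_top_iff_forall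
      ⟨⟨0, m0⟩, (convex_closedBall _ _).isPreconnected⟩).1 ⟨⟨0, m0⟩, ?_⟩
    rw [meromorphicOrderAt_ne_top_iff_eventually_ne_zero (mer 0 m0)]
    obtain ⟨g, g1, ⟨h, g3⟩, g2⟩ := loc 0 m0
    have g0 : g 0 i ≠ 0 := fun z => by
      obtain ⟨t, -, ht⟩ := rep_mk h
      exact hi (by simp [g3, ht, z])
    refine eventually_nhdsWithin_of_eventually_nhds ?_
    filter_upwards [g2, (analyticAt_pi_iff.1 g1 i).continuousAt.eventually_ne g0] with s h1 h2 h3
    have := congrFun (h1.symm.trans h3) i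
    simp [h2] at this
  obtain ⟨G, G1, G2, G3⟩ := mer.extract_zeros_poles ord
    ((MeromorphicOn.divisor v U).finiteSupport (isCompact_closedBall _ _))
  refine ⟨G, G1.differentiableOn.mono ball_subset_closedBall, fun z hz => ?_⟩
  have hz' : z ∈ U := ball_subset_closedBall hz
  obtain ⟨g, g1, ⟨h, g3⟩, g2⟩ := loc z hz'
  have G0 : G z ≠ 0 := G2 ⟨z, hz'⟩
  obtain ⟨b, hb⟩ := Function.ne_iff.1 G0
  refine ⟨G0, g3.trans ((Projectivization.mk_eq_mk_iff' _ _ _ _ _).2 ⟨g z b / G z b, ?_⟩)⟩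
  ext a
  have c1 : ∀ a, ContinuousAt (fun s => g s a) z := fun a => (analyticAt_pi_iff.1 g1 a).continuousAt
  have c2 : ∀ a, ContinuousAt (fun s => G s a) z := fun a =>
    (analyticAt_pi_iff.1 (G1 z hz') a).continuousAt
  have e : (fun s => g s b * G s a) =ᶠ[𝓝[≠] z] fun s => g s a * G s b := by
    filter_upwards [mem_codiscreteWithin_iff_forall_mem_nhdsNE.1 G3 z hz',
      (meromorphicOrderAt_ne_top_iff_eventually_ne_zero (mer z hz')).1 (ord ⟨z, hz'⟩),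
      eventually_nhdsWithin_of_eventually_nhds g2, mem_nhdsWithin_of_mem_nhds
        (mem_of_superset (isOpen_ball.mem_nhds hz) ball_subset_closedBall)] with s h1 h2 h3 h4
    have h5 := h3.symm.trans (h1.resolve_right fun q => q h4)
    have h6 : (g s i)⁻¹ ≠ 0 := fun q => h2 (by rw [h3, q, zero_smul])
    have h7 := congrFun h5 a
    have h8 := congrFun h5 b
    simp only [Pi.smul_apply, Pi.smul_apply', smul_eq_mul] at h7 h8
    refine mul_left_cancel₀ h6 ?_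
    rw [← mul_assoc, ← mul_assoc, h7, h8]
    ring
  have := tendsto_nhds_unique_of_eventuallyEq (((c1 b).mul (c2 a)).mono_left nhdsWithin_le_nhds)
    (((c1 a).mul (c2 b)).mono_left nhdsWithin_le_nhds) e
  have hb' : G z b ≠ 0 := hb
  simp only [Pi.smul_apply, smul_eq_mul, Pi.mul_apply] at this ⊢
  field_simp
  linear_combination this

lemma lift_dsc (hC : ∀ i, (C i).IsHomogeneous (d i)) (hd : ∀ i, 0 < d i) (o : Fin N)
    {f : ℂ → PS N} (hf : Holo (ball 0 1) f)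
    (hU : ∀ z ∈ ball (0 : ℂ) 1, ∀ i, eval (f z).rep (C i) ≠ 0) :
    ∃ X, Dsc C o 0 (3 / 4) X ∧ ∀ z ∈ ball (0 : ℂ) (3 / 4), ∀ j, nrm j (f z).rep = nrm j (X z) := by
  obtain ⟨G, G1, G2⟩ := lift hf
  have G3 : ∀ z ∈ ball (0 : ℂ) (3 / 4), ∀ i, eval (G z) (C i) ≠ 0 := fun z hz i => by
    obtain ⟨h, e⟩ := G2 z hz
    have := hU z (ball_subset_ball (by norm_num) hz) i
    rwa [e, Ne, eval_mk (hC i)] at this
  obtain ⟨h, h1, h2, h3⟩ := exists_log (by norm_num) (eval_diff G1 (C o)) fun z hz => G3 z hz o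
  refine ⟨fun z => Complex.exp (-h z / d o) • G z, ⟨((h1.neg.div_const _).cexp).smul G1,
    fun z hz => ⟨fun i => ?_, ?_⟩⟩, fun z hz j => ?_⟩
  · rw [eval_smul_hom (hC i)]
    exact mul_ne_zero (pow_ne_zero _ (Complex.exp_ne_zero _)) (G3 z hz i)
  · have : (d o : ℂ) ≠ 0 := Nat.cast_ne_zero.2 (hd o).ne'
    simp only [eval_smul_hom (hC o), ← Complex.exp_nat_mul, mul_div_cancel₀ _ this, h2, h3 z hz]
    rw [mul_left_comm, ← Complex.exp_add]
    simp
  · obtain ⟨h, e⟩ := G2 z hz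
    rw [e, nrm_mk, nrm_smul j (Complex.exp_ne_zero _)]

end Pool.Agent.MP_c69980_ag.H60
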