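import Pool.Agent.MP_c69980_ag.H60.Core

/-!
Orders of vanishing, removable singularities and the comparison of circle means.
-/

set_option autoImplicit false

namespace Pool.Agent.MP_c69980_ag.H60

open Finset Metric Real Filter Topology

variable {R : ℝ} {f g : ℂ → ℂ} {z : ℂ}

lemma Hol.at (hf : Hol R f) (hz : z ∈ ball (0 : ℂ) R) : AnalyticAt ℂ f z := hf.an z hz

lemma NZ.ev (hf : Hol R f) (hn : NZ R f) (hz : z ∈ ball (0 : ℂ) R) : ∀ᶠ w in 𝓝[≠] z, f w ≠ 0 := by
  refine (hf.at hz).eventually_eq_zero_or_eventually_ne_zero.resolve_left fun e => ?_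
  obtain ⟨x, hx, h0⟩ := hn
  exact h0 (hf.an.eqOn_zero_of_preconnected_of_eventuallyEq_zero (convex_ball 0 R).isPreconnected
    hz e hx)

lemma ord_nat (hf : Hol R f) (hn : NZ R f) (hz : z ∈ ball (0 : ℂ) R) :
    ∃ o : ℕ, meromorphicOrderAt f z = (o : ℤ) := by
  have h1 := (meromorphicOrderAt_ne_top_iff_eventually_ne_zero (hf.at hz).meromorphicAt).2
    (hn.ev hf hz)
  have h2 := (hf.at hz).meromorphicOrderAt_nonneg
  lift meromorphicOrderAt f z to ℤ using h1 with o
  exact ⟨o.toNat, by rw [Int.toNat_of_nonneg (by exact_mod_cast h2)]⟩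

lemma eq_of_ev (hf : ContinuousAt f z) (hg : ContinuousAt g z) (h : f =ᶠ[𝓝[≠] z] g) : f z = g z :=
  tendsto_nhds_unique_of_eventuallyEq (hf.mono_left nhdsWithin_le_nhds)
    (hg.mono_left nhdsWithin_le_nhds) h

lemma hol_ext (hf : MeromorphicOn f (ball 0 R))
    (h : ∀ z ∈ ball (0 : ℂ) R, 0 ≤ meromorphicOrderAt f z) :
    ∃ q, Hol R q ∧ ∀ z ∈ ball (0 : ℂ) R, q =ᶠ[𝓝[≠] z] f := by
  refine ⟨toMeromorphicNFOn f (ball 0 R), fun z hz => ?_,
    fun z hz => hf.toMeromorphicNFOn_eq_self_on_nhdsNE hz⟩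
  refine (((meromorphicNFOn_toMeromorphicNFOn f _ hz).meromorphicOrderAt_nonneg_iff_analyticAt).1
    ?_).differentiableAt.differentiableWithinAt
  rw [meromorphicOrderAt_congr (hf.toMeromorphicNFOn_eq_self_on_nhdsNE hz)]
  exact h z hz

lemma hol_div (hf : Hol R f) (hg : Hol R g) (hn : NZ R f)
    (h : ∀ z ∈ ball (0 : ℂ) R, meromorphicOrderAt f z ≤ meromorphicOrderAt g z) :
    ∃ q, Hol R q ∧ ∀ z ∈ ball (0 : ℂ) R, g z = f z * q z := by
  obtain ⟨q, q1, q2⟩ := hol_ext (f := g / f) (hg.an.meromorphicOn.div hf.an.meromorphicOn)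
    fun z hz => by
      obtain ⟨o, ho⟩ := ord_nat hf hn hz
      have := h z hz
      rw [meromorphicOrderAt_div (hg.at hz).meromorphicAt (hf.at hz).meromorphicAt, ho]
      rw [ho] at this
      cases e : meromorphicOrderAt g z with
      | top => simp
      | coe m =>
        rw [e] at this
        norm_cast at this ⊢
        omega
  refine ⟨q, q1, fun z hz => eq_of_ev (g := fun w => f w * q w) (hg.at hz).continuousAt
    ((hf.at hz).continuousAt.mul (q1.at hz).continuousAt) ?_⟩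
  filter_upwards [q2 z hz, hn.ev hf hz] with w h1 h2
  rw [h1, Pi.div_apply, mul_div_cancel₀ _ h2]

lemma av_cmp (hf : Hol R f) (hg : Hol R g) (hn : NZ R f) (hn' : NZ R g)
    (h : ∀ z ∈ ball (0 : ℂ) R, meromorphicOrderAt f z ≤ meromorphicOrderAt g z) {r : ℝ}
    (h1 : 1 ≤ r) (hr : r < R) : av f r - av f 1 ≤ av g r - av g 1 := by
  obtain ⟨q, q1, q2⟩ := hol_div hf hg hn h
  have nq : NZ R q := by
    obtain ⟨x, hx, h0⟩ := hn'
    exact ⟨x, hx, fun e => h0 (by rw [q2 x hx, e, mul_zero])⟩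
  have key : ∀ ρ, 0 < ρ → ρ < R → av g ρ = av f ρ + av q ρ := fun ρ a b => by
    rw [← av_mul hf q1 hn nq a b]
    exact circleAverage_congr_sphere fun z hz => by simp only [q2 z (sph_sub a b hz)]
  rw [key r (by linarith) hr, key 1 one_pos (by linarith)]
  linarith [av_mono q1 nq one_pos h1 hr]

lemma av_pow (hf : Hol R f) (n : ℕ) {ρ : ℝ} (h0 : 0 < ρ) (h : ρ < R) :
    av (f ^ n) ρ = n * av f ρ := by
  have := avg_aff (hf.int h0 h) 0 n
  simp only [zero_add] at this
  rw [av, av, ← this]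
  simp

lemma NZ.pow (hn : NZ R f) (n : ℕ) : NZ R (f ^ n) := by
  obtain ⟨x, hx, h0⟩ := hn
  exact ⟨x, hx, pow_ne_zero n h0⟩

/-- The ring of functions holomorphic on a disc. -/
def HR (R : ℝ) : Subring (ℂ → ℂ) where
  carrier := {f | Hol R f}
  mul_mem' := fun a b => DifferentiableOn.mul a b
  one_mem' := differentiableOn_const _
  add_mem' := fun a b => DifferentiableOn.add a b
  zero_mem' := differentiableOn_const _
  neg_mem' := fun a => DifferentiableOn.neg a

/-- Its derivation. -/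
noncomputable def DH (R : ℝ) : HR R →+ HR R where
  toFun x := ⟨dd (fun _ => R) (fun _ => x) 0, dd_hol (R := fun _ => R) x.2⟩
  map_zero' := by ext z; simp [dd]
  map_add' x y := by
    ext z
    by_cases h : z ∈ ball (0 : ℂ) R
    · simp only [Subring.coe_add, Pi.add_apply, dd_in (R := fun _ => R) _ h]
      exact deriv_add (Hol.at x.2 h).differentiableAt (Hol.at y.2 h).differentiableAt
    · simp [dd_out (R := fun _ => R) _ h]

lemma DH_leib (R : ℝ) : Leib (DH R) := by
  intro x y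
  ext z
  change dd (fun _ => R) (fun _ => x.1 * y.1) 0 z = dd (fun _ => R) (fun _ => x.1) 0 z * y.1 z +
    x.1 z * dd (fun _ => R) (fun _ => y.1) 0 z
  by_cases h : z ∈ ball (0 : ℂ) R
  · simp only [dd_in (R := fun _ => R) _ h]
    exact deriv_mul (Hol.at x.2 h).differentiableAt (Hol.at y.2 h).differentiableAt
  · simp [dd_out (R := fun _ => R) _ h]

lemma ord_lin (z : ℂ) (n : ℕ) : meromorphicOrderAt ((fun w => w - z) ^ n) z = (n : ℤ) := by
  rw [meromorphicOrderAt_eq_int_iff (by fun_prop)]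
  exact ⟨1, analyticAt_const, one_ne_zero, by simp⟩

lemma ord_wr (f : HR R) {M o : ℕ} (p q : Fin M → HR R) (hz : z ∈ ball (0 : ℂ) R)
    (h : meromorphicOrderAt f.1 z = ((o + 1 : ℕ) : ℤ)) : ((o * M : ℕ) : ℤ) ≤ meromorphicOrderAt
      (Matrix.of fun (j i : Fin M) => (DH R)^[j] (p i * f + q i * DH R f)).det.1 z := by
  classical
  let y : HR R := ⟨fun w => w - z, differentiableOn_id.sub_const z⟩
  obtain ⟨g, g1, g2⟩ := hol_div (f := (y ^ (o + 1)).1) (y ^ (o + 1)).2 f.2
    (by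
      obtain ⟨w, h1, h2⟩ := (Eventually.and (f := 𝓝[≠] z) (mem_nhdsWithin_of_mem_nhds
        (isOpen_ball.mem_nhds hz)) self_mem_nhdsWithin).exists
      exact ⟨w, h1, pow_ne_zero _ (sub_ne_zero.2 h2)⟩)
    fun w hw => by
      by_cases e : w = z
      · rw [e, h]; exact (ord_lin z _).le
      · refine le_of_eq_of_le ?_ (Hol.at f.2 hw).meromorphicOrderAt_nonneg
        exact (Hol.at (y ^ (o + 1)).2 hw).meromorphicNFAt.meromorphicOrderAt_eq_zero_iff.2
          (pow_ne_zero _ (sub_ne_zero.2 e))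
  let g' : HR R := ⟨fun w => if w ∈ ball (0 : ℂ) R then g w else f.1 w / (w - z) ^ (o + 1),
    DifferentiableOn.congr g1 fun w hw => if_pos hw⟩
  have e1 : f = y ^ (o + 1) * g' := by
    ext w
    change _ = (w - z) ^ (o + 1) * ite _ _ _
    split_ifs with hw
    · exact g2 w hw
    · rw [mul_div_cancel₀ _ (pow_ne_zero _ (sub_ne_zero.2 fun e : w = z => hw (e ▸ hz)))]
  have e2 : ∀ n : ℕ, DH R (y ^ (n + 1)) = y ^ n * ((n + 1 : ℕ) * DH R y) := fun n => by
    induction n with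
    | zero => simp
    | succ n ih => rw [pow_succ, DH_leib, ih]; push_cast; ring
  have e3 : ∀ i, p i * f + q i * DH R f =
      y ^ o * (p i * y * g' + q i * ((o + 1 : ℕ) * DH R y * g' + y * DH R g')) := fun i => by
    conv_lhs => rw [e1, DH_leib, e2]
    ring
  simp only [e3]
  rw [(DH_leib R).det_mul, ← pow_mul, Subring.coe_mul, meromorphicOrderAt_mul
    (Hol.at (y ^ (o * M)).2 hz).meromorphicAt (Hol.at (Subtype.prop _) hz).meromorphicAt]
  exact le_add_of_le_of_nonneg (ord_lin z _).ge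
    (Hol.at (Subtype.prop _) hz).meromorphicOrderAt_nonneg

end Pool.Agent.MP_c69980_ag.H60
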