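import Pool.Agent.MP_c69980_ag.H60.Alg
import Pool.Agent.MP_c69980_ag.H60.Ord

/-!
Values of rational functions along holomorphic discs.
-/

set_option autoImplicit false

namespace Pool.Agent.MP_c69980_ag.H60

open Finset MvPolynomial Metric Filter Topology

variable {n k : ℕ} {K : Type} [Field K] [Algebra ℂ K] {z : Fin n → K} {y : Fin n → ℂ} {g g' : K}

/-- `y` is a specialisation of `z`. -/
def On (z : Fin n → K) (y : Fin n → ℂ) : Prop :=
  ∀ (G : PR n) (d : ℕ), G.IsHomogeneous d → aeval z G = 0 → eval y G = 0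

/-- `g` is regular at `y`. -/
def Reg (z : Fin n → K) (y : Fin n → ℂ) (g : K) : Prop :=
  ∃ (F G : PR n) (d : ℕ), F.IsHomogeneous d ∧ G.IsHomogeneous d ∧ eval y G ≠ 0 ∧
    g = aeval z F / aeval z G

open Classical in
/-- The value of `g` at `y`. -/
noncomputable def vl (z : Fin n → K) (g : K) (y : Fin n → ℂ) : ℂ :=
  if h : Reg z y g then eval y h.choose / eval y h.choose_spec.choose else 0

lemma vl_eq (hy : On z y) {F G : PR n} {d : ℕ} (hF : F.IsHomogeneous d) (hG : G.IsHomogeneous d)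
    (h : eval y G ≠ 0) : vl z (aeval z F / aeval z G) y = eval y F / eval y G := by
  have h1 : Reg z y (aeval z F / aeval z G) := ⟨F, G, d, hF, hG, h, rfl⟩
  rw [vl, dif_pos h1]
  obtain ⟨e, a1, a2, a3, a4⟩ := h1.choose_spec.choose_spec
  rw [div_eq_div_iff (fun q => h (hy _ _ hG q)) (fun q => a3 (hy _ _ a2 q))] at a4
  have := hy _ _ ((hF.mul a2).sub (add_comm d e ▸ a1.mul hG)) (by
    rw [map_sub, map_mul, map_mul, a4, sub_self])
  rw [map_sub, map_mul, map_mul, sub_eq_zero] at this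
  rw [div_eq_div_iff a3 h, this]

lemma vl_const (hy : On z y) (c : ℂ) :
    Reg z y (algebraMap ℂ K c) ∧ vl z (algebraMap ℂ K c) y = c :=
  ⟨⟨C c, 1, 0, isHomogeneous_C _ _, isHomogeneous_one _ _, by simp, by simp⟩, by
    simpa using vl_eq hy (isHomogeneous_C _ c) (isHomogeneous_one _ _) (by simp)⟩

lemma vl_add (hy : On z y) (h : Reg z y g) (h' : Reg z y g') :
    Reg z y (g + g') ∧ vl z (g + g') y = vl z g y + vl z g' y := by
  obtain ⟨F, G, d, hF, hG, hx, rfl⟩ := h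
  obtain ⟨F', G', d', hF', hG', hx', rfl⟩ := h'
  have e : aeval z F / aeval z G + aeval z F' / aeval z G' =
      aeval z (F * G' + G * F') / aeval z (G * G') := by
    rw [div_add_div _ _ (fun h => hx (hy G d hG h)) (fun h => hx' (hy G' d' hG' h))]
    simp
  have h0 : eval y (G * G') ≠ 0 := by simp [hx, hx']
  refine ⟨⟨_, _, _, (hF.mul hG').add (hG.mul hF'), hG.mul hG', h0, e⟩, ?_⟩
  rw [e, vl_eq hy ((hF.mul hG').add (hG.mul hF')) (hG.mul hG') h0, vl_eq hy hF hG hx,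
    vl_eq hy hF' hG' hx', div_add_div _ _ hx hx']
  simp

lemma vl_mul (hy : On z y) (h : Reg z y g) (h' : Reg z y g') :
    Reg z y (g * g') ∧ vl z (g * g') y = vl z g y * vl z g' y := by
  obtain ⟨F, G, d, hF, hG, hx, rfl⟩ := h
  obtain ⟨F', G', d', hF', hG', hx', rfl⟩ := h'
  have e : aeval z F / aeval z G * (aeval z F' / aeval z G') =
      aeval z (F * F') / aeval z (G * G') := by
    rw [div_mul_div_comm]; simp
  have h0 : eval y (G * G') ≠ 0 := by simp [hx, hx']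
  refine ⟨⟨_, _, _, hF.mul hF', hG.mul hG', h0, e⟩, ?_⟩
  rw [e, vl_eq hy (hF.mul hF') (hG.mul hG') h0, vl_eq hy hF hG hx, vl_eq hy hF' hG' hx',
    div_mul_div_comm]
  simp

/-- The local ring at `y`. -/
def rg (hy : On z y) : Subalgebra ℂ K where
  carrier := {g | Reg z y g}
  mul_mem' := fun a b => (vl_mul hy a b).1
  add_mem' := fun a b => (vl_add hy a b).1
  algebraMap_mem' := fun c => (vl_const hy c).1

/-- Evaluation at `y`. -/
noncomputable def chi (hy : On z y) : rg hy →ₐ[ℂ] ℂ where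
  toFun g := vl z g y
  map_one' := by simpa using (vl_const hy 1).2
  map_mul' a b := (vl_mul hy a.2 b.2).2
  map_zero' := by simpa using (vl_const hy 0).2
  map_add' a b := (vl_add hy a.2 b.2).2
  commutes' c := (vl_const hy c).2

lemma vl_aeval (hy : On z y) {ι : Type} {u : ι → K} (hu : ∀ i, Reg z y (u i))
    (P : MvPolynomial ι ℂ) :
    Reg z y (aeval u P) ∧ vl z (aeval u P) y = eval (fun i => vl z (u i) y) P := by
  have e : (aeval (fun i => (⟨u i, hu i⟩ : rg hy)) P : rg hy) = aeval u P :=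
    comp_aeval_apply _ (rg hy).val P
  rw [← e]
  exact ⟨Subtype.prop (p := (· ∈ rg hy)) _, comp_aeval_apply _ (chi hy) P⟩

variable {U : Set (PS n)}

lemma quot (hz : GenPt U z) (g : K) : ∃ (F G : PR n) (d : ℕ), F.IsHomogeneous d ∧
    G.IsHomogeneous d ∧ aeval z G ≠ 0 ∧ g = aeval z F / aeval z G := by
  have hg : g ∈ IntermediateField.adjoin ℂ {u | ∃ i j, u = z i / z j} := hz.2 ▸ trivial
  have h0 : ∃ (F G : PR n) (d : ℕ), F.IsHomogeneous d ∧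
      G.IsHomogeneous d ∧ aeval z G ≠ 0 ∧ 0 = aeval z F / aeval z G :=
    ⟨0, 1, 0, isHomogeneous_zero _ _ _, isHomogeneous_one _ _, by simp, by simp⟩
  induction hg using IntermediateField.adjoin_induction with
  | mem x hx =>
    obtain ⟨i, j, rfl⟩ := hx
    by_cases h : z j = 0
    · rwa [h, div_zero]
    · exact ⟨X i, X j, 1, isHomogeneous_X _ _, isHomogeneous_X _ _, by simpa, by simp⟩
  | algebraMap c => exact ⟨C c, 1, 0, isHomogeneous_C _ _, isHomogeneous_one _ _, by simp, by simp⟩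
  | add a b _ _ ha hb =>
    obtain ⟨F, G, d, hF, hG, hx, rfl⟩ := ha
    obtain ⟨F', G', d', hF', hG', hx', rfl⟩ := hb
    exact ⟨_, _, _, (hF.mul hG').add (hG.mul hF'), hG.mul hG', by simp [hx, hx'], by
      rw [div_add_div _ _ hx hx']; simp⟩
  | inv a _ ha =>
    obtain ⟨F, G, d, hF, hG, hx, rfl⟩ := ha
    by_cases h : aeval z F = 0
    · rwa [h, zero_div, inv_zero]
    · exact ⟨G, F, d, hG, hF, h, inv_div _ _⟩
  | mul a b _ _ ha hb =>
    obtain ⟨F, G, d, hF, hG, hx, rfl⟩ := ha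
    obtain ⟨F', G', d', hF', hG', hx', rfl⟩ := hb
    exact ⟨_, _, _, hF.mul hF', hG.mul hG', by simp [hx, hx'], by rw [div_mul_div_comm]; simp⟩

/-- The cone over `U`. -/
def Cone (U : Set (PS n)) : Set (Fin n → ℂ) := {y | ∃ h : y ≠ 0, Projectivization.mk ℂ y h ∈ U}

lemma Cone.on (hz : GenPt U z) (hy : y ∈ Cone U) : On z y := fun G d hG h =>
  (eval_mk hG hy.1).1 ((hz.1 G d hG).1 h _ hy.2)

lemma Cone.reg (hz : GenPt U z) (hy : y ∈ Cone U) (h : ∀ x ∈ U, g ∈ locRing z x) : Reg z y g := by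
  obtain ⟨F, G, d, hF, hG, h1, h2⟩ :=
    (mem_locRing (fun G d hG h => (hz.1 G d hG).1 h _ hy.2) g).1 (h _ hy.2)
  exact ⟨F, G, d, hF, hG, (eval_mk hG hy.1).not.1 h1, h2⟩

/-- A holomorphic disc in the cone over `U`. -/
def Dk (U : Set (PS n)) (c : ℂ) (R : ℝ) (x : ℂ → Fin n → ℂ) : Prop :=
  DifferentiableOn ℂ x (ball c R) ∧ ∀ s ∈ ball c R, x s ∈ Cone U

variable {R : ℝ} {x : ℂ → Fin n → ℂ} {ζ : ℂ}

lemma Dk.an (hz : GenPt U z) (hx : Dk U 0 R x) (hζ : ζ ∈ ball (0 : ℂ) R) (h : Reg z (x ζ) g) :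
    AnalyticAt ℂ (fun s => vl z g (x s)) ζ := by
  obtain ⟨F, G, d, hF, hG, h1, rfl⟩ := h
  have a1 := Hol.at (eval_diff hx.1 F) hζ
  have a2 := Hol.at (eval_diff hx.1 G) hζ
  refine (a1.div a2 h1).congr ?_
  filter_upwards [a2.continuousAt.eventually_ne h1, isOpen_ball.mem_nhds hζ] with s h2 h3
  exact (vl_eq (Cone.on hz (hx.2 s h3)) hF hG h2).symm

lemma Dk.ev (hz : GenPt U z) (hx : Dk U 0 R x) (hζ : ζ ∈ ball (0 : ℂ) R) (h : Reg z (x 0) g) :
    (∀ᶠ s in 𝓝[≠] ζ, On z (x s) ∧ Reg z (x s) g) ∧ MeromorphicAt (fun s => vl z g (x s)) ζ := by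
  obtain ⟨F, G, d, hF, hG, h1, rfl⟩ := h
  have e : ∀ᶠ s in 𝓝[≠] ζ, On z (x s) ∧ eval (x s) G ≠ 0 := by
    filter_upwards [NZ.ev (eval_diff hx.1 G) ⟨0, mem_ball_self (pos_of_mem_ball hζ), h1⟩ hζ,
      mem_nhdsWithin_of_mem_nhds (isOpen_ball.mem_nhds hζ)] with s h2 h3
    exact ⟨Cone.on hz (hx.2 s h3), h2⟩
  refine ⟨e.mono fun s hs => ⟨hs.1, F, G, d, hF, hG, hs.2, rfl⟩,
    ((Hol.at (eval_diff hx.1 F) hζ).meromorphicAt.div
      (Hol.at (eval_diff hx.1 G) hζ).meromorphicAt).congr (e.mono fun s hs => ?_)⟩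
  exact (vl_eq hs.1 hF hG hs.2).symm

/-- The order of `g` along the disc `x` at `ζ`. -/
noncomputable def od (z : Fin n → K) (x : ℂ → Fin n → ℂ) (ζ : ℂ) (g : K) : WithTop ℤ :=
  meromorphicOrderAt (fun s => vl z g (x s)) ζ

lemma Dk.od_mul (hz : GenPt U z) (hx : Dk U 0 R x) (hζ : ζ ∈ ball (0 : ℂ) R) (h : Reg z (x 0) g)
    (h' : Reg z (x 0) g') : od z x ζ (g * g') = od z x ζ g + od z x ζ g' := by
  rw [od, od, od, ← fun_meromorphicOrderAt_mul (hx.ev hz hζ h).2 (hx.ev hz hζ h').2]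
  exact meromorphicOrderAt_congr (((hx.ev hz hζ h).1.and (hx.ev hz hζ h').1).mono fun s hs =>
    (vl_mul hs.1.1 hs.1.2 hs.2.2).2)

lemma Dk.od_add (hz : GenPt U z) (hx : Dk U 0 R x) (hζ : ζ ∈ ball (0 : ℂ) R) (h : Reg z (x 0) g)
    (h' : Reg z (x 0) g') : min (od z x ζ g) (od z x ζ g') ≤ od z x ζ (g + g') := by
  refine (meromorphicOrderAt_add (hx.ev hz hζ h).2 (hx.ev hz hζ h').2).trans_eq ?_
  exact meromorphicOrderAt_congr (((hx.ev hz hζ h).1.and (hx.ev hz hζ h').1).mono fun s hs =>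
    (vl_add hs.1.1 hs.1.2 hs.2.2).2.symm)

lemma Dk.od_reg (hz : GenPt U z) (hx : Dk U 0 R x) (hζ : ζ ∈ ball (0 : ℂ) R) (h : Reg z (x ζ) g) :
    0 ≤ od z x ζ g ∧ (od z x ζ g = 0 ↔ vl z g (x ζ) ≠ 0) :=
  ⟨(hx.an hz hζ h).meromorphicOrderAt_nonneg,
    (hx.an hz hζ h).meromorphicNFAt.meromorphicOrderAt_eq_zero_iff⟩

lemma wt1 {a b : WithTop ℤ} {c : ℤ} (h : a + b = c) : ∃ a' b' : ℤ, a = a' ∧ b = b' ∧ a' + b' = c := by
  cases a with
  | top => simp at h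
  | coe a =>
    cases b with
    | top => simp at h
    | coe b => exact ⟨a, b, rfl, rfl, by exact_mod_cast h⟩

lemma fin_forms (hU : IsVar U) : ∃ s : Finset (PR n), (∀ H ∈ s, (∃ d, H.IsHomogeneous d) ∧
    ∀ y ∈ zcl U, eval y.rep H ≠ 0 → y ∈ U) ∧ ∀ y ∈ U, ∃ H ∈ s, eval y.rep H ≠ 0 := by
  obtain ⟨-, Z, _, hZ, ⟨S, hS, rfl⟩, rfl⟩ := hU
  obtain ⟨s, s1, s2⟩ := (Submodule.fg_span_iff_fg_span_finset_subset S).1
    (IsNoetherian.noetherian (Ideal.span S))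
  refine ⟨s, fun H hH => ⟨hS H (s1 hH), fun y hy h => ⟨hy Z ⟨hZ, Set.sdiff_subset⟩,
    fun e => h (e H (s1 hH))⟩⟩, fun y hy => ?_⟩
  by_contra hn
  push Not at hn
  refine hy.2 fun F hF => ?_
  have : Submodule.span (PR n) S ≤ RingHom.ker (eval y.rep) := by
    rw [s2, Submodule.span_le]; exact hn
  exact this (Submodule.subset_span hF)

theorem arc (hU : IsVar U) (hz : GenPt U z) {u : Fin k → K}
    (hu : ∀ i, ∀ x ∈ U, u i ∈ locRing z x) {p : PR k} (hp : Prime p) {γ : K}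
    (hγ : ∀ V, Cen U z V → UnrV u p V → γ ∈ V) :
    ∃ (Ψ : PR k) (Q : PR n) (e : ℕ), ¬ p ∣ Ψ ∧ Q.IsHomogeneous e ∧ aeval z Q ≠ 0 ∧
      ∀ R x ζ, Dk U 0 R x → ζ ∈ ball (0 : ℂ) R → eval (x 0) Q ≠ 0 → od z x ζ (aeval u p) = 1 →
        vl z (aeval u Ψ) (x ζ) ≠ 0 → 0 ≤ od z x ζ γ := by
  by_contra hn
  push Not at hn
  let ι := {a : ℝ × (ℂ → Fin n → ℂ) × ℂ // Dk U 0 a.1 a.2.1 ∧ a.2.2 ∈ ball (0 : ℂ) a.1 ∧
    od z a.2.1 a.2.2 (aeval u p) = 1 ∧ od z a.2.1 a.2.2 γ < 0}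
  let T := {t : PR k × PR n × ℕ // ¬ p ∣ t.1 ∧ t.2.1.IsHomogeneous t.2.2 ∧ aeval z t.2.1 ≠ 0}
  let S : T → Set ι := fun t =>
    {a | eval (a.1.2.1 0) t.1.2.1 ≠ 0 ∧ vl z (aeval u t.1.1) (a.1.2.1 a.1.2.2) ≠ 0}
  have r1 : ∀ (a : ι) i, Reg z (a.1.2.1 a.1.2.2) (u i) := fun a i =>
    Cone.reg hz (a.2.1.2 _ a.2.2.1) (hu i)
  have o1 : ∀ a : ι, On z (a.1.2.1 a.1.2.2) := fun a => Cone.on hz (a.2.1.2 _ a.2.2.1)
  have hS : ∀ t, (S t).Nonempty := fun t => by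
    obtain ⟨R, x, ζ, a1, a2, a3, a4, a5, a6⟩ := hn _ _ _ t.2.1 t.2.2.1 t.2.2.2
    exact ⟨⟨(R, x, ζ), a1, a2, a4, a6⟩, a3, a5⟩
  let t0 : T := ⟨(1, 1, 0), hp.not_dvd_one, isHomogeneous_one _ _, by simp⟩
  have hne : Nonempty ι := ⟨(hS t0).some⟩
  have : (⨅ t, 𝓟 (S t)).NeBot := iInf_neBot_of_directed (fun s t => by
    refine ⟨⟨(s.1.1 * t.1.1, s.1.2.1 * t.1.2.1, _), hp.not_dvd_mul s.2.1 t.2.1,
      s.2.2.1.mul t.2.2.1, by simp [s.2.2.2, t.2.2.2]⟩, ?_, ?_⟩ <;>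
    · refine principal_mono.2 fun a ha => ?_
      simp only [S, Set.mem_ofPred_eq, (vl_aeval (o1 a) (r1 a) _).2] at ha ⊢
      simp only [map_mul, ne_eq, mul_eq_zero, not_or] at ha
      tauto) fun t => principal_neBot_iff.2 (hS t)
  let 𝒰 := Ultrafilter.of (⨅ t, 𝓟 (S t))
  have hT : ∀ t, ∀ᶠ a in 𝒰, a ∈ S t := fun t =>
    Ultrafilter.of_le _ (mem_iInf_of_mem t (mem_principal_self _))
  have r2 : ∀ g, ∀ᶠ a : ι in 𝒰, Reg z (a.1.2.1 0) g := fun g => by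
    obtain ⟨F, G, d, hF, hG, h1, rfl⟩ := quot hz g
    exact (hT ⟨(1, G, d), hp.not_dvd_one, hG, h1⟩).mono fun a ha => ⟨F, G, d, hF, hG, ha.1, rfl⟩
  let W : ι → K → WithTop ℤ := fun a g => od z a.1.2.1 a.1.2.2 g
  have Wm : ∀ g g', ∀ᶠ a in 𝒰, W a (g * g') = W a g + W a g' := fun g g' =>
    ((r2 g).and (r2 g')).mono fun a ha => a.2.1.od_mul hz a.2.2.1 ha.1 ha.2
  have Wa : ∀ a P, 0 ≤ W a (aeval u P) ∧ (W a (aeval u P) = 0 ↔
      vl z (aeval u P) (a.1.2.1 a.1.2.2) ≠ 0) := fun a P =>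
    a.2.1.od_reg hz a.2.2.1 (vl_aeval (o1 a) (r1 a) P).1
  have W1 : ∀ a, W a 1 = 0 := fun a => by
    simpa using (Wa a 1).2.2 (by rw [(vl_aeval (o1 a) (r1 a) 1).2]; simp)
  have Wi : ∀ g ≠ 0, ∀ᶠ a in 𝒰, ∃ b c : ℤ, W a g = b ∧ W a g⁻¹ = c ∧ b + c = 0 := fun g hg =>
    (Wm g g⁻¹).mono fun a ha => wt1 (by rw [← ha, mul_inv_cancel₀ hg, W1]; rfl)
  let V : ValuationSubring K :=
    { carrier := {g | ∀ᶠ a in 𝒰, 0 ≤ W a g}
      mul_mem' := fun {g g'} h h' => by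
        filter_upwards [h, h', Wm g g'] with a h1 h2 h3
        rw [h3]; exact add_nonneg h1 h2
      one_mem' := Eventually.of_forall fun a => (W1 a).ge
      add_mem' := fun {g g'} h h' => by
        filter_upwards [h, h', r2 g, r2 g'] with a h1 h2 h3 h4
        exact (le_min h1 h2).trans (a.2.1.od_add hz a.2.2.1 h3 h4)
      zero_mem' := Eventually.of_forall fun a => by simpa using (Wa a 0).1
      neg_mem' := fun {g} h => by
        filter_upwards [h, Wm (aeval u (-1 : PR k)) g] with a h1 h3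
        have := add_nonneg (Wa a (-1)).1 h1
        rw [← h3] at this
        simpa using this
      mem_or_inv_mem' := fun g => by
        by_cases g0 : g = 0
        · exact Or.inl (Eventually.of_forall fun a => by simpa [g0] using (Wa a 0).1)
        refine Ultrafilter.eventually_or.1 ((Wi g g0).mono ?_)
        rintro a ⟨b, c, h1, h2, h3⟩
        rw [h1, h2]
        norm_cast
        omega }
  have mV : ∀ g, g ∈ V ↔ ∀ᶠ a in 𝒰, 0 ≤ W a g := fun _ => Iff.rfl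
  have v1 : ∀ g ≠ 0, V.valuation g < 1 ↔ ∀ᶠ a in 𝒰, 1 ≤ W a g := fun g hg => by
    rw [← one_lt_inv₀ (by simpa [zero_lt_iff] using hg), ← map_inv₀, ← not_le,
      V.valuation_le_one_iff, mV, ← Ultrafilter.eventually_not]
    refine eventually_congr ((Wi g hg).mono ?_)
    rintro a ⟨b, c, h1, h2, h3⟩
    rw [h1, h2]
    norm_cast
    omega
  have v2 : ∀ g ≠ 0, (∀ᶠ a in 𝒰, W a g = 0) → V.valuation g = 1 := fun g hg h =>
    le_antisymm ((V.valuation_le_one_iff g).2 (h.mono fun a ha => ha.ge)) (not_lt.1 fun l => by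
      obtain ⟨a, h1, h2⟩ := (h.and ((v1 g hg).1 l)).exists
      rw [h1] at h2
      exact not_le.2 zero_lt_one h2)
  have n0 : ∀ g, (∃ a : ι, W a g ≠ ⊤) → g ≠ 0 := by
    rintro _ ⟨a, ha⟩ rfl
    refine ha (meromorphicOrderAt_eq_top_iff.2 ?_)
    filter_upwards [mem_nhdsWithin_of_mem_nhds (isOpen_ball.mem_nhds a.2.2.1)] with s hs
    simpa using (vl_const (Cone.on hz (a.2.1.2 s hs)) 0).2
  have p0 : aeval u p ≠ 0 := n0 _ ⟨hne.some, by
    change od _ _ _ _ ≠ _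
    rw [hne.some.2.2.2.1]; simp⟩
  refine (((mV γ).1 (hγ V ?_ ⟨fun P => Eventually.of_forall fun a => (Wa a P).1,
    fun P hP => ?_, (v1 _ p0).2 (Eventually.of_forall fun a => a.2.2.2.1.ge),
    fun g hg => ?_⟩)).exists).elim fun a h1 => h1.not_gt a.2.2.2.2
  · obtain ⟨s, s1, s2⟩ := fin_forms hU
    obtain ⟨H, hH, h1⟩ := (Ultrafilter.eventually_exists_mem_iff s.finite_toSet (f := 𝒰)
      (P := fun H a => eval (a.1.2.1 a.1.2.2) H ≠ 0)).1 (Eventually.of_forall fun a => by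
        obtain ⟨h, hy⟩ := a.2.1.2 _ a.2.2.1
        obtain ⟨H, h1, h2⟩ := s2 _ hy
        obtain ⟨d, hd⟩ := (s1 H h1).1
        exact ⟨H, h1, (eval_mk hd h).not.1 h2⟩)
    obtain ⟨j, -, h2⟩ := (Ultrafilter.eventually_exists_mem_iff Set.finite_univ (f := 𝒰)
      (P := fun j a => a.1.2.1 a.1.2.2 j ≠ 0)).1 (Eventually.of_forall fun a => by
        obtain ⟨j, hj⟩ := Function.ne_iff.1 (a.2.1.2 _ a.2.2.1).1
        exact ⟨j, trivial, hj⟩)
    obtain ⟨d, hd⟩ := (s1 H hH).1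
    obtain ⟨a, a1, a2⟩ := (h1.and h2).exists
    have j0 : z j ≠ 0 := fun e => a2 (by
      simpa using o1 a _ _ (isHomogeneous_X ℂ j) (by simpa using e))
    refine ⟨H, d, j, hd, j0, fun i => h2.mono fun a ha => (a.2.1.od_reg hz a.2.2.1
      ⟨X i, X j, 1, isHomogeneous_X _ _, isHomogeneous_X _ _, by simpa, by simp⟩).1,
      v2 _ (div_ne_zero (fun e => a1 (o1 a _ _ hd e)) (pow_ne_zero _ j0))
        ((h1.and h2).mono fun a ha => ?_), (s1 H hH).2⟩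
    have b1 : eval (a.1.2.1 a.1.2.2) (X j ^ d : PR n) ≠ 0 := by simp [ha.2]
    have b2 := vl_eq (o1 a) hd (isHomogeneous_X_pow j d) b1
    rw [map_pow, aeval_X] at b2
    refine (a.2.1.od_reg hz a.2.2.1 ⟨H, _, d, hd, isHomogeneous_X_pow j d, b1, by simp⟩).2.2 ?_
    rw [b2]
    exact div_ne_zero ha.1 b1
  · have h := (hT ⟨(P, 1, 0), hP, isHomogeneous_one _ _, by simp⟩).mono
      fun a ha => (Wa a P).2.2 ha.2
    exact v2 _ (n0 _ (h.exists.imp fun a ha => by rw [ha]; simp)) h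
  · by_cases g0 : g = 0
    · simp [g0]
    rw [← div_le_one₀ (by simpa [zero_lt_iff] using p0), ← map_div₀, V.valuation_le_one_iff, mV]
    filter_upwards [(v1 g g0).1 hg, Wm (g / aeval u p) (aeval u p), Wi g g0] with a h1 h2 h3
    obtain ⟨b, -, h3, -⟩ := h3
    rw [div_mul_cancel₀ _ p0, h3] at h2
    obtain ⟨c, e, h4, h5, h6⟩ := wt1 h2.symm
    have h7 : W a (aeval u p) = 1 := a.2.2.2.1
    rw [h3] at h1
    rw [h5] at h7
    rw [h4]
    norm_cast at h1 h7 ⊢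
    omega

end Pool.Agent.MP_c69980_ag.H60
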