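import Pool.Agent.MP_c69980_ag.H60.Defs2
import Pool.Agent.MP_c69980_ag.H60.Lift

/-!
Local rings, centres of valuation rings, derivations and pluricanonical forms. The proofs in this
file are adapted from the files of helper21, helper31, helper66 and helper71.
-/

set_option autoImplicit false

namespace Pool.Agent.MP_c69980_ag.H60

open MvPolynomial

theorem aeval_scale {σ R A : Type*} [CommSemiring R] [CommSemiring A] [Algebra R A]
    {F : MvPolynomial σ R} {d : ℕ} (hF : F.IsHomogeneous d) (c : A) (v : σ → A) :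
    aeval (fun i => c * v i) F = c ^ d * aeval v F := by
  classical
  rw [F.as_sum, map_sum, map_sum, Finset.mul_sum]
  refine Finset.sum_congr rfl fun m hm => ?_
  rw [aeval_monomial, aeval_monomial, hF.degree_eq_sum_deg_support hm]
  simp only [Finsupp.prod, mul_pow, Finset.prod_mul_distrib, Finset.prod_pow_eq_pow_sum]
  ring

lemma aeval_smul_hom {σ R A : Type*} [CommSemiring R] [CommSemiring A] [Algebra R A]
    {F : MvPolynomial σ R} {d : ℕ} (hF : F.IsHomogeneous d) (c : A) (v : σ → A) :
    aeval (c • v) F = c ^ d * aeval v F := aeval_scale hF c v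

lemma mem_zcl {n : ℕ} {S : Set (PS n)} {P : PS n} : P ∈ zcl S ↔
    ∀ (F : MvPolynomial (Fin n) ℂ) (d : ℕ), F.IsHomogeneous d → (∀ Q ∈ S, eval Q.rep F = 0) →
      eval P.rep F = 0 := by
  constructor
  · intro h F d hF hS
    have := h {P | ∀ G ∈ ({F} : Set _), eval P.rep G = 0}
      ⟨⟨{F}, fun G hG => ⟨d, by rwa [Set.mem_singleton_iff.1 hG]⟩, rfl⟩, fun Q hQ G hG => by
        rw [Set.mem_singleton_iff.1 hG]; exact hS Q hQ⟩
    exact this F rfl
  · rintro h Z ⟨⟨T, hT, rfl⟩, hS⟩ F hF
    obtain ⟨d, hd⟩ := hT F hF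
    exact h F d hd fun Q hQ => hS hQ F hF

/-- Elements of the local ring are quotients of forms of one degree. -/
theorem mem_locRing {n : ℕ} {L : Type} [Field L] [Algebra ℂ L] {s : Fin n → L} {x : PS n}
    (hs : ∀ (G : MvPolynomial (Fin n) ℂ) (d : ℕ), G.IsHomogeneous d → aeval s G = 0 →
      eval x.rep G = 0) (u : L) :
    u ∈ locRing s x ↔ ∃ (F G : MvPolynomial (Fin n) ℂ) (d : ℕ), F.IsHomogeneous d ∧
      G.IsHomogeneous d ∧ eval x.rep G ≠ 0 ∧ u = aeval s F / aeval s G := by
  refine ⟨fun hu => ?_, fun hu => Algebra.subset_adjoin hu⟩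
  induction hu using Algebra.adjoin_induction with
  | mem u hu => exact hu
  | algebraMap c =>
    exact ⟨C c, 1, 0, isHomogeneous_C _ _, isHomogeneous_one _ _, by simp, by simp⟩
  | add u u' _ _ hu hu' =>
    obtain ⟨F, G, d, hF, hG, hx, rfl⟩ := hu
    obtain ⟨F', G', d', hF', hG', hx', rfl⟩ := hu'
    have h1 : aeval s G ≠ 0 := fun h => hx (hs G d hG h)
    have h2 : aeval s G' ≠ 0 := fun h => hx' (hs G' d' hG' h)
    refine ⟨F * G' + G * F', G * G', d + d', (hF.mul hG').add (hG.mul hF'), hG.mul hG',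
      by simp [hx, hx'], ?_⟩
    simp only [map_add, map_mul]
    field_simp
  | mul u u' _ _ hu hu' =>
    obtain ⟨F, G, d, hF, hG, hx, rfl⟩ := hu
    obtain ⟨F', G', d', hF', hG', hx', rfl⟩ := hu'
    refine ⟨F * F', G * G', d + d', hF.mul hF', hG.mul hG', by simp [hx, hx'], ?_⟩
    simp only [map_mul]
    rw [div_mul_div_comm]

section Abstract

variable {F K : Type*} [Field F] [Field K] [Algebra F K] {k : ℕ}

/-- The vector of derivatives. -/
def dvec (D : Fin k → Derivation F K K) (u : K) : Fin k → K := fun i => D i u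

theorem dvec_add (D : Fin k → Derivation F K K) (u v : K) :
    dvec D (u + v) = dvec D u + dvec D v := by
  funext i; simp [dvec]

theorem dvec_mul (D : Fin k → Derivation F K K) (u v : K) :
    dvec D (u * v) = u • dvec D v + v • dvec D u := by
  funext i; simp [dvec, Derivation.leibniz]

theorem dvec_const (D : Fin k → Derivation F K K) (c : F) :
    dvec D (algebraMap F K c) = 0 := by
  funext i; simp [dvec]

theorem dvec_gen (D : Fin k → Derivation F K K) (O : Subalgebra F K) [IsLocalRing O]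
    (t : Fin k → O) (ht : (Ideal.span (Set.range t)).IsMaximal)
    (hres : ∀ u : O, ∃ c : F, ¬ IsUnit (u - algebraMap F O c))
    {ι : Type*} [Finite ι] (w : ι → O)
    (hw : ∀ u : O, dvec D u ∈ Submodule.span O (Set.range fun a => dvec D (w a))) (u : O) :
    dvec D u ∈ Submodule.span O (Set.range fun l => dvec D (t l)) := by
  have hI : Ideal.span (Set.range t) = IsLocalRing.maximalIdeal O :=
    IsLocalRing.eq_maximalIdeal ht
  set M := Submodule.span O (Set.range fun a => dvec D (w a)) with hM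
  set N := Submodule.span O (Set.range fun l => dvec D (t l)) with hN
  have key : ∀ v : O, v ∈ Ideal.span (Set.range t) →
      dvec D v ∈ N ⊔ IsLocalRing.maximalIdeal O • M := by
    intro v hv
    obtain ⟨g, rfl⟩ := (Ideal.mem_span_range_iff_exists_fun).1 hv
    have : dvec D ((∑ l, g l * t l : O) : K) =
        ∑ l, (g l • dvec D (t l) + t l • dvec D (g l)) := by
      funext i
      simp [dvec, Derivation.leibniz, Finset.sum_apply, Subalgebra.smul_def]
    rw [this]
    refine Submodule.sum_mem _ fun l _ => Submodule.add_mem _ ?_ ?_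
    · exact Submodule.mem_sup_left (N.smul_mem _ (Submodule.subset_span ⟨l, rfl⟩))
    · refine Submodule.mem_sup_right (Submodule.smul_mem_smul ?_ (hw _))
      rw [← hI]
      exact Ideal.subset_span ⟨l, rfl⟩
  have hle : M ≤ N := by
    refine Submodule.le_of_le_smul_of_le_jacobson_bot (I := IsLocalRing.maximalIdeal O)
      (Submodule.fg_span (Set.finite_range _))
      (IsLocalRing.maximalIdeal_le_jacobson _) ?_
    rw [hM, Submodule.span_le]
    rintro _ ⟨a, rfl⟩
    obtain ⟨c, hc⟩ := hres (w a)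
    have h1 := key (w a - algebraMap F O c) (by rw [hI]; exact hc)
    have h2 : dvec D ((w a - algebraMap F O c : O) : K) = dvec D (w a) := by
      funext i
      simp [dvec]
    rwa [h2] at h1
  exact hle (hw u)

theorem det_gen (D : Fin k → Derivation F K K) (O : Subalgebra F K) (t : Fin k → O)
    (h : ∀ u : O, dvec D u ∈ Submodule.span O (Set.range fun l => dvec D (t l)))
    (f : Fin k → K) (hf : ∀ l, f l ∈ O) :
    ∃ a ∈ O, Matrix.det (Matrix.of fun i l => D i (f l)) =
      a * Matrix.det (Matrix.of fun i l => D i (t l)) := by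
  choose c hc using fun l => (Submodule.mem_span_range_iff_exists_fun O).1 (h ⟨f l, hf l⟩)
  refine ⟨(Matrix.det (Matrix.of fun j l => c l j) : O), Subtype.coe_prop _, ?_⟩
  have e : (Matrix.of fun i l => D i (f l)) =
      (Matrix.of fun i l => D i (t l)) * O.val.toRingHom.mapMatrix (Matrix.of fun j l => c l j) := by
    ext i l
    have := congrFun (hc l) i
    simp only [dvec, Finset.sum_apply, Pi.smul_apply, Subalgebra.smul_def, smul_eq_mul] at this
    simp [Matrix.mul_apply, ← this, mul_comm]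
  rw [e, Matrix.det_mul, ← RingHom.map_det, mul_comm]
  rfl

end Abstract

theorem nak {n : ℕ} {W : Set (PS n)} {K : Type} [Field K] [Algebra ℂ K] {z : Fin n → K}
    (hgen : GenPt W z) {x : PS n} (hx : x ∈ W) {k m : ℕ} (D : Fin k → Derivation ℂ K K)
    (t : Fin k → locRing z x) (ht : (Ideal.span (Set.range t)).IsMaximal) (u : K)
    (hu : u ∈ pluri z D m x) : ∃ a ∈ locRing z x,
      u = a * Matrix.det (Matrix.of fun i l => D i (t l)) ^ m := by
  have hs : ∀ (G : MvPolynomial (Fin n) ℂ) (d : ℕ), G.IsHomogeneous d → aeval z G = 0 →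
      eval x.rep G = 0 := fun G d hG h => (hgen.1 G d hG).mp h x hx
  have hunit : ∀ v : locRing z x, ∀ (A B : MvPolynomial (Fin n) ℂ) (d : ℕ), A.IsHomogeneous d →
      B.IsHomogeneous d → eval x.rep A ≠ 0 → eval x.rep B ≠ 0 →
      (v : K) = aeval z A / aeval z B → IsUnit v := by
    intro v A B d hA hB hA0 hB0 hv
    have h1 : aeval z A ≠ 0 := fun h => hA0 (hs A d hA h)
    have h2 : aeval z B ≠ 0 := fun h => hB0 (hs B d hB h)
    refine IsUnit.of_mul_eq_one
      ⟨aeval z B / aeval z A, (mem_locRing hs _).2 ⟨B, A, d, hB, hA, hA0, rfl⟩⟩ ?_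
    ext
    simp only [MulMemClass.coe_mul, hv, OneMemClass.coe_one]
    field_simp
  have : IsLocalRing (locRing z x) := by
    refine IsLocalRing.of_isUnit_or_isUnit_one_sub_self fun v => ?_
    obtain ⟨A, B, d, hA, hB, hB0, hv⟩ := (mem_locRing hs _).1 v.2
    by_cases hA0 : eval x.rep A = 0
    · refine Or.inr (hunit _ (B - A) B d (hB.sub hA) hB (by simpa [hA0] using hB0) hB0 ?_)
      have h2 : aeval z B ≠ 0 := fun h => hB0 (hs B d hB h)
      simp only [AddSubgroupClass.coe_sub, OneMemClass.coe_one, hv, map_sub]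
      field_simp
    · exact Or.inl (hunit _ A B d hA hB hA0 hB0 hv)
  have hres : ∀ v : locRing z x, ∃ c : ℂ, ¬ IsUnit (v - algebraMap ℂ (locRing z x) c) := by
    intro v
    obtain ⟨A, B, d, hA, hB, hB0, hv⟩ := (mem_locRing hs _).1 v.2
    refine ⟨eval x.rep A / eval x.rep B, fun h => ?_⟩
    obtain ⟨y, hy⟩ := h.exists_right_inv
    obtain ⟨A', B', d', hA', hB', hB0', hy'⟩ := (mem_locRing hs _).1 y.2
    have h2 : aeval z B ≠ 0 := fun h => hB0 (hs B d hB h)
    have h3 : aeval z B' ≠ 0 := fun h => hB0' (hs B' d' hB' h)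
    have h4 := congrArg (fun r : locRing z x => (r : K)) hy
    simp only [MulMemClass.coe_mul, AddSubgroupClass.coe_sub, hv, hy', OneMemClass.coe_one,
      Subalgebra.coe_algebraMap] at h4
    set c : ℂ := eval x.rep A / eval x.rep B with hc
    have h5 := hs ((A - C c * B) * A' - B * B') (d + d')
      (((hA.sub (hB.C_mul c)).mul hA').sub (hB.mul hB')) (by
        simp only [map_sub, map_mul, aeval_C]
        field_simp at h4
        linear_combination h4)
    simp only [map_sub, map_mul, eval_C, hc] at h5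
    rw [div_mul_cancel₀ _ hB0, sub_self, zero_mul, zero_sub, neg_eq_zero] at h5
    exact mul_ne_zero hB0 hB0' h5
  obtain ⟨b, hb⟩ : ∃ b, x.rep b ≠ 0 := Function.ne_iff.1 x.rep_nonzero
  have hzb : z b ≠ 0 := fun h => hb (by simpa using hs (X b) 1 (isHomogeneous_X _ _) (by simpa))
  let w : Fin n → locRing z x := fun a => ⟨z a / z b, (mem_locRing hs _).2
    ⟨X a, X b, 1, isHomogeneous_X _ _, isHomogeneous_X _ _, by simpa using hb, by simp⟩⟩
  have hw : ∀ v : locRing z x, dvec D v ∈
      Submodule.span (locRing z x) (Set.range fun a => dvec D (w a)) := by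
    set M := Submodule.span (locRing z x) (Set.range fun a => dvec D (w a)) with hM
    have hp : ∀ A : MvPolynomial (Fin n) ℂ, dvec D (aeval w A : locRing z x) ∈ M := by
      intro A
      induction A using MvPolynomial.induction_on with
      | C c =>
        rw [aeval_C, Subalgebra.coe_algebraMap, dvec_const]
        exact M.zero_mem
      | add f g hf hg =>
        rw [map_add, AddMemClass.coe_add, dvec_add]
        exact M.add_mem hf hg
      | mul_X f a hf =>
        rw [map_mul, MulMemClass.coe_mul, dvec_mul, aeval_X]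
        exact M.add_mem (M.smul_mem (aeval w f) (Submodule.subset_span ⟨a, rfl⟩))
          (M.smul_mem (w a) hf)
    have hq : ∀ (A : MvPolynomial (Fin n) ℂ) (d : ℕ), A.IsHomogeneous d →
        ((aeval w A : locRing z x) : K) = (z b)⁻¹ ^ d * aeval z A := by
      intro A d hA
      rw [← aeval_scale hA]
      have := MvPolynomial.comp_aeval_apply w (locRing z x).val A
      simp only [Subalgebra.coe_val] at this
      rw [this]
      congr 2
      funext a
      simp [w, div_eq_inv_mul]
    intro v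
    obtain ⟨A, B, d, hA, hB, hB0, hv⟩ := (mem_locRing hs _).1 v.2
    have h2 : aeval z B ≠ 0 := fun h => hB0 (hs B d hB h)
    let y : locRing z x := ⟨aeval z (X b ^ d : MvPolynomial (Fin n) ℂ) / aeval z B,
      (mem_locRing hs _).2 ⟨X b ^ d, B, d, by simpa using (isHomogeneous_X ℂ b).pow d, hB, hB0,
        rfl⟩⟩
    have hy : (y : K) * (aeval w B : locRing z x) = 1 := by
      rw [hq B d hB]
      simp only [y, map_pow, aeval_X]
      field_simp
      rw [one_div, ← mul_pow, mul_inv_cancel₀ hzb, one_pow]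
    have e1 : ((aeval w A : locRing z x) : K) = v * (aeval w B : locRing z x) := by
      rw [hq A d hA, hq B d hB, hv]
      field_simp
    have e2 : dvec D v = y • (dvec D (aeval w A : locRing z x) -
        v • dvec D (aeval w B : locRing z x)) := by
      rw [e1, dvec_mul, Subalgebra.smul_def, Subalgebra.smul_def, add_sub_cancel_left, smul_smul,
        hy, one_smul]
    rw [e2]
    exact M.smul_mem _ (M.sub_mem (hp A) (M.smul_mem _ (hp B)))
  have hg := dvec_gen D (locRing z x) t ht hres w hw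
  induction hu using Submodule.span_induction with
  | mem h hh =>
    obtain ⟨f, hf, rfl⟩ := hh
    choose a ha h using fun j => det_gen D (locRing z x) t hg (f j) (hf j)
    refine ⟨∏ j, a j, Subalgebra.prod_mem _ fun j _ => ha j, ?_⟩
    simp only [h, Finset.prod_mul_distrib, Finset.prod_const, Finset.card_univ, Fintype.card_fin]
  | zero => exact ⟨0, Subalgebra.zero_mem _, by simp⟩
  | add u v _ _ hu hv =>
    obtain ⟨a, ha, rfl⟩ := hu
    obtain ⟨c, hc, rfl⟩ := hv
    exact ⟨a + c, Subalgebra.add_mem _ ha hc, by ring⟩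
  | smul r u _ hu =>
    obtain ⟨a, ha, rfl⟩ := hu
    exact ⟨r * a, Subalgebra.mul_mem _ r.2 ha, by rw [Subalgebra.smul_def, smul_eq_mul, mul_assoc]⟩

/-- a closed point of a prime ideal avoiding a given form -/
theorem point_of_prime {n : ℕ} (p : Ideal (MvPolynomial (Fin n) ℂ)) [p.IsPrime] {i0 : Fin n}
    (h : X i0 - 1 ∈ p) {f : MvPolynomial (Fin n) ℂ} {d : ℕ} (hfd : f.IsHomogeneous d)
    (hf : f ∉ p) :
    ∃ x : PS n, eval x.rep f ≠ 0 ∧ ∀ (F : MvPolynomial (Fin n) ℂ) (e : ℕ), F.IsHomogeneous e →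
      F ∈ p → eval x.rep F = 0 := by
  rw [← IsPrime.vanishingIdeal_zeroLocus (K := ℂ) p, mem_vanishingIdeal_iff] at hf
  push Not at hf
  obtain ⟨v, hv, hvf⟩ := hf
  have hv' : ∀ F ∈ p, eval v F = 0 := fun F hF => hv F hF
  have hv0 : v ≠ 0 := by
    intro h0
    have := hv' _ h
    simp [h0] at this
  refine ⟨Projectivization.mk ℂ v hv0, ?_, fun F e hF hFp => ?_⟩
  · rw [Ne, eval_mk hfd]
    exact hvf
  · rw [eval_mk hF]
    exact hv' F hFp

/-- the closed points of the centre of a valuation ring on a projective model -/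
theorem centre2 {K L : Type} [Field K] [Field L] [Algebra ℂ K] [Algebra ℂ L] (φ : K →ₐ[ℂ] L)
    (O : ValuationSubring L) (hO : ∀ c, algebraMap ℂ L c ∈ O) {n : ℕ} (z : Fin n → K)
    (hz : z ≠ 0) :
    ∃ P : PS n → Prop, (∃ x, P x) ∧
      (∀ x, P x → (∀ (F : MvPolynomial (Fin n) ℂ) (d : ℕ), F.IsHomogeneous d → aeval z F = 0 →
        eval x.rep F = 0) ∧ ∀ u ∈ locRing z x, φ u ∈ O) ∧
      ∀ x, P x → ∀ (r : ℕ) (w : Fin r → K), (∀ j, w j ∈ locRing z x) → ∀ u ∈ locRing z x,
        O.valuation (φ u) = 1 → ∃ x2, P x2 ∧ (∀ j, w j ∈ locRing z x2) ∧ u⁻¹ ∈ locRing z x2 := by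
  classical
  obtain ⟨i1, hi1⟩ := Function.ne_iff.mp hz
  have _ : Nonempty (Fin n) := ⟨i1⟩
  obtain ⟨i0, hi0⟩ := Finite.exists_max (fun i => O.valuation (φ (z i)))
  have h0 : φ (z i0) ≠ 0 := by
    intro h
    have := hi0 i1
    simp only [h, map_zero, le_zero_iff, map_eq_zero] at this
    exact hi1 this
  have hmem : ∀ i, φ (z i) / φ (z i0) ∈ O := by
    intro i
    rw [← O.valuation_le_one_iff, map_div₀]
    exact div_le_one_of_le₀ (hi0 i) zero_le
  let z2 : Fin n → O := fun i => ⟨_, hmem i⟩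
  let ι : ℂ →+* O := (algebraMap ℂ L).codRestrict O hO
  let ev : MvPolynomial (Fin n) ℂ →+* O := eval₂Hom ι z2
  have hev : ∀ (F : MvPolynomial (Fin n) ℂ) (d : ℕ), F.IsHomogeneous d →
      φ (aeval z F) = φ (z i0) ^ d * ev F := by
    intro F d hF
    have h1 : (ev F : L) = aeval (fun i => φ (z i) / φ (z i0)) F :=
      (eval₂_comp_left O.subtype ι z2 F)
    have h2 : (fun i => φ (z i)) = φ (z i0) • fun i => φ (z i) / φ (z i0) := by
      funext i
      simp only [Pi.smul_apply, smul_eq_mul]
      field_simp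
    rw [h1, ← aeval_smul_hom hF, ← h2, ← comp_aeval_apply]
  let p : Ideal (MvPolynomial (Fin n) ℂ) := (IsLocalRing.maximalIdeal O).comap ev
  have hpp : p.IsPrime := Ideal.comap_isPrime _ _
  have hp : ∀ G, G ∉ p ↔ O.valuation (ev G) = 1 := fun G => by
    rw [← O.valuation_eq_one_iff]
    exact not_not
  have h1 : X i0 - 1 ∈ p := by
    have : ev (X i0 - 1) = 0 := by
      apply Subtype.ext
      simp [ev, z2, h0]
    rw [Ideal.mem_comap, this]
    exact zero_mem _
  have hq : ∀ (F G : MvPolynomial (Fin n) ℂ) (d : ℕ), F.IsHomogeneous d → G.IsHomogeneous d →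
      G ∉ p → O.valuation (φ (aeval z F / aeval z G)) = O.valuation (ev F) := by
    intro F G d hF hG hGp
    rw [map_div₀, hev F d hF, hev G d hG, mul_div_mul_left _ _ (pow_ne_zero _ h0), map_div₀,
      (hp G).mp hGp, div_one]
  let P : PS n → Prop := fun x => ∀ (F : MvPolynomial (Fin n) ℂ) (e : ℕ), F.IsHomogeneous e →
    F ∈ p → eval x.rep F = 0
  have hP : ∀ x, P x → ∀ (F : MvPolynomial (Fin n) ℂ) (d : ℕ), F.IsHomogeneous d →
      aeval z F = 0 → eval x.rep F = 0 := by
    intro x hx F d hF hF0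
    apply hx F d hF
    have h1 := hev F d hF
    rw [hF0, map_zero] at h1
    have h2 : ev F = 0 :=
      Subtype.ext ((mul_eq_zero.mp h1.symm).resolve_left (pow_ne_zero _ h0))
    rw [Ideal.mem_comap, h2]
    exact zero_mem _
  refine ⟨P, ?_, fun x hx => ⟨hP x hx, fun u hu => ?_⟩, fun x hx r w hw u hu hu1 => ?_⟩
  · obtain ⟨x, -, hx⟩ := point_of_prime p h1 (isHomogeneous_one _ _)
      ((Ideal.ne_top_iff_one p).mp hpp.ne_top)
    exact ⟨x, hx⟩
  · obtain ⟨F, G, d, hF, hG, hG0, rfl⟩ := (mem_locRing (hP x hx) u).mp hu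
    rw [← O.valuation_le_one_iff, hq F G d hF hG fun h => hG0 (hx G d hG h)]
    exact O.valuation_le_one _
  · choose A B e hA hB hB0 hAB using fun j => (mem_locRing (hP x hx) _).mp (hw j)
    obtain ⟨F, G, d, hF, hG, hG0, rfl⟩ := (mem_locRing (hP x hx) u).mp hu
    have hFp : F ∉ p := by
      rw [hp, ← hq F G d hF hG fun h => hG0 (hx G d hG h)]
      exact hu1
    obtain ⟨x2, hx2, hx2'⟩ := point_of_prime p h1
      (hF.mul (IsHomogeneous.prod Finset.univ B e fun j _ => hB j)) (by
        intro h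
        rcases hpp.mem_or_mem h with h | h
        · exact hFp h
        · obtain ⟨j, -, hj⟩ := Ideal.IsPrime.prod_mem_iff.mp h
          exact hB0 j (hx _ _ (hB j) hj))
    rw [map_mul, map_prod] at hx2
    refine ⟨x2, hx2', fun j => Algebra.subset_adjoin ⟨A j, B j, e j, hA j, hB j, ?_, hAB j⟩,
      Algebra.subset_adjoin ⟨G, F, d, hG, hF, left_ne_zero_of_mul hx2, inv_div _ _⟩⟩
    exact Finset.prod_ne_zero_iff.mp (right_ne_zero_of_mul hx2) j (Finset.mem_univ _)

/-- a form whose dehomogenisation is invertible near `x` does not vanish at the image of `x` -/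
theorem eval_ne_of_dom {K : Type} [Field K] [Algebra ℂ K] {n : ℕ} {z : Fin n → K} {y : PS n}
    (hy : ∀ (G : MvPolynomial (Fin n) ℂ) (d : ℕ), G.IsHomogeneous d → aeval z G = 0 →
      eval y.rep G = 0) (R : Subalgebra ℂ K)
    (hR : ∀ u ∈ locRing z y, u⁻¹ ∈ R → u⁻¹ ∈ locRing z y) {H : MvPolynomial (Fin n) ℂ} {d : ℕ}
    (hH : H.IsHomogeneous d) (hH0 : aeval z H ≠ 0) {j : Fin n} (hj : z j ≠ 0)
    (h1 : ∀ i, z i / z j ∈ R) (h2 : (aeval z H / z j ^ d)⁻¹ ∈ R) : eval y.rep H ≠ 0 := by
  obtain ⟨i, hi⟩ := Function.ne_iff.mp y.rep_nonzero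
  have hi' : eval y.rep (X i ^ d : MvPolynomial (Fin n) ℂ) ≠ 0 := by
    rw [map_pow, eval_X]
    exact pow_ne_zero _ hi
  have hXi : (X i ^ d : MvPolynomial (Fin n) ℂ).IsHomogeneous d := isHomogeneous_X_pow i d
  have h3 := hR (aeval z H / aeval z (X i ^ d : MvPolynomial (Fin n) ℂ))
    (Algebra.subset_adjoin ⟨H, _, d, hH, hXi, hi', rfl⟩) (by
      have : (aeval z H / aeval z (X i ^ d : MvPolynomial (Fin n) ℂ))⁻¹ =
          (z i / z j) ^ d * (aeval z H / z j ^ d)⁻¹ := by
        rw [map_pow, aeval_X, div_pow]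
        field_simp
      rw [this]
      exact mul_mem (pow_mem (h1 i) d) h2)
  obtain ⟨F, G, e, hF, hG, hG0, e1⟩ := (mem_locRing hy _).mp h3
  have hG1 : aeval z G ≠ 0 := fun h => hG0 (hy G e hG h)
  rw [inv_div, div_eq_div_iff hH0 hG1] at e1
  have h4 := hy (X i ^ d * G - H * F) _ ((hXi.mul hG).sub (hH.mul hF)) (by
    rw [map_sub, map_mul, map_mul, e1, mul_comm, sub_self])
  intro h
  rw [map_sub, map_mul, map_mul, h, zero_mul, sub_zero] at h4
  exact mul_ne_zero hi' hG0 h4

section Der

open KaehlerDifferential Module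

theorem kaehler_basis {F L ι : Type*} [Field F] [CharZero F] [Field L] [Algebra F L] {v : ι → L}
    (hv : IsTranscendenceBasis F v) :
    ∃ b : Basis ι L Ω[L⁄F], ∀ i, b i = D F L (v i) := by
  let S := MvPolynomial ι F
  let _ : Algebra S L := (MvPolynomial.aeval v : S →ₐ[F] L).toRingHom.toAlgebra
  have _ : IsScalarTower F S L := .of_algebraMap_eq fun a => by
    change _ = MvPolynomial.aeval v (MvPolynomial.C a)
    simp
  let E := IntermediateField.adjoin F (Set.range v)
  let e := hv.1.aevalEquivField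
  let _ : Algebra S E := (e.toAlgHom.toRingHom.comp (algebraMap S (FractionRing S))).toAlgebra
  have _ : IsScalarTower S E L := .of_algebraMap_eq fun a =>
    (hv.1.aevalEquivField_algebraMap_apply_coe a).symm
  have h1 : Algebra.FormallyEtale S (FractionRing S) :=
    Algebra.FormallyEtale.of_isLocalization (nonZeroDivisors S)
  let e' : FractionRing S ≃ₐ[S] E := { e.toRingEquiv with commutes' := fun _ => rfl }
  have h2 : Algebra.FormallyEtale S E := Algebra.FormallyEtale.of_equiv e'
  have _ : Algebra.IsAlgebraic E L := hv.isAlgebraic_field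
  have _ : CharZero E := algebraRat.charZero _
  have h3 : Algebra.FormallyEtale E L := Algebra.FormallyEtale.of_isSeparable E L
  have h4 : Algebra.FormallyEtale S L := Algebra.FormallyEtale.comp S E L
  refine ⟨((mvPolynomialBasis F ι).baseChange L).map (tensorKaehlerEquivOfFormallyEtale F S L),
    fun i => ?_⟩
  rw [Basis.map_apply, Basis.baseChange_apply, mvPolynomialBasis_apply,
    tensorKaehlerEquivOfFormallyEtale_apply, mapBaseChange_tmul, one_smul, map_D]
  congr 1
  exact MvPolynomial.aeval_X v i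

variable {F L ι M : Type*} [Field F] [CharZero F] [Field L] [Algebra F L] {v : ι → L}
  [AddCommGroup M] [Module L M] [Module F M] [IsScalarTower F L M]

theorem der_ext (hv : IsTranscendenceBasis F v) {E E' : Derivation F L M}
    (h : ∀ i, E (v i) = E' (v i)) : E = E' := by
  obtain ⟨b, hb⟩ := kaehler_basis hv
  have : E.liftKaehlerDifferential = E'.liftKaehlerDifferential :=
    b.ext fun i => by simp [hb, h]
  ext f
  rw [← E.liftKaehlerDifferential_comp_D, this, E'.liftKaehlerDifferential_comp_D]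

theorem der_exists (hv : IsTranscendenceBasis F v) (w : ι → M) :
    ∃ E : Derivation F L M, ∀ i, E (v i) = w i := by
  obtain ⟨b, hb⟩ := kaehler_basis hv
  refine ⟨(b.constr L w).compDer (D F L), fun i => ?_⟩
  change b.constr L w (D F L (v i)) = _
  rw [← hb, Basis.constr_basis]

end Der

theorem det_ne {K : Type} [Field K] [Algebra ℂ K] {k : ℕ} {y : Fin k → K} (hy : IsTranscendenceBasis ℂ y) {D : Fin k → Derivation ℂ K K}
    (hD : LinearIndependent K D) : (Matrix.of fun i l => D i (y l)).det ≠ 0 := by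
  intro h0
  obtain ⟨a, ha, h1⟩ := Matrix.exists_vecMul_eq_zero_iff.2 h0
  refine ha (funext (Fintype.linearIndependent_iff.1 hD a (der_ext hy fun l => ?_)))
  have h2 := congrFun (map_sum Derivation.coeFnAddMonoidHom (fun i => a i • D i) Finset.univ) (y l)
  rw [Finset.sum_apply] at h2
  refine h2.trans ?_
  simpa [Matrix.vecMul, dotProduct] using congrFun h1 l

end Pool.Agent.MP_c69980_ag.H60
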