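import Pool.Agent.MP_c69980_ag.H60.Disc

/-!
Minimum modulus, logarithmic derivatives, growth scales.
-/

set_option autoImplicit false

namespace Pool.Agent.MP_c69980_ag.H60

open Finset Metric Real Filter Topology

variable {R ρ : ℝ} {f g : ℂ → ℂ}

lemma cheb {ι : Type*} (I : Finset ι) (c : ι → ℝ) :
    ∃ ρ, 2 ≤ ρ ∧ ρ ≤ 3 ∧ 1 ≤ 2 * 4 ^ I.card * ∏ i ∈ I, |ρ - c i| := by
  by_contra hn
  push Not at hn
  let p : Polynomial ℝ := ∏ i ∈ I, (Polynomial.X - Polynomial.C (2 * c i - 5))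
  have hm : p.Monic := Polynomial.monic_prod_of_monic _ _ fun i _ => Polynomial.monic_X_sub_C _
  have hd : p.natDegree = I.card := by
    rw [Polynomial.natDegree_prod_of_monic _ _ fun i _ => Polynomial.monic_X_sub_C _]
    simp only [Polynomial.natDegree_X_sub_C]; simp
  have := Polynomial.Chebyshev.leadingCoeff_le_of_forall_abs_le_one (n := I.card)
    (P := Polynomial.C (2 * 2 ^ I.card) * p)
    ((Polynomial.degree_le_natDegree).trans (by
      exact_mod_cast (Polynomial.natDegree_C_mul_le _ _).trans hd.le)) (fun x hx => by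
      have := hn ((x + 5) / 2) (by linarith [hx.1]) (by linarith [hx.2])
      refine le_trans (le_of_eq ?_) this.le
      simp only [p, Polynomial.eval_mul, Polynomial.eval_C, Polynomial.eval_prod,
        Polynomial.eval_sub, Polynomial.eval_X, abs_mul, abs_prod]
      rw [prod_congr rfl (g := fun i => 2 * |(x + 5) / 2 - c i|) fun i _ => by
        rw [show x - (2 * c i - 5) = 2 * ((x + 5) / 2 - c i) by ring, abs_mul, abs_of_pos two_pos],
        prod_mul_distrib, prod_const, abs_of_pos two_pos, abs_of_pos (by positivity),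
        show (4 : ℝ) = 2 * 2 by norm_num, mul_pow]
      ring)
  rw [Polynomial.leadingCoeff_mul, hm.leadingCoeff, Polynomial.leadingCoeff_C, mul_one] at this
  have h2 : (2 : ℝ) ^ (I.card - 1) ≤ 2 ^ I.card := pow_le_pow_right₀ one_le_two (Nat.sub_le _ _)
  have h3 : (0 : ℝ) < 2 ^ I.card := by positivity
  linarith

lemma minmod (hf : Hol R f) (h : 8 < R) : ∃ ρ, 2 ≤ ρ ∧ ρ ≤ 3 ∧ ∀ A s : ℝ, 0 ≤ A → 0 ≤ s →
    NZ R f → (∀ z, ‖z‖ ≤ 8 → ‖f z‖ ≤ exp A) → -s ≤ av f 1 →
    ∀ w, ‖w‖ = ρ → exp (-(12 * (A + s) + 1)) ≤ ‖f w‖ := by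
  by_cases hn : NZ R f
  swap
  · exact ⟨2, le_rfl, by norm_num, fun _ _ _ _ h => absurd h hn⟩
  obtain ⟨N, a, g, -, hg, he, hz⟩ := factor hf hn h
  set I := univ.filter fun i => ‖a i‖ ≤ 4 with hI
  obtain ⟨ρ, h1, h2, h3⟩ := cheb I fun i => ‖a i‖
  refine ⟨ρ, h1, h2, fun A s hA hs _ hb hav w hw => ?_⟩
  have p1 : 0 < ∏ i ∈ I, |ρ - ‖a i‖| := by
    by_contra hc
    have : ∏ i ∈ I, |ρ - ‖a i‖| = 0 := le_antisymm (not_lt.1 hc) (prod_nonneg fun _ _ => abs_nonneg _)
    rw [this] at h3; norm_num at h3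
  have p2 : ∀ i ∈ I, |ρ - ‖a i‖| ≠ 0 := prod_ne_zero_iff.1 p1.ne'
  have p3 : ∀ i, |ρ - ‖a i‖| ≤ ‖w - a i‖ := fun i => hw ▸ abs_norm_sub_norm_le _ _
  have hw0 : f w ≠ 0 := by
    rw [he]
    refine mul_ne_zero (prod_ne_zero_iff.2 fun i _ e => ?_) (hz w (by linarith))
    have := p3 i
    rw [e, norm_zero] at this
    by_cases hi : ‖a i‖ ≤ 4
    · exact p2 i (mem_filter.2 ⟨mem_univ _, hi⟩) (le_antisymm this (abs_nonneg _))
    · have := abs_nonpos_iff.1 this
      linarith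
  have hw' : ‖w‖ < 4 := by linarith
  rw [← le_log_iff_exp_le (norm_pos_iff.2 hw0)]
  obtain ⟨n1, e1⟩ := log_fac he hw0
  have e2 := (pk_bounds hw' (hf.int (by norm_num) (by linarith)) fun z hz =>
    log_le_of hA (norm_nonneg _) (hb z (by linarith))).2
  rw [pj hg he hz (by norm_num) h hw'] at e2
  have e4 := av_le hf hn (ρ := 8) (by norm_num) h fun z hz => hb z hz.le
  have e5 := av_mono hf hn one_pos (by norm_num : (1 : ℝ) ≤ 4) (by linarith)
  have e6 := av_mono hf hn (by norm_num) (by norm_num : (4 : ℝ) ≤ 8) h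
  have e7 := count_le hg he hz (ρ := 4) (ρ' := 8) (by norm_num) (by norm_num) le_rfl h
  rw [← hI, show (8 : ℝ) / 4 = 2 by norm_num] at e7
  have e8 : (4 + ‖w‖) / (4 - ‖w‖) ≤ 7 := by
    rw [div_le_iff₀ (by linarith)]; linarith
  have e9 := mul_le_mul_of_nonneg_right e8 (show 0 ≤ A - av f 4 by linarith)
  have e10 : ∑ i, log (hh 4 (a i) w) - ∑ i, log ‖w - a i‖ ≤
      ∑ i ∈ I, (3 * log 2 - log |ρ - ‖a i‖|) := by
    rw [← sum_sub_distrib, hI, sum_filter]
    refine sum_le_sum fun i _ => ?_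
    split_ifs with hi
    · refine sub_le_sub ?_ (log_le_log (lt_of_le_of_ne (abs_nonneg _)
        (p2 i (mem_filter.2 ⟨mem_univ _, hi⟩)).symm) (p3 i))
      rw [show 3 * log 2 = log 8 by rw [show (8 : ℝ) = 2 ^ 3 by norm_num, log_pow]; norm_num]
      refine log_le_log ((norm_pos_iff.2 (n1 i)).trans_le (le_hh _ hw')) ?_
      rw [hh, if_pos hi, norm_div, div_le_iff₀ (by simp)]
      refine (norm_sub_le _ _).trans ?_
      rw [norm_mul, Complex.norm_conj]
      simp only [norm_pow, Complex.norm_real, Real.norm_eq_abs]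
      norm_num
      nlinarith [norm_nonneg (a i), norm_nonneg w]
    · rw [hh, if_neg hi, sub_self]
  have e11 := log_le_log one_pos h3
  rw [log_one, log_mul (by positivity) p1.ne', log_mul (by norm_num) (by positivity), log_pow,
    log_prod p2, show (4 : ℝ) = 2 ^ 2 by norm_num, log_pow] at e11
  rw [sum_sub_distrib, sum_const, nsmul_eq_mul] at e10
  have e12 : log 2 ≤ 1 := by linarith [log_two_lt_d9]
  unfold av at *
  push_cast at e11
  linarith

lemma const_est {h : ℂ → ℂ} (hg : Hol R g) (hh : Hol R h) (h0 : 0 < ρ) (h3 : ρ ≤ 3) (hR : ρ < R)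
    {A B ε : ℝ} (hA : ∀ w, ‖w‖ = ρ → ‖h w‖ ≤ exp A) (hB : ∀ w, ‖w‖ = ρ → exp (-B) ≤ ‖h w‖)
    (hε : ∀ w, ‖w‖ = ρ → ‖deriv g w * h w - g w * deriv h w‖ ≤ ε) {w : ℂ} (hw : ‖w‖ ≤ ρ) :
    ‖g w - g ρ / h ρ * h w‖ ≤ 12 * ε * exp (A + 2 * B) := by
  have hs : ∀ θ, ‖circleMap 0 ρ θ‖ = ρ := fun θ => by simp [abs_of_pos h0]
  have hb : ∀ z : ℂ, ‖z‖ = ρ → ball 0 R ∈ 𝓝 z := fun z hz =>
    isOpen_ball.mem_nhds (mem_ball_zero_iff.2 (hz ▸ hR))
  have hn : ∀ z : ℂ, ‖z‖ = ρ → h z ≠ 0 := fun z hz =>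
    norm_pos_iff.1 ((exp_pos _).trans_le (hB z hz))
  have hε0 : 0 ≤ ε := (norm_nonneg _).trans (hε _ (hs 0))
  have key : ∀ θ, ‖g (circleMap 0 ρ θ) / h (circleMap 0 ρ θ) - g ρ / h ρ‖ ≤
      3 * ε * exp (2 * B) * ‖θ‖ := by
    intro θ
    have := convex_univ.norm_image_sub_le_of_norm_hasDerivWithin_le
      (f := fun θ : ℝ => g (circleMap 0 ρ θ) / h (circleMap 0 ρ θ)) (C := 3 * ε * exp (2 * B))
      (f' := fun θ => (circleMap 0 ρ θ * Complex.I) • ((deriv g (circleMap 0 ρ θ) *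
        h (circleMap 0 ρ θ) - g (circleMap 0 ρ θ) * deriv h (circleMap 0 ρ θ)) /
          h (circleMap 0 ρ θ) ^ 2))
      (fun θ _ => ((((hg.differentiableAt (hb _ (hs θ))).hasDerivAt.div
        (hh.differentiableAt (hb _ (hs θ))).hasDerivAt (hn _ (hs θ))).scomp θ
          (hasDerivAt_circleMap 0 ρ θ))).hasDerivWithinAt) (fun θ _ => by
        rw [norm_smul, norm_mul, hs, Complex.norm_I, mul_one, norm_div, norm_pow, mul_assoc]
        refine mul_le_mul h3 ?_ (by positivity) (by norm_num)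
        rw [div_le_iff₀ (pow_pos (norm_pos_iff.2 (hn _ (hs θ))) 2)]
        calc _ ≤ ε := hε _ (hs θ)
          _ = ε * exp (2 * B) * exp (-B) ^ 2 := by
            rw [mul_assoc, ← exp_nat_mul, ← exp_add]; simp
          _ ≤ _ := by gcongr; exact hB _ (hs θ)) (Set.mem_univ 0) (Set.mem_univ θ)
    rw [show circleMap 0 ρ 0 = ρ by simp [circleMap]] at this
    simpa using this
  refine Complex.norm_le_of_forall_mem_frontier_norm_le (U := ball (0 : ℂ) ρ)
    (f := fun w => g w - g ρ / h ρ * h w) isBounded_ball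
    (DifferentiableOn.diffContOnCl ((hg.sub (hh.const_mul _)).mono ?_)) (fun z hz => ?_) ?_
  · rw [closure_ball _ h0.ne']; exact closedBall_subset_ball hR
  · rw [frontier_ball _ h0.ne', mem_sphere_zero_iff_norm] at hz
    have e := key z.arg
    rw [show circleMap 0 ρ z.arg = z by rw [← hz]; simp [circleMap]] at e
    have e2 : ‖z.arg‖ ≤ 4 := (Complex.abs_arg_le_pi z).trans pi_le_four
    rw [show g z - g ρ / h ρ * h z = (g z / h z - g ρ / h ρ) * h z by field_simp [hn z hz],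
      norm_mul]
    calc _ ≤ (3 * ε * exp (2 * B) * 4) * exp A :=
          mul_le_mul (e.trans (by gcongr)) (hA z hz) (norm_nonneg _) (by positivity)
      _ = _ := by rw [exp_add]; ring
  · rw [closure_ball _ h0.ne']; exact mem_closedBall_zero_iff.2 hw

lemma lld_radius (hf : Hol R f) (hn : NZ R f) {u η A : ℝ} (h1 : 1 ≤ u) (h2 : 0 < η) (h3 : η ≤ u)
    (h4 : u + 3 * η < R) (hA : av f (u + 3 * η) ≤ A) :
    ∃ r δ, u ≤ r ∧ r ≤ u + η ∧ 0 < δ ∧ δ ≤ η ∧ η ^ 2 ≤ δ * (2 * (4 * u * (A - av f 1) + η)) ∧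
      ∀ z, |‖z‖ - r| < δ → f z ≠ 0 := by
  obtain ⟨N, a, g, -, hg, he, hz⟩ := factor hf hn h4
  have e1 := count_le hg he hz (ρ := u + 2 * η) (ρ' := u + 3 * η) (by linarith) (by linarith)
    le_rfl h4
  set I := univ.filter fun i => ‖a i‖ ≤ u + 2 * η with hI
  have e2 := av_mono hf hn one_pos (by linarith : 1 ≤ u + 2 * η) (by linarith)
  have e3 : η / (4 * u) ≤ log ((u + 3 * η) / (u + 2 * η)) := by
    refine le_trans ?_ (one_sub_inv_le_log_of_pos (by positivity))
    rw [inv_div, one_sub_div (by positivity), div_le_div_iff₀ (by positivity) (by positivity)]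
    nlinarith
  have e4 : I.card * η ≤ 4 * u * (A - av f 1) := by
    have := (mul_le_mul_of_nonneg_left e3 (Nat.cast_nonneg I.card)).trans e1
    rw [← mul_div_assoc, div_le_iff₀ (by positivity)] at this
    nlinarith
  set δ := η / (2 * (I.card + 1)) with hδ
  have d0 : 0 < δ := by positivity
  have d1 : δ * (2 * (I.card + 1)) = η := by rw [hδ]; field_simp
  have hc : (0 : ℝ) ≤ I.card := Nat.cast_nonneg _
  obtain ⟨j, hj, hj'⟩ : ∃ j ∈ range (I.card + 1), ∀ i ∈ I, δ ≤ |‖a i‖ - (u + (2 * j + 1) * δ)| := by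
    by_contra hc
    push Not at hc
    have : Nonempty (Fin N) := by
      obtain ⟨i, -⟩ := hc 0 (by simp)
      exact ⟨i⟩
    choose! φ φ1 φ2 using hc
    obtain ⟨x, hx, y, hy, hne, e⟩ := exists_ne_map_eq_of_card_lt_of_maps_to (f := φ)
      (by simp : I.card < (range (I.card + 1)).card) φ1
    have a1 := abs_lt.1 (φ2 x hx)
    have a2 := abs_lt.1 (φ2 y hy)
    rw [e] at a1
    rcases lt_or_gt_of_ne hne with h | h
    · have : (x : ℝ) + 1 ≤ y := by exact_mod_cast h
      nlinarith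
    · have : (y : ℝ) + 1 ≤ x := by exact_mod_cast h
      nlinarith
  have j1 : (j : ℝ) ≤ I.card := by exact_mod_cast Nat.lt_succ_iff.1 (mem_range.1 hj)
  have j0 : (0 : ℝ) ≤ j := Nat.cast_nonneg _
  refine ⟨u + (2 * j + 1) * δ, δ, by nlinarith, by nlinarith, d0, by nlinarith, by nlinarith,
    fun z hz' => ?_⟩
  have a1 := abs_lt.1 hz'
  rw [he]
  refine mul_ne_zero (prod_ne_zero_iff.2 fun i _ e => ?_) (hz z (by nlinarith))
  rw [sub_eq_zero] at e
  rw [e] at hz' a1
  exact (hj' i (mem_filter.2 ⟨mem_univ _, by nlinarith⟩)).not_gt hz'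

lemma exists_log {c : ℂ} {r : ℝ} (hr : 0 < r) (hf : DifferentiableOn ℂ f (ball c r))
    (h0 : ∀ z ∈ ball c r, f z ≠ 0) :
    ∃ h : ℂ → ℂ, DifferentiableOn ℂ h (ball c r) ∧ h c = 0 ∧
      ∀ z ∈ ball c r, f z = f c * Complex.exp (h z) := by
  have hd : DifferentiableOn ℂ (fun z => deriv f z / f z) (ball c r) :=
    (hf.deriv isOpen_ball).div hf h0
  obtain ⟨h, hc, hh⟩ := hd.isExactOn_ball.with_val_at c 0
  refine ⟨h, fun z hz => (hh z hz).differentiableAt.differentiableWithinAt, hc, fun z hz => ?_⟩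
  have key : ∀ z ∈ ball c r, HasDerivAt (fun z => f z * Complex.exp (-h z)) 0 z := fun z hz => by
    have h1 := (hf.differentiableAt (isOpen_ball.mem_nhds hz)).hasDerivAt
    refine (h1.mul (hh z hz).neg.cexp).congr_deriv ?_
    have := h0 z hz
    simp only [Pi.neg_apply]
    field_simp
    ring
  have := isOpen_ball.is_const_of_deriv_eq_zero (convex_ball c r).isPreconnected
    (fun z hz => (key z hz).differentiableAt.differentiableWithinAt)
    (fun z hz => (key z hz).deriv) hz (mem_ball_self hr)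
  simp only [hc, neg_zero, Complex.exp_zero, mul_one] at this
  rw [← this, mul_assoc, ← Complex.exp_add]; simp

lemma lld_pt {c : ℂ} {δ A : ℝ} (hδ : 0 < δ) (hf : DifferentiableOn ℂ f (ball c δ))
    (h0 : ∀ z ∈ ball c δ, f z ≠ 0) (hA : ∀ z ∈ ball c δ, ‖f z‖ ≤ exp A) (j : ℕ) :
    ‖iteratedDeriv j f c / f c‖ ≤ 3 * j.factorial * (3 * (A + 1 - log ‖f c‖) / δ) ^ j := by
  obtain ⟨h, h1, h2, h3⟩ := exists_log hδ hf h0
  have p0 : 0 < ‖f c‖ := norm_pos_iff.2 (h0 c (mem_ball_self hδ))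
  set M := A + 1 - log ‖f c‖ with hM
  have hM1 : 1 ≤ M := by
    have := (log_le_iff_le_exp p0).2 (hA c (mem_ball_self hδ))
    linarith
  have d1 : 0 < δ / (3 * M) := by positivity
  have d2 : δ / (3 * M) < δ := div_lt_self hδ (by linarith)
  have key : ∀ z ∈ sphere c (δ / (3 * M)), ‖f z‖ ≤ 3 * ‖f c‖ := by
    intro z hz
    have hz' := mem_sphere_iff_norm.1 hz
    have sh : ∀ w ∈ ball (0 : ℂ) δ, c + w ∈ ball c δ := fun w hw => by simpa using hw
    have := Complex.borelCaratheodory_zero (f := fun w => h (c + w)) (M := M) (R := δ) (z := z - c)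
      (by linarith) (h1.comp (by fun_prop) sh) (fun w hw => by
        have e := hA _ (sh w hw)
        rw [h3 _ (sh w hw), norm_mul, Complex.norm_exp, ← exp_log p0, ← exp_add, exp_le_exp] at e
        simp only [Set.mem_ofPred_eq]
        linarith) hδ (by rw [mem_ball_zero_iff, hz']; exact d2) (by simpa using h2)
    rw [add_sub_cancel, hz'] at this
    have e2 : 2 * M * (δ / (3 * M)) / (δ - δ / (3 * M)) ≤ 1 := by
      rw [div_le_one (by linarith)]
      have : δ / (3 * M) ≤ δ / 3 := by gcongr; linarith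
      have : 2 * M * (δ / (3 * M)) = 2 * δ / 3 := by field_simp
      linarith
    rw [h3 z (sphere_subset_ball d2 hz), norm_mul, Complex.norm_exp, mul_comm]
    gcongr
    calc _ ≤ exp 1 := exp_le_exp.2 ((Complex.re_le_norm _).trans (this.trans e2))
      _ ≤ 3 := by linarith [exp_one_lt_d9]
  have := Complex.norm_iteratedDeriv_le_of_forall_mem_sphere_norm_le j d1
    (DifferentiableOn.diffContOnCl (hf.mono (by
      rw [closure_ball _ d1.ne']; exact closedBall_subset_ball d2))) key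
  rw [norm_div, div_le_iff₀ p0]
  refine this.trans (le_of_eq ?_)
  rw [div_pow, div_pow]
  field_simp

lemma cauchy_est (hf : Hol R f) {z : ℂ} {η B : ℝ} (h0 : 0 < η) (h : ‖z‖ + η < R)
    (hB : ∀ w, ‖w‖ ≤ ‖z‖ + η → ‖f w‖ ≤ B) : ‖deriv f z‖ ≤ B / η := by
  have hs : ∀ w ∈ closedBall z η, ‖w‖ ≤ ‖z‖ + η := fun w hw => by
    linarith [norm_sub_norm_le w z, mem_closedBall_iff_norm.1 hw]
  refine Complex.norm_deriv_le_of_forall_mem_sphere_norm_le h0
    (DifferentiableOn.diffContOnCl (hf.mono ?_)) fun w hw => hB w (hs w (sphere_subset_closedBall hw))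
  rw [closure_ball _ h0.ne']
  exact fun w hw => mem_ball_zero_iff.2 ((hs w hw).trans_lt h)

lemma borel {S : ℝ → ℝ} {a B : ℝ} (ha : 0 < a) (h1 : 0 < S a)
    (hB : ∀ x, a ≤ x → x ≤ 2 * a → S x ≤ B) :
    ∃ r η, a ≤ r ∧ 0 < η ∧ r + η ≤ 2 * a ∧ S (r + η) ≤ 16 * S r ∧
      a ^ 4 * S a ≤ 16 * η ^ 4 * S r := by
  by_contra hn
  push Not at hn
  have hp : ∀ i : ℕ, 0 < (1 / 2 : ℝ) ^ i ∧ (1 / 2 : ℝ) ^ i ≤ 1 := fun i =>
    ⟨by positivity, pow_le_one₀ (by norm_num) (by norm_num)⟩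
  have key : ∀ i : ℕ, 16 ^ i * S a ≤ S (a * (2 - (1 / 2) ^ i)) := by
    intro i
    induction i with
    | zero => norm_num
    | succ i ih =>
      have e : a * (2 - (1 / 2) ^ (i + 1)) = a * (2 - (1 / 2) ^ i) + a * (1 / 2) ^ (i + 1) := by
        ring
      by_contra hc
      have := hn (a * (2 - (1 / 2) ^ i)) (a * (1 / 2) ^ (i + 1)) (by nlinarith [hp i])
        (by positivity) (by rw [← e]; nlinarith [hp (i + 1)]) (by
          rw [← e]; rw [pow_succ] at hc; linarith)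
      refine this.not_ge ?_
      calc _ = 16 * (a * (1 / 2) ^ (i + 1)) ^ 4 * (16 ^ i * S a) := by
            rw [show (16 : ℝ) ^ i = (2 ^ i) ^ 4 by rw [← pow_mul, mul_comm, pow_mul]; norm_num,
              pow_succ (1 / 2 : ℝ), one_div, inv_pow]
            field_simp
            norm_num
        _ ≤ _ := by gcongr
  obtain ⟨i, hi⟩ := pow_unbounded_of_one_lt (B / S a) (by norm_num : (1 : ℝ) < 16)
  rw [div_lt_iff₀ h1] at hi
  exact (hi.trans_le (key i)).not_ge (hB _ (by nlinarith [hp i]) (by nlinarith [hp i]))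

section Scale

variable {N : ℕ} {α : ℂ → Fin N → ℂ}

/-- The oscillation on a disc. -/
noncomputable def sc (α : ℂ → Fin N → ℂ) (ρ : ℝ) : ℝ :=
  sSup ((fun z => ‖α z - α 0‖) '' closedBall 0 ρ)

/-- The sum of the positive parts of the real parts. -/
noncomputable def tp (α : ℂ → Fin N → ℂ) (z : ℂ) : ℝ := ∑ i, max (α z i).re 0

lemma le_sc (hα : DifferentiableOn ℂ α (ball 0 R)) (h : ρ < R) {z : ℂ} (hz : ‖z‖ ≤ ρ) :
    ‖α z - α 0‖ ≤ sc α ρ :=
  le_csSup ((isCompact_closedBall 0 ρ).bddAbove_image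
    (((hα.continuousOn.mono (closedBall_subset_ball h)).sub continuousOn_const).norm))
    ⟨z, mem_closedBall_zero_iff.2 hz, rfl⟩

lemma sc_le (h0 : 0 ≤ ρ) {B : ℝ} (h : ∀ z, ‖z‖ ≤ ρ → ‖α z - α 0‖ ≤ B) : sc α ρ ≤ B :=
  csSup_le ((nonempty_closedBall.2 h0).image _) (by
    rintro _ ⟨z, hz, rfl⟩; exact h z (mem_closedBall_zero_iff.1 hz))

lemma sc_mono (hα : DifferentiableOn ℂ α (ball 0 R)) {ρ' : ℝ} (h0 : 0 ≤ ρ) (h1 : ρ ≤ ρ')
    (h : ρ' < R) : sc α ρ ≤ sc α ρ' := sc_le h0 fun _ hz => le_sc hα h (hz.trans h1)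

lemma sc_maps (hα : DifferentiableOn ℂ α (ball 0 R)) (h : ρ < R) :
    Set.MapsTo α (ball 0 ρ) (closedBall (α 0) (sc α ρ)) := fun _ hz =>
  mem_closedBall_iff_norm.2 (le_sc hα h (mem_ball_zero_iff.1 hz).le)

lemma sc_schwarz (hα : DifferentiableOn ℂ α (ball 0 R)) {ρ' : ℝ} (h0 : 0 < ρ) (h1 : ρ < ρ')
    (h : ρ' < R) : ρ' * sc α ρ ≤ ρ * sc α ρ' := by
  have p : 0 ≤ sc α ρ' := (norm_nonneg _).trans (le_sc hα h (z := 0) (by simp; linarith))
  rw [← le_div_iff₀' (h0.trans h1)]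
  refine sc_le h0.le fun z hz => ?_
  have := Complex.dist_le_div_mul_dist_of_mapsTo_ball (hα.mono (ball_subset_ball h.le))
    (sc_maps hα h) (mem_ball_zero_iff.2 (hz.trans_lt h1))
  rw [dist_eq_norm, dist_zero_right] at this
  calc _ ≤ sc α ρ' / ρ' * ρ := this.trans (by have := h0.trans h1; gcongr)
    _ = _ := by ring

lemma deriv_le_sc (hα : DifferentiableOn ℂ α (ball 0 R)) (h0 : 0 < ρ) (h : ρ < R) :
    ρ * ‖deriv α 0‖ ≤ sc α ρ := by
  rw [← le_div_iff₀' h0]
  exact Complex.norm_deriv_le_div_of_mapsTo_ball (hα.mono (ball_subset_ball h.le)) (sc_maps hα h) h0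

lemma tp_cont (hα : DifferentiableOn ℂ α (ball 0 R)) : ContinuousOn (tp α) (ball 0 R) := by
  have := hα.continuousOn
  unfold tp
  fun_prop

lemma tp_int (hα : DifferentiableOn ℂ α (ball 0 R)) (h0 : 0 < ρ) (h : ρ < R) :
    CircleIntegrable (tp α) 0 ρ := ((tp_cont hα).mono (sph_sub h0 h)).circleIntegrable'

lemma tp_nonneg (z : ℂ) : 0 ≤ tp α z := sum_nonneg fun _ _ => le_max_right _ _

lemma sc_le_tp (hα : DifferentiableOn ℂ α (ball 0 R)) {u r L : ℝ} (h0 : 0 < u) (h1 : u < r)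
    (h : r < R) (hL : ‖α 0‖ ≤ L) :
    sc α u ≤ (4 * r / (r - u)) ^ 2 * (circleAverage (tp α) 0 r + L + 1) := by
  set T := circleAverage (tp α) 0 r with hT
  have T0 : 0 ≤ T := circleAverage_nonneg_of_nonneg fun z _ => tp_nonneg z
  have L0 : 0 ≤ L := (norm_nonneg _).trans hL
  have r0 : 0 < r := h0.trans h1
  have g0 : 0 < r - u := by linarith
  set q := 4 * r / (r - u) with hq
  have q1 : 1 ≤ q := by rw [hq, le_div_iff₀ g0]; linarith
  refine sc_le h0.le fun z hz => (pi_norm_le_iff_of_nonneg (by positivity)).2 fun i => ?_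
  have hi : Hol R fun w => α w i := differentiableOn_pi.1 hα i
  have := Complex.borelCaratheodory_zero (f := fun w => α w i - α 0 i) (M := q * T + L + 1)
    (R := (u + r) / 2) (z := z) (by positivity)
    ((hi.mono (ball_subset_ball (by linarith))).sub_const _) (fun w hw => by
      have hw' := mem_ball_zero_iff.1 hw
      have hw2 : ‖w‖ < r := by linarith
      have e1 := pk_harm hw2 (u := fun w => (α w i).re) fun z hz =>
        (hi.an z (closedBall_subset_ball h hz)).harmonicAt_re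
      have e2 := avg_mono_off Set.finite_empty r0 (pk_int hw2 (u := fun w => (α w i).re)
        (((Complex.continuous_re.comp_continuousOn hi.continuousOn).mono
          (sph_sub r0 h)).circleIntegrable')) ((tp_int hα r0 h).const_smul (a := q))
        fun z hz _ => by
          have b1 : 0 ≤ pk w z := le_trans (div_nonneg (by linarith) (by positivity)) (le_pk hw2 hz)
          have b2 : pk w z ≤ q := (pk_le hw2 hz).trans (by
            rw [hq, div_le_div_iff₀ (by linarith) g0]; nlinarith [norm_nonneg w])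
          have b3 : (α z i).re ≤ tp α z := (le_max_left _ _).trans
            (single_le_sum (f := fun i => max (α z i).re 0) (fun _ _ => le_max_right _ _) (mem_univ i))
          exact (mul_le_mul_of_nonneg_left b3 b1).trans (mul_le_mul_of_nonneg_right b2 (tp_nonneg z))
      rw [e1, circleAverage_smul, smul_eq_mul] at e2
      have e3 : -(α 0 i).re ≤ L := by
        linarith [neg_le_abs (α 0 i).re, Complex.abs_re_le_norm (α 0 i), norm_le_pi_norm (α 0) i]
      simp only [Set.mem_ofPred_eq, Complex.sub_re]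
      linarith) (by linarith) (mem_ball_zero_iff.2 (by linarith)) (by simp)
  refine this.trans ?_
  calc _ ≤ 2 * (q * (T + L + 1)) * r / ((r - u) / 2) := by
        gcongr
        · nlinarith
        · linarith
        · linarith
    _ = _ := by rw [hq]; field_simp; norm_num

end Scale

end Pool.Agent.MP_c69980_ag.H60
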