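import Pool.Agent.MP_c69980_ag.H60.Lift

/-!
From bounded derivatives to positivity of the Kobayashi pseudodistance.
-/

set_option autoImplicit false

namespace Pool.Agent.MP_c69980_ag.H60

open Finset MvPolynomial Real Metric Filter Topology

variable {N : ℕ} {C : Fin N → PR N} {d : Fin N → ℕ} {o j : Fin N} {p : Fin N → ℂ}

lemma Dsc.smul (hC : ∀ i, (C i).IsHomogeneous (d i)) {c : ℂ} {R : ℝ} {x : ℂ → Fin N → ℂ}
    (h : Dsc C o c R x) {t : ℂ} (ht : t ≠ 0) : Dsc C o c R fun z => t • x z :=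
  ⟨h.1.fun_const_smul t, fun z hz => ⟨fun i => by
    rw [eval_smul_hom (hC i)]; exact mul_ne_zero (pow_ne_zero _ ht) ((h.2 z hz).1 i),
    by rw [eval_smul_hom (hC o), eval_smul_hom (hC o), (h.2 z hz).2]⟩⟩

lemma Good.of_smul (hC : ∀ i, (C i).IsHomogeneous (d i)) {t : ℂ} (ht : t ≠ 0)
    (h : Good C o (t • p)) : Good C o p := by
  obtain ⟨ε, M, ε0, h⟩ := h
  have t0 := norm_pos_iff.2 ht
  refine ⟨ε / ‖t‖, M / ‖t‖, by positivity, fun c R x R0 hx h1 => ?_⟩
  have := h c R _ R0 (hx.smul hC ht) (by rwa [← smul_sub, norm_smul, ← lt_div_iff₀' t0])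
  rw [deriv_fun_const_smul _ (hx.1.differentiableAt (isOpen_ball.mem_nhds (mem_ball_self R0))),
    norm_smul] at this
  rw [le_div_iff₀ t0]
  linarith

lemma nrm_far (hp : p j = 1) {x : Fin N → ℂ} (h : ‖x j‖ * (‖p‖ + 1) < ‖x‖) :
    1 ≤ ‖nrm j x - p‖ := by
  by_cases hj : x j = 0
  · simpa [nrm, hj, hp] using norm_le_pi_norm p j
  · have := norm_sub_norm_le (nrm j x) p
    rw [nrm, norm_smul, norm_inv] at this
    rw [← lt_inv_mul_iff₀ (norm_pos_iff.2 hj)] at h
    unfold nrm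
    linarith

lemma nrm_cont (hp : p j = 1) {ρ : ℝ} (h1 : ρ ≤ 1) {x : Fin N → ℂ} (hx : x ≠ 0) :
    ContinuousAt (fun y => min ρ ‖nrm j y - p‖) x := by
  by_cases hj : x j = 0
  · refine (continuousAt_const (y := ρ)).congr ?_
    have : ∀ᶠ y in 𝓝 x, ‖y j‖ * (‖p‖ + 1) < ‖y‖ :=
      ((continuous_apply j).norm.mul continuous_const).continuousAt.eventually_lt
        continuous_norm.continuousAt (by simpa [hj] using hx)
    exact this.mono fun y hy => (min_eq_left (h1.trans (nrm_far hp hy))).symm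
  · exact continuousAt_const.min
      ((((continuous_apply j).continuousAt.inv₀ hj).smul continuousAt_id).sub
        continuousAt_const).norm

lemma lip (hC : ∀ i, (C i).IsHomogeneous (d i)) (hd : ∀ i, 0 < d i) (hp : p j = 1)
    (h : Good C o p) : ∃ ρ K : ℝ, 0 < ρ ∧ ρ ≤ 1 ∧ 0 ≤ K ∧ ∀ X, Dsc C o 0 (3 / 4) X →
      ∀ a ∈ closedBall (0 : ℂ) (1 / 2), ∀ b ∈ closedBall (0 : ℂ) (1 / 2),
        min ρ ‖nrm j (X b) - p‖ ≤ min ρ ‖nrm j (X a) - p‖ + K * ‖b - a‖ := by
  obtain ⟨ε, M, ε0, h⟩ := h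
  refine ⟨min ε 1, 4 * |M| * (2 + ‖p‖), by positivity, min_le_right _ _, by positivity,
    fun X hX a ha b hb => ?_⟩
  set ρ := min ε 1
  set K := 4 * |M| * (2 + ‖p‖) * ‖b - a‖
  let γ : ℝ → ℂ := fun t => a + t * (b - a)
  have γ1 : ∀ t ∈ Set.Icc (0 : ℝ) 1, γ t ∈ closedBall (0 : ℂ) (1 / 2) := fun t ht => by
    simpa [γ] using (convex_closedBall (0 : ℂ) (1 / 2)).add_smul_sub_mem ha hb ht
  have γ2 : ∀ t, HasDerivAt γ (b - a) t := fun t => by
    simpa only [Complex.ofReal_one, one_mul] using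
      ((hasDerivAt_id' t).ofReal_comp.mul_const (b - a)).const_add a
  have sub : ∀ z ∈ closedBall (0 : ℂ) (1 / 2), ball z (1 / 4) ⊆ ball 0 (3 / 4) := fun z hz =>
    ball_subset_ball' (by linarith [mem_closedBall.1 hz])
  have q : (0 : ℝ) < 1 / 4 := by norm_num
  have dX : ∀ z ∈ closedBall (0 : ℂ) (1 / 2), DifferentiableAt ℂ X z := fun z hz =>
    hX.1.differentiableAt (isOpen_ball.mem_nhds (sub z hz (mem_ball_self q)))
  have := image_le_of_liminf_slope_right_le_deriv_boundary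
    (f := fun t => min ρ ‖nrm j (X (γ t)) - p‖) (a := 0) (b := 1)
    (B := fun t => min ρ ‖nrm j (X a) - p‖ + K * t) (B' := fun _ => K) (fun t ht => ?_)
    (by simp [γ]) (by fun_prop) (fun t _ => by
      simpa only [mul_one] using (((hasDerivAt_id' t).const_mul K).const_add _).hasDerivWithinAt)
    (fun t ht r hr => ?_) ⟨zero_le_one, le_rfl⟩
  · simpa [γ] using this
  · have x0 : X (γ t) ≠ 0 := fun e => (hX.2 _ (sub _ (γ1 t ht) (mem_ball_self q))).1 o
      (by rw [e, eval_zero_hom (hC o) (hd o)])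
    exact (ContinuousAt.comp (f := fun t => X (γ t)) (nrm_cont hp (min_le_right _ _) x0)
      ((dX _ (γ1 t ht)).continuousAt.comp (γ2 t).continuousAt)).continuousWithinAt
  have K0 : 0 ≤ K := by positivity
  have hz := γ1 t ⟨ht.1, ht.2.le⟩
  rcases le_or_gt ρ ‖nrm j (X (γ t)) - p‖ with c | c
  · refine Eventually.frequently (Eventually.mono self_mem_nhdsWithin fun s hs => ?_)
    rw [slope_def_field, min_eq_left c]
    exact (div_nonpos_of_nonpos_of_nonneg (sub_nonpos.2 (min_le_left _ _))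
      (sub_pos.2 hs).le).trans_lt (K0.trans_lt hr)
  have xj : X (γ t) j ≠ 0 := fun e => by
    have := norm_le_pi_norm p j
    simp only [nrm, e, inv_zero, zero_smul, zero_sub, norm_neg, hp, norm_one] at c this
    exact absurd (c.trans_le (min_le_right _ _)) this.not_gt
  have d1 := (dX _ hz).hasDerivAt
  have d2 := h (γ t) (1 / 4) (fun z => (X (γ t) j)⁻¹ • X z) q
    (Dsc.smul hC ⟨hX.1.mono (sub _ hz), fun z h' => ⟨(hX.2 z (sub _ hz h')).1, by
      rw [(hX.2 z (sub _ hz h')).2, (hX.2 _ (sub _ hz (mem_ball_self q))).2]⟩⟩ (inv_ne_zero xj))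
    (c.trans_le (min_le_left _ _))
  rw [deriv_fun_const_smul _ (dX _ hz)] at d2
  set v := (X (γ t) j)⁻¹ • deriv X (γ t) with hv
  have d3 : HasDerivAt (fun z => nrm j (X z)) (v - v j • nrm j (X (γ t))) (γ t) := by
    refine (((hasDerivAt_pi.1 d1 j).fun_inv xj).fun_smul d1).congr_deriv ?_
    ext i
    simp only [hv, nrm, Pi.add_apply, Pi.sub_apply, Pi.smul_apply, smul_eq_mul]
    field_simp
    ring
  have d4 := ((d3.hasFDerivAt.restrictScalars ℝ).comp_hasDerivAt t (γ2 t)).sub_const p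
  have d5 : ‖v - v j • nrm j (X (γ t))‖ ≤ 4 * |M| * (2 + ‖p‖) := by
    have a1 := norm_sub_le v (v j • nrm j (X (γ t)))
    have a2 := norm_le_pi_norm v j
    have a3 := norm_sub_norm_le (nrm j (X (γ t))) p
    have a4 := c.trans_le (min_le_right _ _)
    have a5 : ‖v‖ ≤ 4 * |M| := by linarith [le_abs_self M]
    have a6 := mul_le_mul (a2.trans a5) (by linarith : ‖nrm j (X (γ t))‖ ≤ 1 + ‖p‖)
      (norm_nonneg _) (by positivity)
    rw [norm_smul (v j)] at a1
    linarith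
  refine (d4.hasDerivWithinAt.liminf_right_slope_norm_le (r := r) (lt_of_le_of_lt ?_ hr)).mp
    (Eventually.mono self_mem_nhdsWithin fun s hs h' => lt_of_le_of_lt ?_ h')
  · simp only [ContinuousLinearMap.coe_restrictScalars', ContinuousLinearMap.toSpanSingleton_apply,
      norm_smul]
    rw [mul_comm]
    exact mul_le_mul_of_nonneg_right d5 (norm_nonneg _)
  · rw [slope_def_field, min_eq_right c.le, div_eq_inv_mul]
    exact mul_le_mul_of_nonneg_left (sub_le_sub_right (min_le_right _ _) _)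
      (inv_nonneg.2 (sub_pos.2 hs).le)

lemma le_artanh {x : ℝ} (h0 : 0 ≤ x) (h1 : x < 1) : x ≤ artanh x := by
  have q : 0 < 1 - x := by linarith
  have := le_log_one_add_of_nonneg (x := 2 * x / (1 - x)) (by positivity)
  rw [artanh_eq_half_log ⟨by linarith, h1.le⟩, show (1 + x) / (1 - x) = 1 + 2 * x / (1 - x) by
    field_simp; ring]
  rw [show 2 * (2 * x / (1 - x)) / (2 * x / (1 - x) + 2) = 2 * x by field_simp; ring] at this
  linarith

lemma kob_pos (hC : ∀ i, (C i).IsHomogeneous (d i)) (hd : ∀ i, 0 < d i) {P Q : PS N}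
    (hj : P.rep j ≠ 0) (h : Good C o (nrm j P.rep)) (hPQ : P ≠ Q) :
    0 < kob {P | ∀ i, eval P.rep (C i) ≠ 0} P Q ∧ 0 < kob {P | ∀ i, eval P.rep (C i) ≠ 0} Q P := by
  have hp : nrm j P.rep j = 1 := inv_mul_cancel₀ hj
  obtain ⟨ρ, K, ρ0, ρ1, K0, h⟩ := lip hC hd hp h
  let φ : PS N → ℝ := fun S => min ρ ‖nrm j S.rep - nrm j P.rep‖
  have φ0 : ∀ S, 0 ≤ φ S ∧ φ S ≤ 1 := fun S =>
    ⟨le_min ρ0.le (norm_nonneg _), (min_le_left _ _).trans ρ1⟩
  have φP : φ P = 0 := by simp [φ, ρ0.le]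
  have φQ : 0 < φ Q := lt_min ρ0 (norm_pos_iff.2 fun e => hPQ (by
    rw [← P.mk_rep, ← Q.mk_rep, Projectivization.mk_eq_mk_iff']
    refine ⟨P.rep j * (Q.rep j)⁻¹, ?_⟩
    rw [← smul_smul, ← nrm, sub_eq_zero.1 e, nrm, smul_smul, mul_inv_cancel₀ hj, one_smul]))
  have key : ∀ S T, ENNReal.ofReal (|φ T - φ S| / (K + 2)) ≤
      kob {P | ∀ i, eval P.rep (C i) ≠ 0} S T := fun S T => by
    refine le_sInf ?_
    rintro _ ⟨r, x, f, a, rfl, rfl, hr, rfl⟩
    rw [← ENNReal.ofReal_sum_of_nonneg fun i _ => artanh_nonneg (norm_nonneg _)]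
    refine ENNReal.ofReal_le_ofReal ?_
    rw [div_le_iff₀' (by linarith), ← sum_range_sub fun i => φ (x i), mul_sum]
    refine (abs_sum_le_sum_abs _ _).trans (sum_le_sum fun i hi => ?_)
    obtain ⟨f1, f2, f3, f4, f5⟩ := hr i (mem_range.1 hi)
    refine le_trans ?_ (mul_le_mul_of_nonneg_left (le_artanh (norm_nonneg _) f3) (by linarith))
    have a0 := norm_nonneg (a i)
    rcases le_or_gt ‖a i‖ (1 / 2) with c | c
    · obtain ⟨X, X1, X2⟩ := lift_dsc hC hd o f1 f2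
      have m0 : (0 : ℂ) ∈ closedBall 0 (1 / 2) := mem_closedBall_self (by norm_num)
      have m1 := mem_closedBall_zero_iff.2 c
      have b1 := h X X1 _ m0 _ m1
      have b2 := h X X1 _ m1 _ m0
      rw [← X2 0 (mem_ball_self (by norm_num)), ← X2 (a i) (mem_ball_zero_iff.2 (by linarith)), f4,
        f5] at b1 b2
      simp only [sub_zero, zero_sub, norm_neg] at b1 b2
      simp only [φ]
      rw [abs_le]
      constructor <;> nlinarith
    · rw [abs_le]
      constructor <;> nlinarith [φ0 (x i), φ0 (x (i + 1))]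
  refine ⟨lt_of_lt_of_le (ENNReal.ofReal_pos.2 ?_) (key P Q),
    lt_of_lt_of_le (ENNReal.ofReal_pos.2 ?_) (key Q P)⟩ <;>
  · refine div_pos (abs_pos.2 ?_) (by linarith)
    simp [φP, φQ.ne']

theorem pseudo (hC : ∀ i, (C i).IsHomogeneous (d i)) (hd : ∀ i, 0 < d i) (hs : N < ∑ i, d i)
    (H : ∀ x ≠ 0, ∀ i, (∀ j ≠ i, eval x (C j) = 0) → eval x (jac C) ≠ 0) :
    PseudoKob {P : PS N | ∀ i, eval P.rep (C i) ≠ 0} := by
  have hN : 0 < N := by
    rcases N with _ | N
    · simp at hs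
    · omega
  obtain ⟨g, g0, hg⟩ := generic_good hC hd hs H ⟨0, hN⟩
  obtain ⟨k, hk⟩ : ∃ k, homogeneousComponent k g ≠ 0 := by
    by_contra hn
    push Not at hn
    exact g0 (by rw [← sum_homogeneousComponent g]; simp [hn])
  have hh := homogeneousComponent_isHomogeneous k g
  refine ⟨{P | eval P.rep (homogeneousComponent k g) = 0},
    ⟨{homogeneousComponent k g}, by simpa using ⟨k, hh⟩, by simp⟩, fun hs' => ?_, ?_⟩
  · have : homogeneousComponent k g * ∏ i, C i ≠ 0 := mul_ne_zero hk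
      (prod_ne_zero_iff.2 fun i _ => by simpa using (geom hC hd hs H).2.2.1 (X i) (X_ne_zero i))
    obtain ⟨x, hx⟩ : ∃ x, eval x (homogeneousComponent k g * ∏ i, C i) ≠ 0 := by
      by_contra hn
      push Not at hn
      exact this (MvPolynomial.funext fun x => by rw [hn, map_zero])
    rw [map_mul, map_prod] at hx
    have h1 := fun i => prod_ne_zero_iff.1 (right_ne_zero_of_mul hx) i (mem_univ i)
    have x0 : x ≠ 0 := fun e => h1 ⟨0, hN⟩ (by rw [e, eval_zero_hom (hC _) (hd _)])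
    exact left_ne_zero_of_mul hx ((eval_mk hh x0).1
      (hs' (a := Projectivization.mk ℂ x x0) fun i => (eval_mk (hC i) x0).not.2 (h1 i)))
  have key : ∀ P : PS N, (∀ i, eval P.rep (C i) ≠ 0) →
      eval P.rep (homogeneousComponent k g) ≠ 0 →
      ∃ j, P.rep j ≠ 0 ∧ Good C ⟨0, hN⟩ (nrm j P.rep) := fun P h1 h2 => by
    obtain ⟨j, hj⟩ := Function.ne_iff.1 P.rep_nonzero
    obtain ⟨t, t0, ht⟩ := exists_smul_ne h2
    refine ⟨j, hj, Good.of_smul hC (mul_ne_zero t0 hj) ?_⟩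
    rw [nrm, smul_smul, mul_assoc, mul_inv_cancel₀ hj, mul_one]
    exact hg _ (fun i => by
      rw [eval_smul_hom (hC i)]; exact mul_ne_zero (pow_ne_zero _ t0) (h1 i)) ht
  intro P hP Q hQ hPQ hΔ
  rcases not_and_or.1 hΔ with h | h
  · obtain ⟨j, hj, h⟩ := key P hP h
    exact (kob_pos hC hd hj h hPQ).1
  · obtain ⟨j, hj, h⟩ := key Q hQ h
    exact (kob_pos hC hd hj h hPQ.symm).2

end Pool.Agent.MP_c69980_ag.H60
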