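import Pool.Agent.MP_c69980_ag.H60.Good2
import Pool.Agent.MP_c69980_ag.H60.Kob

/-!
From bounded derivatives to positivity of the Kobayashi pseudodistance on `U`.
-/

set_option autoImplicit false

namespace Pool.Agent.MP_c69980_ag.H60

open Finset MvPolynomial Real Metric Filter Topology

variable {n : ℕ} {U : Set (PS n)} {j : Fin n} {p : Fin n → ℂ}

lemma Cone.smul {y : Fin n → ℂ} (h : y ∈ Cone U) {t : ℂ} (ht : t ≠ 0) : t • y ∈ Cone U :=
  ⟨smul_ne_zero ht h.1, by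
    rw [(Projectivization.mk_eq_mk_iff' ℂ _ _ _ h.1).2 ⟨t, rfl⟩]; exact h.2⟩

lemma lip2 (hp : p j = 1) (h : Good2 U j p) : ∃ ρ K : ℝ, 0 < ρ ∧ ρ ≤ 1 ∧ 0 ≤ K ∧
    ∀ X, Dk U 0 (3 / 4) X → ∀ a ∈ closedBall (0 : ℂ) (1 / 2), ∀ b ∈ closedBall (0 : ℂ) (1 / 2),
      min ρ ‖nrm j (X b) - p‖ ≤ min ρ ‖nrm j (X a) - p‖ + K * ‖b - a‖ := by
  obtain ⟨ε, M, ε0, h⟩ := h
  refine ⟨min ε 1, 4 * |M|, by positivity, min_le_right _ _, by positivity,
    fun X hX a ha b hb => ?_⟩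
  set ρ := min ε 1
  set K := 4 * |M| * ‖b - a‖
  let γ : ℝ → ℂ := fun t => a + t * (b - a)
  have γ1 : ∀ t ∈ Set.Icc (0 : ℝ) 1, γ t ∈ closedBall (0 : ℂ) (1 / 2) := fun t ht => by
    simpa [γ] using (convex_closedBall (0 : ℂ) (1 / 2)).add_smul_sub_mem ha hb ht
  have γ2 : ∀ t, HasDerivAt γ (b - a) t := fun t => by
    simpa only [Complex.ofReal_one, one_mul] using
      ((hasDerivAt_id' t).ofReal_comp.mul_const (b - a)).const_add a
  have sub : ∀ z ∈ closedBall (0 : ℂ) (1 / 2), ball z (1 / 4) ⊆ ball 0 (3 / 4) := fun z hz =>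
    ball_subset_ball' (by linarith [mem_closedBall.1 hz])
  have q : (0 : ℝ) < 1 / 4 := by norm_num
  have dX : ∀ z ∈ closedBall (0 : ℂ) (1 / 2), DifferentiableAt ℂ X z := fun z hz =>
    hX.1.differentiableAt (isOpen_ball.mem_nhds (sub z hz (mem_ball_self q)))
  have := image_le_of_liminf_slope_right_le_deriv_boundary
    (f := fun t => min ρ ‖nrm j (X (γ t)) - p‖) (a := 0) (b := 1)
    (B := fun t => min ρ ‖nrm j (X a) - p‖ + K * t) (B' := fun _ => K) (fun t ht => ?_)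
    (by simp [γ]) (by fun_prop) (fun t _ => by
      simpa only [mul_one] using (((hasDerivAt_id' t).const_mul K).const_add _).hasDerivWithinAt)
    (fun t ht r hr => ?_) ⟨zero_le_one, le_rfl⟩
  · simpa [γ] using this
  · exact (ContinuousAt.comp (f := fun t => X (γ t)) (nrm_cont hp (min_le_right _ _)
      (hX.2 _ (sub _ (γ1 t ht) (mem_ball_self q))).1)
      ((dX _ (γ1 t ht)).continuousAt.comp (γ2 t).continuousAt)).continuousWithinAt
  have K0 : 0 ≤ K := by positivity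
  have hz := γ1 t ⟨ht.1, ht.2.le⟩
  rcases le_or_gt ρ ‖nrm j (X (γ t)) - p‖ with c | c
  · refine Eventually.frequently (Eventually.mono self_mem_nhdsWithin fun s hs => ?_)
    rw [slope_def_field, min_eq_left c]
    exact (div_nonpos_of_nonpos_of_nonneg (sub_nonpos.2 (min_le_left _ _))
      (sub_pos.2 hs).le).trans_lt (K0.trans_lt hr)
  have xj : X (γ t) j ≠ 0 := fun e => by
    have := norm_le_pi_norm p j
    simp only [nrm, e, inv_zero, zero_smul, zero_sub, norm_neg, hp, norm_one] at c this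
    exact absurd (c.trans_le (min_le_right _ _)) this.not_gt
  have d2 := h (γ t) (1 / 4) (fun z => (X (γ t) j)⁻¹ • X z) q
    ⟨(hX.1.mono (sub _ hz)).fun_const_smul _, fun z h' =>
      Cone.smul (hX.2 z (sub _ hz h')) (inv_ne_zero xj)⟩ (inv_mul_cancel₀ xj)
    (c.trans_le (min_le_left _ _))
  simp only [nrm_smul j (inv_ne_zero xj)] at d2
  have d4 := (((nrm_diff (dX _ hz) xj).hasDerivAt.hasFDerivAt.restrictScalars ℝ).comp_hasDerivAt t
    (γ2 t)).sub_const p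
  refine (d4.hasDerivWithinAt.liminf_right_slope_norm_le (r := r) (lt_of_le_of_lt ?_ hr)).mp
    (Eventually.mono self_mem_nhdsWithin fun s hs h' => lt_of_le_of_lt ?_ h')
  · simp only [ContinuousLinearMap.coe_restrictScalars', ContinuousLinearMap.toSpanSingleton_apply,
      norm_smul]
    rw [mul_comm]
    exact mul_le_mul_of_nonneg_right (by linarith [le_abs_self M]) (norm_nonneg _)
  · rw [slope_def_field, min_eq_right c.le, div_eq_inv_mul]
    exact mul_le_mul_of_nonneg_left (sub_le_sub_right (min_le_right _ _) _)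
      (inv_nonneg.2 (sub_pos.2 hs).le)

lemma kob_pos2 {P Q : PS n} (hj : P.rep j ≠ 0) (h : Good2 U j (nrm j P.rep)) (hPQ : P ≠ Q) :
    0 < kob U P Q ∧ 0 < kob U Q P := by
  have hp : nrm j P.rep j = 1 := inv_mul_cancel₀ hj
  obtain ⟨ρ, K, ρ0, ρ1, K0, h⟩ := lip2 hp h
  let φ : PS n → ℝ := fun S => min ρ ‖nrm j S.rep - nrm j P.rep‖
  have φ0 : ∀ S, 0 ≤ φ S ∧ φ S ≤ 1 := fun S =>
    ⟨le_min ρ0.le (norm_nonneg _), (min_le_left _ _).trans ρ1⟩
  have φP : φ P = 0 := by simp [φ, ρ0.le]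
  have φQ : 0 < φ Q := lt_min ρ0 (norm_pos_iff.2 fun e => hPQ (by
    rw [← P.mk_rep, ← Q.mk_rep, Projectivization.mk_eq_mk_iff']
    refine ⟨P.rep j * (Q.rep j)⁻¹, ?_⟩
    rw [← smul_smul, ← nrm, sub_eq_zero.1 e, nrm, smul_smul, mul_inv_cancel₀ hj, one_smul]))
  have key : ∀ S T, ENNReal.ofReal (|φ T - φ S| / (K + 2)) ≤ kob U S T := fun S T => by
    refine le_sInf ?_
    rintro _ ⟨r, x, f, a, rfl, rfl, hr, rfl⟩
    rw [← ENNReal.ofReal_sum_of_nonneg fun i _ => artanh_nonneg (norm_nonneg _)]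
    refine ENNReal.ofReal_le_ofReal ?_
    rw [div_le_iff₀' (by linarith), ← sum_range_sub fun i => φ (x i), mul_sum]
    refine (abs_sum_le_sum_abs _ _).trans (sum_le_sum fun i hi => ?_)
    obtain ⟨f1, f2, f3, f4, f5⟩ := hr i (mem_range.1 hi)
    refine le_trans ?_ (mul_le_mul_of_nonneg_left (le_artanh (norm_nonneg _) f3) (by linarith))
    have a0 := norm_nonneg (a i)
    rcases le_or_gt ‖a i‖ (1 / 2) with c | c
    · obtain ⟨X, X0, X3⟩ := lift f1
      have X1 : Dk U 0 (3 / 4) X := ⟨X0, fun z hz => ⟨(X3 z hz).1,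
        (X3 z hz).2 ▸ f2 (ball_subset_ball (by norm_num) hz)⟩⟩
      have X2 : ∀ z ∈ ball (0 : ℂ) (3 / 4), nrm j (f i z).rep = nrm j (X z) := fun z hz => by
        obtain ⟨_, e⟩ := X3 z hz
        rw [e, nrm_mk]
      have m0 : (0 : ℂ) ∈ closedBall 0 (1 / 2) := mem_closedBall_self (by norm_num)
      have m1 := mem_closedBall_zero_iff.2 c
      have b1 := h X X1 _ m0 _ m1
      have b2 := h X X1 _ m1 _ m0
      rw [← X2 0 (mem_ball_self (by norm_num)), ← X2 (a i) (mem_ball_zero_iff.2 (by linarith)), f4,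
        f5] at b1 b2
      simp only [sub_zero, zero_sub, norm_neg] at b1 b2
      simp only [φ]
      rw [abs_le]
      constructor <;> nlinarith
    · rw [abs_le]
      constructor <;> nlinarith [φ0 (x i), φ0 (x (i + 1))]
  refine ⟨lt_of_lt_of_le (ENNReal.ofReal_pos.2 ?_) (key P Q),
    lt_of_lt_of_le (ENNReal.ofReal_pos.2 ?_) (key Q P)⟩ <;>
  · refine div_pos (abs_pos.2 ?_) (by linarith)
    simp [φP, φQ.ne']

theorem pseudo2 {k : ℕ} {K : Type} [Field K] [Algebra ℂ K] {z : Fin n → K} {u : Fin k → K}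
    (hU : IsVar U) (hz : GenPt U z) (hu : IsTranscendenceBasis ℂ u)
    (hr : ∀ x ∈ U, ∀ i, u i ∈ locRing z x ∧ (u i)⁻¹ ∈ locRing z x) (hG : LogGT U z) :
    PseudoKob U := by
  obtain ⟨P, hP⟩ := hU.1.1
  obtain ⟨j, hj⟩ := Function.ne_iff.1 P.rep_nonzero
  have j0 : z j ≠ 0 := fun e =>
    hj (by simpa using (hz.1 (X j) 1 (isHomogeneous_X _ _)).1 (by simpa) P hP)
  obtain ⟨H, e, H1, H2, H3⟩ := generic_good2 hU hz hu hr hG j
  have hh := H1.mul (isHomogeneous_X ℂ j)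
  refine ⟨{P | eval P.rep (H * X j) = 0}, ⟨{H * X j}, by simpa using ⟨_, hh⟩, by simp⟩,
    fun hs => ?_, ?_⟩
  · simpa [H2, j0] using (hz.1 _ _ hh).2 hs
  have key : ∀ P : PS n, eval P.rep (H * X j) ≠ 0 →
      P.rep j ≠ 0 ∧ Good2 U j (nrm j P.rep) := fun P h => by
    rw [map_mul, eval_X, mul_ne_zero_iff] at h
    refine ⟨h.2, H3 _ ?_⟩
    rw [nrm, eval_smul_hom H1]
    exact mul_ne_zero (pow_ne_zero _ (inv_ne_zero h.2)) h.1
  intro P _ Q _ hPQ hΔ
  rcases not_and_or.1 hΔ with h | h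
  · exact (kob_pos2 (key P h).1 (key P h).2 hPQ).1
  · exact (kob_pos2 (key Q h).1 (key Q h).2 hPQ.symm).2

end Pool.Agent.MP_c69980_ag.H60
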