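import Mathlib

/-!
Weighted homogeneous polynomials, and finiteness of the map given by forms without common zero.
-/

set_option autoImplicit false

namespace Pool.Agent.MP_c69980_ag.H60

open Finset MvPolynomial

variable {N : ℕ}

/-- The polynomial ring in `N` variables over the complex numbers. -/
abbrev PR (N : ℕ) : Type := MvPolynomial (Fin N) ℂ

/-- The substitution `X i ↦ X i * t ^ w i`. -/
noncomputable def rho (w : Fin N → ℕ) : PR N →ₐ[ℂ] Polynomial (PR N) :=
  aeval fun i => Polynomial.monomial (w i) (X i)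

lemma rho_monomial (w : Fin N → ℕ) (m : Fin N →₀ ℕ) (c : ℂ) :
    rho w (monomial m c) = Polynomial.monomial (Finsupp.weight w m) (monomial m c) := by
  have h : ∀ s : Finset (Fin N), ∏ i ∈ s, (Polynomial.monomial (w i) (X i : PR N)) ^ m i =
      Polynomial.monomial (∑ i ∈ s, m i • w i) (∏ i ∈ s, (X i : PR N) ^ m i) := fun s => by
    induction s using Finset.induction_on with
    | empty => simp
    | insert a s ha ih =>
      rw [prod_insert ha, sum_insert ha, prod_insert ha, ih, Polynomial.monomial_pow,
        Polynomial.monomial_mul_monomial, smul_eq_mul, mul_comm (w a)]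
  rw [rho, aeval_monomial, Finsupp.prod, h, Finsupp.weight_apply, Finsupp.sum, monomial_eq,
    Finsupp.prod, Polynomial.algebraMap_apply, Polynomial.C_mul_monomial]
  rfl

lemma rho_coeff (w : Fin N → ℕ) (P : PR N) (k : ℕ) :
    (rho w P).coeff k = weightedHomogeneousComponent w k P := by
  induction P using MvPolynomial.induction_on' with
  | monomial m c =>
    rw [rho_monomial, Polynomial.coeff_monomial, weightedHomogeneousComponent_of_mem
      (isWeightedHomogeneous_monomial w m c rfl)]
    simp only [eq_comm]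
  | add p q hp hq => rw [map_add, map_add, Polynomial.coeff_add, hp, hq]

lemma rho_hom {w : Fin N → ℕ} {P : PR N} {D : ℕ} (h : P.IsWeightedHomogeneous w D) :
    rho w P = Polynomial.monomial D P := by
  refine Polynomial.ext fun k => ?_
  rw [rho_coeff, Polynomial.coeff_monomial, weightedHomogeneousComponent_of_mem h]
  simp only [eq_comm]

lemma rho_eval (w : Fin N → ℕ) (a : Fin N → ℂ) (t : ℂ) (P : PR N) :
    ((rho w P).map (eval a)).eval t = eval (fun i => a i * t ^ w i) P := by
  induction P using MvPolynomial.induction_on with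
  | C c => simp [rho]
  | add p q hp hq => simp [hp, hq]
  | mul_X p i hp =>
    rw [map_mul, Polynomial.map_mul, Polynomial.eval_mul, hp]
    simp [rho]

lemma eval_smul_hom {P : PR N} {D : ℕ} (h : P.IsHomogeneous D) (t : ℂ) (a : Fin N → ℂ) :
    eval (t • a) P = t ^ D * eval a P := by
  have := rho_eval 1 a t P
  rw [rho_hom h] at this
  have e : (fun i => a i * t ^ (1 : Fin N → ℕ) i) = t • a := by ext i; simp [mul_comm]
  rw [← e, ← this]
  simp [mul_comm]

lemma eval_zero_hom {P : PR N} {D : ℕ} (h : P.IsHomogeneous D) (hD : 0 < D) :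
    eval (0 : Fin N → ℂ) P = 0 := by
  have := eval_smul_hom h 0 0
  rwa [zero_smul, zero_pow hD.ne', zero_mul] at this

lemma exists_comp_ne (w : Fin N → ℕ) {a : Fin N → ℂ} {P : PR N} (h : eval a P ≠ 0) :
    ∃ k, eval a (weightedHomogeneousComponent w k P) ≠ 0 := by
  by_contra hn
  push Not at hn
  have : (rho w P).map (eval a) = 0 := Polynomial.ext fun k => by
    rw [Polynomial.coeff_map, rho_coeff, hn, Polynomial.coeff_zero]
  have e := rho_eval w a 1 P
  rw [this] at e
  exact h (by simpa using e.symm)

lemma exists_smul_ne {a : Fin N → ℂ} {P : PR N} {k : ℕ}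
    (h : eval a (homogeneousComponent k P) ≠ 0) : ∃ t : ℂ, t ≠ 0 ∧ eval (t • a) P ≠ 0 := by
  have h0 : Polynomial.X * (rho 1 P).map (eval a) ≠ 0 := by
    refine mul_ne_zero Polynomial.X_ne_zero fun e => h ?_
    have := congrArg (Polynomial.coeff · k) e
    simp only [Polynomial.coeff_map, rho_coeff, Polynomial.coeff_zero] at this
    exact this
  obtain ⟨t, ht⟩ := (Polynomial.finite_setOfPred_isRoot h0).exists_notMem
  have e : (fun i => a i * t ^ (1 : Fin N → ℕ) i) = t • a := by ext i; simp [mul_comm]
  simp only [Set.mem_ofPred, Polynomial.IsRoot, Polynomial.eval_mul, Polynomial.eval_X, rho_eval,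
    e] at ht
  exact ⟨t, left_ne_zero_of_mul ht, right_ne_zero_of_mul ht⟩

lemma hom_of_mul {w : Fin N → ℕ} {P Q : PR N} {D : ℕ} (h : (P * Q).IsWeightedHomogeneous w D)
    (h0 : P * Q ≠ 0) :
    ∃ e e', e + e' = D ∧ P.IsWeightedHomogeneous w e ∧ Q.IsWeightedHomogeneous w e' := by
  have e := rho_hom h
  rw [map_mul] at e
  have n0 : rho w P * rho w Q ≠ 0 := by rw [e]; simpa using h0
  have nP := left_ne_zero_of_mul n0
  have nQ := right_ne_zero_of_mul n0
  have e1 := Polynomial.natDegree_mul nP nQ
  have e2 := Polynomial.natTrailingDegree_mul nP nQ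
  rw [e, Polynomial.natDegree_monomial_eq _ h0] at e1
  rw [e, Polynomial.natTrailingDegree_monomial h0] at e2
  have l1 := Polynomial.natTrailingDegree_le_natDegree (rho w P)
  have l2 := Polynomial.natTrailingDegree_le_natDegree (rho w Q)
  have key : ∀ S : PR N, (rho w S).natTrailingDegree = (rho w S).natDegree →
      S.IsWeightedHomogeneous w (rho w S).natDegree := fun S hS m hm => by
    have : (rho w S).coeff (Finsupp.weight w m) ≠ 0 := fun z => hm (by
      have := congrArg (coeff m) z
      rwa [rho_coeff, coeff_weightedHomogeneousComponent, if_pos rfl] at this)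
    exact le_antisymm (Polynomial.le_natDegree_of_ne_zero this)
      (hS ▸ Polynomial.natTrailingDegree_le_of_ne_zero this)
  exact ⟨_, _, e1.symm, key P (by omega), key Q (by omega)⟩

variable {C : Fin N → PR N} {d : Fin N → ℕ}

lemma rho_aeval (hC : ∀ i, (C i).IsHomogeneous (d i)) (δ : PR N) :
    rho 1 (aeval C δ) = (rho d δ).map (aeval C : PR N →ₐ[ℂ] PR N) := by
  induction δ using MvPolynomial.induction_on with
  | C c => simp [rho]
  | add p q hp hq => rw [map_add, map_add, map_add, Polynomial.map_add, hp, hq]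
  | mul_X p i hp =>
    rw [map_mul, map_mul, map_mul, Polynomial.map_mul, hp, aeval_X, rho_hom (hC i)]
    simp [rho]

lemma aeval_hom (hC : ∀ i, (C i).IsHomogeneous (d i)) {δ : PR N} {D : ℕ}
    (h : δ.IsWeightedHomogeneous d D) : (aeval C δ).IsHomogeneous D := by
  have e := congrArg (Polynomial.coeff · D) (rho_aeval hC δ)
  simp only [rho_hom h, rho_coeff, Polynomial.coeff_map, Polynomial.coeff_monomial_same,
    RingHom.coe_coe] at e
  rw [← e]
  exact weightedHomogeneousComponent_isWeightedHomogeneous _ _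

lemma dvd_comp (hC : ∀ i, (C i).IsHomogeneous (d i)) {J δ : PR N} {e : ℕ} (hJ : J.IsHomogeneous e)
    (h : J ∣ aeval C δ) (k : ℕ) : J ∣ aeval C (weightedHomogeneousComponent d k δ) := by
  obtain ⟨R, hR⟩ := h
  have h1 : Polynomial.C J ∣ rho 1 (aeval C δ) := by
    rw [hR, map_mul, rho_hom hJ, ← Polynomial.C_mul_X_pow_eq_monomial, mul_assoc]
    exact dvd_mul_right _ _
  have := (Polynomial.C_dvd_iff_dvd_coeff _ _).1 h1 k
  rwa [rho_aeval hC, Polynomial.coeff_map, rho_coeff] at this

lemma pow_eq (hC : ∀ i, (C i).IsHomogeneous (d i)) (hd : ∀ i, 0 < d i)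
    (h0 : ∀ x ≠ 0, ∃ i, eval x (C i) ≠ 0) (i : Fin N) :
    ∃ t, ∃ R : Fin N → PR N, (∀ j, R j ≠ 0 → (R j).totalDegree < t) ∧
      (X i : PR N) ^ t = ∑ j, C j * R j := by
  have h1 : (X i : PR N) ∈ (Ideal.span (Set.range C)).radical := by
    rw [← vanishingIdeal_zeroLocus_eq_radical (K := ℂ), mem_vanishingIdeal_iff]
    intro x hx
    by_cases hx0 : x = 0
    · simp [hx0]
    · obtain ⟨j, hj⟩ := h0 x hx0
      exact absurd (hx (C j) (Ideal.subset_span ⟨j, rfl⟩)) hj
  obtain ⟨t, ht⟩ := h1
  obtain ⟨R, hR⟩ := Ideal.mem_span_range_iff_exists_fun.1 ht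
  refine ⟨t, fun j => if d j ≤ t then homogeneousComponent (t - d j) (R j) else 0,
    fun j hj => ?_, ?_⟩
  · by_cases h : d j ≤ t
    · simp only [if_pos h]
      have := (homogeneousComponent_isHomogeneous (t - d j) (R j)).totalDegree_le
      have := hd j
      omega
    · simp [if_neg h] at hj
  · have e := congrArg (fun P => (rho 1 P).coeff t) hR
    simp only [rho_hom (isHomogeneous_X_pow i t), Polynomial.coeff_monomial_same, map_sum,
      Polynomial.finsetSum_coeff] at e
    rw [← e]
    refine sum_congr rfl fun j _ => ?_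
    rw [mul_comm, map_mul, rho_hom (hC j), ← Polynomial.C_mul_X_pow_eq_monomial, mul_assoc,
      Polynomial.coeff_C_mul, Polynomial.coeff_X_pow_mul', rho_coeff]
    rfl

lemma integral (hC : ∀ i, (C i).IsHomogeneous (d i)) (hd : ∀ i, 0 < d i)
    (h0 : ∀ x ≠ 0, ∃ i, eval x (C i) ≠ 0) (K : Subalgebra ℂ (PR N)) (hK : ∀ i, C i ∈ K) :
    Algebra.IsIntegral K (PR N) := by
  choose t R hR he using pow_eq hC hd h0
  let s : Set (PR N) := (fun m => monomial m (1 : ℂ)) '' {m : Fin N →₀ ℕ | ∀ i, m i < t i}
  have hs : s.Finite := by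
    refine Set.Finite.image _ (Set.Finite.of_finite_image (f := fun m => (m : Fin N → ℕ))
      ((Set.finite_Iic t).subset ?_) DFunLike.coe_injective.injOn)
    rintro _ ⟨m, hm, rfl⟩ i
    exact (hm i).le
  have key : ∀ e, ∀ P : PR N, P.totalDegree < e → P ∈ Submodule.span K s := by
    intro e
    induction e with
    | zero => intro P hP; omega
    | succ e ih =>
      intro P hP
      rw [P.as_sum]
      refine Submodule.sum_mem _ fun m hm => ?_
      have hc : monomial m (coeff m P) = (algebraMap ℂ K (coeff m P)) • monomial m (1 : ℂ) := by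
        rw [algebraMap_smul, smul_monomial, smul_eq_mul, mul_one]
      rw [hc]
      refine Submodule.smul_mem _ _ ?_
      by_cases h : ∀ i, m i < t i
      · exact Submodule.subset_span ⟨m, h, rfl⟩
      push Not at h
      obtain ⟨i, hi⟩ := h
      have e1 : m = Finsupp.single i (t i) + (m - Finsupp.single i (t i)) :=
        (add_tsub_cancel_of_le (Finsupp.single_le_iff.2 hi)).symm
      have e2 : monomial m (1 : ℂ) = X i ^ t i * monomial (m - Finsupp.single i (t i)) 1 := by
        rw [← monomial_single_add, ← e1]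
      have e3 : t i + (m - Finsupp.single i (t i)).degree ≤ e := by
        have a1 : m.degree ≤ P.totalDegree := le_totalDegree hm
        have a2 := congrArg Finsupp.degree e1
        rw [map_add, Finsupp.degree_single] at a2
        omega
      rw [e2, he, sum_mul]
      refine Submodule.sum_mem _ fun j _ => ?_
      by_cases hj : R i j = 0
      · simp [hj]
      rw [mul_assoc]
      refine Submodule.smul_mem _ (⟨C j, hK j⟩ : K) (ih _ ?_)
      have a1 := totalDegree_mul (R i j) (monomial (m - Finsupp.single i (t i)) (1 : ℂ))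
      have a2 : (monomial (m - Finsupp.single i (t i)) (1 : ℂ)).totalDegree ≤
        (m - Finsupp.single i (t i)).degree := totalDegree_monomial_le _ _
      have a3 := hR i j hj
      omega
  have : Module.Finite K (PR N) := ⟨Submodule.fg_def.2 ⟨s, hs,
    eq_top_iff.2 fun P _ => key _ P (Nat.lt_succ_self _)⟩⟩
  infer_instance

end Pool.Agent.MP_c69980_ag.H60
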