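import Pool.Agent.MP_c69980_ag.H60.Tame
import Pool.Agent.MP_c69980_ag.H60.Hom

/-!
Monomial valuations and Newton polytopes.
-/

set_option autoImplicit false

namespace Pool.Agent.MP_c69980_ag.H60

open Finset MvPolynomial WithZero

variable {k : ℕ}

/-- The substitution `X i ↦ X i * t ^ (-w i)`. -/
noncomputable def rw' (w : Fin k → ℤ) : PR k →+* LaurentSeries (FractionRing (PR k)) :=
  eval₂Hom (HahnSeries.C.comp ((algebraMap (PR k) _).comp C))
    fun i => HahnSeries.single (-w i) (algebraMap (PR k) _ (X i))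

lemma rw'_mon (w : Fin k → ℤ) (m : Fin k →₀ ℕ) (c : ℂ) : rw' w (monomial m c) =
    HahnSeries.single (-∑ i, m i * w i) (algebraMap (PR k) _ (monomial m c)) := by
  induction m using Finsupp.induction_linear generalizing c with
  | zero => simp [rw']
  | add a b ha hb =>
    rw [← mul_one c, ← monomial_mul, map_mul, ha, hb, HahnSeries.single_mul_single,
      map_mul (algebraMap (PR k) _)]
    simp [add_mul, sum_add_distrib, add_comm]
  | single l n =>
    rw [← C_mul_X_pow_eq_monomial, sum_eq_single l (fun b _ hb => by simp [hb]) (by simp)]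
    simp [rw', HahnSeries.single_pow, HahnSeries.single_mul_single]

/-- The monomial valuation. -/
noncomputable def vA (w : Fin k → ℤ) : Valuation (PR k) ℤᵐ⁰ := Valued.v.comap (rw' w)

lemma vA_le (w : Fin k → ℤ) (P : PR k) (D : ℤ) :
    vA w P ≤ exp D ↔ ∀ m ∈ P.support, ∑ i, m i * w i ≤ D := by
  have h : ∀ n, (rw' w P).coeff n = algebraMap (PR k) _
      (∑ m ∈ P.support with n = -∑ i, m i * w i, monomial m (coeff m P)) := fun n => by
    conv_lhs => rw [P.as_sum, map_sum, HahnSeries.coeff_sum]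
    rw [sum_filter, map_sum]
    refine sum_congr rfl fun m _ => ?_
    rw [rw'_mon, HahnSeries.coeff_single]
    split_ifs <;> simp
  rw [← neg_neg D, vA, Valuation.comap_apply, LaurentSeries.valuation_le_iff_coeff_lt_eq_zero,
    neg_neg]
  simp only [h, map_eq_zero_iff _ (IsFractionRing.injective (PR k) _)]
  refine ⟨fun H m hm => not_lt.1 fun l => ?_, fun H n hn => sum_eq_zero fun m hm => ?_⟩
  · have := congrArg (coeff m) (H _ (neg_lt_neg l))
    rw [coeff_sum, sum_eq_single m (fun b _ hb => by simp [hb]) (by simp [hm])] at this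
    simp [mem_support_iff.1 hm] at this
  · have := H m (mem_filter.1 hm).1
    have := (mem_filter.1 hm).2
    omega

lemma vA_ne (w : Fin k → ℤ) {P : PR k} (h : P ≠ 0) : vA w P ≠ 0 := fun e => by
  obtain ⟨m, hm⟩ := support_nonempty.2 h
  have := (vA_le w P (∑ i, m i * w i - 1)).1 (e ▸ zero_le) m hm
  omega

lemma vA_supp (w : Fin k → ℤ) {P Q : PR k} (h : Q.support ⊆ P.support) : vA w Q ≤ vA w P := by
  by_cases h0 : P = 0
  · simp [h0] at h; simp [h]
  · rw [← exp_log (vA_ne w h0), vA_le]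
    exact fun m hm => (vA_le w P _).1 (exp_log (vA_ne w h0)).ge m (h hm)

lemma newton {P Q : PR k} (h : ∀ w, vA w P ≤ vA w Q) {m : Fin k →₀ ℕ} (hm : m ∈ P.support)
    (t : Fin k → ℝ) : ∃ m' ∈ Q.support, ∑ i, m i * t i ≤ ∑ i, m' i * t i := by
  by_contra hn
  push Not at hn
  have : ∀ᶠ j : ℝ in Filter.atTop, ∀ m' ∈ Q.support,
      ∑ i, (m i : ℝ) < j * (∑ i, m i * t i - ∑ i, m' i * t i) :=
    (Filter.eventually_all_finset _).2 fun m' hm' =>
      (Filter.tendsto_id.atTop_mul_const (sub_pos.2 (hn m' hm'))).eventually_gt_atTop _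
  obtain ⟨j, hj⟩ := this.exists
  let w : Fin k → ℤ := fun i => ⌊j * t i⌋
  have := (vA_le w P (∑ i, m i * w i - 1)).1 ((h w).trans ((vA_le w Q _).2 fun m' hm' => ?_)) m hm
  · omega
  have h1 := hj m' hm'
  have h2 : ∑ i, (m' i : ℝ) * w i ≤ ∑ i, m' i * (j * t i) :=
    sum_le_sum fun i _ => mul_le_mul_of_nonneg_left (Int.floor_le _) (Nat.cast_nonneg _)
  have h3 : ∑ i, m i * (j * t i - 1) ≤ ∑ i, (m i : ℝ) * w i :=
    sum_le_sum fun i _ => mul_le_mul_of_nonneg_left (Int.sub_one_lt_floor _).le (Nat.cast_nonneg _)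
  simp only [mul_sub, sum_sub_distrib, mul_left_comm _ j, ← mul_sum, mul_one] at h1 h2 h3
  have h4 : ((∑ i, m' i * w i : ℤ) : ℝ) < (∑ i, m i * w i : ℤ) := by push_cast; linarith
  have : ∑ i, m' i * w i < ∑ i, m i * w i := by exact_mod_cast h4
  omega

/-- The size of the monomials of `F`. -/
noncomputable def sg (F : PR k) (t : Fin k → ℝ) : ℝ := ∑ m ∈ F.support, Real.exp (∑ i, m i * t i)

lemma sg_pow (F : PR k) (t : Fin k → ℝ) (n : ℕ) :
    ∀ m ∈ (F ^ n).support, Real.exp (∑ i, m i * t i) ≤ sg F t ^ n := by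
  induction n with
  | zero =>
    intro m hm
    rw [pow_zero, support_one, mem_singleton] at hm
    simp [hm]
  | succ n ih =>
    intro m hm
    rw [pow_succ] at hm ⊢
    obtain ⟨a, ha, b, hb, rfl⟩ := mem_add.1 (support_mul _ _ hm)
    simp only [Finsupp.add_apply, Nat.cast_add, add_mul, sum_add_distrib, Real.exp_add]
    exact mul_le_mul (ih a ha) (single_le_sum (f := fun m : Fin k →₀ ℕ =>
      Real.exp (∑ i, m i * t i)) (fun _ _ => (Real.exp_pos _).le) hb) (Real.exp_pos _).le
      (pow_nonneg (sum_nonneg fun _ _ => (Real.exp_pos _).le) _)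

lemma eval_le {P F : PR k} {n : ℕ} (h : ∀ w, vA w P ≤ vA w (F ^ n)) {y : Fin k → ℂ}
    {t : Fin k → ℝ} (ht : ∀ i, ‖y i‖ = Real.exp (t i)) :
    ‖eval y P‖ ≤ (∑ m ∈ P.support, ‖coeff m P‖) * sg F t ^ n := by
  rw [eval_eq', sum_mul]
  refine (norm_sum_le _ _).trans (sum_le_sum fun m hm => ?_)
  obtain ⟨m', h1, h2⟩ := newton h hm t
  rw [norm_mul, norm_prod]
  refine mul_le_mul_of_nonneg_left (le_trans (le_of_eq ?_)
    ((Real.exp_le_exp.2 h2).trans (sg_pow F t n m' h1))) (norm_nonneg _)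
  simp [Real.exp_sum, ht, Real.exp_nat_mul]

lemma root_le {G : ℂ} {d : ℕ} {p : ℕ → ℂ} {c : ℕ → ℝ} {s : ℝ} (hs : 0 < s) (hc : ∀ i, 0 ≤ c i)
    (h : G ^ d + ∑ i ∈ range d, p i * G ^ i = 0) (hp : ∀ i < d, ‖p i‖ ≤ c i * s ^ (d - i)) :
    ‖G‖ ≤ (1 + ∑ i ∈ range d, c i) * s := by
  by_contra hn
  push Not at hn
  have c0 : 0 ≤ ∑ i ∈ range d, c i := sum_nonneg fun i _ => hc i
  have h1 : s ≤ ‖G‖ := by nlinarith
  have G0 := hs.trans_le h1
  have h2 : ‖G‖ ^ d * ‖G‖ ≤ ∑ i ∈ range d, c i * s * ‖G‖ ^ d := by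
    rw [← norm_pow, eq_neg_of_add_eq_zero_left h, norm_neg]
    refine (mul_le_mul_of_nonneg_right (norm_sum_le _ _) G0.le).trans ?_
    rw [sum_mul]
    refine sum_le_sum fun i hi => ?_
    obtain ⟨j, rfl⟩ := Nat.exists_eq_add_of_lt (mem_range.1 hi)
    have := hp i (mem_range.1 hi)
    rw [add_assoc, Nat.add_sub_cancel_left] at this
    rw [← norm_neg (∑ i ∈ range (i + j + 1), p i * G ^ i), ← eq_neg_of_add_eq_zero_left h,
      norm_mul, norm_pow, norm_pow]
    calc _ ≤ c i * (‖G‖ ^ j * s) * ‖G‖ ^ i * ‖G‖ := by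
          gcongr
          refine this.trans (mul_le_mul_of_nonneg_left ?_ (hc i))
          rw [pow_succ]; gcongr
      _ = _ := by ring
  rw [← sum_mul, ← sum_mul, mul_comm] at h2
  nlinarith [le_of_mul_le_mul_right h2 (pow_pos G0 d)]

variable {K : Type} [Field K] [Algebra ℂ K]

/-- Valuation rings over a monomial valuation. -/
def TorV (u : Fin k → K) (V : ValuationSubring K) : Prop :=
  ∃ w, ∀ P Q : PR k, vA w P ≤ vA w Q → aeval u P / aeval u Q ∈ V

variable {u : Fin k → K} [Algebra (PR k) K] (L : Type) [Field L] [Algebra (PR k) L]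
  [IsFractionRing (PR k) L] [Algebra L K] [IsScalarTower (PR k) L K] [FiniteDimensional L K]

/-- The monomial valuation on the field of fractions. -/
noncomputable def vL (w : Fin k → ℤ) : Valuation L ℤᵐ⁰ :=
  (vA w).extendToLocalization (S := nonZeroDivisors (PR k))
    (fun _ h => vA_ne w (nonZeroDivisors.ne_zero h)) L

lemma vL_map (w : Fin k → ℤ) (P : PR k) : vL L w (algebraMap _ L P) = vA w P :=
  Valuation.extendToLocalization_apply_map_apply ..

lemma noeth {L : Type} [Field L] (v : Valuation L ℤᵐ⁰) : IsNoetherianRing v.valuationSubring := by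
  by_cases h : v.IsNontrivial
  · infer_instance
  · have : v.valuationSubring = ⊤ := by
      rw [eq_top_iff]
      intro x _
      by_contra hx
      refine h ((Valuation.isNontrivial_iff_exists_lt_one v).2 ⟨x⁻¹, fun e => hx ?_, ?_⟩)
      · rw [inv_eq_zero.1 e]; exact zero_mem _
      · rw [map_inv₀]; exact inv_lt_one_of_one_lt₀ (not_le.1 hx)
    rw [this]
    infer_instance

omit [FiniteDimensional L K] in
lemma tor_iff (hA : ∀ a, algebraMap (PR k) K a = aeval u a) (w : Fin k → ℤ)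
    (V : ValuationSubring K) : (∀ P Q : PR k, vA w P ≤ vA w Q → aeval u P / aeval u Q ∈ V) ↔
      ∀ r : (vL L w).valuationSubring, algebraMap _ K r ∈ V := by
  have e : ∀ P Q : PR k, algebraMap L K (algebraMap _ L P / algebraMap _ L Q) =
      aeval u P / aeval u Q := fun P Q => by
    rw [map_div₀, ← IsScalarTower.algebraMap_apply, ← IsScalarTower.algebraMap_apply, hA, hA]
  refine ⟨fun h ⟨r, hr⟩ => ?_, fun h P Q hPQ => e P Q ▸ h ⟨_, ?_⟩⟩
  · obtain ⟨P, Q, hQ, rfl⟩ := IsFractionRing.div_surjective (A := PR k) r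
    rw [Valuation.mem_valuationSubring_iff, map_div₀, vL_map, vL_map,
      div_le_one₀ (zero_lt_iff.2 (vA_ne w (nonZeroDivisors.ne_zero hQ)))] at hr
    exact (e P Q).symm ▸ h P Q hr
  · change vL L w (_ / _) ≤ 1
    rw [map_div₀, vL_map, vL_map]
    exact div_le_one_of_le₀ hPQ zero_le

omit [Algebra (PR k) K] in
lemma der_aeval {E : Derivation ℂ K K} {i : Fin k} (hE : ∀ l, E (u l) = if i = l then u l else 0)
    (P : PR k) : E (aeval u P) = aeval u (X i * pderiv i P) := by
  induction P using MvPolynomial.induction_on with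
  | C c => simp
  | add p q hp hq => simp only [map_add, hp, hq, mul_add]
  | mul_X p l hp =>
    simp only [map_mul, aeval_X, Derivation.leibniz, hp, hE, smul_eq_mul, map_add, pderiv_X,
      mul_add, Pi.single_apply]
    by_cases e : i = l
    · subst e; simp; ring
    · simp [e, Ne.symm e]; ring

omit [Algebra (PR k) K] in
lemma TorV.const {V : ValuationSubring K} (h : TorV u V) (c : ℂ) : algebraMap ℂ K c ∈ V := by
  obtain ⟨w, h⟩ := h
  simpa using h (C c) 1 (vA_supp w (by
    rw [support_one]; exact (support_monomial_subset (s := 0) (a := c))))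

include L in
theorem tor_log (hA : ∀ a, algebraMap (PR k) K a = aeval u a) {V : ValuationSubring K}
    (h : TorV u V) {E : Derivation ℂ K K} {i : Fin k}
    (hE : ∀ l, E (u l) = if i = l then u l else 0) (g : K) : E g / g ∈ V := by
  have hC := h.const
  obtain ⟨w, h⟩ := h
  have h1 : ∀ P, E (aeval u P) / aeval u P ∈ V := fun P => by
    rw [der_aeval hE]
    refine h _ _ (vA_supp w fun m hm => ?_)
    by_contra hn
    rw [P.as_sum, map_sum, mul_sum, mem_support_iff, coeff_sum] at hm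
    refine hm (sum_eq_zero fun b hb => ?_)
    rw [X_mul_pderiv_monomial, coeff_smul, coeff_monomial, if_neg fun e : b = m => hn (e ▸ hb),
      smul_zero]
  have h2 : ∀ r, E (algebraMap L K r) / algebraMap L K r ∈ V := fun r => by
    obtain ⟨P, Q, hQ, rfl⟩ := IsFractionRing.div_surjective (A := PR k) r
    rw [map_div₀, ← IsScalarTower.algebraMap_apply, ← IsScalarTower.algebraMap_apply, hA, hA]
    by_cases p0 : aeval u P = 0
    · simp [p0]
    by_cases q0 : aeval u Q = 0
    · simp [q0]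
    convert sub_mem (h1 P) (h1 Q) using 1
    simp only [E.leibniz_div, smul_eq_mul]
    field_simp
  have hR := (tor_iff L hA w V).1 h
  have := noeth (vL L w)
  have h3 := tame V L hR hC E (fun r => ?_) (fun g => ?_) fun c hc hc' g hg => ?_
  · simpa using hm_log V L hC E h2 V.one_mem (by simpa using h3) g
  · by_cases r0 : algebraMap L K r = 0
    · exact (show E (algebraMap L K r) = 0 by rw [r0, map_zero]) ▸ V.zero_mem
    · exact (div_mul_cancel₀ (E (algebraMap L K r)) r0) ▸ mul_mem (h2 r) (hR r)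
  · obtain ⟨q, q1, q2⟩ := (Algebra.IsAlgebraic.isAlgebraic (R := L) g).isIntegral
    obtain ⟨j, -, hj⟩ := (range (q.natDegree + 1)).exists_max_image
      (fun i => vL L w (q.coeff i)) ⟨0, by simp⟩
    have j0 : vL L w (q.coeff j) ≠ 0 := fun e => by
      simpa [e, q1.coeff_natDegree] using hj q.natDegree (by simp)
    have j1 : q.coeff j ≠ 0 := fun e => j0 (by rw [e, map_zero])
    obtain ⟨P, hP⟩ : q * Polynomial.C (q.coeff j)⁻¹ ∈
        Polynomial.lifts (algebraMap (vL L w).valuationSubring L) := by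
      rw [Polynomial.lifts_iff_coeff_lifts]
      refine fun n => ⟨⟨_, ?_⟩, rfl⟩
      change vL L w ((q * Polynomial.C (q.coeff j)⁻¹).coeff n) ≤ 1
      rw [Polynomial.coeff_mul_C, map_mul, map_inv₀,
        mul_inv_le_iff₀ (zero_lt_iff.2 j0), one_mul]
      by_cases hn : n < q.natDegree + 1
      · exact hj n (mem_range.2 hn)
      · simp [Polynomial.coeff_eq_zero_of_natDegree_lt (by omega : q.natDegree < n)]
    refine ⟨P, ?_, j, ?_⟩
    · rw [← Polynomial.aeval_map_algebraMap L, ← Polynomial.coe_mapRingHom, hP, map_mul,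
        Polynomial.aeval_def, q2, zero_mul]
    · rw [IsScalarTower.algebraMap_apply _ L K, ← Polynomial.coeff_map,
        ← Polynomial.coe_mapRingHom, hP]
      simp [j1]
  · by_cases g0 : g = 0
    · simp [g0]
    rw [← div_mul_cancel₀ (c * E g) g0, map_mul, mul_comm]
    exact mul_lt_one_of_lt_of_le hg ((V.valuation_le_one_iff _).2
      (hm_log V L hC E h2 ((V.valuation_le_one_iff _).1 hc.le) hc' g))

include L in
theorem newt (hA : ∀ a, algebraMap (PR k) K a = aeval u a) {g : K}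
    (hg : ∀ V, TorV u V → g ∈ V) : ∃ a : PR k, a ≠ 0 ∧ ∀ (F : PR k) (n : ℕ), F ≠ 0 → a ∣ F ^ n →
      ∃ c, 0 ≤ c ∧ ∀ (S : Subalgebra ℂ K) (χ : S →ₐ[ℂ] ℂ) (hu : ∀ i, u i ∈ S) (h : g ∈ S)
        (t : Fin k → ℝ), (∀ i, ‖χ ⟨u i, hu i⟩‖ = Real.exp (t i)) →
        ‖eval (fun i => χ ⟨u i, hu i⟩) F ^ n * χ ⟨g, h⟩‖ ≤ c * sg F t ^ n := by
  set q := minpoly L g with hq
  have hI : IsIntegral L g := (Algebra.IsAlgebraic.isAlgebraic g).isIntegral
  have h1 : ∀ w i, vL L w (q.coeff i) ≤ 1 := fun w i => by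
    rw [hq, minpoly.isIntegrallyClosed_eq_field_fractions' L (int_of_val
      (R := (vL L w).valuationSubring) fun V hV => hg V ⟨w, (tor_iff L hA w V).2 hV⟩),
      Polynomial.coeff_map]
    exact Subtype.prop (p := (· ∈ (vL L w).valuationSubring)) _
  obtain ⟨a, ha⟩ := IsLocalization.exist_integer_multiples (nonZeroDivisors (PR k))
    (range q.natDegree) q.coeff
  choose! b hb using ha
  refine ⟨a, nonZeroDivisors.ne_zero a.2, fun F n F0 ⟨e, he⟩ => ?_⟩
  let P : ℕ → PR k := fun i => e * b i * (F ^ n) ^ (q.natDegree - 1 - i)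
  have hP : ∀ i < q.natDegree, algebraMap _ L (P i) =
      algebraMap _ L ((F ^ n) ^ (q.natDegree - i)) * q.coeff i := fun i hi => by
    rw [show q.natDegree - i = q.natDegree - 1 - i + 1 by omega, pow_succ]
    simp only [P, map_mul, hb i (mem_range.2 hi), Algebra.smul_def]
    rw [he, map_mul]
    ring
  have h2 : (aeval u F ^ n * g) ^ q.natDegree +
      ∑ i ∈ range q.natDegree, aeval u (P i) * (aeval u F ^ n * g) ^ i = 0 := by
    have := minpoly.aeval L g
    rw [Polynomial.aeval_eq_sum_range, sum_range_succ, (minpoly.monic hI).coeff_natDegree, one_smul,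
      ← hq] at this
    rw [← mul_zero ((aeval u F ^ n) ^ q.natDegree), ← this, mul_add, mul_pow, add_comm, mul_sum]
    congr 1
    refine sum_congr rfl fun i hi => ?_
    have hi := mem_range.1 hi
    rw [← hA (P i), IsScalarTower.algebraMap_apply _ L K, hP i hi, map_mul,
      ← IsScalarTower.algebraMap_apply, hA, Algebra.smul_def, map_pow, map_pow,
      ← pow_sub_mul_pow (aeval u F ^ n) hi.le]
    ring
  refine ⟨1 + ∑ i ∈ range q.natDegree, ∑ m ∈ (P i).support, ‖coeff m (P i)‖, by positivity,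
    fun S χ hu h t ht => root_le (p := fun i => eval (fun i => χ ⟨u i, hu i⟩) (P i))
      (pow_pos (sum_pos (fun _ _ => Real.exp_pos _) (support_nonempty.2 F0)) n)
      (fun i => by positivity) ?_ fun i hi => ?_⟩
  · have e1 : ∀ Q : PR k, eval (fun i => χ ⟨u i, hu i⟩) Q =
        χ (aeval (fun i => (⟨u i, hu i⟩ : S)) Q) := fun Q => by
      rw [← aeval_eq_eval, ← comp_aeval_apply]
    have e2 : ∀ Q : PR k, (aeval (fun i => (⟨u i, hu i⟩ : S)) Q : S) = aeval u Q := fun Q =>
      comp_aeval_apply _ S.val Q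
    simp only [e1, ← map_pow χ, ← map_mul χ, ← map_sum χ, ← map_add χ]
    rw [← map_zero χ]
    congr 1
    ext
    push_cast
    simpa only [e2] using h2
  · rw [← pow_mul]
    refine eval_le (fun w => ?_) ht
    rw [pow_mul, ← vL_map L, ← vL_map L, hP i hi, map_mul]
    exact mul_le_of_le_one_right' (h1 w i)

end Pool.Agent.MP_c69980_ag.H60
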