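import Pool.Agent.MP_c69980_ag.H60.Model
import Pool.Agent.MP_c69980_ag.H60.Toric

/-!
Log-general type produces a function with poles only along ramified or removed divisors that
dominates the coordinates of the torus.
-/

set_option autoImplicit false

namespace Pool.Agent.MP_c69980_ag.H60

open Finset MvPolynomial

variable {n k : ℕ} {K : Type} [Field K] [Algebra ℂ K]

/-- The centre of `V` meets `U`. -/
def Cen (U : Set (PS n)) (z : Fin n → K) (V : ValuationSubring K) : Prop :=
  ∃ (H : PR n) (d : ℕ) (j : Fin n), H.IsHomogeneous d ∧ z j ≠ 0 ∧ (∀ i, z i / z j ∈ V) ∧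
    V.valuation (aeval z H / z j ^ d) = 1 ∧ ∀ y ∈ zcl U, eval y.rep H ≠ 0 → y ∈ U

/-- Valuation rings unramified over the prime `p`. -/
def UnrV (u : Fin k → K) (p : PR k) (V : ValuationSubring K) : Prop :=
  (∀ a : PR k, aeval u a ∈ V) ∧ (∀ a, ¬ p ∣ a → V.valuation (aeval u a) = 1) ∧
    V.valuation (aeval u p) < 1 ∧ ∀ g, V.valuation g < 1 → V.valuation g ≤ V.valuation (aeval u p)

variable {u : Fin k → K} [Algebra (PR k) K] (L : Type) [Field L] [Algebra (PR k) L]
  [IsFractionRing (PR k) L] [Algebra L K] [IsScalarTower (PR k) L K] [FiniteDimensional L K]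

include L in
lemma unr_der (hA : ∀ a, algebraMap (PR k) K a = aeval u a) {V : ValuationSubring K} {p : PR k}
    (hp : Prime p) (h : UnrV u p V) {E : Derivation ℂ K K} {i : Fin k}
    (hE : ∀ l, E (u l) = if i = l then u l else 0) : ∀ g ∈ V, E g ∈ V := by
  have h1 : ∀ a : PR k, E (aeval u a) ∈ V := fun a => by rw [der_aeval hE]; exact h.1 _
  refine tame V L (R := PR k) (fun a => hA a ▸ h.1 a) (fun c => by simpa using h.1 (C c)) E
    (fun a => hA a ▸ h1 a) (fun g => ?_) (hm_unram V E h.2.2.1 (h1 p) h.2.2.2)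
  obtain ⟨P, p0, p1⟩ := (IsFractionRing.isAlgebraic_iff (PR k) L K).2
    (Algebra.IsAlgebraic.isAlgebraic g)
  obtain ⟨e, Q, q1, rfl⟩ := WfDvdMonoid.max_power_factor' p0
    (x := Polynomial.C p) (by rw [Polynomial.isUnit_C]; exact hp.not_isUnit)
  rw [Polynomial.C_dvd_iff_dvd_coeff] at q1
  push Not at q1
  obtain ⟨i, hi⟩ := q1
  refine ⟨Q, ?_, i, by rw [hA]; exact h.2.1 _ hi⟩
  rw [map_mul, map_pow, Polynomial.aeval_C, IsScalarTower.algebraMap_apply _ L K] at p1
  exact (mul_eq_zero.1 p1).resolve_left (pow_ne_zero _ (by simpa using hp.ne_zero))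

include L in
theorem alg (hA : ∀ a, algebraMap (PR k) K a = aeval u a) (hu : IsTranscendenceBasis ℂ u)
    {U : Set (PS n)} {z : Fin n → K} (hz : GenPt U z) (hG : LogGT U z) :
    ∃ γ : K, γ ≠ 0 ∧ ∀ (s : Finset (Fin k)) (V : ValuationSubring K),
      (TorV u V ∨ (Cen U z V ∧ ∃ p, Prime p ∧ UnrV u p V)) → γ * ∏ i ∈ s, u i ∈ V := by
  classical
  obtain ⟨n', W, z', π, k', m, D, g, hW, hz', hk, hD, -, g0, hind, hx⟩ := hG
  obtain rfl : k' = k := by
    have := hu.cardinalMk_eq_trdeg
    rw [hk] at this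
    simpa using this.symm
  have u0 : ∀ l, u l ≠ 0 := fun l e => hu.1.transcendental l (e ▸ isAlgebraic_zero)
  choose E hE using fun i => der_exists (M := K) hu fun l => if i = l then u l else 0
  let A : K := ((Matrix.of fun i l => D i (u l) / u l).det)⁻¹
  have hA0 : (Matrix.of fun i l => D i (u l) / u l).det ≠ 0 := fun e => det_ne hu hD (by
    have := Matrix.det_mul_row u (Matrix.of fun i l => D i (u l) / u l)
    rw [e, mul_zero] at this
    rw [← this]
    congr 1
    ext i l
    simp only [Matrix.of_apply]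
    rw [mul_div_cancel₀ _ (u0 l)])
  have hdet : ∀ f : Fin k' → K, A * (Matrix.of fun i l => D i (f l)).det =
      (Matrix.of fun i l => E i (f l)).det := fun f => by
    rw [inv_mul_eq_iff_eq_mul₀ hA0, ← Matrix.det_mul]
    congr 1
    ext i l
    have hs : ∀ (G : Fin k' → Derivation ℂ K K) (g : K), (∑ i, G i) g = ∑ i, G i g := by
      intro G g
      have := congrFun (map_sum Derivation.coeFnAddMonoidHom G Finset.univ) g
      rwa [Finset.sum_apply] at this
    have : D i = ∑ j, (D i (u j) / u j) • E j := der_ext hu fun j => by simp [hs, hE, u0]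
    rw [Matrix.mul_apply, Matrix.of_apply]
    conv_lhs => rw [this, hs]
    rfl
  have hz0 : z' ≠ 0 := by
    rintro rfl
    obtain ⟨P, hP⟩ : W.Nonempty := by
      by_contra hS
      simpa using (hz'.1 1 0 (isHomogeneous_one _ _)).2 fun P hP => (hS ⟨P, hP⟩).elim
    obtain ⟨i, hi⟩ := Function.ne_iff.1 P.rep_nonzero
    exact hi (by simpa using (hz'.1 (X i) 1 (isHomogeneous_X _ _)).1 (by simp) P hP)
  let good : ValuationSubring K → Prop := fun O =>
    TorV u O ∨ (Cen U z O ∧ ∃ p, Prime p ∧ UnrV u p O)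
  have hC : ∀ O, good O → ∀ c, algebraMap ℂ K c ∈ O := by
    rintro O (h | ⟨-, p, -, h⟩) c
    · exact h.const c
    · simpa using h.1 (C c)
  have h1 : ∀ i O, good O → A ^ m * g i ∈ O := by
    intro i O hO
    obtain ⟨P, ⟨x, hPx⟩, hP, hP2⟩ := centre2 (AlgHom.id ℂ K) O (hC O hO) z' hz0
    simp only [AlgHom.id_apply] at hP hP2
    have hPW : ∀ x, P x → x ∈ W := by
      intro x hPx
      obtain ⟨S, hS, rfl⟩ := hW
      intro F hF
      obtain ⟨d, hd⟩ := hS F hF
      exact (hP x hPx).1 F d hd ((hz'.1 F d hd).mpr fun P hP => hP F hF)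
    rcases hO with hO | ⟨⟨H, d, j', hH, hj', hw', hu1, hU⟩, p, hp, hO⟩
    · have hlog : ∀ j f, E j f / f ∈ O := fun j => tor_log L hA hO (hE j)
      obtain ⟨-, -, -, s, r, G, e, hmax, hs0, -, -, -, hg⟩ := hx x (hPW x hPx)
      obtain ⟨b, hb, e1⟩ := nak hz' (hPW x hPx) D s hmax _ (hg i)
      have hs1 : ∀ l, (s l : K) ≠ 0 := fun l h => hs0 l (Subtype.ext h)
      have e2 : A * (Matrix.of fun i l => D i (s l)).det = (∏ l, (s l : K)) *
          (Matrix.of fun i l => E i (s l) / s l).det := by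
        rw [hdet, ← Matrix.det_mul_row]
        congr 1
        ext i l
        simp only [Matrix.of_apply]
        rw [mul_div_cancel₀ _ (hs1 l)]
      have e3 : A ^ m * g i = b * ((∏ l ∈ rᶜ, (s l : K)) *
          (Matrix.of fun i l => E i (s l) / s l).det) ^ m := by
        have hr : (∏ l ∈ r, (s l : K)) ^ m ≠ 0 :=
          pow_ne_zero _ (Finset.prod_ne_zero_iff.mpr fun l _ => hs1 l)
        apply mul_left_cancel₀ hr
        rw [mul_left_comm, e1, mul_left_comm, ← mul_pow, e2, mul_left_comm, ← mul_pow,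
          ← mul_assoc, Finset.prod_mul_prod_compl]
      rw [e3]
      refine mul_mem ((hP x hPx).2 _ hb) (pow_mem (mul_mem
        (prod_mem fun l _ => (hP x hPx).2 _ (s l).2) ?_) _)
      exact det_mem O.toSubring _ fun i l => hlog i _
    · have hEO' : ∀ j, ∀ f ∈ O, E j f ∈ O := fun j => unr_der L hA hp hO (hE j)
      have hy : ∀ y ∈ zcl U, ∀ (G : MvPolynomial (Fin n) ℂ) (d : ℕ), G.IsHomogeneous d →
          aeval z G = 0 → eval y.rep G = 0 := fun y hy G e hG h =>
        mem_zcl.mp hy G e hG ((hz.1 G e hG).mp h)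
      obtain ⟨-, hx1, hx2, -⟩ := hx x (hPW x hPx)
      obtain ⟨j, hj⟩ := Function.ne_iff.mp (π x).rep_nonzero
      have hj'' : eval (π x).rep (X j : MvPolynomial (Fin n) ℂ) ≠ 0 := by simpa using hj
      have hzj : z j ≠ 0 := fun h => hj'' (hy _ hx1 _ _ (isHomogeneous_X _ j) (by simpa using h))
      have hw : ∀ i, z i / z j ∈ locRing z' x := fun i => (hx2 _ (Algebra.subset_adjoin
        ⟨X i, X j, 1, isHomogeneous_X _ _, isHomogeneous_X _ _, hj'', by simp⟩)).1
      have hu' : aeval z H / z j ^ d ∈ locRing z' x := (hx2 _ (Algebra.subset_adjoin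
        ⟨H, X j ^ d, d, hH, isHomogeneous_X_pow j d, by simpa using fun h => absurd h hj,
          by simp⟩)).1
      have hu2 : O.valuation (aeval z H / z j ^ d) = 1 := by
        have a1 := (O.valuation_le_one_iff _).2 (hw' j)
        have a2 := (O.valuation_le_one_iff _).2 ((hP x hPx).2 _ (hw j'))
        rw [map_div₀, div_le_one₀ (by simpa [zero_lt_iff] using hj')] at a1
        rw [map_div₀, div_le_one₀ (by simpa [zero_lt_iff] using hzj)] at a2
        rw [← hu1, map_div₀, map_div₀, map_pow, map_pow, le_antisymm a1 a2]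
      have hH0 : aeval z H ≠ 0 := fun h => by simp [h] at hu1
      obtain ⟨x2, hPx2, hw2, hu2⟩ := hP2 x hPx n _ hw _ hu' hu2
      obtain ⟨-, hy1, hy2, s, r, G, e, -, hs0, -, hG0, hG, hg⟩ := hx x2 (hPW x2 hPx2)
      have hyU : π x2 ∈ U := hU _ hy1
        (eval_ne_of_dom (hy _ hy1) _ (fun v hv => (hy2 v hv).2) hH hH0 hzj hw2 hu2)
      have hs := ((hG x2 (hPW x2 hPx2) hG0).2).mp hyU
      have hs1 : ∏ j ∈ r, (s j : K) ≠ 0 :=
        Finset.prod_ne_zero_iff.mpr fun j _ h => hs0 j (Subtype.ext h)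
      have h2 : g i ∈ pluri z' D m x2 := by
        have := Submodule.smul_mem _ (⟨_, hs⟩ ^ m : locRing z' x2) (hg i)
        rwa [Subalgebra.smul_def, smul_eq_mul, SubmonoidClass.coe_pow, ← mul_assoc, ← mul_pow,
          inv_mul_cancel₀ hs1, one_pow, one_mul] at this
      generalize g i = w at h2
      induction h2 using Submodule.span_induction with
      | mem w hw =>
        obtain ⟨f, hf, rfl⟩ := hw
        rw [show A ^ m = ∏ _ : Fin m, A by simp, ← Finset.prod_mul_distrib]
        refine prod_mem fun j _ => ?_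
        rw [hdet]
        exact det_mem O.toSubring _ fun i l => hEO' i _ ((hP x2 hPx2).2 _ (hf j l))
      | zero => simp
      | add w w' _ _ hw hw' => rw [mul_add]; exact add_mem hw hw'
      | smul r w _ hw =>
        rw [Subalgebra.smul_def, smul_eq_mul, mul_left_comm]
        exact mul_mem ((hP x2 hPx2).2 _ r.2) hw
  let O : Subalgebra ℂ K :=
    { carrier := {g | ∀ V, good V → g ∈ V}
      mul_mem' := fun a b V h => mul_mem (a V h) (b V h)
      add_mem' := fun a b V h => add_mem (a V h) (b V h)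
      algebraMap_mem' := fun c V h => hC V h c }
  have h2 : ∀ x : K, ∃ y : O, y ≠ 0 ∧ (y : K) * x ∈ O := fun x => by
    have hb := hind.isTranscendenceBasis_of_trdeg_le_of_finite (by simp [hk])
    have a1 : Algebra.adjoin ℂ (Set.range fun i : Fin k' => g i.succ / g 0) ≤
        (Subalgebra.algebraicClosure O K).restrictScalars ℂ := by
      rw [Algebra.adjoin_le_iff]
      rintro _ ⟨i, rfl⟩
      have n0 : A ^ m * g 0 ≠ 0 := mul_ne_zero (pow_ne_zero _ (inv_ne_zero hA0)) g0
      refine IsAlgebraic.of_smul (y := (⟨_, h1 0⟩ : O))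
        (mem_nonZeroDivisors_of_ne_zero fun e => n0 (congrArg Subtype.val e)) ?_
      rw [Subalgebra.smul_def, smul_eq_mul, mul_assoc, mul_div_cancel₀ _ g0]
      exact isAlgebraic_algebraMap (⟨_, h1 i.succ⟩ : O)
    have a2 : IsAlgebraic (Subalgebra.algebraicClosure O K) x :=
      (hb.isAlgebraic.isAlgebraic x).tower_top_of_subalgebra_le a1
    obtain ⟨y, y0, hy⟩ := (a2.restrictScalars O).exists_integral_multiple
    exact ⟨y, y0, fun V hV => val_int V (fun r : O => r.2 V hV) hy⟩
  choose y y0 hy using h2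
  refine ⟨∏ s : Finset (Fin k'), y (∏ i ∈ s, u i),
    prod_ne_zero_iff.2 fun s _ e => y0 _ (Subtype.ext e), fun s V hV => ?_⟩
  rw [← prod_erase_mul _ _ (mem_univ s), mul_assoc]
  exact mul_mem (prod_mem fun t _ => (y _).2 V hV) (hy _ V hV)

end Pool.Agent.MP_c69980_ag.H60
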