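import Pool.Agent.MP_c69980_ag.H60.Tor

/-!
Splitting the character lattice; an irreducible polynomial stays squarefree.
-/

set_option autoImplicit false

namespace Pool.Agent.MP_c69980_ag.H60

open Finset MvPolynomial

/-- Exponent vectors as integer vectors. -/
def toZ {n : ℕ} (m : Fin n →₀ ℕ) : Fin n → ℤ := fun i => m i

/-- Nonnegative integer vectors as exponent vectors. -/
noncomputable def toN {n : ℕ} (γ : Fin n → ℤ) : Fin n →₀ ℕ :=
  Finsupp.equivFunOnFinite.symm fun l => (γ l).toNat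

lemma toZ_toN {n : ℕ} {γ : Fin n → ℤ} (h : ∀ l, 0 ≤ γ l) : toZ (toN γ) = γ := by
  funext l; simp [toZ, toN, h l]

lemma toZ_add {n : ℕ} (a b : Fin n →₀ ℕ) : toZ (a + b) = toZ a + toZ b := by
  funext l; simp [toZ]

lemma toZ_inj {n : ℕ} {a b : Fin n →₀ ℕ} (h : toZ a = toZ b) : a = b := by
  ext l; simpa [toZ] using congrFun h l

lemma prod_pow_eq {V : Type*} [CommRing V] {n p : ℕ} {e : (Fin n → ℤ) → V} (e0 : e 0 = 1)
    (ea : ∀ m m', e (m + m') = e m * e m') (h : (Fin p → ℤ) →+ (Fin n → ℤ)) (m : Fin p →₀ ℕ) :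
    (m.prod fun i k => e (h (Pi.single i 1)) ^ k) = e (h (toZ m)) := by
  induction m using Finsupp.induction_linear with
  | zero => rw [show toZ (0 : Fin p →₀ ℕ) = 0 from rfl]; simp [e0]
  | add a b ha hb =>
    rw [Finsupp.prod_add_index' (by simp) (by simp [pow_add]), ha, hb, toZ_add, map_add, ea]
  | single l k =>
    rw [Finsupp.prod_single_index (by simp)]
    induction k with
    | zero => rw [Finsupp.single_zero, show toZ (0 : Fin p →₀ ℕ) = 0 from rfl]; simp [e0]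
    | succ k ih =>
      rw [pow_succ, ih, Finsupp.single_add, toZ_add, map_add, ea]
      congr 3
      funext i
      simp [toZ, Finsupp.single_apply, Pi.single_apply, eq_comm]

lemma split {n : ℕ} (Λ : Submodule ℤ (Fin n → ℤ))
    (hsat : ∀ m (j : ℕ), 0 < j → j • m ∈ Λ → m ∈ Λ) :
    ∃ (p : ℕ) (χ : (Fin n → ℤ) →+ (Fin p → ℤ)) (sec : (Fin p → ℤ) →+ (Fin n → ℤ)),
      (∀ γ, χ (sec γ) = γ) ∧ ∀ m, m ∈ Λ ↔ χ m = 0 := by
  have : Module.IsTorsionFree ℤ ((Fin n → ℤ) ⧸ Λ) := by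
    rw [Module.isTorsionFree_iff_smul_eq_zero]
    intro r x hx
    obtain ⟨m, rfl⟩ := Submodule.Quotient.mk_surjective Λ x
    rw [← Submodule.Quotient.mk_smul, Submodule.Quotient.mk_eq_zero] at hx
    rw [Submodule.Quotient.mk_eq_zero]
    by_cases hr : r = 0
    · exact Or.inl hr
    · refine Or.inr (hsat m r.natAbs (Int.natAbs_pos.2 hr) ?_)
      rw [← natCast_zsmul]
      rcases Int.natAbs_eq r with e | e
      · rw [← e]; exact hx
      · have : (r.natAbs : ℤ) = -r := by omega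
        rw [this, neg_smul]; exact Λ.neg_mem hx
  let b := Module.finBasis ℤ ((Fin n → ℤ) ⧸ Λ)
  obtain ⟨s, hs⟩ := Module.projective_lifting_property Λ.mkQ (b.equivFun.symm.toLinearMap)
    Λ.mkQ_surjective
  refine ⟨_, (b.equivFun.toLinearMap ∘ₗ Λ.mkQ).toAddMonoidHom, s.toAddMonoidHom, fun γ => ?_,
    fun m => ?_⟩
  · have := LinearMap.congr_fun hs γ
    simp only [LinearMap.comp_apply] at this
    simp only [LinearMap.toAddMonoidHom_coe, LinearMap.comp_apply, this]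
    exact b.equivFun.apply_symm_apply γ
  · simp only [LinearMap.toAddMonoidHom_coe, LinearMap.comp_apply, LinearEquiv.coe_coe,
      EmbeddingLike.map_eq_zero_iff, Submodule.mkQ_apply, Submodule.Quotient.mk_eq_zero]

variable {k K Ω : Type*} [Field k] [Field K] [Field Ω] [Algebra K Ω] {n p : ℕ}

/-- The data of a split lattice of exponentials. -/
structure Lat (j : k →+* K) (E : (Fin n → ℤ) → Ω) (EK : (Fin n → ℤ) → K)
    (χ : (Fin n → ℤ) →+ (Fin p → ℤ)) (sec : (Fin p → ℤ) →+ (Fin n → ℤ)) : Prop where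
  e0 : E 0 = 1
  ea : ∀ m m', E (m + m') = E m * E m'
  hs : ∀ γ, χ (sec γ) = γ
  ek : ∀ m, algebraMap K Ω (EK m) * E (sec (χ m)) = E m
  gen : ∀ δ : MvPolynomial (Fin n) k,
    eval₂Hom ((algebraMap K Ω).comp j) (fun i => E (Pi.single i 1)) δ = 0 → δ = 0
  inj : ∀ Z : MvPolynomial (Fin p) K, aeval (fun l => E (sec (Pi.single l 1))) Z = 0 → Z = 0

/-- The coefficient of a class. -/
noncomputable def th (j : k →+* K) (EK : (Fin n → ℤ) → K) (χ : (Fin n → ℤ) →+ (Fin p → ℤ))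
    (δ : MvPolynomial (Fin n) k) (γ : Fin p → ℤ) : K :=
  ∑ m ∈ δ.support.filter (fun m => χ (toZ m) = γ), j (coeff m δ) * EK (toZ m)

/-- The polynomial regrouped by classes. -/
noncomputable def lf (j : k →+* K) (EK : (Fin n → ℤ) → K) (χ : (Fin n → ℤ) →+ (Fin p → ℤ))
    (δ : MvPolynomial (Fin n) k) (ν : Fin p → ℤ) : MvPolynomial (Fin p) K :=
  ∑ γ ∈ δ.support.image (fun m => χ (toZ m)), monomial (toN (γ + ν)) (th j EK χ δ γ)

variable {j : k →+* K} {E : (Fin n → ℤ) → Ω} {EK : (Fin n → ℤ) → K}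
  {χ : (Fin n → ℤ) →+ (Fin p → ℤ)} {sec : (Fin p → ℤ) →+ (Fin n → ℤ)}

namespace Lat

lemma ne (h : Lat j E EK χ sec) (m : Fin n → ℤ) : E m ≠ 0 := by
  have := h.ea m (-m)
  rw [add_neg_cancel, h.e0] at this
  exact left_ne_zero_of_mul_eq_one this.symm

lemma ev_mon (h : Lat j E EK χ sec) (m : Fin n →₀ ℕ) (c : k) :
    eval₂Hom ((algebraMap K Ω).comp j) (fun i => E (Pi.single i 1)) (monomial m c) =
      algebraMap K Ω (j c) * E (toZ m) := by
  rw [eval₂Hom_monomial]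
  exact congrArg _ (prod_pow_eq h.e0 h.ea (AddMonoidHom.id _) m)

lemma mon_eq (h : Lat j E EK χ sec) (γ : Fin p →₀ ℕ) :
    mon (fun l => E (sec (Pi.single l 1))) γ = E (sec (toZ γ)) := prod_pow_eq h.e0 h.ea sec γ

lemma th_mul (h : Lat j E EK χ sec) (δ : MvPolynomial (Fin n) k) (γ : Fin p → ℤ) :
    algebraMap K Ω (th j EK χ δ γ) * E (sec γ) =
      ∑ m ∈ δ.support.filter (fun m => χ (toZ m) = γ),
        algebraMap K Ω (j (coeff m δ)) * E (toZ m) := by
  rw [th, map_sum, sum_mul]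
  refine sum_congr rfl fun m hm => ?_
  rw [← (mem_filter.1 hm).2, map_mul, mul_assoc, h.ek]

lemma th_ne (h : Lat j E EK χ sec) (δ : MvPolynomial (Fin n) k) {γ : Fin p → ℤ}
    (hγ : γ ∈ δ.support.image (fun m => χ (toZ m))) : th j EK χ δ γ ≠ 0 := by
  intro h0
  obtain ⟨m, hm, rfl⟩ := mem_image.1 hγ
  have e := h.th_mul δ (χ (toZ m))
  rw [h0, map_zero, zero_mul] at e
  simp only [← h.ev_mon, ← map_sum] at e
  have := congrArg (coeff m) (h.gen _ e.symm)
  rw [coeff_sum, sum_eq_single m] at this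
  · exact mem_support_iff.1 hm (by simpa using this)
  · intro b _ hb; simp [hb]
  · intro hn; exact (hn (mem_filter.2 ⟨hm, rfl⟩)).elim

lemma fiber (h : Lat j E EK χ sec) (δ : MvPolynomial (Fin n) k) (g : (Fin p → ℤ) → k) :
    ∑ γ ∈ δ.support.image (fun m => χ (toZ m)),
      algebraMap K Ω (j (g γ)) * (algebraMap K Ω (th j EK χ δ γ) * E (sec γ)) =
    eval₂Hom ((algebraMap K Ω).comp j) (fun i => E (Pi.single i 1))
      (∑ m ∈ δ.support, monomial m (g (χ (toZ m)) * coeff m δ)) := by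
  simp only [h.th_mul, map_sum, h.ev_mon]
  rw [← sum_fiberwise_of_maps_to (s := δ.support) (g := fun m => χ (toZ m))
    (fun m hm => mem_image_of_mem (fun m => χ (toZ m)) hm)]
  refine sum_congr rfl fun γ _ => ?_
  rw [mul_sum]
  refine sum_congr rfl fun m hm => ?_
  rw [(mem_filter.1 hm).2, map_mul, map_mul, mul_assoc]

lemma aeval_lf (h : Lat j E EK χ sec) (δ : MvPolynomial (Fin n) k) {ν : Fin p → ℤ}
    (hν : ∀ m ∈ δ.support, ∀ l, 0 ≤ (χ (toZ m) + ν) l) :
    aeval (fun l => E (sec (Pi.single l 1))) (lf j EK χ δ ν) =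
      eval₂Hom ((algebraMap K Ω).comp j) (fun i => E (Pi.single i 1)) δ * E (sec ν) := by
  have e := h.fiber δ (fun _ => 1)
  simp only [map_one, one_mul, ← δ.as_sum] at e
  rw [← e, lf, map_sum, sum_mul]
  refine sum_congr rfl fun γ hγ => ?_
  obtain ⟨m, hm, rfl⟩ := mem_image.1 hγ
  rw [aeval_mon, h.mon_eq, toZ_toN (hν m hm), map_add, h.ea, mul_assoc]

lemma aeval_euler (h : Lat j E EK χ sec) (δ : MvPolynomial (Fin n) k) {ν : Fin p → ℤ}
    (hν : ∀ m ∈ δ.support, ∀ l, 0 ≤ (χ (toZ m) + ν) l) (l : Fin p) :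
    aeval (fun l => E (sec (Pi.single l 1))) (X l * pderiv l (lf j EK χ δ ν)) =
      eval₂Hom ((algebraMap K Ω).comp j) (fun i => E (Pi.single i 1))
        (∑ m ∈ δ.support, monomial m ((((χ (toZ m) + ν) l : ℤ) : k) * coeff m δ)) *
        E (sec ν) := by
  rw [← h.fiber δ (fun γ => (((γ + ν) l : ℤ) : k)), lf, map_sum, mul_sum, map_sum, sum_mul]
  refine sum_congr rfl fun γ hγ => ?_
  obtain ⟨m, hm, rfl⟩ := mem_image.1 hγ
  rw [X_mul_pderiv_monomial, map_nsmul, aeval_mon, h.mon_eq, toZ_toN (hν m hm), map_add, h.ea,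
    nsmul_eq_mul, map_intCast, map_intCast, ← congrFun (toZ_toN (hν m hm)) l]
  simp only [toZ, Int.cast_natCast, mul_assoc]

lemma coeff_lf (δ : MvPolynomial (Fin n) k) {ν : Fin p → ℤ}
    (hν : ∀ m ∈ δ.support, ∀ l, 0 ≤ (χ (toZ m) + ν) l) {γ : Fin p → ℤ}
    (hγ : γ ∈ δ.support.image (fun m => χ (toZ m))) :
    coeff (toN (γ + ν)) (lf j EK χ δ ν) = th j EK χ δ γ := by
  rw [lf, coeff_sum, sum_eq_single γ]
  · simp
  · intro b hb hne
    obtain ⟨m, hm, rfl⟩ := mem_image.1 hγ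
    obtain ⟨m', hm', rfl⟩ := mem_image.1 hb
    rw [coeff_monomial, if_neg]
    intro e
    have := congrArg toZ e
    rw [toZ_toN (hν m hm), toZ_toN (hν m' hm')] at this
    exact hne (add_right_cancel this)
  · intro hn; exact absurd hγ hn

lemma coeff_lf_mem (δ : MvPolynomial (Fin n) k) (ν : Fin p → ℤ) (R : Subring K)
    (h1 : ∀ c, j c ∈ R) (h2 : ∀ m, EK m ∈ R) (γ : Fin p →₀ ℕ) : coeff γ (lf j EK χ δ ν) ∈ R := by
  rw [lf, coeff_sum]
  refine R.sum_mem fun b _ => ?_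
  rw [coeff_monomial]
  split_ifs
  · exact R.sum_mem fun m _ => R.mul_mem (h1 _) (h2 _)
  · exact R.zero_mem

lemma shift (h : Lat j E EK χ sec) (δ : MvPolynomial (Fin n) k) {μ μ' : Fin n → ℤ}
    (hle : ∀ i, μ' i ≤ μ i) :
    eval₂Hom ((algebraMap K Ω).comp j) (fun i => E (Pi.single i 1)) δ * E μ =
    eval₂Hom ((algebraMap K Ω).comp j) (fun i => E (Pi.single i 1))
      (δ * monomial (toN (μ - μ')) 1) * E μ' := by
  rw [map_mul, h.ev_mon, toZ_toN (fun i => by simpa using hle i), mul_assoc, mul_assoc, ← h.ea]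
  simp

lemma laurent2 (h : Lat j E EK χ sec) {x y : Ω}
    (hx : ∃ δ μ, x = eval₂Hom ((algebraMap K Ω).comp j) (fun i => E (Pi.single i 1)) δ * E μ)
    (hy : ∃ δ μ, y = eval₂Hom ((algebraMap K Ω).comp j) (fun i => E (Pi.single i 1)) δ * E μ) :
    ∃ δ δ' μ, x = eval₂Hom ((algebraMap K Ω).comp j) (fun i => E (Pi.single i 1)) δ * E μ ∧
      y = eval₂Hom ((algebraMap K Ω).comp j) (fun i => E (Pi.single i 1)) δ' * E μ := by
  obtain ⟨δ, μ, rfl⟩ := hx
  obtain ⟨δ', μ', rfl⟩ := hy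
  exact ⟨_, _, μ ⊓ μ', h.shift δ fun i => inf_le_left (a := μ) i,
    h.shift δ' fun i => inf_le_right (b := μ') i⟩

/-- Elements that are Laurent polynomials up to a denominator. -/
def den (h : Lat j E EK χ sec) : Subring Ω where
  carrier := {x | ∃ d : K, d ≠ 0 ∧ (∃ δ μ, algebraMap K Ω d =
      eval₂Hom ((algebraMap K Ω).comp j) (fun i => E (Pi.single i 1)) δ * E μ) ∧
    ∃ δ μ, algebraMap K Ω d * x =
      eval₂Hom ((algebraMap K Ω).comp j) (fun i => E (Pi.single i 1)) δ * E μ}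
  mul_mem' := by
    rintro a b ⟨d, h0, ⟨δ, μ, h1⟩, δ1, μ1, h2⟩ ⟨d', h0', ⟨δ', μ', h1'⟩, δ1', μ1', h2'⟩
    refine ⟨d * d', mul_ne_zero h0 h0', ⟨δ * δ', μ + μ', ?_⟩, δ1 * δ1', μ1 + μ1', ?_⟩
    · rw [map_mul, map_mul, h.ea, h1, h1']; ring
    · rw [map_mul, map_mul, h.ea]; linear_combination (algebraMap K Ω d' * b) * h2 +
        (eval₂Hom ((algebraMap K Ω).comp j) (fun i => E (Pi.single i 1)) δ1 * E μ1) * h2'
  one_mem' := ⟨1, one_ne_zero, ⟨1, 0, by simp [h.e0]⟩, 1, 0, by simp [h.e0]⟩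
  add_mem' := by
    rintro a b ⟨d, h0, ⟨δ, μ, h1⟩, δ1, μ1, h2⟩ ⟨d', h0', ⟨δ', μ', h1'⟩, δ1', μ1', h2'⟩
    obtain ⟨a1, a2, μ2, e1, e2⟩ := h.laurent2 (x := algebraMap K Ω d' * (algebraMap K Ω d * a))
      (y := algebraMap K Ω d * (algebraMap K Ω d' * b))
      ⟨δ' * δ1, μ' + μ1, by rw [h2, h1', map_mul, h.ea]; ring⟩
      ⟨δ * δ1', μ + μ1', by rw [h2', h1, map_mul, h.ea]; ring⟩
    refine ⟨d * d', mul_ne_zero h0 h0', ⟨δ * δ', μ + μ', ?_⟩, a1 + a2, μ2, ?_⟩
    · rw [map_mul, map_mul, h.ea, h1, h1']; ring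
    · rw [map_mul, map_add]; linear_combination e1 + e2
  zero_mem' := ⟨1, one_ne_zero, ⟨1, 0, by simp [h.e0]⟩, 0, 0, by simp⟩
  neg_mem' := by
    rintro a ⟨d, h0, h1, δ1, μ1, h2⟩
    exact ⟨d, h0, h1, -δ1, μ1, by rw [map_neg]; linear_combination -h2⟩

lemma E_mem (h : Lat j E EK χ sec) (m : Fin n → ℤ) : E m ∈ h.den :=
  ⟨1, one_ne_zero, ⟨1, 0, by simp [h.e0]⟩, 1, m, by simp⟩

lemma k1_mem (h : Lat j E EK χ sec) {c : K}
    (hc : c ∈ Subfield.closure (Set.range j ∪ Set.range EK)) : algebraMap K Ω c ∈ h.den := by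
  have key : ∀ y ∈ Subring.closure (Set.range j ∪ Set.range EK), ∃ δ μ, algebraMap K Ω y =
      eval₂Hom ((algebraMap K Ω).comp j) (fun i => E (Pi.single i 1)) δ * E μ := by
    intro y hy
    induction hy using Subring.closure_induction with
    | mem x hx =>
      rcases hx with ⟨c, rfl⟩ | ⟨m, rfl⟩
      · exact ⟨C c, 0, by simp [h.e0]⟩
      · refine ⟨1, m - sec (χ m), ?_⟩
        apply mul_right_cancel₀ (h.ne (sec (χ m)))
        rw [h.ek, map_one, one_mul, ← h.ea, sub_add_cancel]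
    | zero => exact ⟨0, 0, by simp⟩
    | one => exact ⟨1, 0, by simp [h.e0]⟩
    | add x y _ _ hx hy =>
      obtain ⟨a1, a2, μ2, e1, e2⟩ := h.laurent2 hx hy
      exact ⟨a1 + a2, μ2, by rw [map_add, map_add, e1, e2]; ring⟩
    | neg x _ hx =>
      obtain ⟨δ, μ, e⟩ := hx
      exact ⟨-δ, μ, by rw [map_neg, map_neg, e]; ring⟩
    | mul x y _ _ hx hy =>
      obtain ⟨δ, μ, e⟩ := hx
      obtain ⟨δ', μ', e'⟩ := hy
      exact ⟨δ * δ', μ + μ', by rw [map_mul, map_mul, e, e', h.ea]; ring⟩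
  obtain ⟨y, hy, z, hz, rfl⟩ := Subfield.mem_closure_iff.1 hc
  by_cases h0 : z = 0
  · rw [h0, div_zero, map_zero]; exact zero_mem _
  · exact ⟨z, h0, key z hz, by rw [← map_mul, mul_div_cancel₀ _ h0]; exact key y hy⟩

lemma aeval_mem (h : Lat j E EK χ sec) {Z : MvPolynomial (Fin p) K}
    (hZ : ∀ γ, coeff γ Z ∈ Subfield.closure (Set.range j ∪ Set.range EK)) :
    aeval (fun l => E (sec (Pi.single l 1))) Z ∈ h.den := by
  rw [Z.as_sum, map_sum]
  refine Subring.sum_mem _ fun γ _ => ?_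
  rw [aeval_mon, h.mon_eq]
  exact mul_mem (h.k1_mem (hZ γ)) (h.E_mem _)

lemma dvd_aux (h : Lat j E EK χ sec) {F H : MvPolynomial (Fin n) k} (hF : Prime F) (hH : ¬ F ∣ H)
    {ν : Fin p → ℤ} {F' H' Z Z' : MvPolynomial (Fin p) K} (hX : ∀ l, ¬ X l ∣ F')
    (e1 : aeval (fun l => E (sec (Pi.single l 1))) F' =
      eval₂Hom ((algebraMap K Ω).comp j) (fun i => E (Pi.single i 1)) F * E (sec ν))
    (e2 : aeval (fun l => E (sec (Pi.single l 1))) H' =
      eval₂Hom ((algebraMap K Ω).comp j) (fun i => E (Pi.single i 1)) H * E (sec ν))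
    (hZ : ∀ γ, coeff γ Z ∈ Subfield.closure (Set.range j ∪ Set.range EK))
    (hZ' : ∀ γ, coeff γ Z' ∈ Subfield.closure (Set.range j ∪ Set.range EK))
    (e : H' * Z = F' * Z') : F' ∣ Z := by
  obtain ⟨d, h0, ⟨δ, μ, h1⟩, δ1, μ1, h2⟩ := h.aeval_mem hZ
  obtain ⟨d', h0', ⟨δ', μ', h1'⟩, δ1', μ1', h2'⟩ := h.aeval_mem hZ'
  set ev := eval₂Hom ((algebraMap K Ω).comp j) (fun i => E (Pi.single i 1)) with hev
  set aw := aeval (R := K) (fun l => E (sec (Pi.single l 1))) with haw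
  obtain ⟨a1, a2, μ2, f1, f2⟩ := h.laurent2 (x := algebraMap K Ω d' * (algebraMap K Ω d * aw Z))
    (y := algebraMap K Ω d * (algebraMap K Ω d' * aw Z'))
    ⟨δ' * δ1, μ' + μ1, by rw [h2, h1', map_mul, h.ea]; ring⟩
    ⟨δ * δ1', μ + μ1', by rw [h2', h1, map_mul, h.ea]; ring⟩
  rw [← hev] at f1 f2
  have e3 := congrArg aw e
  rw [map_mul, map_mul, e1, e2] at e3
  have e4 : H * a1 - F * a2 = 0 := by
    apply h.gen
    rw [← hev, map_sub, map_mul, map_mul]
    apply mul_right_cancel₀ (mul_ne_zero (h.ne μ2) (h.ne (sec ν)))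
    linear_combination (algebraMap K Ω d * algebraMap K Ω d') * e3 - ev H * E (sec ν) * f1 +
      ev F * E (sec ν) * f2
  obtain ⟨a3, rfl⟩ := (hF.dvd_or_dvd (⟨a2, sub_eq_zero.1 e4⟩ : F ∣ H * a1)).resolve_left hH
  let ν' : Fin p → ℤ := fun l => ∑ m ∈ a3.support, |χ (toZ m) l| + |ν l - χ μ2 l|
  have n1 : ∀ m ∈ a3.support, ∀ l, 0 ≤ (χ (toZ m) + ν') l := fun m hm l => by
    have := single_le_sum (f := fun m => |χ (toZ m) l|) (fun _ _ => abs_nonneg _) hm
    have := neg_abs_le (χ (toZ m) l)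
    have := abs_nonneg (ν l - χ μ2 l)
    simp only [Pi.add_apply, ν']
    linarith
  have n2 : ∀ l, 0 ≤ (ν + ν' - χ μ2) l := fun l => by
    have : 0 ≤ ∑ m ∈ a3.support, |χ (toZ m) l| := sum_nonneg fun _ _ => abs_nonneg _
    have := neg_abs_le (ν l - χ μ2 l)
    simp only [Pi.add_apply, Pi.sub_apply, ν']
    linarith
  have e5 : Z * monomial (toN (ν + ν' - χ μ2)) (d' * d) -
      F' * (lf j EK χ a3 ν' * C (EK μ2)) = 0 := by
    apply h.inj
    rw [← haw, map_sub, map_mul aw, map_mul aw, map_mul aw, e1, haw, h.aeval_lf _ n1, aeval_mon,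
      h.mon_eq, toZ_toN n2, algHom_C, ← haw, ← hev, map_mul]
    apply mul_right_cancel₀ (h.ne (sec (χ μ2)))
    have g1 : E (sec (ν + ν' - χ μ2)) * E (sec (χ μ2)) = E (sec ν) * E (sec ν') := by
      rw [← h.ea, ← h.ea, ← map_add, ← map_add, sub_add_cancel]
    rw [map_mul] at f1
    linear_combination (aw Z * algebraMap K Ω d' * algebraMap K Ω d) * g1 +
      E (sec ν) * E (sec ν') * f1 - ev F * E (sec ν) * ev a3 * E (sec ν') * h.ek μ2
  have hrel : IsRelPrime F' (monomial (toN (ν + ν' - χ μ2)) (d' * d)) := by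
    rw [monomial_eq]
    refine IsRelPrime.mul_right (IsUnit.isRelPrime_right
      ((IsUnit.mk0 _ (mul_ne_zero h0' h0)).map (C : K →+* MvPolynomial (Fin p) K))) ?_
    refine IsRelPrime.prod_right fun l _ => IsRelPrime.pow_right ?_
    exact (X_prime.irreducible.isRelPrime_iff_not_dvd.2 (hX l)).symm
  exact hrel.dvd_of_dvd_mul_right ⟨_, sub_eq_zero.1 e5⟩

end Lat

lemma dvd_descend (k₁ : Subfield K) {F H Z Z' : MvPolynomial (Fin p) K}
    (hF : ∀ γ, coeff γ F ∈ k₁) (hH : ∀ γ, coeff γ H ∈ k₁)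
    (hd : ∀ Y Y' : MvPolynomial (Fin p) K, (∀ γ, coeff γ Y ∈ k₁) → (∀ γ, coeff γ Y' ∈ k₁) →
      H * Y = F * Y' → F ∣ Y) (e : H * Z = F * Z') : F ∣ Z := by
  classical
  let b := Module.Basis.ofVectorSpace k₁ K
  let ψ : (K →ₗ[k₁] k₁) → MvPolynomial (Fin p) K → MvPolynomial (Fin p) K :=
    fun f Y => ∑ γ ∈ Y.support, monomial γ (f (coeff γ Y) : K)
  have c1 : ∀ f Y γ, coeff γ (ψ f Y) = f (coeff γ Y) := by
    intro f Y γ
    simp only [ψ]
    rw [coeff_sum, sum_eq_single γ]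
    · simp
    · intro b _ hb; simp [hb]
    · intro hγ; rw [notMem_support_iff.1 hγ]; simp
  have c2 : ∀ f A Y, (∀ γ, coeff γ A ∈ k₁) → ψ f (A * Y) = A * ψ f Y := by
    intro f A Y hA
    ext γ
    rw [c1, coeff_mul, coeff_mul, map_sum, AddSubmonoidClass.coe_finsetSum]
    refine sum_congr rfl fun x _ => ?_
    rw [c1]
    exact congrArg Subtype.val (f.map_smul ⟨_, hA x.1⟩ (coeff x.2 Y))
  have c3 : Z = ∑ i ∈ Z.support.biUnion (fun γ => (b.repr (coeff γ Z)).support),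
      C (b i) * ψ (b.coord i) Z := by
    ext γ
    simp only [coeff_sum, coeff_C_mul, c1]
    by_cases hγ : γ ∈ Z.support
    · conv_lhs => rw [← b.linearCombination_repr (coeff γ Z), Finsupp.linearCombination_apply]
      rw [Finsupp.sum_of_support_subset (b.repr (coeff γ Z))
        (subset_biUnion_of_mem (fun γ => (b.repr (coeff γ Z)).support) hγ) _ (by simp)]
      exact sum_congr rfl fun i _ => mul_comm _ _
    · rw [notMem_support_iff.1 hγ]; simp
  rw [c3]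
  refine dvd_sum fun i _ => Dvd.dvd.mul_left ?_ _
  refine hd _ (ψ (b.coord i) Z') (fun γ => ?_) (fun γ => ?_) ?_
  · rw [c1]; exact SetLike.coe_mem _
  · rw [c1]; exact SetLike.coe_mem _
  · rw [← c2 _ _ _ hH, e, c2 _ _ _ hF]

theorem Lat.sqfree [CharZero k] (h : Lat j E EK χ sec) {F : MvPolynomial (Fin n) k}
    (hF : Prime F) : ∃ ν : Fin p → ℤ, (∀ m ∈ F.support, ∀ l, 0 ≤ (χ (toZ m) + ν) l) ∧
      Squarefree (lf j EK χ F ν) ∧ ∀ l, ¬ X l ∣ lf j EK χ F ν := by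
  have hne := support_nonempty.2 hF.ne_zero
  let ν : Fin p → ℤ := fun l => -F.support.inf' hne fun m => χ (toZ m) l
  have n1 : ∀ m ∈ F.support, ∀ l, 0 ≤ (χ (toZ m) + ν) l := fun m hm l => by
    have := inf'_le (fun m => χ (toZ m) l) hm
    simp only [Pi.add_apply, ν]
    linarith
  have n2 : ∀ l, ∃ m ∈ F.support, (χ (toZ m) + ν) l = 0 := fun l => by
    obtain ⟨m, hm, e⟩ := exists_mem_eq_inf' hne fun m => χ (toZ m) l
    exact ⟨m, hm, by simp [ν, e]⟩
  have hX : ∀ l, ¬ X l ∣ lf j EK χ F ν := by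
    rintro l ⟨Y, hY⟩
    obtain ⟨m, hm, e⟩ := n2 l
    apply h.th_ne F (mem_image_of_mem _ hm)
    rw [← Lat.coeff_lf F n1 (mem_image_of_mem _ hm), hY, coeff_X_mul', if_neg]
    rw [Finsupp.notMem_support_iff]
    simp only [toN, Finsupp.coe_equivFunOnFinite_symm, e]
    rfl
  refine ⟨ν, n1, ?_, hX⟩
  have k1 := Lat.coeff_lf_mem (χ := χ) F ν
    (Subfield.closure (Set.range j ∪ Set.range EK)).toSubring
    (fun c => Subfield.subset_closure (Or.inl ⟨c, rfl⟩))
    (fun c => Subfield.subset_closure (Or.inr ⟨c, rfl⟩))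
  have h0 : lf j EK χ F ν ≠ 0 := fun e => by
    have := h.aeval_lf F n1
    rw [e, map_zero] at this
    exact mul_ne_zero (fun e' => hF.ne_zero (h.gen _ e')) (h.ne _) this.symm
  by_cases hd : ∀ l, F ∣ ∑ m ∈ F.support, monomial m ((((χ (toZ m) + ν) l : ℤ) : k) * coeff m F)
  · have h1 : ∀ m ∈ F.support, toN (χ (toZ m) + ν) = 0 := by
      intro m hm
      ext l
      have cf : ∀ m' ∈ F.support, coeff m' (∑ m ∈ F.support,
          monomial m ((((χ (toZ m) + ν) l : ℤ) : k) * coeff m F)) =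
          (((χ (toZ m') + ν) l : ℤ) : k) * coeff m' F := by
        intro m' hm'
        rw [coeff_sum, sum_eq_single m']
        · simp
        · intro b _ hb; simp [hb]
        · intro hn; exact absurd hm' hn
      obtain ⟨c, hc⟩ := eq_C_mul_of_dvd (hd l) (fun m' hm' => by
        by_contra hn
        rw [mem_support_iff, coeff_sum] at hm'
        exact hm' (sum_eq_zero fun b hb => by
          rw [coeff_monomial, if_neg (fun e : b = m' => hn (e ▸ hb))]))
      obtain ⟨m0, hm0, e0⟩ := n2 l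
      have c0 := cf m0 hm0
      rw [hc, coeff_C_mul, e0] at c0
      have c1 : c = 0 := by simpa [mem_support_iff.1 hm0] using c0
      have c2 := cf m hm
      rw [hc, c1] at c2
      have c3 : (χ (toZ m) + ν) l = 0 := by
        have := (mul_eq_zero.1 (c2.symm.trans (by simp))).resolve_right (mem_support_iff.1 hm)
        exact_mod_cast this
      simp only [toN, Finsupp.coe_equivFunOnFinite_symm, c3]
      rfl
    have h2 : lf j EK χ F ν = C (∑ γ ∈ F.support.image (fun m => χ (toZ m)), th j EK χ F γ) := by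
      rw [lf, map_sum]
      refine sum_congr rfl fun γ hγ => ?_
      obtain ⟨m, hm, rfl⟩ := mem_image.1 hγ
      rw [h1 m hm]; rfl
    rw [h2] at h0 ⊢
    exact ((IsUnit.mk0 _ fun e => h0 (by rw [e, map_zero])).map
      (C : K →+* MvPolynomial (Fin p) K)).squarefree
  · push Not at hd
    obtain ⟨l, hl⟩ := hd
    rintro Z ⟨Y, hY⟩
    have h3 : lf j EK χ F ν ∣ Z * Y := by
      refine dvd_descend _ (H := X l * pderiv l (lf j EK χ F ν))
        (Z' := X l * (pderiv l Z * Y + pderiv l (Z * Y))) k1 (fun γ => ?_)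
        (fun U U' hU hU' e => h.dvd_aux hF hl hX (h.aeval_lf F n1) (h.aeval_euler F n1 l) hU hU' e)
        ?_
      · rw [(lf j EK χ F ν).as_sum, map_sum, mul_sum, coeff_sum]
        refine sum_mem fun b _ => ?_
        rw [X_mul_pderiv_monomial, coeff_smul, coeff_monomial]
        split_ifs
        · exact nsmul_mem (k1 _) _
        · simp
      · rw [hY]
        simp only [Derivation.leibniz, smul_eq_mul]
        ring
    have h4 : Z * Y ≠ 0 := by
      intro e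
      apply h0
      rw [hY, mul_assoc, e, mul_zero]
    rw [hY, mul_assoc] at h3
    exact isUnit_of_dvd_one ((mul_dvd_mul_iff_right h4).1 (by rwa [one_mul]))

end Pool.Agent.MP_c69980_ag.H60
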