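import Pool.Agent.MP_c69980_ag.H60.Geom
import Pool.Agent.MP_c69980_ag.H60.Sq

/-!
Growth bounds for forms.
-/

set_option autoImplicit false

namespace Pool.Agent.MP_c69980_ag.H60

open Finset MvPolynomial Real Metric

variable {N : ℕ} {C : Fin N → PR N} {d : Fin N → ℕ}

lemma norm_eval_hom {P : PR N} {e : ℕ} (h : P.IsHomogeneous e) {x : Fin N → ℂ} (hx : x ≠ 0) :
    ((‖x‖ : ℂ)⁻¹ • x) ∈ sphere (0 : Fin N → ℂ) 1 ∧
      ‖eval x P‖ = exp (e * log ‖x‖) * ‖eval ((‖x‖ : ℂ)⁻¹ • x) P‖ := by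
  have p : 0 < ‖x‖ := norm_pos_iff.2 hx
  refine ⟨by simp [norm_smul, p.ne'], ?_⟩
  rw [eval_smul_hom h, norm_mul, norm_pow, norm_inv, Complex.norm_real, norm_norm, ← log_pow,
    exp_log (by positivity), ← mul_assoc, ← mul_pow, mul_inv_cancel₀ p.ne', one_pow, one_mul]

lemma hom_upper {P : PR N} {e : ℕ} (h : P.IsHomogeneous e) :
    ∃ k, 0 ≤ k ∧ ∀ x ≠ 0, ‖eval x P‖ ≤ exp (k + e * log ‖x‖) := by
  obtain ⟨K, hK⟩ := (isCompact_sphere (0 : Fin N → ℂ) 1).exists_bound_of_continuousOn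
    (f := fun x => eval x P) (MvPolynomial.continuous_eval P).continuousOn
  refine ⟨|K|, abs_nonneg _, fun x hx => ?_⟩
  obtain ⟨a, b⟩ := norm_eval_hom h hx
  rw [b, add_comm, exp_add]
  refine mul_le_mul_of_nonneg_left ((hK _ a).trans ?_) (exp_pos _).le
  linarith [le_abs_self K, add_one_le_exp |K|]

lemma hom_lower {ι : Type} [Fintype ι] {P : ι → PR N} {e : ι → ℕ}
    (h : ∀ a, (P a).IsHomogeneous (e a)) (h0 : ∀ x ≠ 0, ∃ a, eval x (P a) ≠ 0) :
    ∃ k, 0 ≤ k ∧ ∀ x ≠ 0, ∃ a, exp (e a * log ‖x‖ - k) ≤ ‖eval x (P a)‖ := by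
  obtain ⟨c, c0, hc⟩ := (isCompact_sphere (0 : Fin N → ℂ) 1).exists_forall_le'
    (f := fun x => ‖fun a => eval x (P a)‖) (a := 0)
    (continuous_pi fun a => MvPolynomial.continuous_eval (P a)).norm.continuousOn fun x hx => by
      obtain ⟨a, ha⟩ := h0 x (by rintro rfl; simp at hx)
      exact norm_pos_iff.2 fun z => ha (congrFun z a)
  refine ⟨|log c|, abs_nonneg _, fun x hx => ?_⟩
  have := (hc _ (norm_eval_hom (isHomogeneous_zero (Fin N) ℂ 0) hx).1).not_gt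
  rw [pi_norm_lt_iff c0] at this
  push Not at this
  obtain ⟨a, ha⟩ := this
  refine ⟨a, ?_⟩
  rw [(norm_eval_hom (h a) hx).2, sub_eq_add_neg, exp_add]
  refine mul_le_mul_of_nonneg_left (le_trans ?_ ha) (exp_pos _).le
  rw [← le_log_iff_exp_le c0]
  exact neg_abs_le _

lemma bounds (hC : ∀ i, (C i).IsHomogeneous (d i)) (hd : ∀ i, 0 < d i)
    (h0 : ∀ x ≠ 0, ∃ i, eval x (C i) ≠ 0) (o : Fin N) {Φ J Q : PR N} {e e' : ℕ}
    (hΦ : Φ.IsWeightedHomogeneous d (2 * e + e')) (he : 0 < e)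
    (hv : ∀ i, eval (Pi.single i 1) Φ ≠ 0) (hJ : J.IsHomogeneous e) (hQ : Q.IsHomogeneous e') :
    ∃ c₀ K : ℝ, 0 < c₀ ∧ 0 ≤ K ∧ ∀ x a : Fin N → ℂ, (∀ i, Complex.exp (a i) = eval x (C i)) →
      (‖eval x J‖ ≤ exp (K * (‖a‖ + 1)) ∧ ‖eval x Q‖ ≤ exp (K * (‖a‖ + 1))) ∧
      ∀ L, 0 ≤ L → -L ≤ (a o).re → ‖eval x Q‖ * exp (c₀ * ∑ i, max (a i).re 0) ≤
        exp (K * (L + 1)) * ∑ m ∈ Φ.support, ‖Complex.exp (∑ i, (toZ m i : ℂ) * a i)‖ := by
  choose k k0 hk using fun i => hom_upper (hC i)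
  obtain ⟨k2, p2, h2⟩ := hom_lower hC h0
  obtain ⟨k3, p3, h3⟩ := hom_upper hJ
  obtain ⟨k4, p4, h4⟩ := hom_upper hQ
  have ev : ∀ (x : Fin N → ℂ) (m : Fin N →₀ ℕ),
      eval x (aeval C (monomial m (1 : ℂ))) = ∏ i, eval x (C i) ^ m i := fun x m => by
    rw [aeval_monomial, map_one, one_mul, Finsupp.prod_fintype _ _ (by simp), map_prod]
    simp
  obtain ⟨k5, p5, h5⟩ := hom_lower (P := fun m : Φ.support => aeval C (monomial m.1 (1 : ℂ)))
    (e := fun _ => 2 * e + e') (fun m => aeval_hom hC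
      (isWeightedHomogeneous_monomial d m.1 1 (hΦ (mem_support_iff.1 m.2)))) fun x hx => by
    obtain ⟨i, hi⟩ := h0 x hx
    have := hv i
    rw [eval_eq'] at this
    obtain ⟨m, m1, m2⟩ := exists_ne_zero_of_sum_ne_zero this
    refine ⟨⟨m, m1⟩, ?_⟩
    rw [ev]
    refine prod_ne_zero_iff.2 fun j _ => ?_
    by_cases hj : j = i
    · exact hj ▸ pow_ne_zero _ hi
    · have := prod_ne_zero_iff.1 (right_ne_zero_of_mul m2) j (mem_univ _)
      rw [Pi.single_eq_of_ne hj] at this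
      have : m j = 0 := by by_contra z; exact this (zero_pow z)
      simp [this]
  set k1 := ∑ i, k i with hk1
  set S : ℝ := ∑ i, (d i : ℝ) with hS
  have p1 : 0 ≤ k1 := sum_nonneg fun i _ => k0 i
  have d1 : ∀ i, (1 : ℝ) ≤ d i := fun i => by exact_mod_cast hd i
  have S1 : 1 ≤ S := (d1 o).trans (single_le_sum (f := fun i => (d i : ℝ))
    (fun i _ => Nat.cast_nonneg _) (mem_univ o))
  have e1 : (1 : ℝ) ≤ e := by exact_mod_cast he
  have e0 : (0 : ℝ) ≤ e' := Nat.cast_nonneg _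
  refine ⟨S⁻¹, k1 + k3 + k4 + k5 + 2 * e * (1 + k1) + (e + e') * (1 + k2), by positivity,
    by positivity, fun x a ha => ?_⟩
  have hx : x ≠ 0 := by
    rintro rfl
    exact Complex.exp_ne_zero _ ((ha o).trans (eval_zero_hom (hC o) (hd o)))
  set t := log ‖x‖ with ht
  have u1 : ∀ i, (a i).re ≤ k i + d i * t := fun i => by
    rw [← exp_le_exp, ← Complex.norm_exp, ha]; exact hk i x hx
  have a0 := norm_nonneg a
  have u2 : t ≤ ‖a‖ + k2 := by
    obtain ⟨i, hi⟩ := h2 x hx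
    rw [← ha, Complex.norm_exp, exp_le_exp] at hi
    have := (Complex.re_le_norm (a i)).trans (norm_le_pi_norm a i)
    rcases le_total t 0 with h | h
    · linarith
    · nlinarith [d1 i]
  refine ⟨⟨(h3 x hx).trans (exp_le_exp.2 ?_), (h4 x hx).trans (exp_le_exp.2 ?_)⟩,
    fun L L0 hL => ?_⟩
  · have := mul_le_mul_of_nonneg_left u2 (by linarith : (0 : ℝ) ≤ e)
    have : 0 ≤ (k1 + k3 + k4 + k5 + 2 * e * (1 + k1) + e * k2 + e' * (1 + k2)) * ‖a‖ := by
      positivity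
    have : 0 ≤ k1 + k4 + k5 + 2 * e * (1 + k1) + e + e' * (1 + k2) := by positivity
    nlinarith
  · have := mul_le_mul_of_nonneg_left u2 e0
    have : 0 ≤ (k1 + k3 + k4 + k5 + 2 * e * (1 + k1) + e' * k2 + e * (1 + k2)) * ‖a‖ := by
      positivity
    have : 0 ≤ k1 + k3 + k5 + 2 * e * (1 + k1) + e' + e * (1 + k2) := by positivity
    nlinarith
  obtain ⟨m, hm⟩ := h5 x hx
  have em : ‖eval x (aeval C (monomial m.1 (1 : ℂ)))‖ =
      ‖Complex.exp (∑ i, (toZ m.1 i : ℂ) * a i)‖ := by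
    rw [ev, Complex.exp_sum]
    simp [toZ, Complex.exp_nat_mul, ha]
  have u3 := (em ▸ hm).trans (single_le_sum
    (f := fun m => ‖Complex.exp (∑ i, (toZ m i : ℂ) * a i)‖) (fun _ _ => norm_nonneg _) m.2)
  refine le_trans ?_ (mul_le_mul_of_nonneg_left u3 (exp_pos _).le)
  refine (mul_le_mul_of_nonneg_right (h4 x hx) (exp_pos _).le).trans ?_
  rw [← exp_add, ← exp_add, exp_le_exp]
  have u4 : ∑ i, max (a i).re 0 ≤ k1 + S * max t 0 := by
    rw [hk1, hS, sum_mul, ← sum_add_distrib]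
    refine sum_le_sum fun i _ => max_le ((u1 i).trans ?_) ?_
    · nlinarith [le_max_left t 0, d1 i]
    · have := k0 i
      positivity
  have u5 : S⁻¹ * ∑ i, max (a i).re 0 ≤ k1 + max t 0 := by
    rw [inv_mul_le_iff₀ (by linarith)]
    nlinarith
  have u6 : -(L + k1) ≤ t := by
    have := single_le_sum (f := k) (fun i _ => k0 i) (mem_univ o)
    rcases le_total t 0 with h | h
    · nlinarith [d1 o, u1 o]
    · linarith
  have u7 : max t 0 ≤ 2 * e * t + 2 * e * (L + k1) := by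
    rcases le_total t 0 with h | h
    · rw [max_eq_right h]; nlinarith
    · rw [max_eq_left h]; nlinarith
  have : 0 ≤ (k1 + k3 + k4 + k5 + 2 * e * k1 + (e + e') * (1 + k2)) * L := by positivity
  have : 0 ≤ k3 + 2 * e + (e + e') * (1 + k2) := by positivity
  push_cast
  nlinarith

end Pool.Agent.MP_c69980_ag.H60
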