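import Pool.Agent.MP_c69980_ag.H60.Count
import Pool.Agent.MP_c69980_ag.H60.Sq

/-!
The algebraic part of the second main theorem, for an abstract differential ring with a prime
ideal of negligible elements and a subring of small elements.
-/

set_option autoImplicit false

namespace Pool.Agent.MP_c69980_ag.H60

open Finset MvPolynomial

variable {k V : Type} [Field k] [CommRing V] {n : ℕ}

/-- The abstract package. -/
structure Pkg (ι : k →+* V) (D : V →+ V) (P : Ideal V) (S : Subring V) (e : (Fin n → ℤ) → V)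
    (a : Fin n → V) : Prop where
  leib : Leib D
  prime : P.IsPrime
  dP : ∀ x ∈ P, D x ∈ P
  PS : ∀ x ∈ P, x ∈ S
  dk : ∀ c, D (ι c) = 0
  kS : ∀ c, ι c ∈ S
  e0 : e 0 = 1
  ea : ∀ m m', e (m + m') = e m * e m'
  de : ∀ m, D (e m) = (∑ i, (m i : V) * a i) * e m
  aS : ∀ i j, D^[j] (a i) ∈ S
  const : ∀ g h, h ∉ P → D g * h - g * D h ∈ P → ∃ c ∈ S, D c = 0 ∧ g - c * h ∈ P
  unit : ∀ m, ∀ g ∈ S, ∀ g' ∈ S, g ∉ P → g * e m - g' ∈ P → e m ∈ S ∧ e (-m) ∈ S
  sat : ∀ m (j : ℕ), 0 < j → e (j • m) ∈ S → e m ∈ S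
  gen : ∀ δ : MvPolynomial (Fin n) k, eval₂Hom ι (fun i => e (Pi.single i 1)) δ ∈ P → δ = 0

variable {ι : k →+* V} {D : V →+ V} {P : Ideal V} {S : Subring V} {e : (Fin n → ℤ) → V}
  {a : Fin n → V}

/-- The differential subring generated by constants, the `a i` and small exponentials. -/
def s0 (D : V →+ V) (S : Subring V) (e : (Fin n → ℤ) → V) (a : Fin n → V) : Subring V :=
  Subring.closure ({c | c ∈ S ∧ D c = 0} ∪ {x | ∃ i j, x = D^[j] (a i)} ∪
    {x | ∃ m, e m ∈ S ∧ e (-m) ∈ S ∧ x = e m})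

lemma Pkg.s0_le (h : Pkg ι D P S e a) : s0 D S e a ≤ S := by
  refine Subring.closure_le.2 ?_
  rintro x ((⟨h1, _⟩ | ⟨i, j, rfl⟩) | ⟨m, h1, _, rfl⟩)
  exacts [h1, h.aS i j, h1]

lemma s0_a (i : Fin n) : a i ∈ s0 D S e a :=
  Subring.subset_closure (Or.inl (Or.inr ⟨i, 0, rfl⟩))

lemma s0_lin (m : Fin n → ℤ) : ∑ i, (m i : V) * a i ∈ s0 D S e a :=
  sum_mem fun i _ => mul_mem (intCast_mem _ _) (s0_a i)

lemma Pkg.s0_d (h : Pkg ι D P S e a) : ∀ x ∈ s0 D S e a, D x ∈ s0 D S e a := by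
  intro x hx
  induction hx using Subring.closure_induction with
  | mem x hx =>
    rcases hx with ((⟨_, h1⟩ | ⟨i, j, rfl⟩) | ⟨m, h1, h2, rfl⟩)
    · rw [h1]; exact zero_mem _
    · exact Subring.subset_closure
        (Or.inl (Or.inr ⟨i, j + 1, (Function.iterate_succ_apply' _ _ _).symm⟩))
    · rw [h.de]
      exact mul_mem (s0_lin m) (Subring.subset_closure (Or.inr ⟨m, h1, h2, rfl⟩))
  | zero => rw [map_zero]; exact zero_mem _
  | one => rw [h.leib.one]; exact zero_mem _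
  | add x y _ _ hx hy => rw [map_add]; exact add_mem hx hy
  | neg x _ hx => rw [map_neg]; exact neg_mem hx
  | mul x y h1 h2 hx hy => rw [h.leib]; exact add_mem (mul_mem hx h2) (mul_mem h1 hy)

lemma Pkg.it_e (h : Pkg ι D P S e a) (m : Fin n → ℤ) {c : V} (hc : c ∈ s0 D S e a) (j : ℕ) :
    ∃ ρ ∈ s0 D S e a, D^[j] (c * e m) = e m * ρ := by
  induction j with
  | zero => exact ⟨c, hc, mul_comm _ _⟩
  | succ j ih =>
    obtain ⟨ρ, h1, h2⟩ := ih
    refine ⟨D ρ + (∑ i, (m i : V) * a i) * ρ, add_mem (h.s0_d _ h1) (mul_mem (s0_lin m) h1), ?_⟩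
    rw [Function.iterate_succ_apply', h2, h.leib, h.de]; ring

lemma Pkg.lattice (h : Pkg ι D P S e a) :
    ∃ (p : ℕ) (χ : (Fin n → ℤ) →+ (Fin p → ℤ)) (sec : (Fin p → ℤ) →+ (Fin n → ℤ)),
      (∀ γ, χ (sec γ) = γ) ∧ ∀ m, (e m ∈ S ∧ e (-m) ∈ S) ↔ χ m = 0 := by
  let Λ : AddSubgroup (Fin n → ℤ) :=
    { carrier := {m | e m ∈ S ∧ e (-m) ∈ S}
      add_mem' := fun {x y} hx hy => ⟨by rw [h.ea]; exact mul_mem hx.1 hy.1,
        by rw [neg_add, h.ea]; exact mul_mem hx.2 hy.2⟩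
      zero_mem' := ⟨by rw [h.e0]; exact one_mem _, by rw [neg_zero, h.e0]; exact one_mem _⟩
      neg_mem' := fun {x} hx => ⟨hx.2, by rw [neg_neg]; exact hx.1⟩ }
  exact split (AddSubgroup.toIntSubmodule Λ) fun m j hj hm =>
    ⟨h.sat m j hj hm.1, h.sat (-m) j hj (by rw [smul_neg]; exact hm.2)⟩

theorem Pkg.main [CharZero k] (h : Pkg ι D P S e a) {F : MvPolynomial (Fin n) k} (hF : Prime F)
    {y Q : V} (hy : eval₂Hom ι (fun i => e (Pi.single i 1)) F = y ^ 2 * Q) :
    (∀ ε : ℝ, 0 < ε → ∃ (M K₀ : ℕ) (m₀ : Fin n → ℤ) (x : V), x ∉ P ∧ 0 < M ∧ (K₀ : ℝ) ≤ ε * M ∧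
      y ^ M * x * e m₀ ∈ AddSubmonoid.closure
        {z | ∃ s ∈ S, ∃ m : Fin n → ℤ, (∀ i, |m i| ≤ K₀) ∧ z = s * e m}) ∧
    ∃ w₀ ∈ S, w₀ ∉ P ∧ ∃ J : ℕ, ∀ m ∈ F.support, ∃ s : Fin J → V, (∀ j, s j ∈ S) ∧
      w₀ * e (toZ m) = ∑ j, s j * D^[j] (eval₂Hom ι (fun i => e (Pi.single i 1)) F) := by
  classical
  have := h.prime
  obtain ⟨Ω, _, φ, D', hL, hD, h0, hsur⟩ := h.leib.extend P h.dP
  obtain ⟨p, χ, sec, hs, hΛ⟩ := h.lattice
  let R' : Subring Ω := (s0 D S e a).map φ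
  let K : Subfield Ω := Subfield.closure R'
  have hK : ∀ x ∈ s0 D S e a, φ x ∈ K := fun x hx => Subfield.subset_closure ⟨x, hx, rfl⟩
  have hK2 : ∀ c ∈ K, ∃ g ∈ s0 D S e a, ∃ g' ∈ s0 D S e a, c = φ g' / φ g := by
    intro c hc
    obtain ⟨y, hy, z, hz, rfl⟩ := Subfield.mem_closure_iff.1 hc
    rw [Subring.closure_eq] at hy hz
    obtain ⟨g', h1, rfl⟩ := hy
    obtain ⟨g, h2, rfl⟩ := hz
    exact ⟨g, h2, g', h1, rfl⟩
  have hKD : ∀ c ∈ K, D' c ∈ K := by
    intro c hc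
    obtain ⟨g, h1, g', h2, rfl⟩ := hK2 c hc
    by_cases hg : φ g = 0
    · rw [hg, div_zero, map_zero]; exact zero_mem _
    · rw [(eq_div_iff (pow_ne_zero 2 hg)).2 (hL.div _ _ hg), hD, hD]
      exact div_mem (sub_mem (mul_mem (hK _ (h.s0_d _ h2)) (hK _ h1))
        (mul_mem (hK _ h2) (hK _ (h.s0_d _ h1)))) (pow_mem (hK _ h1) 2)
  have hι : ∀ c, ι c ∈ s0 D S e a := fun c => Subring.subset_closure (Or.inl (Or.inl ⟨h.kS c, h.dk c⟩))
  have hE : ∀ m, e (m - sec (χ m)) ∈ s0 D S e a := fun m => by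
    have := (hΛ (m - sec (χ m))).2 (by rw [map_sub, hs, sub_self])
    exact Subring.subset_closure (Or.inr ⟨_, this.1, this.2, rfl⟩)
  let j : k →+* K := (φ.comp ι).codRestrict K fun c => hK _ (hι c)
  let E : (Fin n → ℤ) → Ω := fun m => φ (e m)
  let EK : (Fin n → ℤ) → K := fun m => ⟨φ (e (m - sec (χ m))), hK _ (hE m)⟩
  let d : K → K := fun c => ⟨D' c, hKD _ c.2⟩
  let ω : Fin p → K := fun l => ⟨φ (∑ i, (sec (Pi.single l 1) i : V) * a i), hK _ (s0_lin _)⟩
  let R : Subring K := R'.comap K.subtype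
  have E0 : E 0 = 1 := by simp [E, h.e0]
  have Ea : ∀ m m', E (m + m') = E m * E m' := fun m m' => by simp [E, h.ea]
  have En : ∀ m, E m ≠ 0 := fun m => by
    have := Ea m (-m)
    rw [add_neg_cancel, E0] at this
    exact left_ne_zero_of_mul_eq_one this.symm
  have hev : ∀ δ, eval₂Hom ((algebraMap K Ω).comp j) (fun i => E (Pi.single i 1)) δ =
      φ (eval₂Hom ι (fun i => e (Pi.single i 1)) δ) := fun δ => by
    rw [map_eval₂Hom]; rfl
  have hc : ∀ x, D' x = 0 → ∃ c ∈ s0 D S e a, x = φ c := by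
    intro x hx
    obtain ⟨g, g', hg, rfl⟩ := hsur x
    have n1 : φ g' ≠ 0 := fun e => hg ((h0 _).1 e)
    have e1 := hL.div (φ g) _ n1
    rw [hx, zero_mul, hD, hD, ← map_mul, ← map_mul, ← map_sub] at e1
    obtain ⟨c, c1, c2, c3⟩ := h.const g g' hg ((h0 _).1 e1.symm)
    refine ⟨c, Subring.subset_closure (Or.inl (Or.inl ⟨c1, c2⟩)), ?_⟩
    rw [← h0, map_sub, map_mul, sub_eq_zero] at c3
    rw [c3, mul_div_cancel_right₀ _ n1]
  have hT : Tor D' d (fun l => E (sec (Pi.single l 1))) ω :=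
    { leib := hL
      comm := fun c => rfl
      const := fun x hx => by
        obtain ⟨c, h1, rfl⟩ := hc x hx
        exact ⟨⟨_, hK _ h1⟩, rfl⟩
      ne := fun l => En _
      dw := fun l => by
        simp only [E]
        rw [hD, h.de, map_mul]; rfl
      ind := fun γ γ' c hγ => by
        rw [mon, mon, prod_pow_eq E0 Ea, prod_pow_eq E0 Ea] at hγ
        obtain ⟨g, h1, g', h2, e1⟩ := hK2 c c.2
        change _ = (c : Ω) * _ at hγ
        rw [e1] at hγ
        have hg : φ g ≠ 0 := fun e => En _ (by rw [hγ, e, div_zero, zero_mul])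
        have e2 : g * e (sec (toZ γ - toZ γ')) - g' ∈ P := by
          rw [← h0, map_sub, map_mul, sub_eq_zero]
          apply mul_right_cancel₀ (En (sec (toZ γ')))
          rw [mul_assoc]
          change _ * (E _ * _) = _
          rw [← Ea, ← map_add, sub_add_cancel, hγ]
          field_simp
        have e3 := (hΛ _).1 (h.unit _ g (h.s0_le h1) g' (h.s0_le h2) (fun e => hg ((h0 _).2 e)) e2)
        rw [hs, sub_eq_zero] at e3
        exact toZ_inj e3 }
  have hLat : Lat j E EK χ sec :=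
    { e0 := E0
      ea := Ea
      hs := hs
      ek := fun m => by
        change E _ * _ = _
        rw [← Ea, sub_add_cancel]
      gen := fun δ hδ => h.gen δ (by rwa [hev, h0] at hδ)
      inj := hT.inj }
  obtain ⟨ν, n1, hsq, hX⟩ := hLat.sqfree hF
  have hjR : ∀ c, j c ∈ R := fun c => ⟨_, hι c, rfl⟩
  have hER : ∀ m, EK m ∈ R := fun m => ⟨_, hE m, rfl⟩
  constructor
  · intro ε hε
    set cs : ℕ := ∑ l, ∑ i, (sec (Pi.single l 1) i).natAbs with hcs
    obtain ⟨M, K₀, γ₀, _, ⟨x, rfl⟩, hx, hM, hK₀, hm⟩ := hT.count R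
      (fun c ⟨x, h1, h2⟩ => ⟨D x, h.s0_d x h1, by rw [← hD, h2]; rfl⟩)
      (fun c hc' => by
        obtain ⟨x, h1, h2⟩ := hc _ hc'
        exact ⟨x, h1, h2.symm⟩)
      (fun l => ⟨_, s0_lin _, rfl⟩) φ.range (by rintro _ ⟨x, rfl⟩; exact ⟨D x, (hD x).symm⟩)
      (fun c ⟨x, _, h2⟩ => ⟨x, h2⟩) (fun l => ⟨_, rfl⟩) hsq hX
      (Lat.coeff_lf_mem F ν R hjR hER) (y := φ y) (Q := φ (Q * e (sec ν))) ⟨_, rfl⟩ ⟨_, rfl⟩
      (by rw [hLat.aeval_lf F n1, hev, hy]; simp [E, mul_assoc])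
      (ε := ε / (cs + 1)) (by positivity)
    refine ⟨M, cs * K₀, -sec (toZ γ₀), x, fun e => hx ((h0 _).2 e), hM, ?_, ?_⟩
    · rw [Nat.cast_mul]
      calc _ ≤ (cs + 1 : ℝ) * (ε / (cs + 1) * M) := by gcongr; linarith
        _ = _ := by field_simp
    · have key : ∀ z ∈ AddSubmonoid.closure {z | ∃ r ∈ R, ∃ γ : Fin p →₀ ℕ,
          (∀ l, γ l ≤ γ₀ l ∧ γ₀ l ≤ γ l + K₀) ∧
            z = algebraMap K Ω r * mon (fun l => E (sec (Pi.single l 1))) γ},
          ∃ v ∈ AddSubmonoid.closure {z | ∃ s ∈ S, ∃ m : Fin n → ℤ,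
            (∀ i, |m i| ≤ (cs * K₀ : ℕ)) ∧ z = s * e m}, φ v = z * E (-sec (toZ γ₀)) := by
        intro z hz
        induction hz using AddSubmonoid.closure_induction with
        | mem z hz =>
          obtain ⟨r, ⟨s, s1, s2⟩, γ, hγ, rfl⟩ := hz
          refine ⟨_, AddSubmonoid.subset_closure
            ⟨s, h.s0_le s1, sec (toZ γ - toZ γ₀), fun i => ?_, rfl⟩, ?_⟩
          · have e1 : toZ γ - toZ γ₀ = ∑ l, (toZ γ - toZ γ₀) l • Pi.single l (1 : ℤ) := by
              funext i; simp [Finset.sum_apply, Pi.single_apply]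
            rw [e1, map_sum, Finset.sum_apply, hcs]
            push_cast
            rw [sum_mul]
            refine (abs_sum_le_sum_abs _ _).trans (sum_le_sum fun l _ => ?_)
            rw [map_zsmul, Pi.smul_apply, smul_eq_mul, abs_mul, mul_comm]
            refine mul_le_mul (single_le_sum (f := fun i => |sec (Pi.single l 1) i|)
              (fun _ _ => abs_nonneg _) (mem_univ i)) ?_ (abs_nonneg _)
              (sum_nonneg fun _ _ => abs_nonneg _)
            have := hγ l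
            simp only [Pi.sub_apply, toZ]
            rw [abs_le]
            omega
          · rw [hLat.mon_eq, mul_assoc, ← Ea, map_mul, s2, map_sub, sub_eq_add_neg]; rfl
        | zero => exact ⟨0, zero_mem _, by simp⟩
        | add x y _ _ hx hy =>
          obtain ⟨u, u1, u2⟩ := hx
          obtain ⟨v, v1, v2⟩ := hy
          exact ⟨u + v, add_mem u1 v1, by rw [map_add, u2, v2, add_mul]⟩
      obtain ⟨v, v1, v2⟩ := key _ hm
      have e1 : y ^ M * x * e (-sec (toZ γ₀)) - v ∈ P := by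
        rw [← h0, map_sub, v2]; simp [E]
      rw [← sub_add_cancel (y ^ M * x * e (-sec (toZ γ₀))) v]
      refine add_mem (AddSubmonoid.subset_closure ⟨_, h.PS _ e1, 0, fun i => ?_, ?_⟩) v1
      · simp; positivity
      · rw [h.e0, mul_one]
  · set I := F.support.image (fun m => χ (toZ m)) with hI
    let g : Fin I.card ≃ I := I.equivFin.symm
    let θ : (Fin p → ℤ) → V := fun γ => ∑ m ∈ F.support.filter (fun m => χ (toZ m) = γ),
      ι (coeff m F) * e (toZ m - sec (χ (toZ m)))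
    have θ1 : ∀ γ, θ γ ∈ s0 D S e a := fun γ => sum_mem fun m _ => mul_mem (hι _) (hE _)
    have θ2 : ∀ γ, φ (θ γ) = algebraMap K Ω (th j EK χ F γ) := fun γ => by
      simp only [θ, th, map_sum, map_mul]; rfl
    have θ3 : eval₂Hom ι (fun i => e (Pi.single i 1)) F = ∑ t, θ (g t) * e (sec (g t)) := by
      rw [g.sum_comp (fun γ => θ γ * e (sec γ)), sum_coe_sort I (fun γ => θ γ * e (sec γ))]
      conv_lhs => rw [F.as_sum, map_sum, ← sum_fiberwise_of_maps_to (s := F.support) (t := I)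
        (g := fun m => χ (toZ m)) (fun m hm => mem_image_of_mem (fun m => χ (toZ m)) hm)]
      refine sum_congr rfl fun γ _ => ?_
      rw [sum_mul]
      refine sum_congr rfl fun m hm => ?_
      rw [← (mem_filter.1 hm).2, mul_assoc, ← h.ea, sub_add_cancel, eval₂Hom_monomial]
      exact congrArg _ (prod_pow_eq h.e0 h.ea (AddMonoidHom.id _) m)
    choose ρ ρ1 ρ2 using fun (i t : Fin I.card) => h.it_e (sec (g t)) (θ1 (g t)) i
    have hit : ∀ (i : ℕ) v, D'^[i] (φ v) = φ (D^[i] v) := fun i v => by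
      induction i with
      | zero => rfl
      | succ i ih => rw [Function.iterate_succ_apply', Function.iterate_succ_apply', ih, hD]
    have hne := hL.wr_ne (fun t : Fin I.card => φ (θ (g t) * e (sec (g t)))) (by
      intro c hc1 hc2 t
      choose u hu using fun t => hT.const _ (hc1 t)
      have nn : ∀ t, ∀ l, 0 ≤ ((g t : Fin p → ℤ) + ν) l := fun t => by
        obtain ⟨m, hm, e⟩ := mem_image.1 (g t).2
        rw [← e]; exact n1 m hm
      have e1 := hT.inj (∑ t, monomial (toN ((g t : Fin p → ℤ) + ν)) (u t * th j EK χ F (g t))) (by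
        rw [map_sum, ← zero_mul (E (sec ν)), ← hc2, sum_mul]
        refine sum_congr rfl fun t _ => ?_
        rw [aeval_mon, hLat.mon_eq, toZ_toN (nn t), map_add, Ea, map_mul, map_mul, θ2, hu]
        simp only [E, mul_assoc])
      have e2 := congrArg (coeff (toN ((g t : Fin p → ℤ) + ν))) e1
      rw [coeff_sum, sum_eq_single t] at e2
      · have : u t = 0 := by simpa [hLat.th_ne F (g t).2] using e2
        rw [hu, this, map_zero]
      · intro b _ hb
        rw [coeff_monomial, if_neg]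
        intro e
        have := congrArg toZ e
        rw [toZ_toN (nn _), toZ_toN (nn _)] at this
        exact hb (g.injective (Subtype.ext (add_right_cancel this)))
      · simp)
    simp only [hit, ρ2] at hne
    simp only [map_mul] at hne
    rw [Matrix.det_mul_row] at hne
    refine ⟨(Matrix.of ρ).det, h.s0_le (det_mem _ _ ρ1), fun e => right_ne_zero_of_mul hne ?_,
      I.card, fun m hm => ?_⟩
    · rw [← h0, RingHom.map_det] at e
      exact e
    · obtain ⟨t, ht⟩ := g.surjective ⟨χ (toZ m), mem_image_of_mem (fun m => χ (toZ m)) hm⟩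
      refine ⟨fun i => e (toZ m - sec (χ (toZ m))) * (Matrix.of ρ).adjugate t i, fun i =>
        h.s0_le (mul_mem (hE _) ?_), ?_⟩
      · rw [Matrix.adjugate_apply]
        refine det_mem _ _ fun a b => ?_
        rw [Matrix.updateRow_apply]
        split_ifs
        · rw [Pi.single_apply]; split_ifs; exacts [one_mem _, zero_mem _]
        · exact ρ1 _ _
      · have e1 := congrFun (congrArg (fun A => A.mulVec fun t => e (sec (g t)))
          (Matrix.adjugate_mul (Matrix.of ρ))) t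
        simp only [← Matrix.mulVec_mulVec, Matrix.smul_mulVec, Matrix.one_mulVec, Pi.smul_apply,
          smul_eq_mul] at e1
        simp only [mul_assoc, ← mul_sum, θ3, it_sum, ρ2]
        simp only [Matrix.mulVec, dotProduct, Matrix.of_apply] at e1
        simp only [mul_comm (e (sec (g _))) (ρ _ _)]
        rw [e1, ht, mul_left_comm, ← h.ea, sub_add_cancel]

end Pool.Agent.MP_c69980_ag.H60
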