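import Pool.Agent.MP_c69980_ag.H60.Count2
import Pool.Agent.MP_c69980_ag.H60.Split

/-!
The algebraic part of the second main theorem for squarefree polynomials.
-/

set_option autoImplicit false

namespace Pool.Agent.MP_c69980_ag.H60

open Finset MvPolynomial

variable {k V : Type} [Field k] [CommRing V] {n : ℕ}
  {ι : k →+* V} {D : V →+ V} {P : Ideal V} {S : Subring V} {e : (Fin n → ℤ) → V}
  {a : Fin n → V}

theorem Pkg.main2 [CharZero k] (h : Pkg ι D P S e a) {F : MvPolynomial (Fin n) k}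
    (hF : Squarefree F) {f : V} (hf : eval₂Hom ι (fun i => e (Pi.single i 1)) F = f) :
    (∀ ε : ℝ, 0 < ε → ∃ (M K₀ : ℕ) (m₀ : Fin n → ℤ) (p q : Fin M → V),
      (Matrix.of fun (j i : Fin M) => D^[j] (p i * f + q i * D f)).det ∉ P ∧ 0 < M ∧
      (K₀ : ℝ) ≤ ε * M ∧
      (Matrix.of fun (j i : Fin M) => D^[j] (p i * f + q i * D f)).det * e m₀ ∈
        AddSubmonoid.closure {z | ∃ s ∈ S, ∃ m : Fin n → ℤ, (∀ i, |m i| ≤ K₀) ∧ z = s * e m}) ∧
    ∃ w₀ ∈ S, w₀ ∉ P ∧ ∃ J : ℕ, ∀ m ∈ F.support, ∃ s : Fin J → V, (∀ j, s j ∈ S) ∧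
      w₀ * e (toZ m) = ∑ j, s j * D^[j] (eval₂Hom ι (fun i => e (Pi.single i 1)) F) := by
  classical
  have := h.prime
  obtain ⟨Ω, _, φ, D', hL, hD, h0, hsur⟩ := h.leib.extend P h.dP
  obtain ⟨p, χ, sec, hs, hΛ⟩ := h.lattice
  let R' : Subring Ω := (s0 D S e a).map φ
  let K : Subfield Ω := Subfield.closure R'
  have hK : ∀ x ∈ s0 D S e a, φ x ∈ K := fun x hx => Subfield.subset_closure ⟨x, hx, rfl⟩
  have hK2 : ∀ c ∈ K, ∃ g ∈ s0 D S e a, ∃ g' ∈ s0 D S e a, c = φ g' / φ g := by
    intro c hc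
    obtain ⟨y, hy, z, hz, rfl⟩ := Subfield.mem_closure_iff.1 hc
    rw [Subring.closure_eq] at hy hz
    obtain ⟨g', h1, rfl⟩ := hy
    obtain ⟨g, h2, rfl⟩ := hz
    exact ⟨g, h2, g', h1, rfl⟩
  have hKD : ∀ c ∈ K, D' c ∈ K := by
    intro c hc
    obtain ⟨g, h1, g', h2, rfl⟩ := hK2 c hc
    by_cases hg : φ g = 0
    · rw [hg, div_zero, map_zero]; exact zero_mem _
    · rw [(eq_div_iff (pow_ne_zero 2 hg)).2 (hL.div _ _ hg), hD, hD]
      exact div_mem (sub_mem (mul_mem (hK _ (h.s0_d _ h2)) (hK _ h1))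
        (mul_mem (hK _ h2) (hK _ (h.s0_d _ h1)))) (pow_mem (hK _ h1) 2)
  have hι : ∀ c, ι c ∈ s0 D S e a := fun c => Subring.subset_closure (Or.inl (Or.inl ⟨h.kS c, h.dk c⟩))
  have hE : ∀ m, e (m - sec (χ m)) ∈ s0 D S e a := fun m => by
    have := (hΛ (m - sec (χ m))).2 (by rw [map_sub, hs, sub_self])
    exact Subring.subset_closure (Or.inr ⟨_, this.1, this.2, rfl⟩)
  let j : k →+* K := (φ.comp ι).codRestrict K fun c => hK _ (hι c)
  let E : (Fin n → ℤ) → Ω := fun m => φ (e m)
  let EK : (Fin n → ℤ) → K := fun m => ⟨φ (e (m - sec (χ m))), hK _ (hE m)⟩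
  let d : K → K := fun c => ⟨D' c, hKD _ c.2⟩
  let ω : Fin p → K := fun l => ⟨φ (∑ i, (sec (Pi.single l 1) i : V) * a i), hK _ (s0_lin _)⟩
  let R : Subring K := R'.comap K.subtype
  have E0 : E 0 = 1 := by simp [E, h.e0]
  have Ea : ∀ m m', E (m + m') = E m * E m' := fun m m' => by simp [E, h.ea]
  have En : ∀ m, E m ≠ 0 := fun m => by
    have := Ea m (-m)
    rw [add_neg_cancel, E0] at this
    exact left_ne_zero_of_mul_eq_one this.symm
  have hev : ∀ δ, eval₂Hom ((algebraMap K Ω).comp j) (fun i => E (Pi.single i 1)) δ =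
      φ (eval₂Hom ι (fun i => e (Pi.single i 1)) δ) := fun δ => by
    rw [map_eval₂Hom]; rfl
  have hc : ∀ x, D' x = 0 → ∃ c ∈ s0 D S e a, x = φ c := by
    intro x hx
    obtain ⟨g, g', hg, rfl⟩ := hsur x
    have n1 : φ g' ≠ 0 := fun e => hg ((h0 _).1 e)
    have e1 := hL.div (φ g) _ n1
    rw [hx, zero_mul, hD, hD, ← map_mul, ← map_mul, ← map_sub] at e1
    obtain ⟨c, c1, c2, c3⟩ := h.const g g' hg ((h0 _).1 e1.symm)
    refine ⟨c, Subring.subset_closure (Or.inl (Or.inl ⟨c1, c2⟩)), ?_⟩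
    rw [← h0, map_sub, map_mul, sub_eq_zero] at c3
    rw [c3, mul_div_cancel_right₀ _ n1]
  have hT : Tor D' d (fun l => E (sec (Pi.single l 1))) ω :=
    { leib := hL
      comm := fun c => rfl
      const := fun x hx => by
        obtain ⟨c, h1, rfl⟩ := hc x hx
        exact ⟨⟨_, hK _ h1⟩, rfl⟩
      ne := fun l => En _
      dw := fun l => by
        simp only [E]
        rw [hD, h.de, map_mul]; rfl
      ind := fun γ γ' c hγ => by
        rw [mon, mon, prod_pow_eq E0 Ea, prod_pow_eq E0 Ea] at hγ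
        obtain ⟨g, h1, g', h2, e1⟩ := hK2 c c.2
        change _ = (c : Ω) * _ at hγ
        rw [e1] at hγ
        have hg : φ g ≠ 0 := fun e => En _ (by rw [hγ, e, div_zero, zero_mul])
        have e2 : g * e (sec (toZ γ - toZ γ')) - g' ∈ P := by
          rw [← h0, map_sub, map_mul, sub_eq_zero]
          apply mul_right_cancel₀ (En (sec (toZ γ')))
          rw [mul_assoc]
          change _ * (E _ * _) = _
          rw [← Ea, ← map_add, sub_add_cancel, hγ]
          field_simp
        have e3 := (hΛ _).1 (h.unit _ g (h.s0_le h1) g' (h.s0_le h2) (fun e => hg ((h0 _).2 e)) e2)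
        rw [hs, sub_eq_zero] at e3
        exact toZ_inj e3 }
  have hLat : Lat j E EK χ sec :=
    { e0 := E0
      ea := Ea
      hs := hs
      ek := fun m => by
        change E _ * _ = _
        rw [← Ea, sub_add_cancel]
      gen := fun δ hδ => h.gen δ (by rwa [hev, h0] at hδ)
      inj := hT.inj }
  obtain ⟨F', μ, hsq, hX, hFR, hF'⟩ := hLat.sqfree2 hF
  have hit : ∀ (i : ℕ) v, D'^[i] (φ v) = φ (D^[i] v) := fun i v => by
    induction i with
    | zero => rfl
    | succ i ih => rw [Function.iterate_succ_apply', Function.iterate_succ_apply', ih, hD]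
  have hjR : ∀ c, j c ∈ R := fun c => ⟨_, hι c, rfl⟩
  have hER : ∀ m, EK m ∈ R := fun m => ⟨_, hE m, rfl⟩
  constructor
  · intro ε hε
    set cs : ℕ := ∑ l, ∑ i, (sec (Pi.single l 1) i).natAbs with hcs
    obtain ⟨M, K₀, γ₀, p', q', hpq, hx, hM, hK₀, hm⟩ := hT.count2 R
      (fun c ⟨x, h1, h2⟩ => ⟨D x, h.s0_d x h1, by rw [← hD, h2]; rfl⟩)
      (fun c hc' => by
        obtain ⟨x, h1, h2⟩ := hc _ hc'
        exact ⟨x, h1, h2.symm⟩)
      (fun l => ⟨_, s0_lin _, rfl⟩) φ.range
      (fun c ⟨x, _, h2⟩ => ⟨x, h2⟩) (fun l => ⟨_, rfl⟩) hsq hX (hFR R hjR hER)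
      (ε := ε / (cs + 1)) (by positivity)
    choose p1 hp1 using fun i => (hpq i).1
    choose q1 hq1 using fun i => (hpq i).2
    let p2 : Fin M → V := fun i => (p1 i + q1 i * ∑ i, (μ i : V) * a i) * e μ
    let q2 : Fin M → V := fun i => q1 i * e μ
    have hW : φ (Matrix.of fun (j i : Fin M) => D^[j] (p2 i * f + q2 i * D f)).det =
        (Matrix.of fun (j i : Fin M) => D'^[j] (p' i * aeval (fun l => E (sec (Pi.single l 1))) F' +
          q' i * D' (aeval (fun l => E (sec (Pi.single l 1))) F'))).det := by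
      rw [RingHom.map_det]
      congr 1
      ext j i
      simp only [RingHom.mapMatrix_apply, Matrix.map_apply, Matrix.of_apply, ← hit]
      congr 1
      rw [hF', hev, hf, ← hp1, ← hq1]
      simp only [E, ← map_mul, hD, ← map_add]
      congr 1
      rw [h.leib, h.de]
      simp only [p2, q2]
      ring
    refine ⟨M, cs * K₀, -sec (toZ γ₀), p2, q2, fun e => hx (hW ▸ (h0 _).2 e), hM, ?_, ?_⟩
    · rw [Nat.cast_mul]
      calc _ ≤ (cs + 1 : ℝ) * (ε / (cs + 1) * M) := by gcongr; linarith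
        _ = _ := by field_simp
    · have key : ∀ z ∈ AddSubmonoid.closure {z | ∃ r ∈ R, ∃ γ : Fin p →₀ ℕ,
          (∀ l, γ l ≤ γ₀ l ∧ γ₀ l ≤ γ l + K₀) ∧
            z = algebraMap K Ω r * mon (fun l => E (sec (Pi.single l 1))) γ},
          ∃ v ∈ AddSubmonoid.closure {z | ∃ s ∈ S, ∃ m : Fin n → ℤ,
            (∀ i, |m i| ≤ (cs * K₀ : ℕ)) ∧ z = s * e m}, φ v = z * E (-sec (toZ γ₀)) := by
        intro z hz
        induction hz using AddSubmonoid.closure_induction with
        | mem z hz =>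
          obtain ⟨r, ⟨s, s1, s2⟩, γ, hγ, rfl⟩ := hz
          refine ⟨_, AddSubmonoid.subset_closure
            ⟨s, h.s0_le s1, sec (toZ γ - toZ γ₀), fun i => ?_, rfl⟩, ?_⟩
          · have e1 : toZ γ - toZ γ₀ = ∑ l, (toZ γ - toZ γ₀) l • Pi.single l (1 : ℤ) := by
              funext i; simp [Finset.sum_apply, Pi.single_apply]
            rw [e1, map_sum, Finset.sum_apply, hcs]
            push_cast
            rw [sum_mul]
            refine (abs_sum_le_sum_abs _ _).trans (sum_le_sum fun l _ => ?_)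
            rw [map_zsmul, Pi.smul_apply, smul_eq_mul, abs_mul, mul_comm]
            refine mul_le_mul (single_le_sum (f := fun i => |sec (Pi.single l 1) i|)
              (fun _ _ => abs_nonneg _) (mem_univ i)) ?_ (abs_nonneg _)
              (sum_nonneg fun _ _ => abs_nonneg _)
            have := hγ l
            simp only [Pi.sub_apply, toZ]
            rw [abs_le]
            omega
          · rw [hLat.mon_eq, mul_assoc, ← Ea, map_mul, s2, map_sub, sub_eq_add_neg]; rfl
        | zero => exact ⟨0, zero_mem _, by simp⟩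
        | add x y _ _ hx hy =>
          obtain ⟨u, u1, u2⟩ := hx
          obtain ⟨v, v1, v2⟩ := hy
          exact ⟨u + v, add_mem u1 v1, by rw [map_add, u2, v2, add_mul]⟩
      obtain ⟨v, v1, v2⟩ := key _ hm
      have e1 : (Matrix.of fun (j i : Fin M) => D^[j] (p2 i * f + q2 i * D f)).det *
          e (-sec (toZ γ₀)) - v ∈ P := by
        rw [← h0, map_sub, v2, map_mul, hW]; simp [E]
      rw [← sub_add_cancel (_ * e (-sec (toZ γ₀))) v]
      refine add_mem (AddSubmonoid.subset_closure ⟨_, h.PS _ e1, 0, fun i => ?_, ?_⟩) v1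
      · simp; positivity
      · rw [h.e0, mul_one]
  · let ν : Fin p → ℤ := fun l => ∑ m ∈ F.support, |χ (toZ m) l|
    have n1 : ∀ m ∈ F.support, ∀ l, 0 ≤ (χ (toZ m) + ν) l := fun m hm l => by
      have := single_le_sum (f := fun m => |χ (toZ m) l|) (fun _ _ => abs_nonneg _) hm
      have := neg_abs_le (χ (toZ m) l)
      simp only [Pi.add_apply, ν]
      linarith
    set I := F.support.image (fun m => χ (toZ m)) with hI
    let g : Fin I.card ≃ I := I.equivFin.symm
    let θ : (Fin p → ℤ) → V := fun γ => ∑ m ∈ F.support.filter (fun m => χ (toZ m) = γ),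
      ι (coeff m F) * e (toZ m - sec (χ (toZ m)))
    have θ1 : ∀ γ, θ γ ∈ s0 D S e a := fun γ => sum_mem fun m _ => mul_mem (hι _) (hE _)
    have θ2 : ∀ γ, φ (θ γ) = algebraMap K Ω (th j EK χ F γ) := fun γ => by
      simp only [θ, th, map_sum, map_mul]; rfl
    have θ3 : eval₂Hom ι (fun i => e (Pi.single i 1)) F = ∑ t, θ (g t) * e (sec (g t)) := by
      rw [g.sum_comp (fun γ => θ γ * e (sec γ)), sum_coe_sort I (fun γ => θ γ * e (sec γ))]
      conv_lhs => rw [F.as_sum, map_sum, ← sum_fiberwise_of_maps_to (s := F.support) (t := I)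
        (g := fun m => χ (toZ m)) (fun m hm => mem_image_of_mem (fun m => χ (toZ m)) hm)]
      refine sum_congr rfl fun γ _ => ?_
      rw [sum_mul]
      refine sum_congr rfl fun m hm => ?_
      rw [← (mem_filter.1 hm).2, mul_assoc, ← h.ea, sub_add_cancel, eval₂Hom_monomial]
      exact congrArg _ (prod_pow_eq h.e0 h.ea (AddMonoidHom.id _) m)
    choose ρ ρ1 ρ2 using fun (i t : Fin I.card) => h.it_e (sec (g t)) (θ1 (g t)) i
    have hne := hL.wr_ne (fun t : Fin I.card => φ (θ (g t) * e (sec (g t)))) (by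
      intro c hc1 hc2 t
      choose u hu using fun t => hT.const _ (hc1 t)
      have nn : ∀ t, ∀ l, 0 ≤ ((g t : Fin p → ℤ) + ν) l := fun t => by
        obtain ⟨m, hm, e⟩ := mem_image.1 (g t).2
        rw [← e]; exact n1 m hm
      have e1 := hT.inj (∑ t, monomial (toN ((g t : Fin p → ℤ) + ν)) (u t * th j EK χ F (g t))) (by
        rw [map_sum, ← zero_mul (E (sec ν)), ← hc2, sum_mul]
        refine sum_congr rfl fun t _ => ?_
        rw [aeval_mon, hLat.mon_eq, toZ_toN (nn t), map_add, Ea, map_mul, map_mul, θ2, hu]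
        simp only [E, mul_assoc])
      have e2 := congrArg (coeff (toN ((g t : Fin p → ℤ) + ν))) e1
      rw [coeff_sum, sum_eq_single t] at e2
      · have : u t = 0 := by simpa [hLat.th_ne F (g t).2] using e2
        rw [hu, this, map_zero]
      · intro b _ hb
        rw [coeff_monomial, if_neg]
        intro e
        have := congrArg toZ e
        rw [toZ_toN (nn _), toZ_toN (nn _)] at this
        exact hb (g.injective (Subtype.ext (add_right_cancel this)))
      · simp)
    simp only [hit, ρ2] at hne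
    simp only [map_mul] at hne
    rw [Matrix.det_mul_row] at hne
    refine ⟨(Matrix.of ρ).det, h.s0_le (det_mem _ _ ρ1), fun e => right_ne_zero_of_mul hne ?_,
      I.card, fun m hm => ?_⟩
    · rw [← h0, RingHom.map_det] at e
      exact e
    · obtain ⟨t, ht⟩ := g.surjective ⟨χ (toZ m), mem_image_of_mem (fun m => χ (toZ m)) hm⟩
      refine ⟨fun i => e (toZ m - sec (χ (toZ m))) * (Matrix.of ρ).adjugate t i, fun i =>
        h.s0_le (mul_mem (hE _) ?_), ?_⟩
      · rw [Matrix.adjugate_apply]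
        refine det_mem _ _ fun a b => ?_
        rw [Matrix.updateRow_apply]
        split_ifs
        · rw [Pi.single_apply]; split_ifs; exacts [one_mem _, zero_mem _]
        · exact ρ1 _ _
      · have e1 := congrFun (congrArg (fun A => A.mulVec fun t => e (sec (g t)))
          (Matrix.adjugate_mul (Matrix.of ρ))) t
        simp only [← Matrix.mulVec_mulVec, Matrix.smul_mulVec, Matrix.one_mulVec, Pi.smul_apply,
          smul_eq_mul] at e1
        simp only [mul_assoc, ← mul_sum, θ3, it_sum, ρ2]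
        simp only [Matrix.mulVec, dotProduct, Matrix.of_apply] at e1
        simp only [mul_comm (e (sec (g _))) (ρ _ _)]
        rw [e1, ht, mul_left_comm, ← h.ea, sub_add_cancel]

end Pool.Agent.MP_c69980_ag.H60
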