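import Pool.Agent.MP_c69980_ag.H60.Ord
import Pool.Agent.MP_c69980_ag.H60.Split2

/-!
The truncated second main theorem for sequences of discs in a torus, for a squarefree polynomial.
-/

set_option autoImplicit false

namespace Pool.Agent.MP_c69980_ag.H60

open Finset Metric Real Filter Topology MvPolynomial

lemma ar1 {o : ℕ} (h : (2 : WithTop ℤ) ≤ ((o : ℤ) : WithTop ℤ)) : 2 ≤ o := by
  have : (2 : ℤ) ≤ o := WithTop.coe_le_coe.1 h
  omega

lemma ar2 {a b : ℕ} : (a : WithTop ℤ) * ((b : ℤ) : WithTop ℤ) = ((a * b : ℕ) : ℤ) := by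
  rw [← WithTop.coe_natCast, ← WithTop.coe_mul, Nat.cast_mul]

lemma ar3 {a b : ℕ} : ((a : ℤ) : WithTop ℤ) ≤ ((b : ℤ) : WithTop ℤ) ↔ a ≤ b := by
  rw [WithTop.coe_le_coe, Nat.cast_le]

lemma ar4 {a b : ℕ} : ((a : ℤ) : WithTop ℤ) + ((b : ℤ) : WithTop ℤ) = ((a + b : ℕ) : ℤ) := by
  rw [← WithTop.coe_add, Nat.cast_add]

namespace Dat

variable {N : ℕ} {k₀ : Type} [Field k₀] (d : Dat N k₀)

/-- Restriction to one disc. -/
def res (k : ℕ) : d.V →+* HR (d.R k) :=
  ((Pi.evalRingHom _ k).comp d.V.subtype).codRestrict _ fun x => x.2.2.1 k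

lemma res_D (k : ℕ) (x : d.V) : d.res k (d.D x) = DH (d.R k) (d.res k x) := rfl

lemma res_it (k j : ℕ) (x : d.V) : d.res k (d.D^[j] x) = (DH (d.R k))^[j] (d.res k x) := by
  induction j with
  | zero => rfl
  | succ j ih => rw [Function.iterate_succ_apply', Function.iterate_succ_apply', res_D, ih]

theorem false2 [CharZero k₀] {F : MvPolynomial (Fin N) k₀} (hF : Squarefree F) {G : ℕ → ℂ → ℂ}
    (hf : ∀ k z, d.f k z = eval₂Hom d.ι (fun i => Complex.exp (d.α k z i)) F)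
    (hG : ∀ k, Hol (d.R k) (G k)) (h0 : ∀ k, exp (-d.L k) ≤ ‖G k 0‖) {C : ℝ} (hC : 0 ≤ C) (n : ℕ)
    (gap : ∀ k, ∀ z ∈ ball (0 : ℂ) (d.R k), ‖G k z‖ * exp (tp (d.α k) z) ≤
      exp C * (∑ m ∈ F.support, ‖ex d.α (toZ m) k z‖) ^ n)
    (ord : ∀ k, ∀ z ∈ ball (0 : ℂ) (d.R k), 2 ≤ meromorphicOrderAt (d.f k) z ∨
      n * meromorphicOrderAt (d.f k) z ≤ meromorphicOrderAt (G k) z) : False := by
  set Φ := eval₂Hom d.ιV (fun i => d.e (Pi.single i 1)) F with hΦ
  have Φf : Φ.1 = d.f := by funext k z; rw [hf, hΦ, d.ev_apply]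
  have Φn : Φ ∉ d.P := fun h => hF.ne_zero (d.pkg.gen F h)
  obtain ⟨p1, w, w1, w2, J, p2⟩ := d.pkg.main2 hF hΦ.symm
  rw [← hΦ] at p2
  set ε : ℝ := 1 / (16 * (n + 1)) with hε
  have ε0 : 0 < ε := by positivity
  have εn : n * ε ≤ 1 / 16 := by
    rw [hε, mul_one_div, div_le_div_iff₀ (by positivity) (by positivity)]; linarith
  obtain ⟨M, K, m₀, p, q, x1, hM, hK, x2⟩ := p1 ε ε0
  set x := (Matrix.of fun (j i : Fin M) => d.D^[j] (p i * Φ + q i * d.D Φ)).det with hx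
  obtain ⟨g, g1, g2⟩ := d.span_bound K _ x2
  choose! s s1 s2 using p2
  have xn : x * d.e m₀ * d.e (fun _ => K) ∉ d.P := fun h => by
    rcases d.prime.mem_or_mem h with h | h
    · exact (d.prime.mem_or_mem h).elim x1 (d.e_not _)
    · exact d.e_not _ h
  set W := x * d.e m₀ * d.e (fun _ => K) with hW
  have lld := (d.big Φn).mono fun k hk => (d.st k).lld (Φf ▸ hk.1) (Φf ▸ hk.2)
  have G1 : Sm d.U d.r d.τ (∑ m ∈ F.support, ∑ j : Fin J, (fun k z => ‖(s m j).1 k z‖) *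
      fun k z => ‖iteratedDeriv j (d.f k) z / d.f k z‖) := by
    refine Sm.sum d.τtop _ fun m hm => Sm.sum d.τtop _ fun j _ => Sm.mul d.τtop (s1 m hm j) ?_
    intro ε hε
    filter_upwards [lld, log_small d.τtop (log (3 * (j : ℕ).factorial) + j * (2 ^ 90 * (d.C + 1)))
      (j * 7) hε] with k a b
    have hol : Hol (d.R k) (d.f k) := Φf ▸ Φ.2.2.1 k
    refine ⟨(((hol.iter j).continuousOn.mono (sph_sub (d.r0 k) (d.rR k))).div
      (hol.continuousOn.mono (sph_sub (d.r0 k) (d.rR k))) fun z hz =>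
        a.1 z (by simpa [abs_of_pos (d.r0 k)] using hz)).norm, (a.2 j).trans ?_⟩
    change _ ≤ ε * d.τ k at b
    change _ + _ * (_ + _ * log (d.τ k)) ≤ _
    linarith
  set Γ := ∑ m ∈ F.support, ∑ j : Fin J, (fun k z => ‖(s m j).1 k z‖) *
      fun k z => ‖iteratedDeriv j (d.f k) z / d.f k z‖ with hΓ
  obtain ⟨C1, c10, c11⟩ := d.gr1 Φ
  obtain ⟨k, ⟨⟨⟨⟨a1, a2⟩, a3⟩, a4⟩, ⟨a5, a6⟩, a7⟩, a8⟩ := (((((lld.and (d.big Φn)).and
    (d.big xn)).and (d.av_ge w2)).and (((g1 ε ε0).and (G1 ε ε0)).and c11)).and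
        (d.ssmall (1 / 16 / (4 + C + 3 * n + n * C1)) (by positivity))).exists
  have r0 := d.r0 k
  have rR := d.rR k
  have R1 := d.R1 k
  have it := tp_int (d.hα k) r0 rR
  have tτ : circleAverage (tp (d.α k)) 0 (d.r k) = d.τ k - (d.L k + 1) := by
    unfold τ ta; ring
  have hol : Hol (d.R k) (d.f k) := Φf ▸ Φ.2.2.1 k
  have nf : NZ (d.R k) (d.f k) := Φf ▸ a2.1
  have G0 : G k 0 ≠ 0 := norm_pos_iff.1 ((exp_pos _).trans_le (h0 k))
  have nG : NZ (d.R k) (G k) := ⟨0, mem_ball_self (by linarith), G0⟩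
  have hW1 := W.2.2.1 k
  -- first estimate
  have e1 : av (W.1 k) (d.r k) ≤ ε * d.τ k + 2 * K * (d.τ k - (d.L k + 1)) := by
    have b3 := avg_mono_off (zeros_fin hW1 a3.1 rR) r0
      (Hol.int hW1 r0 rR) ((pl_int a5.1).add (int_aff it 0 (2 * K))) fun z hz hZ => by
        simpa using log_le_pl (norm_pos_iff.2 fun e => hZ ⟨hz.le, e⟩) (g2 k z)
    rw [circleAverage_add (pl_int a5.1) (int_aff it _ _), avg_aff it, tτ] at b3
    change av _ _ ≤ _ at b3
    linarith [a5.2]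
  -- second estimate
  have e2 : n * av (w.1 k) (d.r k) + av (G k) (d.r k) + (d.τ k - (d.L k + 1)) ≤
      C + n * (ε * d.τ k) + n * av (d.f k) (d.r k) := by
    have h1 := w.2.2.1 k
    have b3 := avg_mono_off ((zeros_fin h1 a4.1 rR).union (zeros_fin (hG k) nG rR)) r0
      (((int_aff (h1.int r0 rR) 0 n).add ((hG k).int r0 rR)).add it)
      ((int_aff (pl_int a6.1) C n).add (int_aff (hol.int r0 rR) 0 n)) fun z hz hZ => by
        have zb : z ∈ ball (0 : ℂ) (d.R k) := mem_ball_zero_iff.2 (hz ▸ rR)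
        have n1 : 0 < ‖w.1 k z‖ := norm_pos_iff.2 fun e => hZ (Or.inl ⟨hz.le, e⟩)
        have n3 : 0 < ‖G k z‖ := norm_pos_iff.2 fun e => hZ (Or.inr ⟨hz.le, e⟩)
        have n2 := a1.1 z hz
        have c1 : ‖w.1 k z‖ * ∑ m ∈ F.support, ‖ex d.α (toZ m) k z‖ ≤ Γ k z * ‖d.f k z‖ := by
          simp only [hΓ, Finset.sum_apply, Pi.mul_apply, mul_sum, sum_mul]
          refine sum_le_sum fun m hm => ?_
          have := congrArg (d.evp k z) (s2 m hm)
          simp only [map_mul, map_sum] at this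
          rw [← norm_mul]
          change ‖d.evp k z w * d.evp k z (d.e (toZ m))‖ ≤ _
          rw [this]
          refine (norm_sum_le _ _).trans (le_of_eq (sum_congr rfl fun j _ => ?_))
          change ‖(s m j).1 k z * (d.D^[j] Φ).1 k z‖ = _
          rw [D_iter, dd_iter _ _ _ z zb, Φf, norm_mul, norm_div, mul_assoc,
            div_mul_cancel₀ _ (norm_ne_zero_iff.2 n2)]
        set σ := ∑ m ∈ F.support, ‖ex d.α (toZ m) k z‖
        have σ0 : 0 < σ := sum_pos (fun m _ => by rw [norm_ex]; exact exp_pos _)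
          (support_nonempty.2 hF.ne_zero)
        have c2 := log_le_pl (c := log ‖d.f k z‖) (mul_pos n1 σ0)
          (by rwa [exp_log (norm_pos_iff.2 n2)])
        have c3 := log_le_log (mul_pos n3 (exp_pos _)) (gap k z zb)
        rw [log_mul n1.ne' σ0.ne'] at c2
        rw [log_mul n3.ne' (exp_pos _).ne', log_mul (exp_pos _).ne' (pow_pos σ0 n).ne', log_exp,
          log_exp, log_pow] at c3
        have c4 := mul_le_mul_of_nonneg_left c2 (Nat.cast_nonneg (α := ℝ) n)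
        simp only [Pi.add_apply]
        linarith
    rw [circleAverage_add ((int_aff (h1.int r0 rR) 0 n).add ((hG k).int r0 rR)) it,
      circleAverage_add (int_aff (h1.int r0 rR) 0 n) ((hG k).int r0 rR), avg_aff (h1.int r0 rR), tτ,
      circleAverage_add (int_aff (pl_int a6.1) C n) (int_aff (hol.int r0 rR) 0 n),
      avg_aff (pl_int a6.1), avg_aff (hol.int r0 rR)] at b3
    have := mul_le_mul_of_nonneg_left a6.2 (Nat.cast_nonneg (α := ℝ) n)
    unfold av
    linarith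
  -- comparison of orders
  have e3 := av_cmp (f := d.f k ^ (n * M)) (g := fun z => (G k ^ M) z * (W.1 k ^ (2 * n)) z)
    (hol.pow _) (((hG k).pow M).mul (hW1.pow _)) (nf.pow _)
    ((nG.pow M).mul ((hG k).pow M) (hW1.pow _) (a3.1.pow _)) (fun z hz => by
      obtain ⟨o, ho⟩ := ord_nat hol nf hz
      obtain ⟨o1, ho1⟩ := ord_nat (hG k) nG hz
      obtain ⟨o2, ho2⟩ := ord_nat hW1 a3.1 hz
      have m1 := ((hG k).at hz).meromorphicAt
      have m2 := (hW1.at hz).meromorphicAt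
      rw [meromorphicOrderAt_pow (hol.at hz).meromorphicAt,
        fun_meromorphicOrderAt_mul (m1.pow M) (m2.pow _), meromorphicOrderAt_pow m1,
        meromorphicOrderAt_pow m2, ho, ho1, ho2, ar2, ar2, ar2, ar4, ar3]
      rcases ord k z hz with h | h
      · rw [ho] at h
        have h := ar1 h
        obtain ⟨o', rfl⟩ : ∃ o', o = o' + 1 := ⟨o - 1, by omega⟩
        have b1 := ord_wr (d.res k Φ) (fun i => d.res k (p i)) (fun i => d.res k (q i)) hz
          (by rw [← ho, ← Φf]; rfl)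
        have b2 : (Matrix.of fun (j i : Fin M) => (DH (d.R k))^[j] (d.res k (p i) * d.res k Φ +
            d.res k (q i) * DH (d.R k) (d.res k Φ))).det = d.res k x := by
          rw [hx, RingHom.map_det]
          congr 1
          ext j i : 2
          simp only [RingHom.mapMatrix_apply, Matrix.map_apply, Matrix.of_apply, res_it, map_add,
            map_mul, res_D]
        rw [b2] at b1
        have b3 : meromorphicOrderAt (x.1 k) z ≤ (o2 : ℤ) := by
          have a := fun y : d.V => (y.2.2.1 k).at hz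
          rw [← ho2, hW, mul_assoc]
          change _ ≤ meromorphicOrderAt (x.1 k * (d.e m₀ * d.e fun _ => K).1 k) z
          rw [meromorphicOrderAt_mul (a _).meromorphicAt (a _).meromorphicAt]
          exact le_add_of_nonneg_right (a _).meromorphicOrderAt_nonneg
        have b4 := ar3.1 (b1.trans b3)
        nlinarith [Nat.mul_le_mul_left (2 * n) b4, Nat.zero_le (M * o1),
          Nat.mul_le_mul_left (n * M) (show 1 ≤ o' by omega)]
      · rw [ho, ho1, ar2, ar3] at h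
        nlinarith [Nat.mul_le_mul_left M h, Nat.zero_le (2 * n * o2)])
    (d.st k).r1 rR
  have k1 : ∀ ρ, 0 < ρ → ρ < d.R k → av (fun z => (G k ^ M) z * (W.1 k ^ (2 * n)) z) ρ =
      M * av (G k) ρ + 2 * n * av (W.1 k) ρ := fun ρ a b => by
    rw [av_mul ((hG k).pow M) (hW1.pow _) (nG.pow M) (a3.1.pow _) a b, av_pow (hG k) _ a b,
      av_pow hW1 _ a b]
    push_cast; ring
  rw [k1 _ r0 rR, k1 _ one_pos R1, av_pow hol _ r0 rR, av_pow hol _ one_pos R1] at e3
  have e4 : av (d.f k) 1 ≤ C1 * d.s k :=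
    av_le hol nf one_pos R1 fun z hz => Φf ▸ a7 z (by linarith)
  have e5 : -d.L k ≤ av (G k) 1 := le_trans ((le_log_iff_exp_le (norm_pos_iff.2 G0)).2 (h0 k))
    (le_av (hG k) one_pos R1 G0)
  have M1 : (1 : ℝ) ≤ M := by exact_mod_cast hM
  have τ1 := d.τ1 k
  have s1 := d.s1 k
  have Ls := d.Ls k
  have L0 := (d.num k).2.2.2.1
  have K0 : (0 : ℝ) ≤ K := Nat.cast_nonneg _
  have n0 : (0 : ℝ) ≤ n := Nat.cast_nonneg _
  rw [div_mul_eq_mul_div, le_div_iff₀ (by positivity)] at a8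
  push_cast at e3
  have q1 := mul_le_mul_of_nonneg_left e2 (zero_le_one.trans M1)
  have q2 := mul_le_mul_of_nonneg_left a4.2 (show 0 ≤ (M : ℝ) * n by positivity)
  have q3 := mul_le_mul_of_nonneg_left e4 (show 0 ≤ (n : ℝ) * M by positivity)
  have q4 := mul_le_mul_of_nonneg_left e5 (zero_le_one.trans M1)
  have q5 := mul_le_mul_of_nonneg_left e1 (show 0 ≤ 2 * (n : ℝ) by positivity)
  have q6 := mul_le_mul_of_nonneg_left a3.2 (show 0 ≤ 2 * (n : ℝ) by positivity)
  have q7 := mul_le_mul_of_nonneg_right hK (show 0 ≤ 4 * n * d.τ k by positivity)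
  have q8 : 0 ≤ 4 * n * K * (d.L k + 1) := by positivity
  have q9 := mul_le_mul_of_nonneg_right M1 (show 0 ≤ 2 * n * (ε * d.τ k + d.s k) by positivity)
  have e6 : d.τ k ≤ 2 * d.L k + 1 + C + 7 * (n * ε) * d.τ k + (3 * n + n * C1) * d.s k := by
    apply le_of_mul_le_mul_left _ (zero_lt_one.trans_le M1)
    linarith
  have r1 := mul_le_mul_of_nonneg_right εn (zero_le_one.trans τ1)
  have r2 := mul_le_mul_of_nonneg_left s1 hC
  linarith

end Dat

theorem core2 {N : ℕ} {k₀ : Type} [Field k₀] [CharZero k₀] [Countable k₀] (ι : k₀ →+* ℂ)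
    {F : MvPolynomial (Fin N) k₀} (hF : Squarefree F) {C : ℝ} (hC : 0 ≤ C) (n : ℕ)
    (L : ℕ → ℝ) (α : ℕ → ℂ → Fin N → ℂ) (G : ℕ → ℂ → ℂ)
    (hα : ∀ k, DifferentiableOn ℂ (α k) (ball 0 (rad k (L k)))) (hd : ∀ k, 1 ≤ ‖deriv (α k) 0‖)
    (hL : ∀ k, ‖α k 0‖ ≤ L k) (hG : ∀ k, Hol (rad k (L k)) (G k))
    (h0 : ∀ k, exp (-L k) ≤ ‖G k 0‖)
    (gap : ∀ k, ∀ z ∈ ball (0 : ℂ) (rad k (L k)), ‖G k z‖ * exp (tp (α k) z) ≤
      exp C * (∑ m ∈ F.support, ‖ex α (toZ m) k z‖) ^ n)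
    (ord : ∀ k, ∀ z ∈ ball (0 : ℂ) (rad k (L k)),
      2 ≤ meromorphicOrderAt (fun z => eval₂Hom ι (fun i => Complex.exp (α k z i)) F) z ∨
      n * meromorphicOrderAt (fun z => eval₂Hom ι (fun i => Complex.exp (α k z i)) F) z ≤
        meromorphicOrderAt (G k) z)
    (gen : ∀ δ : MvPolynomial (Fin N) k₀, δ ≠ 0 → ∀ᶠ k in atTop,
      exp (-L k) ≤ ‖eval₂Hom ι (fun i => Complex.exp (α k 0 i)) δ‖) : False := by
  classical
  let R : ℕ → ℝ := fun k => rad k (L k)
  let f : ℕ → ℂ → ℂ := fun k z => eval₂Hom ι (fun i => Complex.exp (α k z i)) F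
  have fe : ∀ k z, f k z = ∑ m ∈ F.support, ι (coeff m F) * ex α (toZ m) k z := fun k z => by
    simp only [f]
    conv_lhs => rw [F.as_sum, map_sum]
    refine sum_congr rfl fun m _ => ?_
    rw [eval₂Hom_monomial, Finsupp.prod_fintype _ _ (by simp), ex, Complex.exp_sum]
    simp [toZ, Complex.exp_nat_mul]
  have hpt : ∀ (h : ℂ → ℂ) (R' : ℝ), ∃ ρ : ℝ, 2 ≤ ρ ∧ ρ ≤ 3 ∧ (Hol R' h → 8 < R' → ∀ A s : ℝ,
      0 ≤ A → 0 ≤ s → NZ R' h → (∀ z, ‖z‖ ≤ 8 → ‖h z‖ ≤ exp A) → -s ≤ av h 1 →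
      ∀ w, ‖w‖ = ρ → exp (-(12 * (A + s) + 1)) ≤ ‖h w‖) := fun h R' => by
    by_cases hh : Hol R' h ∧ 8 < R'
    · obtain ⟨ρ, a, b, c⟩ := minmod hh.1 hh.2
      exact ⟨ρ, a, b, fun _ _ => c⟩
    · exact ⟨2, le_rfl, by norm_num, fun a b => absurd ⟨a, b⟩ hh⟩
  choose pt hpt using hpt
  obtain ⟨T, T1, T2, T3⟩ := exists_closed
    ((Set.range fun c (_ : ℕ) (_ : ℂ) => ι c) ∪ Set.range (ex α) ∪
      (Set.range fun i => dd R (be α i)) ∪ {f})
    ((((Set.countable_range _).union (Set.countable_range _)).union (Set.countable_range _)).union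
      (Set.toFinite _).countable)
    ![fun x y => x + y, fun x y => x * y, fun x _ => -x, fun x _ => dd R x,
      fun x y k _ => x k (pt (y k) (R k)) / y k (pt (y k) (R k))]
  obtain ⟨en, hen⟩ := T1.exists_eq_range ⟨f, T2 (by simp)⟩
  choose σ σ1 σ2 σ3 σ4 σ5 using fun k => window (hα k) k le_rfl fun j => av (en j k) 1
  set C' : ℝ := ∑ m ∈ F.support, (‖ι (coeff m F)‖ + ∑ i, |(toZ m i : ℝ)|) with hC'
  have C0 : 0 ≤ C' := by positivity
  have fb : ∀ k, ∀ z ∈ ball (0 : ℂ) (R k), ‖f k z‖ ≤ exp (2 * C' * (‖α k z‖ + 1)) := by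
    intro k z _
    have t0 := norm_nonneg (α k z)
    rw [fe, two_mul, add_mul, exp_add]
    refine (norm_sum_le _ _).trans (le_trans (sum_le_sum (g := fun m => ‖ι (coeff m F)‖ *
      exp (C' * (‖α k z‖ + 1))) fun m hm => ?_) ?_)
    · rw [norm_mul]
      refine mul_le_mul_of_nonneg_left ((ex_bound _ _ _ _).trans ?_) (norm_nonneg _)
      have := single_le_sum (f := fun m => ‖ι (coeff m F)‖ + ∑ i, |(toZ m i : ℝ)|)
        (fun m _ => by positivity) hm
      gcongr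
      linarith [norm_nonneg (ι (coeff m F))]
    · rw [← sum_mul]
      gcongr
      have : ∑ m ∈ F.support, ‖ι (coeff m F)‖ ≤ C' :=
        sum_le_sum fun m _ => le_add_of_nonneg_right (by positivity)
      nlinarith [add_one_le_exp (C' * (‖α k z‖ + 1))]
  choose r η st using fun k => stage (hα k) (hd k) (hL k) (σ1 k) (σ4 k) (f := f k)
    ((DifferentiableOn.fun_sum fun m _ => (ex_hol (hα k) (toZ m)).const_mul _).congr
      fun z _ => fe k z) (C := 2 * C') (by positivity) (fb k)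
  let d : Dat N k₀ :=
    { ι := ι, R := R, L := L, σ := σ, r := r, η := η, α := α, U := hyperfilter ℕ, T := T, pt := pt
      C := 2 * C', f := f
      hU := Nat.hyperfilter_le_atTop
      hα := hα, hd := hd, hL := hL
      hσ := fun k => ⟨σ1 k, σ2 k, σ3 k, σ4 k⟩
      dich := fun x hx => by
        rw [hen] at hx
        obtain ⟨j, rfl⟩ := hx
        filter_upwards [eventually_gt_atTop j] with k hk using σ5 k j hk
      st := st
      hpt := hpt
      Tadd := T3 0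
      Tmul := T3 1
      Tneg := fun x hx => T3 2 x hx x hx
      Tdd := fun x hx => T3 3 x hx x hx
      Tcc := T3 4
      Tc := fun c => T2 (by simp)
      Te := fun m => T2 (by simp)
      Ta := fun i => T2 (by simp)
      gen := gen }
  exact d.false2 hF (fun _ _ => rfl) hG h0 hC n gap ord

end Pool.Agent.MP_c69980_ag.H60
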