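import Pool.Agent.MP_c69980_ag.H60.Tor

/-!
The dimension count: a square factor of an exponential polynomial is small.
-/

set_option autoImplicit false

namespace Pool.Agent.MP_c69980_ag.H60

open Finset MvPolynomial Filter Topology

lemma second_diff {ι : Type*} (s : Finset ι) (f : ι → ℝ) (N : ℝ) (hf : ∀ i, 0 ≤ f i)
    (hN : ∀ i, 2 * f i ≤ N) (hN0 : 0 ≤ N) :
    0 ≤ ∏ i ∈ s, (N - 2 * f i) ∧ ∏ i ∈ s, (N - 2 * f i) ≤ N ^ s.card ∧
    ∏ i ∈ s, (N - 2 * f i) ≤ ∏ i ∈ s, (N - f i) ∧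
    N * (∏ i ∈ s, (N - f i) - ∏ i ∈ s, (N - 2 * f i)) ≤ (∑ i ∈ s, f i) * N ^ s.card ∧
    N ^ 2 * (N ^ s.card - 2 * ∏ i ∈ s, (N - f i) + ∏ i ∈ s, (N - 2 * f i)) ≤
      (∑ i ∈ s, f i) ^ 2 * N ^ s.card := by
  classical
  induction s using Finset.induction_on with
  | empty => simp; norm_num
  | insert a s ha ih =>
    obtain ⟨h1, h2, h3, h4, h5⟩ := ih
    simp only [prod_insert ha, sum_insert ha, card_insert_of_notMem ha, pow_succ N s.card]
    set A1 := ∏ i ∈ s, (N - f i)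
    set A2 := ∏ i ∈ s, (N - 2 * f i)
    set P := N ^ s.card
    set S := ∑ i ∈ s, f i
    have hS : 0 ≤ S := sum_nonneg fun i _ => hf i
    have a1 := hf a
    have a2 := hN a
    have hP : 0 ≤ P := pow_nonneg hN0 _
    refine ⟨mul_nonneg (by linarith) h1, by nlinarith, ?_, ?_, ?_⟩
    · exact mul_le_mul (by linarith) h3 h1 (by linarith)
    · have e1 : N * (N * (A1 - A2)) ≤ N * (S * P) := mul_le_mul_of_nonneg_left h4 hN0
      have e2 : 0 ≤ f a * (N * (A1 - A2)) := mul_nonneg a1 (mul_nonneg hN0 (by linarith))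
      have e3 : f a * N * A2 ≤ f a * N * P := mul_le_mul_of_nonneg_left h2 (mul_nonneg a1 hN0)
      nlinarith
    · have e1 := mul_le_mul_of_nonneg_left h5 hN0
      have e2 := mul_le_mul_of_nonneg_left h4 (mul_nonneg a1 hN0)
      have e3 : 0 ≤ f a ^ 2 * (P * N) := by positivity
      nlinarith

lemma exists_box {n : ℕ} (f : Fin n → ℕ) {ε : ℝ} (hε : 0 < ε) : ∃ N : ℕ, 0 < N ∧
    (∀ l, 2 * f l < N) ∧ (N : ℝ) * ((N : ℝ) ^ n - 2 * ∏ l, ((N : ℝ) - f l) +
      ∏ l, ((N : ℝ) - 2 * f l)) ≤ ε * ∏ l, ((N : ℝ) - f l) := by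
  obtain ⟨N, hN⟩ := exists_nat_gt (2 * (∑ l, (f l : ℝ)) + (∑ l, (f l : ℝ)) ^ 2 * 2 ^ n / ε)
  have hS : 0 ≤ ∑ l, (f l : ℝ) := sum_nonneg fun i _ => Nat.cast_nonneg _
  have h0 : 0 ≤ (∑ l, (f l : ℝ)) ^ 2 * 2 ^ n / ε := by positivity
  have hN0 : (0 : ℝ) < N := by linarith
  have hl : ∀ l, 2 * (f l : ℝ) < N := fun l => by
    have := single_le_sum (f := fun l => (f l : ℝ)) (fun i _ => Nat.cast_nonneg _) (mem_univ l)
    linarith
  refine ⟨N, by exact_mod_cast hN0, fun l => by exact_mod_cast hl l, ?_⟩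
  have h5 := (second_diff univ (fun l => (f l : ℝ)) N (fun _ => Nat.cast_nonneg _)
    (fun l => (hl l).le) hN0.le).2.2.2.2
  have h6 : ((N : ℝ) / 2) ^ n ≤ ∏ l, ((N : ℝ) - f l) := by
    calc _ = ∏ _l : Fin n, ((N : ℝ) / 2) := by simp [div_pow]
      _ ≤ _ := prod_le_prod (fun _ _ => by positivity) fun l _ => by linarith [hl l]
  simp only [card_univ, Fintype.card_fin] at h5
  have h7 : (∑ l, (f l : ℝ)) ^ 2 * 2 ^ n ≤ ε * N := by
    have : (∑ l, (f l : ℝ)) ^ 2 * 2 ^ n / ε ≤ N := by linarith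
    rwa [div_le_iff₀ hε, mul_comm (N : ℝ)] at this
  have h8 : (N : ℝ) ^ n = 2 ^ n * ((N : ℝ) / 2) ^ n := by rw [← mul_pow]; congr 1; ring
  apply le_of_mul_le_mul_left _ hN0
  calc _ = (N : ℝ) ^ 2 * ((N : ℝ) ^ n - 2 * ∏ l, ((N : ℝ) - f l) +
        ∏ l, ((N : ℝ) - 2 * f l)) := by ring
    _ ≤ (∑ l, (f l : ℝ)) ^ 2 * (2 ^ n * ((N : ℝ) / 2) ^ n) := by rw [← h8]; exact h5
    _ = ((∑ l, (f l : ℝ)) ^ 2 * 2 ^ n) * ((N : ℝ) / 2) ^ n := by ring
    _ ≤ (ε * N) * ∏ l, ((N : ℝ) - f l) := by gcongr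
    _ = _ := by ring

lemma steinmetz {K : Type*} [Field K] (κ : Subfield K) (R : Subring K) (hκ : ∀ c ∈ κ, c ∈ R)
    (S : Finset K) (hS : ∀ a ∈ S, a ∈ R) {θ : ℝ} (hθ : 0 < θ) :
    ∃ (ℓ ℓ' : ℕ) (b : Fin ℓ → K) (b' : Fin ℓ' → K), 0 < ℓ ∧ (ℓ' : ℝ) ≤ (1 + θ) * ℓ ∧
      (∀ i, b i ∈ R) ∧ (∀ i, b' i ∈ R) ∧
      (∀ c : Fin ℓ → K, (∀ i, c i ∈ κ) → ∑ i, c i * b i = 0 → ∀ i, c i = 0) ∧
      ∀ i, ∀ a ∈ S, ∃ c : Fin ℓ' → K, (∀ j, c j ∈ κ) ∧ b i * a = ∑ j, c j * b' j := by
  classical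
  let g : (s : ℕ) → (S → Fin (s + 1)) → K := fun s f => ∏ a : S, (a : K) ^ (f a : ℕ)
  let L : ℕ → Submodule κ K := fun s => Submodule.span κ (Set.range (g s))
  have : ∀ s, Module.Finite κ (L s) := fun s => Module.Finite.span_of_finite _ (Set.finite_range _)
  have h1 : ∀ s, Module.finrank κ (L s) ≤ (s + 1) ^ S.card := fun s => by
    simpa [Set.finrank] using finrank_range_le_card (R := κ) (g s)
  have h2 : ∀ s, 0 < Module.finrank κ (L s) := fun s => by
    rw [Module.finrank_pos_iff_exists_ne_zero]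
    exact ⟨⟨1, Submodule.subset_span ⟨0, by simp [g]⟩⟩, by simp⟩
  have h3 : ∀ s, ∀ x ∈ L s, x ∈ R := fun s x hx => by
    induction hx using Submodule.span_induction with
    | mem x hx =>
      obtain ⟨f, rfl⟩ := hx
      exact R.prod_mem fun a _ => R.pow_mem (hS _ a.2) _
    | zero => exact R.zero_mem
    | add x y _ _ hx hy => exact R.add_mem hx hy
    | smul c x _ hx => exact R.mul_mem (hκ _ c.2) hx
  have h4 : ∀ s, ∀ x ∈ L s, ∀ a ∈ S, x * a ∈ L (s + 1) := fun s x hx a ha => by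
    induction hx using Submodule.span_induction with
    | mem x hx =>
      obtain ⟨f, rfl⟩ := hx
      refine Submodule.subset_span ⟨fun t => if t = ⟨a, ha⟩ then (f t).succ else (f t).castSucc, ?_⟩
      simp only [g]
      rw [← Finset.mul_prod_erase univ _ (mem_univ ⟨a, ha⟩),
        ← Finset.mul_prod_erase univ (fun t : S => (t : K) ^ (f t : ℕ)) (mem_univ ⟨a, ha⟩),
        Finset.prod_congr rfl (g := fun t : S => (t : K) ^ (f t : ℕ))]
      · simp [pow_succ]; ring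
      · intro t ht
        rw [if_neg (Finset.mem_erase.1 ht).1]; simp
    | zero => simp
    | add x y _ _ hx hy => rw [add_mul]; exact add_mem hx hy
    | smul c x _ hx => rw [smul_mul_assoc]; exact Submodule.smul_mem _ _ hx
  obtain ⟨s, hs⟩ : ∃ s, (Module.finrank κ (L (s + 1)) : ℝ) ≤ (1 + θ) * Module.finrank κ (L s) := by
    by_contra hn
    push Not at hn
    have h5 : ∀ s, (1 + θ) ^ s ≤ Module.finrank κ (L s) := by
      intro s
      induction s with
      | zero => simpa using Nat.succ_le_of_lt (h2 0)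
      | succ s ih =>
        rw [pow_succ, mul_comm]
        exact (mul_le_mul_of_nonneg_left ih (by linarith)).trans (hn s).le
    have h6 := (tendsto_pow_const_div_const_pow_of_one_lt S.card (r := 1 + θ) (by linarith)).comp
      (tendsto_add_atTop_nat 1)
    obtain ⟨s, hs⟩ := (h6.eventually (gt_mem_nhds (show (0 : ℝ) < 1 / (1 + θ) by positivity))).exists
    simp only [Function.comp] at hs
    rw [div_lt_div_iff₀ (by positivity) (by positivity), one_mul, pow_succ] at hs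
    have h7 : (Module.finrank κ (L s) : ℝ) ≤ ((s + 1 : ℕ) : ℝ) ^ S.card := by exact_mod_cast h1 s
    have := (lt_of_mul_lt_mul_right hs (by positivity)).trans_le ((h5 s).trans h7)
    exact lt_irrefl _ this
  let b := Module.finBasis κ (L s)
  let b' := Module.finBasis κ (L (s + 1))
  refine ⟨_, _, fun i => b i, fun i => b' i, h2 s, hs, fun i => h3 _ _ (b i).2,
    fun i => h3 _ _ (b' i).2, fun c hc h0 i => ?_, fun i a ha => ?_⟩
  · have := Fintype.linearIndependent_iff.1 b.linearIndependent (fun i => ⟨c i, hc i⟩)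
      (Subtype.ext (by rw [Submodule.coe_sum]; exact h0)) i
    exact congrArg Subtype.val this
  · refine ⟨fun j => b'.repr ⟨_, h4 s _ (b i).2 a ha⟩ j, fun j => SetLike.coe_mem _, ?_⟩
    have := congrArg Subtype.val (b'.sum_repr ⟨_, h4 s _ (b i).2 a ha⟩)
    rw [Submodule.coe_sum] at this
    exact this.symm

/-- Exponent vectors in a box. -/
noncomputable def box {n : ℕ} (g : Fin n → ℕ) : Finset (Fin n →₀ ℕ) :=
  (Fintype.piFinset fun l => range (g l)).map Finsupp.equivFunOnFinite.symm.toEmbedding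

lemma mem_box {n : ℕ} {g : Fin n → ℕ} {γ : Fin n →₀ ℕ} : γ ∈ box g ↔ ∀ l, γ l < g l := by
  simp [box]

lemma card_box {n : ℕ} (g : Fin n → ℕ) : (box g).card = ∏ l, g l := by
  simp [box]

section Pl

variable {K : Type*} [Field K] {n ℓ : ℕ}

/-- A polynomial with coefficients expanded in a family `b`. -/
noncomputable def pl (b : Fin ℓ → K) (A : Finset (Fin n →₀ ℕ)) (c : Fin ℓ × A → K) :
    MvPolynomial (Fin n) K := ∑ t : Fin ℓ × A, C (c t) * monomial t.2.1 (b t.1)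

lemma coeff_pl (b : Fin ℓ → K) (A : Finset (Fin n →₀ ℕ)) (c : Fin ℓ × A → K) (γ : Fin n →₀ ℕ) :
    coeff γ (pl b A c) = if h : γ ∈ A then ∑ i, c (i, ⟨γ, h⟩) * b i else 0 := by
  simp only [pl, coeff_sum, coeff_C_mul, coeff_monomial, Fintype.sum_prod_type]
  split_ifs with h
  · refine sum_congr rfl fun i _ => ?_
    rw [Finset.sum_eq_single ⟨γ, h⟩]
    · simp
    · intro δ _ hδ
      rw [if_neg (fun e => hδ (Subtype.ext e)), mul_zero]
    · simp
  · refine sum_eq_zero fun i _ => sum_eq_zero fun δ _ => ?_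
    rw [if_neg (fun e : δ.1 = γ => h (e ▸ δ.2)), mul_zero]

lemma indep {F G : MvPolynomial (Fin n) K} (hF : F ≠ 0) (hc : IsRelPrime F G) {N : ℕ}
    {U V : MvPolynomial (Fin n) K} (h : U * F + V * G = 0)
    (hV : V.support ⊆ box (fun l => N - degreeOf l F) \
      (box fun l => N - 2 * degreeOf l F).image (MonomialOrder.lex.degree F + ·)) :
    U = 0 ∧ V = 0 := by
  have h1 : F ∣ V * G := ⟨-U, by linear_combination h⟩
  obtain ⟨Z, rfl⟩ := hc.dvd_of_dvd_mul_right h1
  suffices Z = 0 by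
    subst this
    simpa [hF] using h
  by_contra hZ
  have h2 := hV (MonomialOrder.lex.degree_mem_support (mul_ne_zero hF hZ))
  rw [MonomialOrder.degree_mul hF hZ, Finset.mem_sdiff] at h2
  apply h2.2
  refine mem_image.2 ⟨_, mem_box.2 fun l => ?_, rfl⟩
  have e1 := degreeOf_mul_eq (n := l) hF hZ
  have e0 := mem_box.1 h2.1 l
  have e2 : degreeOf l (F * Z) < N - degreeOf l F := by
    rw [degreeOf_lt_iff (by omega)]
    exact fun m hm => mem_box.1 (Finset.mem_sdiff.1 (hV hm)).1 l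
  have e3 := monomial_le_degreeOf l (MonomialOrder.lex.degree_mem_support hZ)
  omega

lemma supp_pl (b : Fin ℓ → K) (A : Finset (Fin n →₀ ℕ)) (c : Fin ℓ × A → K) :
    (pl b A c).support ⊆ A := by
  intro γ hγ
  by_contra h
  rw [mem_support_iff, coeff_pl, dif_neg h] at hγ
  exact hγ rfl

lemma expand {ℓ' : ℕ} (κ : Subfield K) (b' : Fin ℓ' → K) (A : Finset (Fin n →₀ ℕ))
    (U : MvPolynomial (Fin n) K) (hs : U.support ⊆ A)
    (hc : ∀ γ, ∃ c : Fin ℓ' → K, (∀ j, c j ∈ κ) ∧ coeff γ U = ∑ j, c j * b' j) :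
    ∃ c : Fin ℓ' × A → K, (∀ t, c t ∈ κ) ∧ U = pl b' A c := by
  choose c h1 h2 using hc
  refine ⟨fun t => c t.2 t.1, fun t => h1 _ _, ?_⟩
  ext γ
  rw [coeff_pl]
  split_ifs with h
  · exact h2 γ
  · exact notMem_support_iff.1 fun hh => h (hs hh)

end Pl

variable {K Ω : Type*} [Field K] [Field Ω] [Algebra K Ω] {n : ℕ}
  {D : Ω →+ Ω} {d : K → K} {w : Fin n → Ω} {ω : Fin n → K}

/-- The constants. -/
def Tor.kap (h : Tor D d w ω) : Subfield K where
  carrier := {c | D (algebraMap K Ω c) = 0}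
  mul_mem' := fun {a b} ha hb => by
    simp only [Set.mem_ofPred_eq, map_mul] at *
    rw [h.leib, ha, hb]; simp
  one_mem' := by simp [h.leib.one]
  add_mem' := fun {a b} ha hb => by
    simp only [Set.mem_ofPred_eq, map_add] at *
    rw [ha, hb]; simp
  zero_mem' := by simp
  neg_mem' := fun {a} ha => by
    simp only [Set.mem_ofPred_eq, map_neg] at *
    rw [ha]; simp
  inv_mem' := fun a ha => by
    simp only [Set.mem_ofPred_eq, map_inv₀] at *
    by_cases h0 : algebraMap K Ω a = 0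
    · simp [h0]
    · have := h.leib.div 1 _ h0
      rw [ha, h.leib.one, one_div] at this
      simpa [h0] using this

lemma Tor.it_term (h : Tor D d w ω) (R : Subring K) (hRd : ∀ c ∈ R, d c ∈ R) (hω : ∀ l, ω l ∈ R)
    (γ : Fin n →₀ ℕ) (c : K) (hc : c ∈ R) (j : ℕ) :
    ∃ ρ ∈ R, D^[j] (algebraMap K Ω c * mon w γ) = mon w γ * algebraMap K Ω ρ := by
  induction j with
  | zero => exact ⟨c, hc, mul_comm _ _⟩
  | succ j ih =>
    obtain ⟨ρ, h1, h2⟩ := ih
    refine ⟨d ρ + lw ω γ * ρ, R.add_mem (hRd _ h1) (R.mul_mem ?_ h1), ?_⟩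
    · exact R.sum_mem fun i _ => R.mul_mem (natCast_mem R _) (hω i)
    · rw [Function.iterate_succ_apply', h2, mul_comm, h.d_term, mul_comm]

lemma det_mem {A : Type*} [CommRing A] (R : Subring A) {M : ℕ} (X : Matrix (Fin M) (Fin M) A)
    (h : ∀ i j, X i j ∈ R) : X.det ∈ R := by
  rw [Matrix.det_apply]
  exact R.sum_mem fun σ _ => R.zsmul_mem (R.prod_mem fun i _ => h _ _) _

theorem Tor.count (h : Tor D d w ω) (R : Subring K) (hRd : ∀ c ∈ R, d c ∈ R)
    (hRc : ∀ c, D (algebraMap K Ω c) = 0 → c ∈ R) (hω : ∀ l, ω l ∈ R) (B : Subring Ω)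
    (hBD : ∀ x ∈ B, D x ∈ B) (hRB : ∀ c ∈ R, algebraMap K Ω c ∈ B) (hw : ∀ l, w l ∈ B)
    {F : MvPolynomial (Fin n) K} (hF : Squarefree F) (hX : ∀ l, ¬ X l ∣ F)
    (hFR : ∀ γ, coeff γ F ∈ R) {y Q : Ω} (hy : y ∈ B) (hQ : Q ∈ B) (hyQ : aeval w F = y ^ 2 * Q)
    {ε : ℝ} (hε : 0 < ε) :
    ∃ (M K₀ : ℕ) (γ₀ : Fin n →₀ ℕ), ∃ x ∈ B, x ≠ 0 ∧ 0 < M ∧ (K₀ : ℝ) ≤ ε * M ∧
      y ^ M * x ∈ AddSubmonoid.closure {z | ∃ r ∈ R, ∃ γ : Fin n →₀ ℕ,
        (∀ l, γ l ≤ γ₀ l ∧ γ₀ l ≤ γ l + K₀) ∧ z = algebraMap K Ω r * mon w γ} := by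
  classical
  set G := dpol d ω F with hG
  have hF0 := hF.ne_zero
  have hco := h.coprime hF hX
  have hlw : ∀ γ, lw ω γ ∈ R := fun γ => R.sum_mem fun i _ => R.mul_mem (natCast_mem R _) (hω i)
  have hGR : ∀ γ, coeff γ G ∈ R := fun γ => by
    rw [hG, h.coeff_dpol]; exact R.add_mem (hRd _ (hFR γ)) (R.mul_mem (hlw γ) (hFR γ))
  set f : Fin n → ℕ := fun l => degreeOf l F with hf
  obtain ⟨N, hN0, hN1, hN2⟩ := exists_box f (half_pos hε)
  set A0 := box (fun _ : Fin n => N)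
  set A1 := box (fun l => N - f l)
  set A2 := box (fun l => N - 2 * f l)
  set A3 := A1 \ A2.image (MonomialOrder.lex.degree F + ·) with hA3
  have c0 : (A0.card : ℝ) = (N : ℝ) ^ n := by simp [A0, card_box]
  have c1 : (A1.card : ℝ) = ∏ l, ((N : ℝ) - f l) := by
    rw [card_box, Nat.cast_prod]
    exact prod_congr rfl fun l _ => by rw [Nat.cast_sub (by have := hN1 l; omega)]
  have c2 : (A2.card : ℝ) = ∏ l, ((N : ℝ) - 2 * f l) := by
    rw [card_box, Nat.cast_prod]
    exact prod_congr rfl fun l _ => by rw [Nat.cast_sub (hN1 l).le]; simp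
  have c3 : (A3.card : ℝ) = A1.card - A2.card := by
    have hs : A2.image (MonomialOrder.lex.degree F + ·) ⊆ A1 := by
      intro γ hγ
      obtain ⟨δ, hδ, rfl⟩ := mem_image.1 hγ
      refine mem_box.2 fun l => ?_
      have e1 := mem_box.1 hδ l
      have e3 : _ ≤ f l := monomial_le_degreeOf l (MonomialOrder.lex.degree_mem_support hF0)
      simp only [Finsupp.add_apply]
      omega
    rw [hA3, card_sdiff_of_subset hs, Nat.cast_sub (card_le_card hs),
      card_image_of_injective _ (add_right_injective _)]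
  have c4 : (0 : ℝ) < A1.card := by
    rw [c1]
    exact prod_pos fun l _ => by
      have : ((f l : ℕ) : ℝ) < N := by exact_mod_cast (by have := hN1 l; omega : f l < N)
      linarith
  have hN0' : (0 : ℝ) < N := by exact_mod_cast hN0
  obtain ⟨ℓ, ℓ', b, b', hℓ, hℓ', hb, hb', hind, hexp⟩ := steinmetz h.kap R hRc
    (insert 0 (F.support.image (coeff · F) ∪ G.support.image (coeff · G))) (fun a ha => by
      simp only [mem_insert, Finset.mem_union, mem_image] at ha
      rcases ha with rfl | ⟨γ, _, rfl⟩ | ⟨γ, _, rfl⟩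
      exacts [R.zero_mem, hFR γ, hGR γ])
    (θ := ε / 2 * A1.card / (N * (N : ℝ) ^ n)) (by positivity)
  let T := (Fin ℓ × A1) ⊕ (Fin ℓ × A3)
  let pol : T → MvPolynomial (Fin n) K :=
    Sum.elim (fun t => monomial t.2.1 (b t.1) * F) (fun t => monomial t.2.1 (b t.1) * G)
  set M := Fintype.card T with hM
  have cM : (M : ℝ) = ℓ * (2 * A1.card - A2.card) := by
    rw [hM]; simp [T, c3]; ring
  let e : Fin M ≃ T := (Fintype.equivFin T).symm
  -- expansion in the big basis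
  have hx1 : ∀ (H : MvPolynomial (Fin n) K), H.support ⊆ F.support →
      (∀ γ, coeff γ H ∈ insert 0 (F.support.image (coeff · F) ∪ G.support.image (coeff · G))) →
      ∀ i, ∀ γ ∈ A1, ∃ c : Fin ℓ' × A0 → K, (∀ t, c t ∈ h.kap) ∧
        monomial γ (b i) * H = pl b' A0 c := by
    intro H hs hc i γ hγ
    apply expand
    · intro δ hδ
      rw [mem_support_iff, coeff_monomial_mul'] at hδ
      split_ifs at hδ with hle
      · have e1 : δ - γ ∈ H.support := mem_support_iff.2 (right_ne_zero_of_mul hδ)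
        refine mem_box.2 fun l => ?_
        have e2 : _ ≤ f l := monomial_le_degreeOf l (hs e1)
        have e3 := mem_box.1 hγ l
        simp only [Finsupp.coe_tsub, Pi.sub_apply] at e2
        omega
      · exact absurd rfl hδ
    · intro δ
      rw [coeff_monomial_mul']
      split_ifs
      · exact hexp i _ (hc _)
      · simpa using hexp i 0 (mem_insert_self _ _)
  have hx2 : ∀ t : T, ∃ c : Fin ℓ' × A0 → K, (∀ t, c t ∈ h.kap) ∧ pol t = pl b' A0 c := by
    rintro (t | t)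
    · refine hx1 F subset_rfl (fun γ => ?_) t.1 _ t.2.2
      by_cases hγ : γ ∈ F.support
      · exact mem_insert_of_mem (mem_union_left _ (mem_image_of_mem _ hγ))
      · rw [notMem_support_iff.1 hγ]; exact mem_insert_self _ _
    · refine hx1 G (h.supp_dpol F) (fun γ => ?_) t.1 _ (Finset.mem_sdiff.1 t.2.2).1
      by_cases hγ : γ ∈ G.support
      · exact mem_insert_of_mem (mem_union_right _ (mem_image_of_mem _ hγ))
      · rw [notMem_support_iff.1 hγ]; exact mem_insert_self _ _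
  choose c hc1 hc2 using hx2
  -- divisibility by y
  have hmon : ∀ γ, mon w γ ∈ B := fun γ => B.prod_mem fun i _ => B.pow_mem (hw i) _
  have hy1 : ∀ t : T, ∃ ψ ∈ B, aeval w (pol t) = y * ψ := by
    rintro (t | t)
    · refine ⟨algebraMap K Ω (b t.1) * mon w t.2.1 * (y * Q),
        B.mul_mem (B.mul_mem (hRB _ (hb _)) (hmon _)) (B.mul_mem hy hQ), ?_⟩
      simp only [pol, Sum.elim_inl, map_mul, aeval_mon, hyQ]; ring
    · refine ⟨algebraMap K Ω (b t.1) * mon w t.2.1 * (D y * Q + D y * Q + y * D Q),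
        B.mul_mem (B.mul_mem (hRB _ (hb _)) (hmon _)) (B.add_mem (B.add_mem
          (B.mul_mem (hBD _ hy) hQ) (B.mul_mem (hBD _ hy) hQ)) (B.mul_mem hy (hBD _ hQ))), ?_⟩
      simp only [pol, Sum.elim_inr, map_mul, aeval_mon, hG, h.aeval_dpol, hyQ, pow_two, h.leib _ _]
      ring
  choose ψ hψ1 hψ2 using hy1
  have hne : (Matrix.of fun (j i : Fin M) => D^[j] (y * ψ (e i))).det ≠ 0 := by
    apply h.leib.wr_ne
    intro v hv h0
    choose u hu using fun i => h.const _ (hv i)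
    have h1 : pl b A1 (fun t => u (e.symm (Sum.inl t))) * F +
        pl b A3 (fun t => u (e.symm (Sum.inr t))) * G = 0 := by
      apply h.inj
      rw [← h0, ← e.symm.sum_comp, Fintype.sum_sum_type]
      simp only [Equiv.apply_symm_apply, ← hψ2, pol, pl, map_add, map_mul, map_sum, sum_mul,
        Sum.elim_inl, Sum.elim_inr, hu, algHom_C, mul_assoc]
    obtain ⟨h2, h3⟩ := indep hF0 hco h1 (supp_pl _ _ _)
    have hk : ∀ i, u i ∈ h.kap := fun i => by
      change D _ = 0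
      rw [← hu]; exact hv i
    intro i
    obtain ⟨t, rfl⟩ := e.symm.surjective i
    rw [hu, map_eq_zero]
    rcases t with t | t
    · have := congrArg (coeff t.2.1) h2
      rw [coeff_pl, dif_pos t.2.2] at this
      exact hind _ (fun i => hk _) this t.1
    · have := congrArg (coeff t.2.1) h3
      rw [coeff_pl, dif_pos t.2.2] at this
      exact hind _ (fun i => hk _) this t.1
  refine ⟨M, (ℓ' * A0.card - M) * N, ∑ t : Fin ℓ' × A0, t.2.1,
    (Matrix.of fun (j i : Fin M) => D^[j] (ψ (e i))).det, ?_, ?_, ?_, ?_, ?_⟩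
  · apply det_mem
    intro j i
    simp only [Matrix.of_apply]
    induction (j : ℕ) with
    | zero => exact hψ1 _
    | succ k ih => rw [Function.iterate_succ_apply']; exact hBD _ ih
  · rw [h.leib.det_mul] at hne
    exact right_ne_zero_of_mul hne
  · have : (0 : ℝ) < M := by
      rw [cM]
      have : (0 : ℝ) < ℓ := by exact_mod_cast hℓ
      have : (0 : ℝ) ≤ A3.card := Nat.cast_nonneg _
      exact mul_pos ‹_› (by linarith)
    exact_mod_cast this
  · have h3 : (0 : ℝ) ≤ A3.card := Nat.cast_nonneg _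
    have h4 : (0 : ℝ) ≤ ℓ := Nat.cast_nonneg _
    have h5 : (ℓ : ℝ) * A1.card ≤ M := by rw [cM]; nlinarith
    rcases le_total (ℓ' * A0.card) M with hle | hle
    · rw [Nat.sub_eq_zero_of_le hle]; simp; positivity
    · rw [Nat.cast_mul, Nat.cast_sub hle, Nat.cast_mul, c0]
      rw [← c1, ← c2] at hN2
      have h6 : (ℓ' : ℝ) * (N : ℝ) ^ n * N ≤ ℓ * ((N : ℝ) ^ n * N + ε / 2 * A1.card) := by
        calc _ ≤ (1 + ε / 2 * A1.card / (N * (N : ℝ) ^ n)) * ℓ * (N : ℝ) ^ n * N := by gcongr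
          _ = _ := by field_simp
      have h7 := mul_le_mul_of_nonneg_left hN2 h4
      have h8 := mul_le_mul_of_nonneg_left h5 hε.le
      rw [cM] at *
      nlinarith
  · rw [← h.leib.det_mul]
    have e1 : ∀ i, y * ψ (e i) = ∑ t : Fin ℓ' × A0, algebraMap K Ω (c (e i) t) *
        (algebraMap K Ω (b' t.1) * mon w t.2.1) := fun i => by
      rw [← hψ2, hc2]
      simp only [pl, map_sum, map_mul, algHom_C, aeval_mon]
    simp only [e1]
    rw [h.leib.det_expand _ (fun i t => hc1 _ _)]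
    refine AddSubmonoid.sum_mem _ fun g hg => AddSubmonoid.subset_closure ?_
    have hg' : Function.Injective g := (mem_filter.1 hg).2
    choose ρ hρ1 hρ2 using fun (j : Fin M) (i : Fin M) =>
      h.it_term R hRd hω (g i).2.1 (b' (g i).1) (hb' _) j
    refine ⟨(∏ i, c (e i) (g i)) * (Matrix.of ρ).det, R.mul_mem
      (R.prod_mem fun i _ => hRc _ (hc1 _ _)) (det_mem R _ hρ1), ∑ i, (g i).2.1, fun l => ?_, ?_⟩
    · have e2 : ∑ t : Fin ℓ' × A0, t.2.1 l = ∑ i, (g i).2.1 l +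
          ∑ t ∈ univ \ univ.image g, t.2.1 l := by
        rw [← sum_image (f := fun t : Fin ℓ' × A0 => t.2.1 l) hg'.injOn, add_comm,
          sum_sdiff (subset_univ _)]
      have e3 : ∑ t ∈ univ \ univ.image g, t.2.1 l ≤ (ℓ' * A0.card - M) * N := by
        refine (sum_le_card_nsmul _ _ N fun t _ => (mem_box.1 t.2.2 l).le).trans (le_of_eq ?_)
        rw [card_sdiff_of_subset (subset_univ _), card_image_of_injective _ hg']
        simp
      simp only [Finsupp.coe_finsetSum, Finset.sum_apply]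
      omega
    · simp only [hρ2]
      rw [Matrix.det_mul_row, mon_sum, map_mul, map_prod, RingHom.map_det]
      simp only [mul_assoc]
      congr 1
      rw [mul_comm]
      rfl

end Pool.Agent.MP_c69980_ag.H60
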