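import Pool.Agent.MP_c69980_ag.H60.Count
import Pool.Agent.MP_c69980_ag.H60.Sq

/-!
The dimension count in Wronskian form, and squarefree polynomials on a split lattice.
-/

set_option autoImplicit false

namespace Pool.Agent.MP_c69980_ag.H60

open Finset MvPolynomial Filter Topology

section

variable {K Ω : Type*} [Field K] [Field Ω] [Algebra K Ω] {n : ℕ}
  {D : Ω →+ Ω} {d : K → K} {w : Fin n → Ω} {ω : Fin n → K}

theorem Tor.count2 (h : Tor D d w ω) (R : Subring K) (hRd : ∀ c ∈ R, d c ∈ R)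
    (hRc : ∀ c, D (algebraMap K Ω c) = 0 → c ∈ R) (hω : ∀ l, ω l ∈ R) (B : Subring Ω)
    (hRB : ∀ c ∈ R, algebraMap K Ω c ∈ B) (hw : ∀ l, w l ∈ B)
    {F : MvPolynomial (Fin n) K} (hF : Squarefree F) (hX : ∀ l, ¬ X l ∣ F)
    (hFR : ∀ γ, coeff γ F ∈ R) {ε : ℝ} (hε : 0 < ε) :
    ∃ (M K₀ : ℕ) (γ₀ : Fin n →₀ ℕ) (p q : Fin M → Ω), (∀ i, p i ∈ B ∧ q i ∈ B) ∧
      (Matrix.of fun (j i : Fin M) => D^[j] (p i * aeval w F + q i * D (aeval w F))).det ≠ 0 ∧
      0 < M ∧ (K₀ : ℝ) ≤ ε * M ∧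
      (Matrix.of fun (j i : Fin M) => D^[j] (p i * aeval w F + q i * D (aeval w F))).det ∈
        AddSubmonoid.closure {z | ∃ r ∈ R, ∃ γ : Fin n →₀ ℕ,
        (∀ l, γ l ≤ γ₀ l ∧ γ₀ l ≤ γ l + K₀) ∧ z = algebraMap K Ω r * mon w γ} := by
  classical
  set G := dpol d ω F with hG
  have hF0 := hF.ne_zero
  have hco := h.coprime hF hX
  have hlw : ∀ γ, lw ω γ ∈ R := fun γ => R.sum_mem fun i _ => R.mul_mem (natCast_mem R _) (hω i)
  have hGR : ∀ γ, coeff γ G ∈ R := fun γ => by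
    rw [hG, h.coeff_dpol]; exact R.add_mem (hRd _ (hFR γ)) (R.mul_mem (hlw γ) (hFR γ))
  set f : Fin n → ℕ := fun l => degreeOf l F with hf
  obtain ⟨N, hN0, hN1, hN2⟩ := exists_box f (half_pos hε)
  set A0 := box (fun _ : Fin n => N)
  set A1 := box (fun l => N - f l)
  set A2 := box (fun l => N - 2 * f l)
  set A3 := A1 \ A2.image (MonomialOrder.lex.degree F + ·) with hA3
  have c0 : (A0.card : ℝ) = (N : ℝ) ^ n := by simp [A0, card_box]
  have c1 : (A1.card : ℝ) = ∏ l, ((N : ℝ) - f l) := by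
    rw [card_box, Nat.cast_prod]
    exact prod_congr rfl fun l _ => by rw [Nat.cast_sub (by have := hN1 l; omega)]
  have c2 : (A2.card : ℝ) = ∏ l, ((N : ℝ) - 2 * f l) := by
    rw [card_box, Nat.cast_prod]
    exact prod_congr rfl fun l _ => by rw [Nat.cast_sub (hN1 l).le]; simp
  have c3 : (A3.card : ℝ) = A1.card - A2.card := by
    have hs : A2.image (MonomialOrder.lex.degree F + ·) ⊆ A1 := by
      intro γ hγ
      obtain ⟨δ, hδ, rfl⟩ := mem_image.1 hγ
      refine mem_box.2 fun l => ?_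
      have e1 := mem_box.1 hδ l
      have e3 : _ ≤ f l := monomial_le_degreeOf l (MonomialOrder.lex.degree_mem_support hF0)
      simp only [Finsupp.add_apply]
      omega
    rw [hA3, card_sdiff_of_subset hs, Nat.cast_sub (card_le_card hs),
      card_image_of_injective _ (add_right_injective _)]
  have c4 : (0 : ℝ) < A1.card := by
    rw [c1]
    exact prod_pos fun l _ => by
      have : ((f l : ℕ) : ℝ) < N := by exact_mod_cast (by have := hN1 l; omega : f l < N)
      linarith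
  have hN0' : (0 : ℝ) < N := by exact_mod_cast hN0
  obtain ⟨ℓ, ℓ', b, b', hℓ, hℓ', hb, hb', hind, hexp⟩ := steinmetz h.kap R hRc
    (insert 0 (F.support.image (coeff · F) ∪ G.support.image (coeff · G))) (fun a ha => by
      simp only [mem_insert, Finset.mem_union, mem_image] at ha
      rcases ha with rfl | ⟨γ, _, rfl⟩ | ⟨γ, _, rfl⟩
      exacts [R.zero_mem, hFR γ, hGR γ])
    (θ := ε / 2 * A1.card / (N * (N : ℝ) ^ n)) (by positivity)
  let T := (Fin ℓ × A1) ⊕ (Fin ℓ × A3)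
  let pol : T → MvPolynomial (Fin n) K :=
    Sum.elim (fun t => monomial t.2.1 (b t.1) * F) (fun t => monomial t.2.1 (b t.1) * G)
  set M := Fintype.card T with hM
  have cM : (M : ℝ) = ℓ * (2 * A1.card - A2.card) := by
    rw [hM]; simp [T, c3]; ring
  let e : Fin M ≃ T := (Fintype.equivFin T).symm
  -- expansion in the big basis
  have hx1 : ∀ (H : MvPolynomial (Fin n) K), H.support ⊆ F.support →
      (∀ γ, coeff γ H ∈ insert 0 (F.support.image (coeff · F) ∪ G.support.image (coeff · G))) →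
      ∀ i, ∀ γ ∈ A1, ∃ c : Fin ℓ' × A0 → K, (∀ t, c t ∈ h.kap) ∧
        monomial γ (b i) * H = pl b' A0 c := by
    intro H hs hc i γ hγ
    apply expand
    · intro δ hδ
      rw [mem_support_iff, coeff_monomial_mul'] at hδ
      split_ifs at hδ with hle
      · have e1 : δ - γ ∈ H.support := mem_support_iff.2 (right_ne_zero_of_mul hδ)
        refine mem_box.2 fun l => ?_
        have e2 : _ ≤ f l := monomial_le_degreeOf l (hs e1)
        have e3 := mem_box.1 hγ l
        simp only [Finsupp.coe_tsub, Pi.sub_apply] at e2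
        omega
      · exact absurd rfl hδ
    · intro δ
      rw [coeff_monomial_mul']
      split_ifs
      · exact hexp i _ (hc _)
      · simpa using hexp i 0 (mem_insert_self _ _)
  have hx2 : ∀ t : T, ∃ c : Fin ℓ' × A0 → K, (∀ t, c t ∈ h.kap) ∧ pol t = pl b' A0 c := by
    rintro (t | t)
    · refine hx1 F subset_rfl (fun γ => ?_) t.1 _ t.2.2
      by_cases hγ : γ ∈ F.support
      · exact mem_insert_of_mem (mem_union_left _ (mem_image_of_mem _ hγ))
      · rw [notMem_support_iff.1 hγ]; exact mem_insert_self _ _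
    · refine hx1 G (h.supp_dpol F) (fun γ => ?_) t.1 _ (Finset.mem_sdiff.1 t.2.2).1
      by_cases hγ : γ ∈ G.support
      · exact mem_insert_of_mem (mem_union_right _ (mem_image_of_mem _ hγ))
      · rw [notMem_support_iff.1 hγ]; exact mem_insert_self _ _
  choose c hc1 hc2 using hx2
  -- divisibility by y
  have hmon : ∀ γ, mon w γ ∈ B := fun γ => B.prod_mem fun i _ => B.pow_mem (hw i) _
  have hy1 : ∀ t : T, ∃ p ∈ B, ∃ q ∈ B, aeval w (pol t) = p * aeval w F + q * D (aeval w F) := by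
    rintro (t | t)
    · refine ⟨algebraMap K Ω (b t.1) * mon w t.2.1, B.mul_mem (hRB _ (hb _)) (hmon _), 0,
        B.zero_mem, ?_⟩
      simp only [pol, Sum.elim_inl, map_mul, aeval_mon]; ring
    · refine ⟨0, B.zero_mem, algebraMap K Ω (b t.1) * mon w t.2.1,
        B.mul_mem (hRB _ (hb _)) (hmon _), ?_⟩
      simp only [pol, Sum.elim_inr, map_mul, aeval_mon, hG, h.aeval_dpol]
      ring
  choose p hp q hq hψ2 using hy1
  have hne : (Matrix.of fun (j i : Fin M) =>
      D^[j] (p (e i) * aeval w F + q (e i) * D (aeval w F))).det ≠ 0 := by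
    apply h.leib.wr_ne
    intro v hv h0
    choose u hu using fun i => h.const _ (hv i)
    have h1 : pl b A1 (fun t => u (e.symm (Sum.inl t))) * F +
        pl b A3 (fun t => u (e.symm (Sum.inr t))) * G = 0 := by
      apply h.inj
      rw [← h0, ← e.symm.sum_comp, Fintype.sum_sum_type]
      simp only [Equiv.apply_symm_apply, ← hψ2, pol, pl, map_add, map_mul, map_sum, sum_mul,
        Sum.elim_inl, Sum.elim_inr, hu, algHom_C, mul_assoc]
    obtain ⟨h2, h3⟩ := indep hF0 hco h1 (supp_pl _ _ _)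
    have hk : ∀ i, u i ∈ h.kap := fun i => by
      change D _ = 0
      rw [← hu]; exact hv i
    intro i
    obtain ⟨t, rfl⟩ := e.symm.surjective i
    rw [hu, map_eq_zero]
    rcases t with t | t
    · have := congrArg (coeff t.2.1) h2
      rw [coeff_pl, dif_pos t.2.2] at this
      exact hind _ (fun i => hk _) this t.1
    · have := congrArg (coeff t.2.1) h3
      rw [coeff_pl, dif_pos t.2.2] at this
      exact hind _ (fun i => hk _) this t.1
  refine ⟨M, (ℓ' * A0.card - M) * N, ∑ t : Fin ℓ' × A0, t.2.1, fun i => p (e i), fun i => q (e i),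
    fun i => ⟨hp _, hq _⟩, hne, ?_, ?_, ?_⟩
  · have : (0 : ℝ) < M := by
      rw [cM]
      have : (0 : ℝ) < ℓ := by exact_mod_cast hℓ
      have : (0 : ℝ) ≤ A3.card := Nat.cast_nonneg _
      exact mul_pos ‹_› (by linarith)
    exact_mod_cast this
  · have h3 : (0 : ℝ) ≤ A3.card := Nat.cast_nonneg _
    have h4 : (0 : ℝ) ≤ ℓ := Nat.cast_nonneg _
    have h5 : (ℓ : ℝ) * A1.card ≤ M := by rw [cM]; nlinarith
    rcases le_total (ℓ' * A0.card) M with hle | hle
    · rw [Nat.sub_eq_zero_of_le hle]; simp; positivity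
    · rw [Nat.cast_mul, Nat.cast_sub hle, Nat.cast_mul, c0]
      rw [← c1, ← c2] at hN2
      have h6 : (ℓ' : ℝ) * (N : ℝ) ^ n * N ≤ ℓ * ((N : ℝ) ^ n * N + ε / 2 * A1.card) := by
        calc _ ≤ (1 + ε / 2 * A1.card / (N * (N : ℝ) ^ n)) * ℓ * (N : ℝ) ^ n * N := by gcongr
          _ = _ := by field_simp
      have h7 := mul_le_mul_of_nonneg_left hN2 h4
      have h8 := mul_le_mul_of_nonneg_left h5 hε.le
      rw [cM] at *
      nlinarith
  · have e1 : ∀ i, p (e i) * aeval w F + q (e i) * D (aeval w F) =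
        ∑ t : Fin ℓ' × A0, algebraMap K Ω (c (e i) t) *
        (algebraMap K Ω (b' t.1) * mon w t.2.1) := fun i => by
      rw [← hψ2, hc2]
      simp only [pl, map_sum, map_mul, algHom_C, aeval_mon]
    simp only [e1]
    rw [h.leib.det_expand _ (fun i t => hc1 _ _)]
    refine AddSubmonoid.sum_mem _ fun g hg => AddSubmonoid.subset_closure ?_
    have hg' : Function.Injective g := (mem_filter.1 hg).2
    choose ρ hρ1 hρ2 using fun (j : Fin M) (i : Fin M) =>
      h.it_term R hRd hω (g i).2.1 (b' (g i).1) (hb' _) j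
    refine ⟨(∏ i, c (e i) (g i)) * (Matrix.of ρ).det, R.mul_mem
      (R.prod_mem fun i _ => hRc _ (hc1 _ _)) (det_mem R _ hρ1), ∑ i, (g i).2.1, fun l => ?_, ?_⟩
    · have e2 : ∑ t : Fin ℓ' × A0, t.2.1 l = ∑ i, (g i).2.1 l +
          ∑ t ∈ univ \ univ.image g, t.2.1 l := by
        rw [← sum_image (f := fun t : Fin ℓ' × A0 => t.2.1 l) hg'.injOn, add_comm,
          sum_sdiff (subset_univ _)]
      have e3 : ∑ t ∈ univ \ univ.image g, t.2.1 l ≤ (ℓ' * A0.card - M) * N := by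
        refine (sum_le_card_nsmul _ _ N fun t _ => (mem_box.1 t.2.2 l).le).trans (le_of_eq ?_)
        rw [card_sdiff_of_subset (subset_univ _), card_image_of_injective _ hg']
        simp
      simp only [Finsupp.coe_finsetSum, Finset.sum_apply]
      omega
    · simp only [hρ2]
      rw [Matrix.det_mul_row, mon_sum, map_mul, map_prod, RingHom.map_det]
      simp only [mul_assoc]
      congr 1
      rw [mul_comm]
      rfl

end


variable {k K Ω : Type*} [Field k] [Field K] [Field Ω] [Algebra K Ω] {n p : ℕ}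
  {j : k →+* K} {E : (Fin n → ℤ) → Ω} {EK : (Fin n → ℤ) → K}
  {χ : (Fin n → ℤ) →+ (Fin p → ℤ)} {sec : (Fin p → ℤ) →+ (Fin n → ℤ)}

lemma Lat.dvd_aux2 (h : Lat j E EK χ sec) {F H : MvPolynomial (Fin n) k} (hF : Prime F) (hH : ¬ F ∣ H)
    {ν : Fin p → ℤ} {μ0 : Fin n → ℤ} {F' H' Z Z' : MvPolynomial (Fin p) K} (hX : ∀ l, ¬ X l ∣ F')
    (e1 : aeval (fun l => E (sec (Pi.single l 1))) F' =
      eval₂Hom ((algebraMap K Ω).comp j) (fun i => E (Pi.single i 1)) F * E (sec ν))
    (e2 : aeval (fun l => E (sec (Pi.single l 1))) H' =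
      eval₂Hom ((algebraMap K Ω).comp j) (fun i => E (Pi.single i 1)) H * E μ0)
    (hZ : ∀ γ, coeff γ Z ∈ Subfield.closure (Set.range j ∪ Set.range EK))
    (hZ' : ∀ γ, coeff γ Z' ∈ Subfield.closure (Set.range j ∪ Set.range EK))
    (e : H' * Z = F' * Z') : F' ∣ Z := by
  obtain ⟨d, h0, ⟨δ, μ, h1⟩, δ1, μ1, h2⟩ := h.aeval_mem hZ
  obtain ⟨d', h0', ⟨δ', μ', h1'⟩, δ1', μ1', h2'⟩ := h.aeval_mem hZ'
  set ev := eval₂Hom ((algebraMap K Ω).comp j) (fun i => E (Pi.single i 1)) with hev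
  set aw := aeval (R := K) (fun l => E (sec (Pi.single l 1))) with haw
  obtain ⟨a1, a2, μ2, f1, f2⟩ := h.laurent2 (x := algebraMap K Ω d' * (algebraMap K Ω d * aw Z))
    (y := algebraMap K Ω d * (algebraMap K Ω d' * aw Z') * E (sec ν - μ0))
    ⟨δ' * δ1, μ' + μ1, by rw [h2, h1', map_mul, h.ea]; ring⟩
    ⟨δ * δ1', μ + μ1' + (sec ν - μ0), by rw [h2', h1, map_mul, h.ea, h.ea]; ring⟩
  rw [← hev] at f1 f2
  have f3 : E (sec ν - μ0) * E μ0 = E (sec ν) := by rw [← h.ea, sub_add_cancel]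
  have e3 := congrArg aw e
  rw [map_mul, map_mul, e1, e2] at e3
  have e4 : H * a1 - F * a2 = 0 := by
    apply h.gen
    rw [← hev, map_sub, map_mul, map_mul]
    apply mul_right_cancel₀ (mul_ne_zero (h.ne μ2) (h.ne μ0))
    linear_combination (algebraMap K Ω d * algebraMap K Ω d') * e3 - ev H * E μ0 * f1 +
      ev F * E μ0 * f2 - algebraMap K Ω d * algebraMap K Ω d' * aw Z' * ev F * f3
  obtain ⟨a3, rfl⟩ := (hF.dvd_or_dvd (⟨a2, sub_eq_zero.1 e4⟩ : F ∣ H * a1)).resolve_left hH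
  let ν' : Fin p → ℤ := fun l => ∑ m ∈ a3.support, |χ (toZ m) l| + |ν l - χ μ2 l|
  have n1 : ∀ m ∈ a3.support, ∀ l, 0 ≤ (χ (toZ m) + ν') l := fun m hm l => by
    have := single_le_sum (f := fun m => |χ (toZ m) l|) (fun _ _ => abs_nonneg _) hm
    have := neg_abs_le (χ (toZ m) l)
    have := abs_nonneg (ν l - χ μ2 l)
    simp only [Pi.add_apply, ν']
    linarith
  have n2 : ∀ l, 0 ≤ (ν + ν' - χ μ2) l := fun l => by
    have : 0 ≤ ∑ m ∈ a3.support, |χ (toZ m) l| := sum_nonneg fun _ _ => abs_nonneg _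
    have := neg_abs_le (ν l - χ μ2 l)
    simp only [Pi.add_apply, Pi.sub_apply, ν']
    linarith
  have e5 : Z * monomial (toN (ν + ν' - χ μ2)) (d' * d) -
      F' * (lf j EK χ a3 ν' * C (EK μ2)) = 0 := by
    apply h.inj
    rw [← haw, map_sub, map_mul aw, map_mul aw, map_mul aw, e1, haw, h.aeval_lf _ n1, aeval_mon,
      h.mon_eq, toZ_toN n2, algHom_C, ← haw, ← hev, map_mul]
    apply mul_right_cancel₀ (h.ne (sec (χ μ2)))
    have g1 : E (sec (ν + ν' - χ μ2)) * E (sec (χ μ2)) = E (sec ν) * E (sec ν') := by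
      rw [← h.ea, ← h.ea, ← map_add, ← map_add, sub_add_cancel]
    rw [map_mul] at f1
    linear_combination (aw Z * algebraMap K Ω d' * algebraMap K Ω d) * g1 +
      E (sec ν) * E (sec ν') * f1 - ev F * E (sec ν) * ev a3 * E (sec ν') * h.ek μ2
  have hrel : IsRelPrime F' (monomial (toN (ν + ν' - χ μ2)) (d' * d)) := by
    rw [monomial_eq]
    refine IsRelPrime.mul_right (IsUnit.isRelPrime_right
      ((IsUnit.mk0 _ (mul_ne_zero h0' h0)).map (C : K →+* MvPolynomial (Fin p) K))) ?_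
    refine IsRelPrime.prod_right fun l _ => IsRelPrime.pow_right ?_
    exact (X_prime.irreducible.isRelPrime_iff_not_dvd.2 (hX l)).symm
  exact hrel.dvd_of_dvd_mul_right ⟨_, sub_eq_zero.1 e5⟩

theorem Lat.sqfree2 [CharZero k] (h : Lat j E EK χ sec) {F : MvPolynomial (Fin n) k}
    (hF : Squarefree F) : ∃ (F' : MvPolynomial (Fin p) K) (μ : Fin n → ℤ), Squarefree F' ∧
      (∀ l, ¬ X l ∣ F') ∧
      (∀ R : Subring K, (∀ c, j c ∈ R) → (∀ m, EK m ∈ R) → ∀ γ, coeff γ F' ∈ R) ∧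
      aeval (fun l => E (sec (Pi.single l 1))) F' =
        eval₂Hom ((algebraMap K Ω).comp j) (fun i => E (Pi.single i 1)) F * E μ := by
  induction F using UniqueFactorizationMonoid.induction_on_prime with
  | h₁ => exact absurd rfl hF.ne_zero
  | h₂ x hx =>
    obtain ⟨h1, h2⟩ := isUnit_iff_totalDegree_of_isReduced.1 hx
    have hu : IsUnit (C (j (coeff 0 x)) : MvPolynomial (Fin p) K) := (h1.map j).map C
    refine ⟨C (j (coeff 0 x)), 0, hu.squarefree,
      fun l hl => X_prime.not_isUnit (isUnit_of_dvd_unit hl hu), fun R a _ γ => ?_, ?_⟩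
    · rw [coeff_C]
      split_ifs
      exacts [a _, R.zero_mem]
    · conv_rhs => rw [totalDegree_eq_zero_iff_eq_C.1 h2]
      simp [h.e0]
  | h₃ a q ha hq ih =>
    obtain ⟨a', μ, a1, a2, a3, a4⟩ := ih hF.of_mul_right
    obtain ⟨ν, n1, n2, n3⟩ := h.sqfree hq
    have nd : ¬ q ∣ a := fun e => hq.not_isUnit (hF q (mul_dvd_mul_left q e))
    have c1 := fun c => Subfield.subset_closure (s := Set.range j ∪ Set.range EK) (Or.inl ⟨c, rfl⟩)
    have c2 := fun c => Subfield.subset_closure (s := Set.range j ∪ Set.range EK) (Or.inr ⟨c, rfl⟩)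
    refine ⟨lf j EK χ q ν * a', sec ν + μ, squarefree_mul_iff.2 ⟨?_, n2, a1⟩, fun l hl =>
      (X_prime.dvd_or_dvd hl).elim (n3 l) (a2 l), fun R r1 r2 γ => ?_, ?_⟩
    · rintro t ⟨u, hu⟩ ⟨v, hv⟩
      have h3 : lf j EK χ q ν ∣ u := dvd_descend _ (H := a') (Z' := v)
        (Lat.coeff_lf_mem q ν (Subfield.closure (Set.range j ∪ Set.range EK)).toSubring c1 c2)
        (a3 (Subfield.closure (Set.range j ∪ Set.range EK)).toSubring c1 c2)
        (fun U U' hU hU' e => h.dvd_aux2 hq nd n3 (h.aeval_lf q n1) a4 hU hU' e)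
        (by rw [hu, hv]; ring)
      have h4 : u ≠ 0 := fun e => n2.ne_zero (by rw [hu, e, mul_zero])
      rw [hu] at h3
      exact isUnit_of_dvd_one ((mul_dvd_mul_iff_right h4).1 (by rwa [one_mul]))
    · rw [coeff_mul]
      exact R.sum_mem fun x _ => R.mul_mem (Lat.coeff_lf_mem q ν R r1 r2 _) (a3 R r1 r2 _)
    · rw [map_mul, map_mul, h.aeval_lf q n1, a4, h.ea]; ring

end Pool.Agent.MP_c69980_ag.H60
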