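import Pool.Agent.MP_c69980_ag.H60.Grow
import Pool.Agent.MP_c69980_ag.H60.Split

/-!
The differential ring attached to a sequence of holomorphic discs in a torus.
-/

set_option autoImplicit false

namespace Pool.Agent.MP_c69980_ag.H60

open Finset Metric Real Filter Topology MvPolynomial

/-- The exponential `exp (m · α)`. -/
noncomputable def ex {N : ℕ} (α : ℕ → ℂ → Fin N → ℂ) (m : Fin N → ℤ) : ℕ → ℂ → ℂ :=
  fun k z => Complex.exp (∑ i, (m i : ℂ) * α k z i)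

/-- The coordinate `α i`, normalised to vanish at the origin. -/
noncomputable def be {N : ℕ} (α : ℕ → ℂ → Fin N → ℂ) (i : Fin N) : ℕ → ℂ → ℂ :=
  fun k z => α k z i - α k 0 i

/-- The data. -/
structure Dat (N : ℕ) (k₀ : Type) [Field k₀] where
  ι : k₀ →+* ℂ
  R : ℕ → ℝ
  L : ℕ → ℝ
  σ : ℕ → ℝ
  r : ℕ → ℝ
  η : ℕ → ℝ
  α : ℕ → ℂ → Fin N → ℂ
  U : Ultrafilter ℕ
  T : Set (ℕ → ℂ → ℂ)
  pt : (ℂ → ℂ) → ℝ → ℝ
  C : ℝ
  f : ℕ → ℂ → ℂ
  hU : (U : Filter ℕ) ≤ atTop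
  hα : ∀ k, DifferentiableOn ℂ (α k) (ball 0 (R k))
  hd : ∀ k, 1 ≤ ‖deriv (α k) 0‖
  hL : ∀ k, ‖α k 0‖ ≤ L k
  hσ : ∀ k, 16 ≤ σ k ∧ k ≤ σ k ∧ L k ≤ σ k ∧ σ k ^ 8 < R k
  dich : ∀ x ∈ T, ∀ᶠ k in atTop, -sc (α k) (σ k) ≤ av (x k) 1 ∨ av (x k) 1 ≤ -sc (α k) (σ k ^ 8)
  st : ∀ k, St (α k) (R k) (L k) C (σ k) (r k) (η k) (f k)
  hpt : ∀ h R', 2 ≤ pt h R' ∧ pt h R' ≤ 3 ∧ (Hol R' h → 8 < R' → ∀ A s : ℝ, 0 ≤ A → 0 ≤ s →
    NZ R' h → (∀ z, ‖z‖ ≤ 8 → ‖h z‖ ≤ exp A) → -s ≤ av h 1 →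
    ∀ w, ‖w‖ = pt h R' → exp (-(12 * (A + s) + 1)) ≤ ‖h w‖)
  Tadd : ∀ x ∈ T, ∀ y ∈ T, x + y ∈ T
  Tmul : ∀ x ∈ T, ∀ y ∈ T, x * y ∈ T
  Tneg : ∀ x ∈ T, -x ∈ T
  Tdd : ∀ x ∈ T, dd R x ∈ T
  Tcc : ∀ x ∈ T, ∀ y ∈ T, (fun k _ => x k (pt (y k) (R k)) / y k (pt (y k) (R k))) ∈ T
  Tc : ∀ c, (fun _ _ => ι c) ∈ T
  Te : ∀ m, ex α m ∈ T
  Ta : ∀ i, dd R (be α i) ∈ T
  gen : ∀ δ : MvPolynomial (Fin N) k₀, δ ≠ 0 → ∀ᶠ k in atTop,
    exp (-L k) ≤ ‖eval₂Hom ι (fun i => Complex.exp (α k 0 i)) δ‖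

namespace Dat

variable {N : ℕ} {k₀ : Type} [Field k₀] (d : Dat N k₀)

/-- The lower scale. -/
noncomputable def s (k : ℕ) : ℝ := sc (d.α k) (d.σ k)

/-- The upper scale. -/
noncomputable def t (k : ℕ) : ℝ := sc (d.α k) (d.σ k ^ 7)

/-- The characteristic. -/
noncomputable def τ (k : ℕ) : ℝ := ta (d.α k) (d.L k) (d.r k)

lemma num (k : ℕ) : d.σ k ≤ d.s k ∧ d.s k ≤ d.t k ∧ d.σ k * d.t k ≤ sc (d.α k) (d.σ k ^ 8) ∧
    0 ≤ d.L k ∧ d.σ k ≤ d.σ k ^ 3 ∧ d.σ k ^ 3 ≤ d.σ k ^ 7 ∧ d.σ k ^ 7 < d.R k ∧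
    d.r k + d.η k ≤ d.σ k ^ 3 ∧ d.L k + 1 ≤ d.τ k := by
  obtain ⟨h1, -, -, h4⟩ := d.hσ k
  have p : 0 < d.σ k := by linarith
  have a0 : d.σ k ≤ d.σ k ^ 3 := le_self_pow₀ (by linarith) (by norm_num)
  have a1 : d.σ k ^ 3 ≤ d.σ k ^ 7 := pow_le_pow_right₀ (by linarith) (by norm_num)
  have a2 : d.σ k ^ 7 < d.σ k ^ 8 := pow_lt_pow_right₀ (by linarith) (by norm_num)
  refine ⟨?_, sc_mono (d.hα k) p.le (by linarith) (by linarith), ?_,
    (norm_nonneg _).trans (d.hL k), a0, a1, by linarith, ?_, ?_⟩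
  · exact (le_mul_of_one_le_right p.le (d.hd k)).trans (deriv_le_sc (d.hα k) p (by linarith))
  · have := sc_schwarz (d.hα k) (by positivity) a2 h4
    rw [pow_succ, mul_assoc] at this
    exact le_of_mul_le_mul_left this (by positivity)
  · have := (d.st k).r2
    nlinarith [sq_nonneg (d.σ k)]
  · have : 0 ≤ circleAverage (tp (d.α k)) 0 (d.r k) :=
      circleAverage_nonneg_of_nonneg fun z _ => tp_nonneg z
    unfold τ ta
    linarith

lemma s1 (k : ℕ) : 1 ≤ d.s k := by linarith [(d.num k).1, (d.hσ k).1]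

lemma t1 (k : ℕ) : 1 ≤ d.t k := (d.s1 k).trans (d.num k).2.1

lemma τ1 (k : ℕ) : 1 ≤ d.τ k := by linarith [(d.num k).2.2.2.1, (d.num k).2.2.2.2.2.2.2.2]

lemma Ls (k : ℕ) : d.L k + 1 ≤ 2 * d.s k := by linarith [(d.num k).1, (d.hσ k).2.2.1, d.s1 k]

lemma σ0 (k : ℕ) : 0 < d.σ k := by linarith [(d.hσ k).1]

lemma r0 (k : ℕ) : 0 < d.r k := by linarith [(d.st k).r1]

lemma σ3 (k : ℕ) : 16 ≤ d.σ k ^ 3 ∧ d.σ k ^ 3 < d.R k := by
  obtain ⟨-, -, -, -, a, b, c, -⟩ := d.num k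
  exact ⟨(d.hσ k).1.trans a, b.trans_lt c⟩

lemma rR (k : ℕ) : d.r k < d.R k := by
  linarith [(d.num k).2.2.2.2.2.2.2.1, (d.st k).η0, (d.σ3 k).2]

lemma R1 (k : ℕ) : 1 < d.R k := by linarith [d.σ3 k]

lemma σtop : Tendsto d.σ d.U atTop :=
  (tendsto_atTop_mono (fun k => (d.hσ k).2.1) tendsto_natCast_atTop_atTop).mono_left d.hU

lemma ssmall (ε : ℝ) (hε : 0 < ε) : ∀ᶠ k in d.U, d.s k ≤ ε * d.τ k := by
  filter_upwards [d.σtop.eventually_ge_atTop (2 ^ 14 / ε)] with k hk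
  rw [div_le_iff₀ hε] at hk
  have h1 : d.σ k * d.s k ≤ 2 ^ 14 * d.τ k := (d.st k).s1
  refine le_of_mul_le_mul_left (h1.trans ?_) (d.σ0 k)
  rw [← mul_assoc]
  exact mul_le_mul_of_nonneg_right hk (by linarith [d.τ1 k])

lemma τtop : Tendsto d.τ d.U atTop := by
  refine tendsto_atTop_mono' _ ?_ d.σtop
  filter_upwards [d.ssmall 1 one_pos] with k hk
  linarith [(d.num k).1]

/-- The ring of sequences of controlled growth. -/
def V : Subring (ℕ → ℂ → ℂ) where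
  carrier := {x | x ∈ d.T ∧ (∀ k, Hol (d.R k) (x k)) ∧ Gr d.U 0 d.σ d.s x ∧
    Gr d.U 0 (fun k => d.σ k ^ 7) d.t x}
  mul_mem' := fun a b => ⟨d.Tmul _ a.1 _ b.1, fun k => (a.2.1 k).mul (b.2.1 k),
    a.2.2.1.mul b.2.2.1, a.2.2.2.mul b.2.2.2⟩
  one_mem' := ⟨by have := d.Tc 1; rwa [map_one] at this, fun k => differentiableOn_const _, Gr.const d.s1 1,
    Gr.const d.t1 1⟩
  add_mem' := fun a b => ⟨d.Tadd _ a.1 _ b.1, fun k => (a.2.1 k).add (b.2.1 k),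
    a.2.2.1.add d.s1 b.2.2.1, a.2.2.2.add d.t1 b.2.2.2⟩
  zero_mem' := ⟨by have := d.Tc 0; rwa [map_zero] at this, fun k => differentiableOn_const _, Gr.const d.s1 0,
    Gr.const d.t1 0⟩
  neg_mem' := fun a => ⟨d.Tneg _ a.1, fun k => (a.2.1 k).neg, a.2.2.1.neg, a.2.2.2.neg⟩

lemma gr_dd {x : ℕ → ℂ → ℂ} (h : ∀ k, Hol (d.R k) (x k)) (h1 : Gr d.U 0 d.σ d.s x)
    (h2 : Gr d.U 0 (fun k => d.σ k ^ 7) d.t x) :
    Gr d.U 0 d.σ d.s (dd d.R x) ∧ Gr d.U 0 (fun k => d.σ k ^ 7) d.t (dd d.R x) := by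
  refine ⟨h1.dd d.s1 d.σ0 (fun k => ?_) (fun k => ?_) h,
    h2.dd d.t1 (fun k => pow_pos (d.σ0 k) _) (fun k => ?_) (fun k => ?_) h⟩
  · obtain ⟨-, -, -, -, a, b, c, -⟩ := d.num k
    simp only [Pi.zero_apply]; linarith
  · exact one_le_mul_of_one_le_of_one_le (by linarith [(d.hσ k).1])
      (one_le_exp (by linarith [d.s1 k]))
  · simpa using (d.num k).2.2.2.2.2.2.1.le
  · exact one_le_mul_of_one_le_of_one_le (one_le_pow₀ (by linarith [(d.hσ k).1]))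
      (one_le_exp (by linarith [d.t1 k]))

lemma mem_of_bound {x : ℕ → ℂ → ℂ} (hT : x ∈ d.T) (h : ∀ k, Hol (d.R k) (x k)) {C : ℝ}
    (hC : 0 ≤ C) (hb : ∀ k, ∀ z ∈ ball (0 : ℂ) (d.R k), ‖x k z‖ ≤ exp (C * (‖d.α k z‖ + 1))) :
    x ∈ d.V := by
  have key : ∀ k ρ, ρ < d.R k → d.s k ≤ sc (d.α k) ρ → ∀ z, ‖z‖ < 0 + ρ →
      ‖x k z‖ ≤ exp (3 * C * sc (d.α k) ρ) := fun k ρ h1 h2 z hz => by
    refine (hb k z (mem_ball_zero_iff.2 (by linarith))).trans (exp_le_exp.2 ?_)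
    have := le_sc (d.hα k) h1 (z := z) (by linarith)
    have := norm_le_norm_sub_add (d.α k z) (d.α k 0)
    have := d.hL k
    have := d.Ls k
    nlinarith
  refine ⟨hT, h, Gr.of_le (C := 3 * C) (by positivity) d.σ0 (Eventually.of_forall fun k => ?_),
    Gr.of_le (C := 3 * C) (by positivity) (fun k => pow_pos (d.σ0 k) _)
      (Eventually.of_forall fun k => ?_)⟩
  · obtain ⟨-, -, -, -, a, b, c, -⟩ := d.num k
    exact key k _ (by linarith) le_rfl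
  · exact key k _ (d.num k).2.2.2.2.2.2.1 (d.num k).2.1

/-- The derivation. -/
noncomputable def D : d.V →+ d.V where
  toFun x := ⟨dd d.R x, d.Tdd _ x.2.1, fun k => dd_hol (x.2.2.1 k),
    d.gr_dd x.2.2.1 x.2.2.2.1 x.2.2.2.2⟩
  map_zero' := by ext k z; simp [dd]
  map_add' x y := by
    ext k z
    by_cases h : z ∈ ball (0 : ℂ) (d.R k)
    · simp only [Subring.coe_add, Pi.add_apply, dd_in _ h]
      exact deriv_add ((x.2.2.1 k).differentiableAt (isOpen_ball.mem_nhds h))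
        ((y.2.2.1 k).differentiableAt (isOpen_ball.mem_nhds h))
    · simp [dd_out _ h]

lemma D_coe (x : d.V) : (d.D x : ℕ → ℂ → ℂ) = dd d.R x := rfl

lemma D_iter (x : d.V) (j : ℕ) : (d.D^[j] x : ℕ → ℂ → ℂ) = (dd d.R)^[j] x := by
  induction j with
  | zero => rfl
  | succ j ih => rw [Function.iterate_succ_apply', Function.iterate_succ_apply', D_coe, ih]

lemma leib : Leib d.D := by
  intro x y
  ext k z
  by_cases h : z ∈ ball (0 : ℂ) (d.R k)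
  · simp only [D_coe, Subring.coe_add, Subring.coe_mul, Pi.add_apply, Pi.mul_apply, dd_in _ h]
    exact deriv_mul ((x.2.2.1 k).differentiableAt (isOpen_ball.mem_nhds h))
      ((y.2.2.1 k).differentiableAt (isOpen_ball.mem_nhds h))
  · simp [D_coe, dd_out _ h]

/-- Not negligible at stage `k`. -/
def Big (k : ℕ) (x : ℂ → ℂ) : Prop := NZ (d.R k) x ∧ -d.s k ≤ av x 1

lemma crit (x : d.V) (h : ∀ᶠ k in d.U, ∀ z, ‖z‖ ≤ 1 → ‖x.1 k z‖ ≤ exp (-2 * d.s k)) :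
    ∀ᶠ k in d.U, ¬ d.Big k (x.1 k) := by
  filter_upwards [h] with k hk hb
  have := av_le (x.2.2.1 k) hb.1 one_pos (d.R1 k) fun z hz => hk z hz.le
  linarith [hb.2, d.s1 k]

lemma tiny (x : d.V) (h : ∀ᶠ k in d.U, ¬ d.Big k (x.1 k)) (C : ℝ) :
    ∀ᶠ k in d.U, ∀ z, ‖z‖ ≤ d.σ k ^ 3 → ‖x.1 k z‖ ≤ exp (-C * d.t k) := by
  obtain ⟨C0, c0, c1⟩ := x.2.2.2.2 (1 / 2) (by norm_num) (by norm_num)
  filter_upwards [h, c1, d.hU (d.dich _ x.2.1), d.σtop.eventually_ge_atTop (5 * C0 + 6 * C)]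
    with k h1 h2 h3 h4 z hz
  have hf := x.2.2.1 k
  by_cases hn : NZ (d.R k) (x.1 k)
  swap
  · have : x.1 k z = 0 := by
      by_contra e
      exact hn ⟨z, mem_ball_zero_iff.2 (hz.trans_lt (d.σ3 k).2), e⟩
    rw [this, norm_zero]; positivity
  have h5 := h3.resolve_left fun e => h1 ⟨hn, e⟩
  obtain ⟨-, -, n3, -, -, -, n7, -⟩ := d.num k
  have q := d.σ3 k
  have t1 := d.t1 k
  have a1 : (2 * d.σ k ^ 3) ^ 2 ≤ 1 / 2 * d.σ k ^ 7 := by
    have : d.σ k ^ 7 = d.σ k * (d.σ k ^ 3) ^ 2 := by ring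
    nlinarith [(d.hσ k).1, sq_nonneg (d.σ k ^ 3)]
  have a2 : 2 * d.σ k ^ 3 ≤ (2 * d.σ k ^ 3) ^ 2 := le_self_pow₀ (by linarith) (by norm_num)
  have a3 := av_conv hf hn (ρ := 2 * d.σ k ^ 3) (by linarith) (by linarith)
  have a4 := av_le hf hn (ρ := (2 * d.σ k ^ 3) ^ 2) (by linarith) (by linarith)
    fun z hz => h2 z (by simp only [Pi.zero_apply]; linarith)
  refine (sup_le_av hf hn (ρ := 2 * d.σ k ^ 3) (by linarith) (A := C0 * d.t k) (by positivity)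
    (fun z hz => h2 z (by simp only [Pi.zero_apply]; linarith)) (by linarith)
    (by linarith)).trans (exp_le_exp.2 ?_)
  linarith [mul_le_mul_of_nonneg_right h4 (zero_le_one.trans t1)]

lemma gr1 (x : d.V) : ∃ C, 0 ≤ C ∧ ∀ᶠ k in d.U, ∀ z, ‖z‖ ≤ 8 → ‖x.1 k z‖ ≤ exp (C * d.s k) := by
  obtain ⟨C0, c0, c1⟩ := x.2.2.2.1 (1 / 2) (by norm_num) (by norm_num)
  refine ⟨C0, c0, c1.mono fun k hk z hz => hk z ?_⟩
  simp only [Pi.zero_apply]; linarith [(d.hσ k).1]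

/-- The prime ideal of negligible elements. -/
def P : Ideal d.V where
  carrier := {x | ∀ᶠ k in d.U, ¬ d.Big k (x.1 k)}
  add_mem' := fun {x y} hx hy => by
    apply d.crit
    filter_upwards [d.tiny x hx 3, d.tiny y hy 3] with k a b z hz
    have q := d.σ3 k
    refine (norm_add_le_of_le (a z (by linarith)) (b z (by linarith))).trans ?_
    have h1 : exp (-2 * d.t k) ≤ exp (-2 * d.s k) := exp_le_exp.2 (by linarith [(d.num k).2.1])
    have h2 : 2 ≤ exp (d.t k) := by linarith [add_one_le_exp (d.t k), d.t1 k]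
    have h3 : exp (-2 * d.t k) = exp (-3 * d.t k) * exp (d.t k) := by
      rw [← exp_add]; congr 1; ring
    nlinarith [exp_pos (-3 * d.t k)]
  zero_mem' := d.crit 0 (Eventually.of_forall fun k z _ => by simpa using (exp_pos _).le)
  smul_mem' := fun c x hx => by
    apply d.crit
    obtain ⟨C, c0, c1⟩ := d.gr1 c
    filter_upwards [d.tiny x hx (C + 2), c1] with k a b z hz
    have q := d.σ3 k
    refine (norm_mul_le_of_le (b z (by linarith)) (a z (by linarith))).trans ?_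
    rw [← exp_add, exp_le_exp]
    nlinarith [(d.num k).2.1]

lemma big {x : d.V} (h : x ∉ d.P) : ∀ᶠ k in d.U, d.Big k (x.1 k) := by
  have := Ultrafilter.eventually_not.2 h
  simpa using this

lemma not_mem {x : d.V} (h : ∀ᶠ k in d.U, d.Big k (x.1 k)) : x ∉ d.P := fun hx => by
  obtain ⟨k, a, b⟩ := (h.and hx).exists
  exact b a

lemma prime : d.P.IsPrime := by
  refine ⟨(Ideal.ne_top_iff_one _).2 (d.not_mem (Eventually.of_forall fun k =>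
    ⟨⟨0, mem_ball_self (by linarith [d.R1 k]), by simp⟩, ?_⟩)), fun {x y} h => ?_⟩
  · simp [av, circleAverage_const]; linarith [d.s1 k]
  · by_contra hc
    push Not at hc
    obtain ⟨k, ⟨a, b⟩, c⟩ := (((d.big hc.1).and (d.big hc.2)).and (d.tiny _ h 3)).exists
    have e1 := av_mul (x.2.2.1 k) (y.2.2.1 k) a.1 b.1 one_pos (d.R1 k)
    have e2 := av_le ((x.2.2.1 k).mul (y.2.2.1 k)) (a.1.mul (x.2.2.1 k) (y.2.2.1 k) b.1) one_pos
      (d.R1 k) fun z hz => c z (by linarith [d.σ3 k])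
    change av (fun z => x.1 k z * y.1 k z) 1 ≤ _ at e2
    linarith [a.2, b.2, (d.num k).2.1, d.s1 k]

lemma dP (x : d.V) (h : x ∈ d.P) : d.D x ∈ d.P := by
  apply d.crit
  filter_upwards [d.tiny x h 2] with k a z hz
  have q := d.σ3 k
  rw [D_coe, dd_in _ (mem_ball_zero_iff.2 (by linarith))]
  refine (cauchy_est (x.2.2.1 k) one_pos (by linarith) fun w hw => a w (by linarith)).trans ?_
  rw [div_one, exp_le_exp]
  linarith [(d.num k).2.1]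

lemma cont (x : d.V) (k : ℕ) : ContinuousOn (fun z => ‖x.1 k z‖) (sphere 0 |d.r k|) :=
  ((x.2.2.1 k).continuousOn.mono (sph_sub (d.r0 k) (d.rR k))).norm

lemma sm_of_le (x : d.V) {t : ℕ → ℝ} (ht : ∀ ε : ℝ, 0 < ε → ∀ᶠ k in d.U, t k ≤ ε * d.τ k) {C : ℝ}
    (hC : 0 ≤ C) (h0 : ∀ k, 0 ≤ t k)
    (h : ∀ᶠ k in d.U, ∀ z, ‖z‖ = d.r k → ‖x.1 k z‖ ≤ exp (C * t k)) :
    Sm d.U d.r d.τ fun k z => ‖x.1 k z‖ :=
  Sm.of_le ht hC h0 (h.mono fun k hk => ⟨d.cont x k, fun z hz => by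
    rw [abs_norm]; exact hk z (by simpa [abs_of_pos (d.r0 k)] using hz)⟩)

lemma sm_const (x : d.V) {c : ℂ} (h : ∀ k z, x.1 k z = c) : Sm d.U d.r d.τ fun k z => ‖x.1 k z‖ :=
  d.sm_of_le x d.ssmall (norm_nonneg c) (fun k => by linarith [d.s1 k])
    (Eventually.of_forall fun k z _ => by
      rw [h]; nlinarith [add_one_le_exp (‖c‖ * d.s k), norm_nonneg c, d.s1 k])

/-- The subring of small elements. -/
def S : Subring d.V where
  carrier := {x | Sm d.U d.r d.τ fun k z => ‖x.1 k z‖}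
  mul_mem' := fun {x y} a b => (Sm.mul d.τtop a b).mono (Eventually.of_forall (d.cont _))
    fun k z => le_of_eq (congrArg _ (norm_mul _ _))
  one_mem' := d.sm_const 1 (c := 1) fun _ _ => rfl
  add_mem' := fun {x y} a b => (Sm.add d.τtop a b).mono (Eventually.of_forall (d.cont _))
    fun k z => posLog_le_posLog (norm_nonneg _) (norm_add_le _ _)
  zero_mem' := d.sm_const 0 (c := 0) fun _ _ => rfl
  neg_mem' := fun {x} a => by simpa using a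

lemma PS (x : d.V) (h : x ∈ d.P) : x ∈ d.S := by
  refine d.sm_of_le x d.ssmall le_rfl (fun k => by linarith [d.s1 k]) ?_
  filter_upwards [d.tiny x h 0] with k a z hz
  simpa using a z (by linarith [(d.num k).2.2.2.2.2.2.2.1, (d.st k).η0])

lemma av_ge {x : d.V} (h : x ∉ d.P) :
    ∀ᶠ k in d.U, NZ (d.R k) (x.1 k) ∧ -d.s k ≤ av (x.1 k) (d.r k) :=
  (d.big h).mono fun k a => ⟨a.1, a.2.trans (av_mono (x.2.2.1 k) a.1 one_pos (d.st k).r1 (d.rR k))⟩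

lemma small_of_mul {x g : d.V} (h1 : g ∉ d.P) (h2 : g ∈ d.S) (h3 : g * x ∈ d.S) : x ∈ d.S := by
  intro ε hε
  filter_upwards [d.av_ge h1, h2 (ε / 3) (by positivity), h3 (ε / 3) (by positivity),
    d.ssmall (ε / 3) (by positivity)] with k a b c e
  refine ⟨d.cont x k, ?_⟩
  have i1 := (g.2.2.1 k).int (d.r0 k) (d.rR k)
  have := avg_mono_off (zeros_fin (g.2.2.1 k) a.1 (d.rR k)) (d.r0 k) (pl_int (d.cont x k))
    (((pl_int c.1).add (pl_int b.1)).sub i1) fun z hz hZ => by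
      have n : ‖g.1 k z‖ ≠ 0 := norm_ne_zero_iff.2 fun e => hZ ⟨hz.le, e⟩
      have e1 : ‖x.1 k z‖ = ‖(g * x).1 k z‖ * ‖g.1 k z‖⁻¹ := by
        simp only [Subring.coe_mul, Pi.mul_apply, norm_mul]; field_simp
      simp only [Pi.sub_apply, Pi.add_apply]
      rw [e1]
      linarith [posLog_mul (x := ‖(g * x).1 k z‖) (y := ‖g.1 k z‖⁻¹),
        posLog_sub_posLog_inv (x := ‖g.1 k z‖)]
  rw [circleAverage_sub ((pl_int c.1).add (pl_int b.1)) i1,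
    circleAverage_add (pl_int c.1) (pl_int b.1)] at this
  have a2 := a.2
  unfold av at a2
  linarith [b.2, c.2]

lemma const (g h : d.V) (h1 : h ∉ d.P) (h2 : d.D g * h - g * d.D h ∈ d.P) :
    ∃ c ∈ d.S, d.D c = 0 ∧ g - c * h ∈ d.P := by
  obtain ⟨Cg, g0, g1⟩ := d.gr1 g
  obtain ⟨Ch, c0, c1⟩ := d.gr1 h
  have low : ∀ᶠ k in d.U, ∀ w, ‖w‖ = d.pt (h.1 k) (d.R k) →
      exp (-((12 * Ch + 13) * d.s k)) ≤ ‖h.1 k w‖ := by
    filter_upwards [c1, d.big h1] with k a b w hw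
    have s1 := d.s1 k
    refine le_trans (exp_le_exp.2 ?_) ((d.hpt (h.1 k) (d.R k)).2.2 (h.2.2.1 k)
      (by linarith [d.σ3 k]) _ _ (by positivity) (by linarith) b.1 a b.2 w hw)
    linarith
  have np : ∀ k, ‖(d.pt (h.1 k) (d.R k) : ℂ)‖ = d.pt (h.1 k) (d.R k) := fun k => by
    rw [Complex.norm_real, Real.norm_of_nonneg (by linarith [(d.hpt (h.1 k) (d.R k)).1])]
  have bd : ∀ᶠ k in d.U, ‖g.1 k (d.pt (h.1 k) (d.R k)) / h.1 k (d.pt (h.1 k) (d.R k))‖ ≤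
      exp ((Cg + (12 * Ch + 13)) * d.s k) := by
    filter_upwards [low, g1] with k a b
    rw [norm_div, add_mul, exp_add, div_le_iff₀ ((exp_pos _).trans_le (a _ (np k))), mul_assoc]
    refine (b _ (by rw [np]; linarith [(d.hpt (h.1 k) (d.R k)).2.1])).trans
      (le_mul_of_one_le_right (exp_pos _).le ?_)
    refine le_trans (le_of_eq ?_) (mul_le_mul_of_nonneg_left (a _ (np k)) (exp_pos _).le)
    rw [← exp_add]; simp
  have p : 0 ≤ Cg + (12 * Ch + 13) := by positivity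
  refine ⟨⟨_, d.Tcc _ g.2.1 _ h.2.1, fun k => differentiableOn_const _,
    fun _ _ _ => ⟨_, p, bd.mono fun k a _ _ => a⟩, fun _ _ _ => ⟨_, p, bd.mono fun k a _ _ =>
      a.trans (exp_le_exp.2 (mul_le_mul_of_nonneg_left (d.num k).2.1 p))⟩⟩,
    d.sm_of_le _ d.ssmall p (fun k => by linarith [d.s1 k]) (bd.mono fun k a _ _ => a), ?_, ?_⟩
  · ext k z; simp [D_coe, dd]
  · apply d.crit
    filter_upwards [low, c1, d.tiny _ h2 (Ch + 2 * (12 * Ch + 13) + 5)] with k a b c z hz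
    obtain ⟨p2, p3, -⟩ := d.hpt (h.1 k) (d.R k)
    have q := d.σ3 k
    refine (const_est (g.2.2.1 k) (h.2.2.1 k) (by linarith) p3 (by linarith)
      (fun w hw => b w (by linarith)) a (fun w hw => ?_) (hz.trans (by linarith))
      (ε := exp (-(Ch + 2 * (12 * Ch + 13) + 5) * d.t k))).trans ?_
    · have hw' : w ∈ ball (0 : ℂ) (d.R k) := mem_ball_zero_iff.2 (by linarith)
      simpa [D_coe, dd_in _ hw'] using c w (by linarith)
    · have e1 : 12 ≤ exp (3 * d.t k) := by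
        have : 12 ≤ exp 3 := by
          calc (12 : ℝ) ≤ 2.7 ^ 3 := by norm_num
            _ ≤ exp 1 ^ 3 := by gcongr; linarith [exp_one_gt_d9]
            _ = exp 3 := by rw [← exp_nat_mul]; norm_num
        exact this.trans (exp_le_exp.2 (by linarith [d.t1 k]))
      refine (mul_le_mul_of_nonneg_right (mul_le_mul_of_nonneg_right e1 (exp_pos _).le)
        (exp_pos _).le).trans ?_
      rw [← exp_add, ← exp_add, exp_le_exp]
      nlinarith [(d.num k).2.1]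

end Dat

end Pool.Agent.MP_c69980_ag.H60
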