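import Pool.Agent.MP_c69980_ag.H60.Arc

/-!
The algebraic data attached to a variety of log-general type that is generically finite over a
torus.
-/

set_option autoImplicit false

namespace Pool.Agent.MP_c69980_ag.H60

open Finset MvPolynomial Metric Filter Topology

variable {n k : ℕ} {K : Type} [Field K] [Algebra ℂ K] {z : Fin n → K} {y : Fin n → ℂ} {g : K}
  {U : Set (PS n)} {u : Fin k → K} {R : ℝ} {x : ℂ → Fin n → ℂ} {ζ : ℂ}

/-- The Newton polytope bound for `F ^ N * g`. -/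
def Bd (z : Fin n → K) (u : Fin k → K) (F : PR k) (N : ℕ) (g : K) (c : ℝ) : Prop :=
  ∀ y, On z y → (∀ i, Reg z y (u i)) → Reg z y g → ∀ t : Fin k → ℝ,
    (∀ i, ‖vl z (u i) y‖ = Real.exp (t i)) →
      ‖eval (fun i => vl z (u i) y) F ^ N * vl z g y‖ ≤ c * sg F t ^ N

/-- The functions `u i` are invertible on `U`. -/
def Unt (U : Set (PS n)) (z : Fin n → K) (u : Fin k → K) : Prop :=
  ∀ y ∈ Cone U, ∀ i, Reg z y (u i) ∧ vl z (u i) y ≠ 0

lemma unt (hz : GenPt U z) (hu : IsTranscendenceBasis ℂ u)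
    (h : ∀ x ∈ U, ∀ i, u i ∈ locRing z x ∧ (u i)⁻¹ ∈ locRing z x) : Unt U z u := fun y hy i => by
  have h1 := Cone.reg hz hy fun x hx => (h x hx i).1
  have h2 := (vl_mul (Cone.on hz hy) h1 (Cone.reg hz hy fun x hx => (h x hx i).2)).2
  have u0 : u i ≠ 0 := fun e => hu.1.transcendental i (e ▸ isAlgebraic_zero)
  rw [mul_inv_cancel₀ u0, ← map_one (algebraMap ℂ K), (vl_const (Cone.on hz hy) 1).2] at h2
  exact ⟨h1, left_ne_zero_of_mul_eq_one h2.symm⟩

lemma vl_pow (hy : On z y) (hu : ∀ i, Reg z y (u i)) (hg : Reg z y g) (F : PR k) (N : ℕ) :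
    Reg z y (aeval u F ^ N * g) ∧
      vl z (aeval u F ^ N * g) y = eval (fun i => vl z (u i) y) F ^ N * vl z g y := by
  have h := vl_aeval hy hu (F ^ N)
  rw [map_pow, map_pow] at h
  exact ⟨(vl_mul hy h.1 hg).1, by rw [(vl_mul hy h.1 hg).2, h.2]⟩

lemma od_bd (hz : GenPt U z) (hu : Unt U z u) (hx : Dk U 0 R x) (hζ : ζ ∈ ball (0 : ℂ) R)
    (hg : Reg z (x 0) g) {F : PR k} {N : ℕ} {c : ℝ} (h : Bd z u F N g c) :
    0 ≤ od z x ζ (aeval u F ^ N * g) := by
  refine not_lt.1 fun l => ?_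
  have h1 := tendsto_norm_atTop_iff_cobounded.2 (tendsto_cobounded_of_meromorphicOrderAt_neg l)
  have h2 : ContinuousAt (fun s => c * sg F (fun i => Real.log ‖vl z (u i) (x s)‖) ^ N) ζ := by
    refine continuousAt_const.mul (ContinuousAt.pow ?_ _)
    refine tendsto_finsetSum _ fun m _ => ContinuousAt.rexp (tendsto_finsetSum _ fun i _ => ?_)
    exact continuousAt_const.mul ((hx.an hz hζ (hu _ (hx.2 ζ hζ) i).1).continuousAt.norm.log
      (norm_ne_zero_iff.2 (hu _ (hx.2 ζ hζ) i).2))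
  refine not_tendsto_atTop_of_tendsto_nhds (h2.mono_left (nhdsWithin_le_nhds (s := {ζ}ᶜ)))
    (tendsto_atTop_mono' _ ?_ h1)
  filter_upwards [(hx.ev hz hζ hg).1, mem_nhdsWithin_of_mem_nhds (isOpen_ball.mem_nhds hζ)]
    with s h3 h4
  have h5 := hu _ (hx.2 s h4)
  rw [(vl_pow h3.1 (fun i => (h5 i).1) h3.2 F N).2]
  exact h _ h3.1 (fun i => (h5 i).1) h3.2 _ fun i => (Real.exp_log (norm_pos_iff.2 (h5 i).2)).symm

lemma wt2 {a b : WithTop ℤ} (h0 : 0 ≤ a) (h1 : a ≠ 0) (h2 : 0 ≤ b) (h : ¬ 2 ≤ a + b) :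
    a = 1 ∧ b = 0 := by
  cases a with
  | top => simp at h
  | coe a =>
    cases b with
    | top => simp at h
    | coe b =>
      rw [← WithTop.coe_add, show (2 : WithTop ℤ) = ((2 : ℤ) : WithTop ℤ) from rfl] at h
      norm_cast at *
      omega

lemma setup (hz : GenPt U z) (hu : IsTranscendenceBasis ℂ u) (hG : LogGT U z) :
    (∀ g : K, ∃ P : PR (k + 1), aeval (Fin.cons g u) P = 0 ∧
      aeval (Fin.cons g u : Fin (k + 1) → K) (pderiv 0 P) ≠ 0) ∧
    ∃ γ : K, γ ≠ 0 ∧ (∀ V p, Cen U z V → Prime p → UnrV u p V → γ ∈ V) ∧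
      ∀ s : Finset (Fin k), ∃ a : PR k, a ≠ 0 ∧ ∀ (F : PR k) (N : ℕ), F ≠ 0 → a ∣ F ^ N →
        ∃ c, 0 ≤ c ∧ Bd z u F N (γ * ∏ i ∈ s, u i) c := by
  let _ : Algebra (PR k) K := (aeval u : PR k →ₐ[ℂ] K).toRingHom.toAlgebra
  have hA : ∀ a, algebraMap (PR k) K a = aeval u a := fun _ => rfl
  have hinj : Function.Injective (algebraMap (PR k) K) := hu.1
  let L := FractionRing (PR k)
  let _ : Algebra L K := (IsFractionRing.lift hinj : L →+* K).toAlgebra
  have hLK : ∀ a, algebraMap L K (algebraMap _ L a) = aeval u a := fun a =>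
    IsFractionRing.lift_algebraMap hinj a
  have _ : IsScalarTower (PR k) L K := .of_algebraMap_eq fun a => (hLK a).symm
  have _ : IsScalarTower ℂ L K := .of_algebraMap_eq fun c => by
    rw [IsScalarTower.algebraMap_apply ℂ (PR k) L, hLK]; simp
  have hal : ∀ g : K, IsAlgebraic (PR k) g := fun g =>
    IsAlgebraic.of_ringHom_of_comp_eq hu.1.aevalEquiv.toAlgHom.toRingHom (RingHom.id K)
      (hu.isAlgebraic.isAlgebraic g) hu.1.aevalEquiv.surjective Function.injective_id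
      (RingHom.ext fun a => hu.1.algebraMap_aevalEquiv a)
  have hfd : FiniteDimensional L K := by
    have : Finite {u | ∃ i j, u = z i / z j} := Set.Finite.subset
      (Set.finite_range fun a : Fin n × Fin n => z a.1 / z a.2) fun _ ⟨i, j, e⟩ => ⟨(i, j), e.symm⟩
    have := IntermediateField.finiteDimensional_adjoin (S := {u | ∃ i j, u = z i / z j})
      fun g _ => ((IsFractionRing.isAlgebraic_iff (PR k) L K).1 (hal g)).isIntegral
    rw [IntermediateField.adjoin_eq_top_of_adjoin_eq_top ℂ hz.2] at this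
    exact IntermediateField.topEquiv.toLinearEquiv.finiteDimensional
  refine ⟨fun g => ?_, ?_⟩
  · have e : ∀ q : Polynomial (PR k), ∃ P : PR (k + 1), aeval (Fin.cons g u) P = q.aeval g ∧
        aeval (Fin.cons g u : Fin (k + 1) → K) (pderiv 0 P) = q.derivative.aeval g := fun q => by
      induction q using Polynomial.induction_on' with
      | add p q hp hq =>
        obtain ⟨P, a, b⟩ := hp
        obtain ⟨Q, c, d⟩ := hq
        exact ⟨P + Q, by simp [a, c], by simp [b, d]⟩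
      | monomial m c =>
        have a : pderiv 0 (rename Fin.succ c : PR (k + 1)) = 0 :=
          pderiv_eq_zero_of_notMem_vars fun h => by simpa using vars_rename _ _ h
        have b : aeval (Fin.cons g u : Fin (k + 1) → K) (rename Fin.succ c) = aeval u c := by
          rw [aeval_rename]; rfl
        exact ⟨rename Fin.succ c * X 0 ^ m, by simp [b, hA],
          by simp [a, b, hA, Derivation.leibniz_pow, Polynomial.derivative_monomial, mul_assoc]⟩
    have key : ∀ m, ∀ q : Polynomial (PR k), q.natDegree < m → q ≠ 0 → q.aeval g = 0 →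
        ∃ q : Polynomial (PR k), q.aeval g = 0 ∧ q.derivative.aeval g ≠ 0 := fun m => by
      induction m with
      | zero => simp
      | succ m ih =>
        intro q h1 h2 h3
        by_cases h4 : q.derivative.aeval g = 0
        · have h5 : q.natDegree ≠ 0 := fun e => by
            rw [Polynomial.eq_C_of_natDegree_eq_zero e, Polynomial.aeval_C,
              map_eq_zero_iff _ hinj] at h3
            exact h2 (by rw [Polynomial.eq_C_of_natDegree_eq_zero e, h3, map_zero])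
          exact ih _ ((Polynomial.natDegree_derivative_lt h5).trans_le (by omega))
            (fun e => h5 (Polynomial.derivative_eq_zero.1 e)) h4
        · exact ⟨q, h3, h4⟩
    obtain ⟨q, q1, q2⟩ := hal g
    obtain ⟨q, q1, q2⟩ := key _ q (Nat.lt_succ_self _) q1 q2
    obtain ⟨P, a, b⟩ := e q
    exact ⟨P, a.trans q1, b ▸ q2⟩
  obtain ⟨γ, γ0, hγ⟩ := alg L hA hu hz hG
  refine ⟨γ, γ0, fun V p a b c => by simpa using hγ ∅ V (Or.inr ⟨a, p, b, c⟩), fun s => ?_⟩
  obtain ⟨a, a0, ha⟩ := newt L hA fun V hV => hγ s V (Or.inl hV)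
  refine ⟨a, a0, fun F N F0 h => ?_⟩
  obtain ⟨c, c0, hc⟩ := ha F N F0 h
  exact ⟨c, c0, fun y hy h1 h2 t ht => hc (rg hy) (chi hy) h1 h2 t ht⟩

theorem data (hU : IsVar U) (hz : GenPt U z) (hu : IsTranscendenceBasis ℂ u)
    (hr : ∀ x ∈ U, ∀ i, u i ∈ locRing z x ∧ (u i)⁻¹ ∈ locRing z x) (hG : LogGT U z) :
    ∃ (γ : K) (F : PR k) (N : ℕ) (Q : PR n) (e : ℕ) (c : ℝ), γ ≠ 0 ∧ Squarefree F ∧
      Q.IsHomogeneous e ∧ aeval z Q ≠ 0 ∧ 0 ≤ c ∧ Bd z u F N γ c ∧
      (∀ y, On z y → (∀ i, Reg z y (u i)) → Reg z y γ → ∀ t : Fin k → ℝ,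
        (∀ i, ‖vl z (u i) y‖ = Real.exp (t i)) →
        ‖eval (fun i => vl z (u i) y) F ^ N * vl z γ y‖ * Real.exp (∑ i, max (t i) 0) ≤
          c * sg F t ^ N) ∧
      ∀ R x ζ, Dk U 0 R x → ζ ∈ ball (0 : ℂ) R → eval (x 0) Q ≠ 0 → Reg z (x 0) γ →
        ¬ 2 ≤ od z x ζ (aeval u F) → 0 ≤ od z x ζ γ := by
  classical
  obtain ⟨-, γ, γ0, h1, h2⟩ := setup hz hu hG
  choose a a0 ha using h2
  let s := (UniqueFactorizationMonoid.factors (a ∅)).toFinset
  have hs : ∀ p : s, Prime p.1 := fun p =>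
    UniqueFactorizationMonoid.prime_of_factor _ (Multiset.mem_toFinset.1 p.2)
  choose Ψ Q e b1 b2 b3 b4 using fun p : s =>
    arc hU hz (fun i x hx => (hr x hx i).1) (hs p) fun V h h' => h1 V p h (hs p) h'
  obtain ⟨F, N, F1, -, F2⟩ := exists_squarefree_dvd_pow_of_ne_zero
    (x := (∏ s, a s) * ∏ p, Ψ p) (mul_ne_zero (prod_ne_zero_iff.2 fun s _ => a0 s)
      (prod_ne_zero_iff.2 fun p _ e => b1 p (e ▸ dvd_zero _)))
  choose c c0 hc using fun s => ha s F N F1.ne_zero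
    (((dvd_prod_of_mem a (mem_univ s)).mul_right _).trans F2)
  have c1 : ∀ s, c s ≤ ∑ s, c s := fun s => single_le_sum (fun s _ => c0 s) (mem_univ s)
  have key : ∀ y, On z y → (∀ i, Reg z y (u i)) → Reg z y γ → ∀ t : Fin k → ℝ,
      (∀ i, ‖vl z (u i) y‖ = Real.exp (t i)) →
      ‖eval (fun i => vl z (u i) y) F ^ N * vl z γ y‖ * Real.exp (∑ i, max (t i) 0) ≤
        (∑ s, c s) * sg F t ^ N := fun y hy h1 h2 t ht => by
    let s := univ.filter fun i => 0 ≤ t i
    have d1 := vl_aeval hy h1 (∏ i ∈ s, X i)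
    simp only [map_prod, aeval_X, eval_X] at d1
    have d2 := vl_mul hy h2 d1.1
    have d3 := hc s y hy h1 d2.1 t ht
    rw [d2.2, d1.2, ← mul_assoc, norm_mul, norm_prod] at d3
    refine le_trans (le_of_eq ?_) (d3.trans (mul_le_mul_of_nonneg_right (c1 s)
      (pow_nonneg (sum_nonneg fun _ _ => (Real.exp_pos _).le) _)))
    simp only [ht, ← Real.exp_sum, s, sum_filter, max_def']
  refine ⟨γ, F, N, ∏ p, Q p, ∑ p, e p, ∑ s, c s, γ0, F1,
    IsHomogeneous.prod _ _ _ fun p _ => b2 p, by simpa [prod_eq_zero_iff] using b3,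
    (c0 ∅).trans (c1 ∅), fun y hy h1 h2 t ht => le_trans (le_mul_of_one_le_right (norm_nonneg _)
      (Real.one_le_exp (by positivity))) (key y hy h1 h2 t ht), key,
    fun R x ζ hx hζ h3 h4 h5 => ?_⟩
  have un := unt hz hu hr
  have m0 := mem_ball_self (x := (0 : ℂ)) (pos_of_mem_ball hζ)
  have r0 := fun P => (vl_aeval (Cone.on hz (hx.2 0 m0)) (fun i => (un _ (hx.2 0 m0) i).1) P).1
  have r1 := vl_aeval (Cone.on hz (hx.2 ζ hζ)) fun i => (un _ (hx.2 ζ hζ) i).1
  have r2 := fun P => hx.od_reg hz hζ (r1 P).1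
  by_cases h6 : eval (fun i => vl z (u i) (x ζ)) (a ∅) = 0
  · obtain ⟨v, hv⟩ := UniqueFactorizationMonoid.factors_prod (a0 ∅)
    rw [← hv, map_mul, mul_eq_zero, or_iff_left (v.isUnit.map _).ne_zero, map_multiset_prod,
      Multiset.prod_eq_zero_iff, Multiset.mem_map] at h6
    obtain ⟨p, p1, p2⟩ := h6
    let q : s := ⟨p, Multiset.mem_toFinset.2 p1⟩
    obtain ⟨F', rfl⟩ := (hs q).dvd_of_dvd_pow (((UniqueFactorizationMonoid.dvd_of_mem_factors
      p1).trans ((dvd_prod_of_mem a (mem_univ _)).mul_right _)).trans F2)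
    rw [map_mul, hx.od_mul hz hζ (r0 _) (r0 _)] at h5
    obtain ⟨d1, d2⟩ := wt2 (r2 p).1 (fun e => (r2 p).2.1 e ((r1 p).2.trans p2)) (r2 F').1 h5
    refine b4 q R x ζ hx hζ (fun e => h3 ?_) d1 fun e => (r2 F').2.1 d2 ?_
    · rw [map_prod]; exact prod_eq_zero (mem_univ q) e
    · have d3 := ((dvd_prod_of_mem Ψ (mem_univ q)).mul_left _).trans F2
      rw [mul_pow] at d3
      obtain ⟨w, hw⟩ := ((hs q).irreducible.isRelPrime_iff_not_dvd.2
        (b1 q)).pow_left.symm.dvd_of_dvd_mul_left d3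
      rw [(r1 _).2] at e ⊢
      exact eq_zero_of_pow_eq_zero (n := N) (by rw [← map_pow, hw, map_mul, e, zero_mul])
  · obtain ⟨c, -, hc⟩ := ha ∅ (a ∅) 1 (a0 ∅) (by simp)
    rw [prod_empty, mul_one] at hc
    have := od_bd hz un hx hζ h4 hc
    rwa [pow_one, hx.od_mul hz hζ (r0 _) h4, (r2 _).2.2 ((r1 _).2 ▸ h6), zero_add] at this

end Pool.Agent.MP_c69980_ag.H60
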