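import Mathlib

/-!
Complex projective space, holomorphic discs and the Kobayashi pseudodistance.
-/

set_option autoImplicit false

namespace Pool.Agent.MP_c69980_ag.H60

open MvPolynomial Filter Topology
open scoped LinearAlgebra.Projectivization

/-- Complex projective space with `N` homogeneous coordinates. -/
abbrev PS (N : ℕ) : Type := ℙ ℂ (Fin N → ℂ)

variable {N : ℕ}

/-- Zariski closed sets: common zeros of a set of forms. -/
def IsZClosed (Z : Set (PS N)) : Prop :=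
  ∃ S : Set (MvPolynomial (Fin N) ℂ), (∀ F ∈ S, ∃ d, F.IsHomogeneous d) ∧
    Z = {P | ∀ F ∈ S, eval P.rep F = 0}

/-- `f` is holomorphic on `Ω`: it has nonvanishing analytic local lifts. -/
def Holo (Ω : Set ℂ) (f : ℂ → PS N) : Prop :=
  ∀ t ∈ Ω, ∃ g : ℂ → Fin N → ℂ, AnalyticAt ℂ g t ∧
    ∀ᶠ s in 𝓝 t, ∃ h : g s ≠ 0, f s = Projectivization.mk ℂ (g s) h

/-- The Kobayashi pseudodistance: the infimum of the Poincare lengths of chains of discs. -/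
noncomputable def kob (U : Set (PS N)) (p q : PS N) : ENNReal :=
  sInf {s | ∃ (r : ℕ) (x : ℕ → PS N) (f : ℕ → ℂ → PS N) (a : ℕ → ℂ), x 0 = p ∧ x r = q ∧
    (∀ i < r, Holo (Metric.ball 0 1) (f i) ∧ Set.MapsTo (f i) (Metric.ball 0 1) U ∧ ‖a i‖ < 1 ∧
      f i 0 = x i ∧ f i (a i) = x (i + 1)) ∧
    s = ∑ i ∈ Finset.range r, ENNReal.ofReal (Real.artanh ‖a i‖)}

/-- Pseudo-Kobayashi hyperbolicity. -/
def PseudoKob (U : Set (PS N)) : Prop :=
  ∃ Δ, IsZClosed Δ ∧ ¬ U ⊆ Δ ∧ ∀ p ∈ U, ∀ q ∈ U, p ≠ q → ¬ (p ∈ Δ ∧ q ∈ Δ) → 0 < kob U p q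

end Pool.Agent.MP_c69980_ag.H60
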