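import Pool.Agent.MP_c69980_ag.H60.Defs

/-!
Quasi-projective varieties, function fields, local rings and log-general type.
-/

set_option autoImplicit false

namespace Pool.Agent.MP_c69980_ag.H60

open MvPolynomial

variable {n : ℕ}

/-- Zariski closure. -/
def zcl (S : Set (PS n)) : Set (PS n) := ⋂₀ {Z | IsZClosed Z ∧ S ⊆ Z}

/-- Irreducible sets. -/
def IsIrred (S : Set (PS n)) : Prop :=
  S.Nonempty ∧ ∀ Z Z', IsZClosed Z → IsZClosed Z' → S ⊆ Z ∪ Z' → S ⊆ Z ∨ S ⊆ Z'

/-- Quasi-projective varieties: irreducible locally closed sets. -/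
def IsVar (S : Set (PS n)) : Prop :=
  IsIrred S ∧ ∃ Z W, IsZClosed Z ∧ IsZClosed W ∧ S = Z \ W

variable {K : Type} [Field K] [Algebra ℂ K]

/-- `z` is a generic point of `S` with function field `K`. -/
def GenPt (S : Set (PS n)) (z : Fin n → K) : Prop :=
  (∀ (F : MvPolynomial (Fin n) ℂ) (d : ℕ), F.IsHomogeneous d →
    (aeval z F = 0 ↔ ∀ P ∈ S, eval P.rep F = 0)) ∧
  IntermediateField.adjoin ℂ {u | ∃ i j, u = z i / z j} = ⊤

/-- The local ring at `x`, inside the function field. -/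
noncomputable def locRing (z : Fin n → K) (x : PS n) : Subalgebra ℂ K :=
  Algebra.adjoin ℂ {u | ∃ (F G : MvPolynomial (Fin n) ℂ) (d : ℕ), F.IsHomogeneous d ∧
    G.IsHomogeneous d ∧ eval x.rep G ≠ 0 ∧ u = aeval z F / aeval z G}

/-- The stalk at `x` of the `m`-th power of the canonical sheaf; a rational top form
`df₁ ∧ ⋯ ∧ df_k` is identified with `det (D_i f_l)`, for a basis `D` of the derivations. -/
noncomputable def pluri (z : Fin n → K) {k : ℕ} (D : Fin k → Derivation ℂ K K) (m : ℕ)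
    (x : PS n) : Submodule (locRing z x) K :=
  Submodule.span _ {h | ∃ f : Fin m → Fin k → K, (∀ a l, f a l ∈ locRing z x) ∧
    h = ∏ a, Matrix.det (Matrix.of fun i l => D i (f a l))}

/-- Log-general type, for `U` with generic point `z`. `W` is a smooth projective variety with the
function field of `U`, and `π` is the birational morphism from `W` to the closure of `U` (the local
ring at `x` dominates the one at `π x`). The boundary `{x | π x ∉ U}` has simple normal crossings:
near `x` it is the zero set of `∏ i ∈ r, t i` for a regular system of parameters `t`. The `h i` are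
sections of `m (K_W + boundary)` with `h i / h 0` algebraically independent. -/
def LogGT (U : Set (PS n)) (z : Fin n → K) : Prop :=
  ∃ (n' : ℕ) (W : Set (PS n')) (z' : Fin n' → K) (π : PS n' → PS n) (k m : ℕ)
    (D : Fin k → Derivation ℂ K K) (h : Fin (k + 1) → K),
    IsZClosed W ∧ GenPt W z' ∧ Algebra.trdeg ℂ K = k ∧ LinearIndependent K D ∧
    0 < m ∧ h 0 ≠ 0 ∧ (AlgebraicIndependent ℂ fun i : Fin k => h i.succ / h 0) ∧
    ∀ x ∈ W, IsRegularLocalRing (locRing z' x) ∧ π x ∈ zcl U ∧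
      (∀ u ∈ locRing z (π x), u ∈ locRing z' x ∧ (u⁻¹ ∈ locRing z' x → u⁻¹ ∈ locRing z (π x))) ∧
      ∃ (t : Fin k → locRing z' x) (r : Finset (Fin k)) (g : MvPolynomial (Fin n') ℂ) (d : ℕ),
        (Ideal.span (Set.range t)).IsMaximal ∧ (∀ i, t i ≠ 0) ∧ g.IsHomogeneous d ∧
        eval x.rep g ≠ 0 ∧
        (∀ y ∈ W, eval y.rep g ≠ 0 → (∀ i, (t i : K) ∈ locRing z' y) ∧
          (π y ∈ U ↔ (∏ i ∈ r, (t i : K))⁻¹ ∈ locRing z' y)) ∧
        ∀ i, (∏ j ∈ r, (t j : K)) ^ m * h i ∈ pluri z' D m x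

end Pool.Agent.MP_c69980_ag.H60
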