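import Pool.Agent.MP_c69980_ag.H60.Hom

/-!
The branch hypersurface of the finite map given by forms without common zero.
-/

set_option autoImplicit false

namespace Pool.Agent.MP_c69980_ag.H60

open Finset MvPolynomial Matrix

variable {N : ℕ} {C : Fin N → PR N} {d : Fin N → ℕ}

lemma over_gen {A B : Type*} [CommRing A] [CommRing B] (φ : A →+* B) (hφ : φ.IsIntegral)
    (P : Ideal A) [hP : P.IsMaximal] (I : Ideal B) (h : I.comap φ ≤ P) :
    ∃ Q : Ideal B, Q.IsMaximal ∧ I ≤ Q ∧ Q.comap φ = P := by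
  let _ : Algebra A B := φ.toAlgebra
  have : Algebra.IsIntegral A B := ⟨hφ⟩
  obtain ⟨Q, h1, h2, h3⟩ := Ideal.exists_ideal_over_prime_of_isIntegral P I h
  have h4 : Q.comap φ = P := h3
  exact ⟨Q, Ideal.isMaximal_of_isIntegral_of_isMaximal_comap' φ hφ Q (h4 ▸ hP), h1, h4⟩

lemma lying (hC : ∀ i, (C i).IsHomogeneous (d i)) (hd : ∀ i, 0 < d i)
    (h0 : ∀ x ≠ 0, ∃ i, eval x (C i) ≠ 0) (J : PR N) (a : Fin N → ℂ)
    (h : ∀ δ : PR N, J ∣ aeval C δ → eval a δ = 0) :
    ∃ x, eval x J = 0 ∧ ∀ i, eval x (C i) = a i := by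
  let φ : PR N →ₐ[ℂ] PR N := aeval C
  have h1 := integral hC hd h0 φ.range fun i => ⟨X i, aeval_X C i⟩
  have h2 : (φ : PR N →+* PR N).IsIntegral :=
    RingHom.IsIntegral.trans (φ.rangeRestrict : PR N →+* φ.range) (algebraMap φ.range (PR N))
      (RingHom.isIntegral_of_surjective _ φ.rangeRestrict_surjective) h1.1
  obtain ⟨Q, q1, q2, q3⟩ := over_gen _ h2 (vanishingIdeal ℂ {a}) (Ideal.span {J}) fun δ hδ => by
    rw [mem_vanishingIdeal_singleton_iff]
    exact h δ (Ideal.mem_span_singleton.1 hδ)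
  obtain ⟨x, rfl⟩ := isMaximal_iff_eq_vanishingIdeal_singleton.1 q1
  refine ⟨x, (mem_vanishingIdeal_singleton_iff _ _).1 (q2 (Ideal.mem_span_singleton_self J)),
    fun i => ?_⟩
  have : X i - MvPolynomial.C (a i) ∈ (vanishingIdeal ℂ {x}).comap (φ : PR N →+* PR N) := by
    rw [q3, mem_vanishingIdeal_singleton_iff]; simp
  rw [Ideal.mem_comap, mem_vanishingIdeal_singleton_iff] at this
  simpa [φ, sub_eq_zero] using this

/-- The elements whose derivative is killed by `ψ`. -/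
def kerD {B E : Type*} [CommRing B] [Algebra ℂ B] [CommRing E] (ψ : B →+* E)
    (D : Derivation ℂ B B) : Subalgebra ℂ B where
  carrier := {s | ψ (D s) = 0}
  mul_mem' := fun {a b} (ha : ψ (D a) = 0) (hb : ψ (D b) = 0) => show ψ (D (a * b)) = 0 by
    simp [ha, hb]
  add_mem' := fun {a b} (ha : ψ (D a) = 0) (hb : ψ (D b) = 0) => show ψ (D (a + b)) = 0 by
    simp [ha, hb]
  algebraMap_mem' := fun r => show ψ (D (algebraMap ℂ B r)) = 0 by simp

lemma kerD_top {B E : Type*} [CommRing B] [Algebra ℂ B] [CommRing E] [IsDomain E] [CharZero E]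
    (ψ : B →+* E) (D : Derivation ℂ B B) (h : ∀ s, ψ s = 0 → ψ (D s) = 0) (b : B)
    (hb : IsIntegral (kerD ψ D) b) : ψ (D b) = 0 := by
  let χ : kerD ψ D →+* E := ψ.comp (algebraMap _ B)
  have e1 : ∀ q : Polynomial (kerD ψ D), ψ (D (Polynomial.aeval b q)) =
      ψ (Polynomial.aeval b q.derivative) * ψ (D b) := fun q => by
    induction q using Polynomial.induction_on' with
    | add p q hp hq => simp only [map_add, hp, hq, add_mul]
    | monomial n c =>
      have : ψ (D (c : B)) = 0 := c.2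
      simp [Polynomial.derivative_monomial, Derivation.leibniz_pow, this, mul_assoc, mul_comm,
        mul_left_comm]
  have e2 : ∀ q : Polynomial (kerD ψ D), ψ (Polynomial.aeval b q) = (q.map χ).eval (ψ b) :=
    fun q => by rw [Polynomial.aeval_def, Polynomial.hom_eval₂, Polynomial.eval_map]
  have key : ∀ n, ∀ q : Polynomial (kerD ψ D), (q.map χ).natDegree ≤ n → q.map χ ≠ 0 →
      ψ (Polynomial.aeval b q) = 0 → ψ (D b) = 0 := by
    intro n
    induction n with
    | zero =>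
      intro q h1 h2 h3
      rw [e2, Polynomial.eq_C_of_natDegree_le_zero h1, Polynomial.eval_C] at h3
      exact absurd (by rw [Polynomial.eq_C_of_natDegree_le_zero h1, h3, map_zero]) h2
    | succ n ih =>
      intro q h1 h2 h3
      by_cases h4 : (q.map χ).natDegree ≤ n
      · exact ih q h4 h2 h3
      rcases mul_eq_zero.1 (e1 q ▸ h _ h3) with h5 | h5
      · refine ih q.derivative ?_ ?_ h5
        · rw [← Polynomial.derivative_map]
          have := Polynomial.natDegree_derivative_le (q.map χ)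
          omega
        · rw [← Polynomial.derivative_map]
          intro h6
          have := Polynomial.derivative_eq_zero.1 h6
          omega
      · exact h5
  obtain ⟨q, q1, q2⟩ := hb
  exact key _ q le_rfl (q1.map χ).ne_zero (by rw [Polynomial.aeval_def, q2, map_zero])

/-- The Jacobian determinant. -/
noncomputable def jac (C : Fin N → PR N) : PR N := (Matrix.of fun i j => pderiv j (C i)).det

lemma sq_dvd (hC : ∀ i, (C i).IsHomogeneous (d i)) (hd : ∀ i, 0 < d i)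
    (h0 : ∀ x ≠ 0, ∃ i, eval x (C i) ≠ 0) {J δ : PR N} (hJ : Prime J) (h1 : J ∣ jac C)
    (h2 : J ∣ aeval C δ) : J ^ 2 ∣ aeval C δ := by
  have hp : (Ideal.span {J}).IsPrime := (Ideal.span_singleton_prime hJ.ne_zero).2 hJ
  let ψ := Ideal.Quotient.mk (Ideal.span {J})
  have hψ : ∀ s, ψ s = 0 ↔ J ∣ s := fun s => by
    rw [Ideal.Quotient.eq_zero_iff_mem, Ideal.mem_span_singleton]
  have : CharZero (PR N ⧸ Ideal.span {J}) := algebraRat.charZero _
  have h3 : (ψ.mapMatrix (Matrix.of fun i j => pderiv j (C i))).det = 0 := by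
    rw [← RingHom.map_det]; exact (hψ _).2 h1
  obtain ⟨v, v0, hv⟩ := Matrix.exists_mulVec_eq_zero_iff.2 h3
  choose u hu using fun j => Ideal.Quotient.mk_surjective (v j)
  let D : Derivation ℂ (PR N) (PR N) := mkDerivation ℂ u
  have hD : ∀ s, D s = ∑ j, pderiv j s * u j := fun s => by
    induction s using MvPolynomial.induction_on with
    | C c => simp
    | add p q hp hq => simp [hp, hq, add_mul, sum_add_distrib]
    | mul_X p i hp =>
      simp only [Derivation.leibniz, hp, smul_eq_mul, add_mul, sum_add_distrib, mul_assoc,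
        ← mul_sum, pderiv_X, D, mkDerivation_X]
      simp [Pi.single_apply]
  have hK : ∀ i, C i ∈ kerD ψ D := fun i => by
    have := congrFun hv i
    change ψ (D (C i)) = 0
    rw [hD, map_sum]
    simpa [mulVec, dotProduct, ψ, hu] using this
  obtain ⟨R, hR⟩ := h2
  have h4 : ψ (D (aeval C δ)) = 0 := by
    have : aeval C δ ∈ Algebra.adjoin ℂ (Set.range C) := by
      rw [Algebra.adjoin_range_eq_range_aeval]; exact ⟨δ, rfl⟩
    exact Algebra.adjoin_le (S := kerD ψ D) (Set.range_subset_iff.2 hK) this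
  have J0 : ψ J = 0 := (hψ J).2 dvd_rfl
  rw [hR, Derivation.leibniz, smul_eq_mul, smul_eq_mul, map_add, map_mul, map_mul, J0, zero_mul,
    zero_add] at h4
  rcases mul_eq_zero.1 h4 with h5 | h5
  · rw [hR, sq]
    exact mul_dvd_mul_left _ ((hψ R).1 h5)
  · refine absurd (_root_.funext fun j => ?_) v0
    have := kerD_top ψ D (fun s hs => by
      obtain ⟨b, rfl⟩ := (hψ s).1 hs
      simp [J0, h5]) (X j) ((integral hC hd h0 _ hK).1 _)
    simpa [D, ψ, hu] using this

lemma eval_jac (x : Fin N → ℂ) :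
    eval x (jac C) = (Matrix.of fun i j => eval x (pderiv j (C i))).det := by
  rw [jac, RingHom.map_det]; rfl

lemma euler {P : PR N} {e : ℕ} (h : P.IsHomogeneous e) (x : Fin N → ℂ) :
    ∑ j, eval x (pderiv j P) * x j = e * eval x P := by
  have := congrArg (eval x) h.sum_X_mul_pderiv
  simpa [mul_comm] using this

lemma jac_hom (hC : ∀ i, (C i).IsHomogeneous (d i)) :
    (jac C).IsHomogeneous (∑ i, (d i - 1)) := by
  rw [jac, ← Matrix.det_transpose, Matrix.det_apply']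
  refine IsHomogeneous.sum _ _ _ fun σ _ => ?_
  have := (isHomogeneous_C (Fin N) ((Equiv.Perm.sign σ : ℤ) : ℂ)).mul
    (IsHomogeneous.prod univ (fun i => pderiv (σ i) (C i)) (fun i => d i - 1)
      fun i _ => (hC i).pderiv)
  simpa using this

theorem geom (hC : ∀ i, (C i).IsHomogeneous (d i)) (hd : ∀ i, 0 < d i) (hs : N < ∑ i, d i)
    (H : ∀ x ≠ 0, ∀ i, (∀ j ≠ i, eval x (C j) = 0) → eval x (jac C) ≠ 0) :
    (∀ x ≠ 0, ∃ i, eval x (C i) ≠ 0) ∧ jac C ≠ 0 ∧ (∀ δ : PR N, δ ≠ 0 → aeval C δ ≠ 0) ∧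
    ∃ (Φ J Q : PR N) (e e' : ℕ), Prime Φ ∧ Φ.IsWeightedHomogeneous d (2 * e + e') ∧ 0 < e ∧
      (∀ i, eval (Pi.single i 1) Φ ≠ 0) ∧ aeval C Φ = J ^ 2 * Q ∧ J.IsHomogeneous e ∧
      Q.IsHomogeneous e' := by
  have h0 : ∀ x ≠ 0, ∃ i, eval x (C i) ≠ 0 := fun x hx => by
    by_contra hn
    push Not at hn
    obtain ⟨i, -⟩ := Function.ne_iff.1 hx
    refine H x hx i (fun j _ => hn j) ?_
    rw [eval_jac]
    refine Matrix.exists_mulVec_eq_zero_iff.1 ⟨x, hx, funext fun j => ?_⟩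
    have := euler (hC j) x
    rw [hn, mul_zero] at this
    simpa [mulVec, dotProduct] using this
  have inj : ∀ δ : PR N, δ ≠ 0 → aeval C δ ≠ 0 := by
    have := integral hC hd h0 (Algebra.adjoin ℂ (Set.range C))
      fun i => Algebra.subset_adjoin ⟨i, rfl⟩
    have h := (Algebra.IsAlgebraic.isTranscendenceBasis_of_le_trdeg_of_finite ℂ C
      (by simp [MvPolynomial.trdeg_of_isDomain])).1
    exact fun δ hδ e => hδ (h (by rw [e, map_zero]))
  have vert : ∀ (J : PR N) (i : Fin N), (∀ x, eval x J = 0 → x = 0 ∨ ∀ i,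
      (∀ j ≠ i, eval x (C j) = 0) → False) → ∃ δ : PR N, J ∣ aeval C δ ∧
      eval (Pi.single i 1) δ ≠ 0 := fun J i hJ => by
    by_contra hn
    push Not at hn
    obtain ⟨x, x1, x2⟩ := lying hC hd h0 J _ hn
    rcases hJ x x1 with rfl | h
    · have := x2 i
      rw [eval_zero_hom (hC i) (hd i)] at this
      simp at this
    · exact h i fun j hj => by rw [x2, Pi.single_eq_of_ne hj]
  have vert' : ∀ J : PR N, J ∣ jac C → ∀ i, ∃ δ : PR N, J ∣ aeval C δ ∧
      eval (Pi.single i 1) δ ≠ 0 := fun J hJ i => vert J i fun x hx => by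
    by_cases x0 : x = 0
    · exact Or.inl x0
    · refine Or.inr fun i hi => H x x0 i hi ?_
      obtain ⟨R, hR⟩ := hJ
      rw [hR, map_mul, hx, zero_mul]
  have hN : 0 < N := by
    rcases N with _ | N
    · simp at hs
    · omega
  have j0 : jac C ≠ 0 := fun e => by
    obtain ⟨δ, a, b⟩ := vert' 0 (e ▸ dvd_rfl) ⟨0, hN⟩
    exact inj δ (fun z => b (by rw [z, map_zero])) (zero_dvd_iff.1 a)
  have nu : ∀ {P : PR N} {e : ℕ}, P.IsHomogeneous e → 0 < e → ¬IsUnit P := fun h he u =>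
    (u.map (eval 0)).ne_zero (eval_zero_hom h he)
  have hpos : 0 < ∑ i, (d i - 1) := by
    have : ∑ i, (d i - 1) + ∑ i : Fin N, 1 = ∑ i, d i := by
      rw [← sum_add_distrib]
      exact sum_congr rfl fun i _ => Nat.sub_add_cancel (hd i)
    simp only [sum_const, card_univ, Fintype.card_fin, smul_eq_mul, mul_one] at this
    omega
  obtain ⟨J, J1, J2⟩ := WfDvdMonoid.exists_irreducible_factor (nu (jac_hom hC) hpos) j0
  have Jp : Prime J := J1.prime
  obtain ⟨e, hJ⟩ : ∃ e, J.IsHomogeneous e := by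
    obtain ⟨R, hR⟩ := J2
    obtain ⟨e, -, -, h, -⟩ := hom_of_mul (hR ▸ jac_hom hC) (hR ▸ j0)
    exact ⟨e, h⟩
  have he : 0 < e := Nat.pos_of_ne_zero fun z => by
    subst z
    have := totalDegree_eq_zero_iff_eq_C.1 ((totalDegree_zero_iff_isHomogeneous _).2 hJ)
    refine J1.not_isUnit (this ▸ IsUnit.map MvPolynomial.C (IsUnit.mk0 _ fun z => ?_))
    exact J1.ne_zero (by rw [this, z, map_zero])
  have : ∀ i, ∃ (δ : PR N) (D : ℕ), δ.IsWeightedHomogeneous d D ∧ J ∣ aeval C δ ∧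
      eval (Pi.single i 1) δ ≠ 0 := fun i => by
    obtain ⟨δ, a, b⟩ := vert' J J2 i
    obtain ⟨k, hk⟩ := exists_comp_ne d b
    exact ⟨_, k, weightedHomogeneousComponent_isWeightedHomogeneous _ _, dvd_comp hC hJ a k, hk⟩
  choose δ D hδ δ1 δ2 using this
  let n : Fin N → ℕ := fun i => ∏ j ∈ univ.erase i, (d j + D j)
  have hn : ∀ i, n i ≠ 0 := fun i => prod_ne_zero_iff.2 fun j _ => by have := hd j; omega
  let Δ : PR N := ∑ i, (X i * δ i) ^ n i
  have Δ1 : Δ.IsWeightedHomogeneous d (∏ j, (d j + D j)) := by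
    refine IsWeightedHomogeneous.sum _ _ _ fun i _ => ?_
    have := ((isWeightedHomogeneous_X ℂ d i).mul (hδ i)).pow (n i)
    rwa [smul_eq_mul, prod_erase_mul _ _ (mem_univ i)] at this
  have Δ2 : J ∣ aeval C Δ := by
    rw [map_sum]
    refine dvd_sum fun i _ => ?_
    rw [map_pow, map_mul]
    exact dvd_pow ((δ1 i).mul_left _) (hn i)
  have Δ3 : ∀ i, eval (Pi.single i 1) Δ ≠ 0 := fun i => by
    rw [map_sum, sum_eq_single i (fun j _ hj => by simp [hj, hn]) (by simp)]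
    simp [δ2]
  have fac : ∀ P : PR N, P ≠ 0 → J ∣ aeval C P → ∃ Φ, Prime Φ ∧ Φ ∣ P ∧ J ∣ aeval C Φ := by
    intro P
    induction P using UniqueFactorizationMonoid.induction_on_prime with
    | h₁ => simp
    | h₂ x hx => exact fun _ h => absurd (isUnit_of_dvd_unit h (hx.map _)) J1.not_isUnit
    | h₃ a p ha hp ih =>
      intro _ h
      rw [map_mul] at h
      rcases Jp.dvd_or_dvd h with h | h
      · exact ⟨p, hp, dvd_mul_right _ _, h⟩
      · obtain ⟨Φ, a1, a2, a3⟩ := ih ha h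
        exact ⟨Φ, a1, a2.mul_left _, a3⟩
  have Δ0 : Δ ≠ 0 := fun z => Δ3 ⟨0, hN⟩ (by rw [z, map_zero])
  obtain ⟨Φ, Φ1, ⟨R, hR⟩, Φ3⟩ := fac Δ Δ0 Δ2
  obtain ⟨E, -, -, Φ4, -⟩ := hom_of_mul (hR ▸ Δ1) (hR ▸ Δ0)
  obtain ⟨Q, hQ⟩ := sq_dvd hC hd h0 Jp J2 Φ3
  obtain ⟨e1, e', a1, a2, a3⟩ := hom_of_mul (hQ ▸ aeval_hom hC Φ4) (hQ ▸ inj Φ Φ1.ne_zero)
  have a4 : e1 = e * 2 := IsHomogeneous.inj_right a2 (hJ.pow 2) (pow_ne_zero 2 J1.ne_zero)
  refine ⟨h0, j0, inj, Φ, J, Q, e, e', Φ1, (by omega : E = 2 * e + e') ▸ Φ4, he, fun i z => ?_,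
    hQ, hJ, a3⟩
  exact Δ3 i (by rw [hR, map_mul, z, zero_mul])

lemma descend {Φ : PR N} (h : Prime Φ) : ∃ (k : Subfield ℂ) (F : MvPolynomial (Fin N) k),
    Countable k ∧ Prime F ∧ map k.subtype F = Φ := by
  let k := Subfield.closure (Φ.coeffs : Set ℂ)
  have hk : Countable k := by
    rw [← Cardinal.mk_le_aleph0_iff]
    refine (Subfield.cardinalMk_closure_le_max _).trans (max_le ?_ le_rfl)
    exact Cardinal.mk_le_aleph0
  obtain ⟨F, hF⟩ : Φ ∈ Set.range (map k.subtype) := by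
    rw [mem_range_map_iff_coeffs_subset]
    exact fun c hc => ⟨⟨c, Subfield.subset_closure hc⟩, rfl⟩
  have hu : ∀ a : MvPolynomial (Fin N) k, IsUnit (map k.subtype a) → IsUnit a := fun a ha => by
    rw [isUnit_iff_totalDegree_of_isReduced] at ha ⊢
    refine ⟨IsUnit.mk0 _ fun z => ha.1.ne_zero (by rw [coeff_map, z, map_zero]), ?_⟩
    rw [← ha.2, totalDegree, totalDegree, support_map_of_injective _ k.subtype.injective]
  refine ⟨k, F, hk, Irreducible.prime ⟨fun u => h.not_isUnit (hF ▸ u.map _), fun a b e => ?_⟩, hF⟩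
  exact (h.irreducible.isUnit_or_isUnit (by rw [← hF, e, map_mul])).imp (hu a) (hu b)

end Pool.Agent.MP_c69980_ag.H60
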