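import Pool.Agent.MP_c69980_ag.H60.Data
import Pool.Agent.MP_c69980_ag.H60.Core2
import Pool.Agent.MP_c69980_ag.H60.Lift

/-!
Outside a hypersurface, the derivatives of discs in `U` are locally bounded.
-/

set_option autoImplicit false

namespace Pool.Agent.MP_c69980_ag.H60

open Finset MvPolynomial Real Metric Filter Topology

variable {n k : ℕ} {K : Type} [Field K] [Algebra ℂ K] {z : Fin n → K} {g : K}
  {U : Set (PS n)} {u : Fin k → K} {P Q : ℝ → (Fin n → ℂ) → Prop}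

/-- `P L y` holds for large `L`, locally uniformly in `y` outside a hypersurface. -/
def Gn (z : Fin n → K) (P : ℝ → (Fin n → ℂ) → Prop) : Prop :=
  ∃ (H : PR n) (e : ℕ), H.IsHomogeneous e ∧ aeval z H ≠ 0 ∧
    ∀ p, eval p H ≠ 0 → ∀ᶠ L in atTop, ∀ᶠ y in 𝓝 p, On z y → P L y

lemma Gn.and (h : Gn z P) (h' : Gn z Q) : Gn z fun L y => P L y ∧ Q L y := by
  obtain ⟨H, e, a1, a2, a3⟩ := h
  obtain ⟨H', e', b1, b2, b3⟩ := h'
  refine ⟨H * H', _, a1.mul b1, by simp [a2, b2], fun p hp => ?_⟩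
  rw [map_mul] at hp
  filter_upwards [a3 p (left_ne_zero_of_mul hp), b3 p (right_ne_zero_of_mul hp)] with L h1 h2
  filter_upwards [h1, h2] with y h3 h4 h5
  exact ⟨h3 h5, h4 h5⟩

lemma Gn.imp (h : Gn z P) (H : ∀ L, ∀ᶠ L' in atTop, ∀ y, On z y → P L y → Q L' y) : Gn z Q := by
  obtain ⟨F, e, a1, a2, a3⟩ := h
  refine ⟨F, e, a1, a2, fun p hp => ?_⟩
  obtain ⟨L, hL⟩ := (a3 p hp).exists
  exact (H L).mono fun L' h1 => hL.mono fun y h2 h3 => h1 y h3 (h2 h3)

lemma Gn.all {ι : Type} [Finite ι] {P : ι → ℝ → (Fin n → ℂ) → Prop} (h : ∀ i, Gn z (P i)) :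
    Gn z fun L y => ∀ i, P i L y := by
  have := Fintype.ofFinite ι
  choose H e a1 a2 a3 using h
  refine ⟨∏ i, H i, _, IsHomogeneous.prod _ _ _ fun i _ => a1 i,
    by simpa [prod_eq_zero_iff] using a2, fun p hp => ?_⟩
  rw [map_prod, prod_ne_zero_iff] at hp
  filter_upwards [eventually_all.2 fun i => a3 i p (hp i (mem_univ i))] with L h1
  filter_upwards [eventually_all.2 h1] with y h3 h4 i
  exact h3 i h4

lemma Gn.form {H : PR n} {e : ℕ} (h : H.IsHomogeneous e) (h' : aeval z H ≠ 0) :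
    Gn z fun _ y => eval y H ≠ 0 :=
  ⟨H, e, h, h', fun _ hp => Eventually.of_forall fun _ =>
    ((MvPolynomial.continuous_eval H).continuousAt.eventually_ne hp).mono fun _ h _ => h⟩

lemma Gn.val (hz : GenPt U z) (g : K) : Gn z fun L y => Reg z y g ∧ ‖vl z g y‖ ≤ L ∧
    (g ≠ 0 → exp (-L) ≤ ‖vl z g y‖ ∧ ‖Complex.log (vl z g y)‖ ≤ L) := by
  by_cases g0 : g = 0
  · refine (Gn.form (isHomogeneous_one _ _) (by simp)).imp fun _ =>
      (eventually_ge_atTop 0).mono fun L hL y hy _ => ?_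
    have := vl_const hy 0
    rw [map_zero] at this
    simp [g0, this, hL]
  obtain ⟨F, G, d, hF, hG, h1, rfl⟩ := quot hz g
  refine ⟨F * G, _, hF.mul hG, by simpa [h1] using g0, fun p hp => ?_⟩
  rw [map_mul] at hp
  have c1 := (MvPolynomial.continuous_eval F).continuousAt (x := p)
  have c2 := (MvPolynomial.continuous_eval G).continuousAt (x := p)
  have c3 := (c1.div c2 (right_ne_zero_of_mul hp)).norm
  have c4 := (c3.add (c3.log (by simpa using hp)).abs).add_const π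
  filter_upwards [eventually_gt_atTop _] with L hL
  filter_upwards [c4.eventually (gt_mem_nhds hL), c1.eventually_ne (left_ne_zero_of_mul hp),
    c2.eventually_ne (right_ne_zero_of_mul hp)] with y h2 h3 h4 hy
  rw [vl_eq hy hF hG h4]
  simp only [Pi.div_apply, Pi.add_apply] at h2
  set w := eval y F / eval y G
  have a1 := abs_nonneg (log ‖w‖)
  have a2 := norm_nonneg w
  refine ⟨⟨F, G, d, hF, hG, h4, rfl⟩, by linarith [pi_pos], fun _ => ⟨?_, ?_⟩⟩
  · rw [← le_log_iff_exp_le (norm_pos_iff.2 (div_ne_zero h3 h4))]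
    linarith [neg_abs_le (log ‖w‖), pi_pos]
  · have := Complex.norm_le_abs_re_add_abs_im (Complex.log w)
    rw [Complex.log_re, Complex.log_im] at this
    linarith [Complex.abs_arg_le_pi w]

lemma Gn.der (hz : GenPt U z) (hu : Unt U z u) {P : PR (k + 1)}
    (h1 : aeval (Fin.cons g u) P = 0)
    (h2 : aeval (Fin.cons g u : Fin (k + 1) → K) (pderiv 0 P) ≠ 0) :
    Gn z fun L y => ∀ R x (α : ℂ → Fin k → ℂ), 0 < R → Dk U 0 R x → x 0 = y →
      DifferentiableOn ℂ α (ball 0 R) →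
      (∀ s ∈ ball 0 R, ∀ i, Complex.exp (α s i) = vl z (u i) (x s)) →
      ‖deriv (fun s => vl z g (x s)) 0‖ ≤ L * ‖deriv α 0‖ := by
  set v : Fin (k + 1) → K := Fin.cons g u
  let w := fun l => aeval v (pderiv l P)
  refine ((Gn.val hz g).and ((Gn.val hz (w 0)).and
    (Gn.all fun i : Fin k => Gn.val hz (w i.succ * u i)))).imp fun L =>
      (eventually_ge_atTop (exp L * (k * L))).mono ?_
  rintro L' hL _ hy ⟨⟨a1, -⟩, ⟨-, -, a2⟩, a3⟩ R x α R0 hx rfl hα e
  have m0 := mem_ball_self (x := (0 : ℂ)) R0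
  have n0 := isOpen_ball.mem_nhds m0
  have r0 : ∀ l, Reg z (x 0) (v l) := Fin.cases a1 fun i => (hu _ (hx.2 0 m0) i).1
  have d1 := chain (x := fun s l => vl z (v l) (x s)) (hasDerivAt_pi.2 fun l =>
    (hx.an hz m0 (r0 l)).differentiableAt.hasDerivAt) P
  have d2 : (fun s => eval (fun l => vl z (v l) (x s)) P) =ᶠ[𝓝[≠] 0] fun _ => 0 := by
    filter_upwards [eventually_all.2 fun l => (hx.ev hz m0 (r0 l)).1] with s hs
    rw [← (vl_aeval (hs 0).1 (fun l => (hs l).2) P).2, h1]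
    simpa using (vl_const (hs 0).1 0).2
  have d3 : (fun s => eval (fun l => vl z (v l) (x s)) P) =ᶠ[𝓝 0] fun _ => 0 := by
    rw [← nhdsNE_sup_pure, EventuallyEq, eventually_sup, eventually_pure]
    exact ⟨d2, eq_of_ev d1.continuousAt continuousAt_const d2⟩
  have d4 := d1.unique ((hasDerivAt_const _ _).congr_of_eventuallyEq d3)
  rw [Fin.sum_univ_succ, add_eq_zero_iff_eq_neg] at d4
  simp only [← (vl_aeval hy r0 _).2] at d4
  have d5 : ∀ i : Fin k, ‖vl z (w i.succ) (x 0) * deriv (fun s => vl z (v i.succ) (x s)) 0‖ ≤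
      L * ‖deriv α 0‖ := fun i => by
    have b2 := (hasDerivAt_pi.1 (hα.differentiableAt n0).hasDerivAt i).cexp
    rw [e 0 m0] at b2
    change ‖_ * deriv (fun s => vl z (u i) (x s)) 0‖ ≤ _
    rw [(b2.congr_of_eventuallyEq (mem_of_superset n0 fun s hs => (e s hs i).symm)).deriv,
      ← mul_assoc, ← (vl_mul hy (vl_aeval hy r0 _).1 (hu _ (hx.2 0 m0) i).1).2, norm_mul]
    exact mul_le_mul (a3 i).2.1 (norm_le_pi_norm _ i) (norm_nonneg _)
      ((norm_nonneg _).trans (a3 i).2.1)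
  have d6 := ((congrArg norm d4).trans (norm_neg _)).trans_le
    ((norm_sum_le _ _).trans (sum_le_sum fun i _ => d5 i))
  rw [norm_mul, sum_const, card_univ, Fintype.card_fin, nsmul_eq_mul] at d6
  have d7 := (mul_le_mul_of_nonneg_right (a2 h2).1 (norm_nonneg _)).trans d6
  rw [exp_neg, inv_mul_le_iff₀ (exp_pos _), ← mul_assoc, ← mul_assoc, mul_assoc (exp L)] at d7
  exact d7.trans (mul_le_mul_of_nonneg_right hL (norm_nonneg _))

/-- Discs centred near `p` have bounded derivative in the chart `j`. -/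
def Good2 (U : Set (PS n)) (j : Fin n) (p : Fin n → ℂ) : Prop :=
  ∃ ε M : ℝ, 0 < ε ∧ ∀ c R x, 0 < R → Dk U c R x → x c j = 1 → ‖x c - p‖ < ε →
    R * ‖deriv (fun s => nrm j (x s)) c‖ ≤ M

lemma nrm_diff {x : ℂ → Fin n → ℂ} {c : ℂ} {j : Fin n} (h : DifferentiableAt ℂ x c)
    (hj : x c j ≠ 0) : DifferentiableAt ℂ (fun s => nrm j (x s)) c :=
  ((differentiableAt_pi.1 h j).inv hj).smul h

lemma not_good2 {j : Fin n} {p : Fin n → ℂ} (h : ¬Good2 U j p) {ε : ℝ} (hε : 0 < ε) (L : ℝ)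
    {R : ℝ} (hR : 0 < R) : ∃ x, Dk U 0 R x ∧ x 0 j = 1 ∧ ‖x 0 - p‖ < ε ∧
      L < ‖deriv (fun s => nrm j (x s)) 0‖ := by
  simp only [Good2, not_exists, not_and, not_forall, not_le] at h
  obtain ⟨c, r, x, r0, ⟨x1, x2⟩, x5, x3, x4⟩ := h ε (L * R) hε
  let σ : ℂ → ℂ := fun w => c + (r / R : ℝ) * w
  have s0 : σ 0 = c := by simp [σ]
  have s1 : Set.MapsTo σ (ball 0 R) (ball c r) := fun w hw => by
    rw [mem_ball_iff_norm, add_sub_cancel_left, norm_mul, Complex.norm_real,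
      Real.norm_of_nonneg (by positivity), div_mul_eq_mul_div, div_lt_iff₀ hR]
    exact mul_lt_mul_of_pos_left (mem_ball_zero_iff.1 hw) r0
  have s2 : ∀ w, HasDerivAt σ (r / R : ℝ) w := fun w => by
    simpa only [mul_one, id] using ((hasDerivAt_id' w).const_mul ((r / R : ℝ) : ℂ)).const_add c
  refine ⟨x ∘ σ, ⟨x1.comp (fun w _ => (s2 w).differentiableAt.differentiableWithinAt) s1,
    fun z hz => x2 _ (s1 hz)⟩, by simpa [s0] using x5, by simpa [s0] using x3, ?_⟩
  have := (nrm_diff (x1.differentiableAt (isOpen_ball.mem_nhds (mem_ball_self r0)))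
    (x5.trans_ne one_ne_zero)).hasDerivAt
  have := (HasDerivAt.scomp 0 (s0 ▸ this) (s2 0)).deriv
  change L < ‖deriv ((fun s => nrm j (x s)) ∘ σ) 0‖
  rw [this, norm_smul, Complex.norm_real,
    Real.norm_of_nonneg (by positivity), div_mul_eq_mul_div, lt_div_iff₀ hR, s0]
  exact x4

lemma descend2 {Φ : PR k} (h : Squarefree Φ) : ∃ (k₀ : Subfield ℂ) (F : MvPolynomial (Fin k) k₀),
    Countable k₀ ∧ Squarefree F ∧ map k₀.subtype F = Φ := by
  let k := Subfield.closure (Φ.coeffs : Set ℂ)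
  have hk : Countable k := by
    rw [← Cardinal.mk_le_aleph0_iff]
    refine (Subfield.cardinalMk_closure_le_max _).trans (max_le ?_ le_rfl)
    exact Cardinal.mk_le_aleph0
  obtain ⟨F, hF⟩ : Φ ∈ Set.range (MvPolynomial.map k.subtype) := by
    rw [mem_range_map_iff_coeffs_subset]
    exact fun c hc => ⟨⟨c, Subfield.subset_closure hc⟩, rfl⟩
  refine ⟨k, F, hk, fun a ha => ?_, hF⟩
  have ha := h (map k.subtype a) (by rw [← hF, ← map_mul]; exact map_dvd _ ha)
  rw [isUnit_iff_totalDegree_of_isReduced] at ha ⊢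
  refine ⟨IsUnit.mk0 _ fun z => ha.1.ne_zero (by rw [coeff_map, z, map_zero]), ?_⟩
  rw [← ha.2, totalDegree, totalDegree, support_map_of_injective _ k.subtype.injective]

theorem generic_good2 (hU : IsVar U) (hz : GenPt U z) (hu : IsTranscendenceBasis ℂ u)
    (hr : ∀ x ∈ U, ∀ i, u i ∈ locRing z x ∧ (u i)⁻¹ ∈ locRing z x) (hG : LogGT U z) (j : Fin n) :
    ∃ (H : PR n) (e : ℕ), H.IsHomogeneous e ∧ aeval z H ≠ 0 ∧
      ∀ p, eval p H ≠ 0 → Good2 U j p := by
  classical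
  obtain ⟨γ, Φ, N, Q, e, c, γ0, Φ1, Q1, Q2, c0, b1, b2, b3⟩ := data hU hz hu hr hG
  obtain ⟨k₀, F, hk, hF, rfl⟩ := descend2 Φ1
  have un := unt hz hu hr
  choose P P1 P2 using (setup hz hu hG).1
  by_contra hn
  push Not at hn
  have : Countable (MvPolynomial (Fin k) k₀) :=
    Function.Injective.countable (f := fun P => (AddMonoidAlgebra.coeff P : (Fin k →₀ ℕ) →₀ k₀))
      AddMonoidAlgebra.coeff_injective
  obtain ⟨δ, hδ⟩ := exists_surjective_nat (MvPolynomial (Fin k) k₀)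
  let g : MvPolynomial (Fin k) k₀ → K := fun P => aeval u (map k₀.subtype P)
  have g0 : ∀ P ≠ 0, g P ≠ 0 := fun P hP e =>
    hP (map_injective _ k₀.subtype.injective (hu.1 (by rw [map_zero, map_zero]; exact e)))
  let G := g F ^ N * γ
  have step : ∀ m : ℕ, ∃ (L : ℝ) (x : ℂ → Fin n → ℂ) (α : ℂ → Fin k → ℂ), Dk U 0 (rad m L) x ∧
      DifferentiableOn ℂ α (ball 0 (rad m L)) ∧ 1 ≤ ‖deriv α 0‖ ∧ ‖α 0‖ ≤ L ∧ 0 < rad m L ∧
      (∀ s ∈ ball 0 (rad m L), ∀ i, Complex.exp (α s i) = vl z (u i) (x s)) ∧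
      eval (x 0) Q ≠ 0 ∧ Reg z (x 0) γ ∧ exp (-L) ≤ ‖vl z G (x 0)‖ ∧
      ∀ a : Fin (m + 1), δ a ≠ 0 → exp (-L) ≤ ‖vl z (g (δ a)) (x 0)‖ := fun m => by
    obtain ⟨H, d, H1, H2, H3⟩ := (Gn.form Q1 Q2).and ((Gn.val hz γ).and ((Gn.val hz G).and
      ((Gn.all fun i => Gn.val hz (u i)).and ((Gn.all fun a : Fin (m + 1) =>
        Gn.val hz (g (δ a))).and (Gn.all fun a => Gn.der hz un (P1 (z a / z j)) (P2 _))))))
    obtain ⟨p, p1, p2⟩ := hn H d H1 H2
    obtain ⟨L, L0, hL⟩ := ((eventually_gt_atTop 0).and (H3 p p1)).exists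
    obtain ⟨ε, ε0, hL⟩ := Metric.eventually_nhds_iff.1 hL
    have R0 : 0 < rad m L := by unfold rad; positivity
    obtain ⟨x, x1, x4, x2, x3⟩ := not_good2 p2 ε0 L R0
    have m0 := mem_ball_self (x := (0 : ℂ)) R0
    have n0 := isOpen_ball.mem_nhds m0
    obtain ⟨a1, a2, a3, a4, a5, a6⟩ := hL ((dist_eq_norm _ p).symm ▸ x2) (Cone.on hz (x1.2 0 m0))
    choose h h1 h2 h3 using fun i => exists_log (f := fun s => vl z (u i) (x s)) R0
      (fun s hs => (x1.an hz hs (un _ (x1.2 s hs) i).1).differentiableAt.differentiableWithinAt)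
      fun s hs => (un _ (x1.2 s hs) i).2
    let α : ℂ → Fin k → ℂ := fun s i => Complex.log (vl z (u i) (x 0)) + h i s
    have α1 : DifferentiableOn ℂ α (ball 0 (rad m L)) :=
      differentiableOn_pi.2 fun i => (h1 i).const_add _
    have α2 : ∀ s ∈ ball 0 (rad m L), ∀ i, Complex.exp (α s i) = vl z (u i) (x s) :=
      fun s hs i => by rw [h3 i s hs, Complex.exp_add, Complex.exp_log (un _ (x1.2 0 m0) i).2]
    refine ⟨L, x, α, x1, α1, ?_, (pi_norm_le_iff_of_nonneg L0.le).2 fun i => ?_, R0, α2, a1, a2.1,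
      (a3.2.2 (mul_ne_zero (pow_ne_zero _ (g0 F hF.ne_zero)) γ0)).1,
      fun a ha => ((a5 a).2.2 (g0 _ ha)).1⟩
    · refine le_of_mul_le_mul_left (((mul_one L).trans_lt x3).le.trans
        ((pi_norm_le_iff_of_nonneg (by positivity)).2 fun a => ?_)) L0
      have d0 := x1.1.differentiableAt n0
      have d1 := hasDerivAt_pi.1 (nrm_diff d0 (x4.trans_ne one_ne_zero)).hasDerivAt a
      refine le_of_eq_of_le (congrArg norm (d1.congr_of_eventuallyEq ?_).deriv.symm)
        (a6 a _ x α R0 x1 rfl α1 α2)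
      filter_upwards [n0, (differentiableAt_pi.1 d0 j).continuousAt.eventually_ne
        (x4.trans_ne one_ne_zero)] with s h1 h2
      simpa [nrm, div_eq_inv_mul] using vl_eq (Cone.on hz (x1.2 s h1)) (isHomogeneous_X ℂ a)
        (isHomogeneous_X ℂ j) (by simpa)
    · simpa [α, h2] using ((a4 i).2.2 fun e => hu.1.transcendental i (e ▸ isAlgebraic_zero)).2
  choose L x α x1 α1 α2 α3 R0 α4 x2 x3 x4 x5 using step
  have m0 := fun m => mem_ball_self (x := (0 : ℂ)) (R0 m)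
  have on := fun m s hs => Cone.on hz ((x1 m).2 s hs)
  have ru := fun m s hs i => (un _ ((x1 m).2 s hs) i).1
  have ev : ∀ m, ∀ s ∈ ball (0 : ℂ) (rad m (L m)), ∀ P, eval₂Hom k₀.subtype
      (fun i => Complex.exp (α m s i)) P = vl z (g P) (x m s) := fun m s hs P => by
    rw [(vl_aeval (on m s hs) (ru m s hs) _).2, eval_map, _root_.funext (α4 m s hs)]; rfl
  have rG := fun m => (vl_pow (on m 0 (m0 m)) (ru m 0 (m0 m)) (x3 m) (map k₀.subtype F) N).1
  choose G' G1 G2 using fun m => hol_ext (f := fun s => vl z G (x m s)) (R := rad m (L m))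
    (fun s hs => ((x1 m).ev hz hs (rG m)).2) fun s hs => od_bd hz un (x1 m) hs (x3 m) b1
  refine core2 k₀.subtype hF c0 N L α G' α1 α2 α3 G1 (fun m => ?_) (fun m s hs => ?_)
    (fun m s hs => ?_) fun P hP => ?_
  · rw [eq_of_ev ((G1 m).at (m0 m)).continuousAt ((x1 m).an hz (m0 m) (rG m)).continuousAt
      (G2 m 0 (m0 m))]
    exact x4 m
  · have ca : ∀ i, ContinuousAt (fun w => α m w i) s := fun i =>
      (differentiableAt_pi.1 ((α1 m).differentiableAt (isOpen_ball.mem_nhds hs)) i).continuousAt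
    refine le_of_tendsto_of_tendsto (b := 𝓝[≠] s)
      (f := fun w => ‖G' m w‖ * exp (tp (α m) w))
      (g := fun w => exp c * (∑ a ∈ F.support, ‖ex α (toZ a) m w‖) ^ N)
      (Tendsto.mono_left (ContinuousAt.tendsto ?_) nhdsWithin_le_nhds)
      (Tendsto.mono_left (ContinuousAt.tendsto ?_) nhdsWithin_le_nhds) ?_
    · exact ((G1 m).at hs).continuousAt.norm.mul (ContinuousAt.rexp (tendsto_finsetSum _ fun i _ =>
        (Complex.continuous_re.continuousAt.comp (ca i)).max continuousAt_const))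
    · exact continuousAt_const.mul (ContinuousAt.pow (tendsto_finsetSum _ fun a _ =>
        (ContinuousAt.cexp (tendsto_finsetSum _ fun i _ => continuousAt_const.mul (ca i))).norm) _)
    filter_upwards [G2 m s hs, ((x1 m).ev hz hs (x3 m)).1,
      mem_nhdsWithin_of_mem_nhds (isOpen_ball.mem_nhds hs)] with w h1 h2 h3
    rw [h1, (vl_pow h2.1 (ru m w h3) h2.2 _ N).2]
    refine (b2 _ h2.1 (ru m w h3) h2.2 (fun i => (α m w i).re) fun i => by
      rw [← α4 m w h3, Complex.norm_exp]).trans (mul_le_mul (by linarith [add_one_le_exp c])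
        (le_of_eq ?_) (pow_nonneg (sum_nonneg fun _ _ => (exp_pos _).le) _) (exp_pos _).le)
    rw [sg, support_map_of_injective _ k₀.subtype.injective]
    simp [ex, toZ, Complex.norm_exp]
  · have e1 : meromorphicOrderAt (fun w => eval₂Hom k₀.subtype
        (fun i => Complex.exp (α m w i)) F) s = od z (x m) s (g F) :=
      meromorphicOrderAt_congr (mem_of_superset (mem_nhdsWithin_of_mem_nhds
        (isOpen_ball.mem_nhds hs)) fun w hw => ev m w hw F)
    rw [e1, meromorphicOrderAt_congr (G2 m s hs), or_iff_not_imp_left]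
    intro h
    have r1 : Reg z (x m 0) (g F) := (vl_aeval (on m 0 (m0 m)) (ru m 0 (m0 m)) _).1
    refine le_of_le_of_eq (le_add_of_le_of_nonneg (le_of_eq ?_) (b3 _ _ _ (x1 m) hs (x2 m) (x3 m) h))
      ((x1 m).od_mul hz hs ((rg (on m 0 (m0 m))).pow_mem r1 N)
        (x3 m)).symm
    rw [od, ← meromorphicOrderAt_pow ((x1 m).ev hz hs r1).2]
    exact meromorphicOrderAt_congr (((x1 m).ev hz hs r1).1.mono fun w hw =>
      (map_pow (chi hw.1) ⟨_, hw.2⟩ N).symm)
  · obtain ⟨a, rfl⟩ := hδ P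
    filter_upwards [eventually_ge_atTop a] with m hm
    rw [ev m 0 (m0 m)]
    exact x5 m ⟨a, by omega⟩ hP

end Pool.Agent.MP_c69980_ag.H60
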