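import Pool.Agent.MP_c69980_ag.H60.Stage

/-!
Growth and smallness predicates for sequences of holomorphic functions along a filter.
-/

set_option autoImplicit false

namespace Pool.Agent.MP_c69980_ag.H60

open Finset Metric Real Filter Topology

/-- The derivative inside the discs, zero outside. -/
noncomputable def dd (R : ℕ → ℝ) (x : ℕ → ℂ → ℂ) : ℕ → ℂ → ℂ :=
  fun k z => by classical exact if z ∈ ball (0 : ℂ) (R k) then deriv (x k) z else 0

lemma dd_in {R : ℕ → ℝ} (x : ℕ → ℂ → ℂ) {k : ℕ} {z : ℂ} (h : z ∈ ball (0 : ℂ) (R k)) :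
    dd R x k z = deriv (x k) z := if_pos h

lemma dd_out {R : ℕ → ℝ} (x : ℕ → ℂ → ℂ) {k : ℕ} {z : ℂ} (h : z ∉ ball (0 : ℂ) (R k)) :
    dd R x k z = 0 := if_neg h

lemma dd_hol {R : ℕ → ℝ} {x : ℕ → ℂ → ℂ} {k : ℕ} (h : Hol (R k) (x k)) : Hol (R k) (dd R x k) :=
  (h.deriv isOpen_ball).congr fun _ hz => dd_in x hz

lemma dd_iter {R : ℕ → ℝ} (x : ℕ → ℂ → ℂ) (k j : ℕ) :
    ∀ z ∈ ball (0 : ℂ) (R k), (dd R)^[j] x k z = iteratedDeriv j (x k) z := by
  induction j with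
  | zero => simp
  | succ j ih =>
    intro z hz
    rw [Function.iterate_succ_apply', dd_in _ hz, iteratedDeriv_succ]
    exact Filter.EventuallyEq.deriv_eq (eventually_of_mem (isOpen_ball.mem_nhds hz) ih)

/-- Growth at most `exp (C t)` on the discs of radius `u + θ b`. -/
def Gr (l : Filter ℕ) (u b t : ℕ → ℝ) (x : ℕ → ℂ → ℂ) : Prop :=
  ∀ θ : ℝ, 0 ≤ θ → θ < 1 → ∃ C : ℝ, 0 ≤ C ∧ ∀ᶠ k in l, ∀ z, ‖z‖ ≤ u k + θ * b k →
    ‖x k z‖ ≤ exp (C * t k)

section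

variable {l : Filter ℕ} {u b t R : ℕ → ℝ} {x y : ℕ → ℂ → ℂ}

lemma two_exp {a b t : ℝ} (ht : 1 ≤ t) (ha : 0 ≤ a) (hb : 0 ≤ b) :
    exp (a * t) + exp (b * t) ≤ exp ((a + b + 1) * t) := by
  have h1 : exp (a * t) ≤ exp ((a + b) * t) := by gcongr; linarith
  have h2 : exp (b * t) ≤ exp ((a + b) * t) := by gcongr; linarith
  have h3 : 2 ≤ exp t := by linarith [add_one_le_exp t]
  rw [add_mul _ 1, exp_add, one_mul]
  nlinarith [exp_pos ((a + b) * t)]

lemma Gr.add (ht : ∀ k, 1 ≤ t k) (hx : Gr l u b t x) (hy : Gr l u b t y) : Gr l u b t (x + y) := by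
  intro θ h0 h1
  obtain ⟨C, c0, c1⟩ := hx θ h0 h1
  obtain ⟨C', c0', c1'⟩ := hy θ h0 h1
  refine ⟨C + C' + 1, by positivity, ?_⟩
  filter_upwards [c1, c1'] with k a b z hz
  exact (norm_add_le_of_le (a z hz) (b z hz)).trans (two_exp (ht k) c0 c0')

lemma Gr.mul (hx : Gr l u b t x) (hy : Gr l u b t y) : Gr l u b t (x * y) := by
  intro θ h0 h1
  obtain ⟨C, c0, c1⟩ := hx θ h0 h1
  obtain ⟨C', c0', c1'⟩ := hy θ h0 h1
  refine ⟨C + C', by positivity, ?_⟩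
  filter_upwards [c1, c1'] with k a b z hz
  rw [add_mul, exp_add]
  exact norm_mul_le_of_le (a z hz) (b z hz)

lemma Gr.neg (hx : Gr l u b t x) : Gr l u b t (-x) := by
  simpa [Gr] using hx

lemma Gr.of_le {C : ℝ} (hC : 0 ≤ C) (hb : ∀ k, 0 < b k)
    (h : ∀ᶠ k in l, ∀ z, ‖z‖ < u k + b k → ‖x k z‖ ≤ exp (C * t k)) : Gr l u b t x := by
  refine fun θ _ h1 => ⟨C, hC, ?_⟩
  filter_upwards [h] with k a z hz
  exact a z (by nlinarith [hb k])

lemma Gr.const (ht : ∀ k, 1 ≤ t k) (c : ℂ) : Gr l u b t fun _ _ => c :=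
  fun _ _ _ => ⟨‖c‖, norm_nonneg _, Eventually.of_forall fun k _ _ => by
    nlinarith [add_one_le_exp (‖c‖ * t k), norm_nonneg c, ht k]⟩

lemma Gr.dd (ht : ∀ k, 1 ≤ t k) (hb : ∀ k, 0 < b k) (hR : ∀ k, u k + b k ≤ R k)
    (hbt : ∀ k, 1 ≤ b k * exp (t k)) (h : ∀ k, Hol (R k) (x k)) (hx : Gr l u b t x) :
    Gr l u b t (dd R x) := by
  intro θ h0 h1
  obtain ⟨C, c0, c1⟩ := hx ((1 + θ) / 2) (by linarith) (by linarith)
  have p : 0 < (1 - θ) / 2 := by linarith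
  refine ⟨C + 1 + 2 / (1 - θ), by have : 0 < 1 - θ := by linarith
                                  positivity, ?_⟩
  filter_upwards [c1] with k a z hz
  have p2 := mul_pos p (hb k)
  have e : ‖z‖ + (1 - θ) / 2 * b k < R k := by nlinarith [hR k]
  rw [dd_in _ (mem_ball_zero_iff.2 (by linarith))]
  refine (cauchy_est (h k) p2 e fun w hw => a w (by linarith)).trans ?_
  rw [div_le_iff₀ p2, add_mul, add_mul, exp_add, exp_add, one_mul, mul_assoc, mul_assoc]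
  refine le_mul_of_one_le_right (exp_pos _).le ?_
  have q : 2 / (1 - θ) ≤ exp (2 / (1 - θ) * t k) := by
    have : 0 < 2 / (1 - θ) := div_pos two_pos (by linarith)
    nlinarith [add_one_le_exp (2 / (1 - θ) * t k), ht k]
  calc 1 ≤ b k * exp (t k) := hbt k
    _ = exp (t k) * (2 / (1 - θ) * ((1 - θ) / 2 * b k)) := by
      have : 1 - θ ≠ 0 := by linarith
      field_simp
    _ ≤ _ := by gcongr

end

/-- Small proximity function. -/
def Sm (l : Filter ℕ) (r τ : ℕ → ℝ) (g : ℕ → ℂ → ℝ) : Prop :=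
  ∀ ε : ℝ, 0 < ε → ∀ᶠ k in l, ContinuousOn (g k) (sphere 0 |r k|) ∧
    circleAverage (fun z => log⁺ (g k z)) 0 (r k) ≤ ε * τ k

lemma pl_int {g : ℂ → ℝ} {r : ℝ} (h : ContinuousOn g (sphere 0 |r|)) :
    CircleIntegrable (fun z => log⁺ (g z)) 0 r :=
  (continuous_posLog.comp_continuousOn h).circleIntegrable'

section

variable {l : Filter ℕ} {r τ : ℕ → ℝ} {g h : ℕ → ℂ → ℝ}

lemma Sm.two (hτ : Tendsto τ l atTop) {p : ℕ → ℂ → ℝ} (hg : Sm l r τ g) (hh : Sm l r τ h)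
    (hc : ∀ᶠ k in l, ContinuousOn (g k) (sphere 0 |r k|) → ContinuousOn (h k) (sphere 0 |r k|) →
      ContinuousOn (p k) (sphere 0 |r k|))
    (hp : ∀ k z, log⁺ (p k z) ≤ log 2 + log⁺ (g k z) + log⁺ (h k z)) : Sm l r τ p := by
  intro ε hε
  filter_upwards [hg (ε / 3) (by positivity), hh (ε / 3) (by positivity), hc,
    hτ.eventually_ge_atTop (3 / ε)] with k a b c d
  refine ⟨c a.1 b.1, ?_⟩
  have i1 := int_aff (pl_int a.1) (log 2) 1
  have := circleAverage_mono (pl_int (c a.1 b.1)) (i1.add (pl_int b.1)) fun z _ => by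
    simpa using hp k z
  rw [circleAverage_add i1 (pl_int b.1), avg_aff (pl_int a.1)] at this
  rw [div_le_iff₀ hε] at d
  linarith [a.2, b.2, log_two_lt_d9]

lemma Sm.add (hτ : Tendsto τ l atTop) (hg : Sm l r τ g) (hh : Sm l r τ h) : Sm l r τ (g + h) :=
  hg.two hτ hh (Eventually.of_forall fun _ a b => a.add b) fun _ _ => posLog_add

lemma Sm.mul (hτ : Tendsto τ l atTop) (hg : Sm l r τ g) (hh : Sm l r τ h) : Sm l r τ (g * h) :=
  hg.two hτ hh (Eventually.of_forall fun _ a b => a.mul b) fun k z =>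
    posLog_mul.trans (by linarith [log_pos one_lt_two])

lemma Sm.mono (hg : Sm l r τ g) (hc : ∀ᶠ k in l, ContinuousOn (h k) (sphere 0 |r k|))
    (hp : ∀ k z, log⁺ (h k z) ≤ log⁺ (g k z)) : Sm l r τ h := by
  intro ε hε
  filter_upwards [hg ε hε, hc] with k a c
  exact ⟨c, (circleAverage_mono (pl_int c) (pl_int a.1) fun z _ => hp k z).trans a.2⟩

lemma Sm.of_le {t : ℕ → ℝ} (ht : ∀ ε : ℝ, 0 < ε → ∀ᶠ k in l, t k ≤ ε * τ k) {C : ℝ} (hC : 0 ≤ C)
    (h0 : ∀ k, 0 ≤ t k) (hc : ∀ᶠ k in l, ContinuousOn (g k) (sphere 0 |r k|) ∧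
      ∀ z ∈ sphere (0 : ℂ) |r k|, |g k z| ≤ exp (C * t k)) : Sm l r τ g := by
  intro ε hε
  filter_upwards [hc, ht (ε / (C + 1)) (by positivity)] with k a b
  refine ⟨a.1, (circleAverage_mono_on_of_le_circle (pl_int a.1) fun z hz => ?_)⟩
  have p := mul_nonneg hC (h0 k)
  rw [div_mul_eq_mul_div, le_div_iff₀ (by positivity)] at b
  rw [← posLog_abs]
  refine (posLog_le_posLog (abs_nonneg _) (a.2 z hz)).trans ?_
  rw [posLog_apply, log_exp, max_eq_right p]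
  nlinarith [h0 k]

lemma Sm.zero (hτ : Tendsto τ l atTop) : Sm l r τ 0 := by
  intro ε hε
  filter_upwards [hτ.eventually_ge_atTop 0] with k a
  exact ⟨continuousOn_const, by simpa [circleAverage_const] using mul_nonneg hε.le a⟩

lemma Sm.sum (hτ : Tendsto τ l atTop) {ι : Type*} (s : Finset ι) {g : ι → ℕ → ℂ → ℝ}
    (hg : ∀ i ∈ s, Sm l r τ (g i)) : Sm l r τ (∑ i ∈ s, g i) :=
  Finset.sum_induction _ _ (fun _ _ a b => a.add hτ b) (Sm.zero hτ) hg

lemma log_small (hτ : Tendsto τ l atTop) (a b : ℝ) {ε : ℝ} (hε : 0 < ε) :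
    ∀ᶠ k in l, a + b * log (τ k) ≤ ε * τ k := by
  have h1 := (hτ.eventually (isLittleO_log_id_atTop.const_mul_left b |>.bound (half_pos hε)))
  filter_upwards [h1, hτ.eventually_ge_atTop (max 0 (2 * a / ε))] with k h1 h2
  have h3 := (le_max_right _ _).trans h2
  rw [div_le_iff₀ hε] at h3
  rw [id, Real.norm_of_nonneg ((le_max_left _ _).trans h2)] at h1
  linarith [le_abs_self (b * log (τ k)), Real.norm_eq_abs (b * log (τ k))]

end

lemma exists_closed {A : Type*} (s : Set A) (hs : s.Countable) (op : Fin 5 → A → A → A) :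
    ∃ t : Set A, t.Countable ∧ s ⊆ t ∧ ∀ i, ∀ x ∈ t, ∀ y ∈ t, op i x y ∈ t := by
  let T : ℕ → Set A := fun n => Nat.rec s (fun _ T => T ∪ ⋃ i, Set.image2 (op i) T T) n
  have h1 : ∀ n, (T n).Countable := fun n => by
    induction n with
    | zero => exact hs
    | succ n ih => exact ih.union (Set.countable_iUnion fun i => ih.image2 ih _)
  have h2 : Monotone T := monotone_nat_of_le_succ fun n => Set.subset_union_left
  refine ⟨⋃ n, T n, Set.countable_iUnion h1, Set.subset_iUnion T 0, fun i x hx y hy => ?_⟩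
  obtain ⟨n, hn⟩ := Set.mem_iUnion.1 hx
  obtain ⟨m, hm⟩ := Set.mem_iUnion.1 hy
  exact Set.mem_iUnion.2 ⟨max n m + 1, Or.inr (Set.mem_iUnion.2 ⟨i, Set.mem_image2_of_mem
    (h2 (le_max_left _ _) hn) (h2 (le_max_right _ _) hm)⟩)⟩

end Pool.Agent.MP_c69980_ag.H60
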