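import Pool.Agent.MP_c69980_ag.H60.Kob2

set_option autoImplicit false

open Pool.Agent.MP_c69980_ag.H60

/-- Let `U` be a quasi-projective variety with function field `K`. Suppose some transcendence basis
of `K` consists of invertible regular functions on `U`, that is, `U` has a dominant generically
finite morphism to an algebraic torus. If `U` is of log-general type, then `U` is pseudo-Kobayashi
hyperbolic. -/
theorem Pool.Agent.MP_c69980_ag.H60.torusCover (n k : ℕ) (U : Set (PS n))
    (hU : IsVar U) (K : Type) [Field K] [Algebra ℂ K] (z : Fin n → K) (hz : GenPt U z)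
    (u : Fin k → K) (hu : IsTranscendenceBasis ℂ u)
    (hr : ∀ x ∈ U, ∀ i, u i ∈ locRing z x ∧ (u i)⁻¹ ∈ locRing z x) (h4 : LogGT U z) :
    PseudoKob U :=
  pseudo2 hU hz hu hr h4
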