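import Pool.Agent.MP_c69980_ag.H60.Kob

/-!
Grouping the components of a normal crossings divisor.
-/

set_option autoImplicit false

namespace Pool.Agent.MP_c69980_ag.H60

open Finset MvPolynomial Matrix

theorem pseudo_snc {n q : ℕ} {F : Fin q → PR (n + 1)} {d : Fin q → ℕ}
    (hF : ∀ a, (F a).IsHomogeneous (d a)) (hd : ∀ a, 0 < d a) (hq : n + 1 ≤ q)
    (hs : n + 2 ≤ ∑ a, d a)
    (snc : ∀ x ≠ 0, n ≤ Nat.card {a // eval x (F a) = 0} →
      LinearIndependent ℂ fun (a : {a // eval x (F a) = 0}) j => eval x (pderiv j (F a))) :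
    PseudoKob {P : PS (n + 1) | ∀ a, eval P.rep (F a) ≠ 0} := by
  classical
  let g : Fin q → Fin (n + 1) := fun a => ⟨min a n, by omega⟩
  let s : Fin (n + 1) → Finset (Fin q) := fun i => univ.filter fun a => g a = i
  let C : Fin (n + 1) → PR (n + 1) := fun i => ∏ a ∈ s i, F a
  have hC : ∀ i, (C i).IsHomogeneous (∑ a ∈ s i, d a) := fun i =>
    IsHomogeneous.prod _ _ _ fun a _ => hF a
  have hd' : ∀ i, 0 < ∑ a ∈ s i, d a := fun i => sum_pos (fun a _ => hd a)
    ⟨⟨i, by omega⟩, mem_filter.2 ⟨mem_univ _, Fin.ext (by simp only [g]; omega)⟩⟩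
  have e0 : ∀ x i, eval x (C i) = 0 ↔ ∃ a, g a = i ∧ eval x (F a) = 0 := fun x i => by
    simp [C, s, prod_eq_zero_iff]
  have e1 : {P : PS (n + 1) | ∀ a, eval P.rep (F a) ≠ 0} = {P | ∀ i, eval P.rep (C i) ≠ 0} := by
    ext P
    simp only [Set.mem_ofPred, Ne, e0, not_exists, not_and]
    exact ⟨fun h _ a _ => h a, fun h a => h _ a rfl⟩
  rw [e1]
  refine pseudo hC hd' (by rw [sum_fiberwise]; omega) fun x hx i hi => ?_
  choose σ σ1 σ2 using fun j : {j // j ≠ i} => (e0 x j).1 (hi j j.2)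
  let τ : {j // j ≠ i} → {a // eval x (F a) = 0} := fun j => ⟨σ j, σ2 j⟩
  have τ1 : Function.Injective τ := fun j k h =>
    Subtype.ext (by rw [← σ1 j, ← σ1 k, show σ j = σ k from congrArg Subtype.val h])
  have c1 : Nat.card {j // j ≠ i} = n := by simp
  have li := snc x hx (c1.ge.trans (Nat.card_le_card_of_injective τ τ1))
  let l : Module.Dual ℂ (Fin (n + 1) → ℂ) := (dotProductBilin ℂ ℂ).flip x
  have l0 : l ≠ 0 := fun e => by
    obtain ⟨k, hk⟩ := Function.ne_iff.1 hx
    exact hk (by simpa [l] using LinearMap.congr_fun e (Pi.single k 1))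
  have c2 : Nat.card {a // eval x (F a) = 0} ≤ n := by
    have h1 := Module.Dual.finrank_ker_add_one_of_ne_zero l0
    have h0 : ∀ a : {a // eval x (F a) = 0},
        (fun j => eval x (pderiv j (F a))) ∈ LinearMap.ker l := fun a => by
      have := euler (hF a) x
      rw [a.2, mul_zero] at this
      simpa [l, dotProduct] using this
    let v : {a // eval x (F a) = 0} → LinearMap.ker l := fun a => ⟨_, h0 a⟩
    have h3 : LinearIndependent ℂ v := LinearIndependent.of_comp (LinearMap.ker l).subtype li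
    have h2 := h3.fintype_card_le_finrank
    rw [Module.finrank_fin_fun] at h1
    rw [Nat.card_eq_fintype_card]
    omega
  have τ2 := (τ1.bijective_of_nat_card_le (c2.trans c1.ge)).2
  have τ3 : ∀ a, eval x (F a) = 0 → ∃ j : {j // j ≠ i}, σ j = a := fun a ha => by
    obtain ⟨j, hj⟩ := τ2 ⟨a, ha⟩
    exact ⟨j, congrArg Subtype.val hj⟩
  have ci : eval x (C i) ≠ 0 := fun e => by
    obtain ⟨a, a1, a2⟩ := (e0 x i).1 e
    obtain ⟨j, rfl⟩ := τ3 a a2
    exact j.2 ((σ1 j).symm.trans a1)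
  let R : {j // j ≠ i} → ℂ := fun j => eval x (∏ a ∈ (s j).erase (σ j), F a)
  have R0 : ∀ j, R j ≠ 0 := fun j => by
    simp only [R, map_prod]
    refine prod_ne_zero_iff.2 fun a ha e => ?_
    obtain ⟨k, rfl⟩ := τ3 a e
    have : k = j := Subtype.ext ((σ1 k).symm.trans (mem_filter.1 (mem_erase.1 ha).2).2)
    exact (mem_erase.1 ha).1 (by rw [this])
  have R1 : ∀ (j : {j // j ≠ i}) k, eval x (pderiv k (C j)) =
      R j * eval x (pderiv k (F (σ j))) := fun j k => by
    have : C j = F (σ j) * ∏ a ∈ (s j).erase (σ j), F a :=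
      (mul_prod_erase (s j) F (mem_filter.2 ⟨mem_univ (σ j), σ1 j⟩)).symm
    rw [this, Derivation.leibniz, smul_eq_mul, smul_eq_mul, map_add, map_mul, map_mul, σ2,
      zero_mul, zero_add]
  rw [eval_jac]
  intro e
  obtain ⟨c, c0, hc⟩ := Matrix.exists_vecMul_eq_zero_iff.2 e
  have hc' : ∀ k, ∑ j, c j * eval x (pderiv k (C j)) = 0 := congrFun hc
  have c3 : c i = 0 := by
    have : ∑ j, c j * ((∑ a ∈ s j, d a : ℕ) * eval x (C j)) = 0 := by
      simp only [← euler (hC _) x, mul_sum, ← mul_assoc]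
      rw [sum_comm]
      simp only [← sum_mul, hc', zero_mul, sum_const_zero]
    rw [sum_eq_single i (fun j _ hj => by rw [hi j hj, mul_zero, mul_zero]) (by simp)] at this
    exact (mul_eq_zero.1 this).resolve_right (mul_ne_zero (Nat.cast_ne_zero.2 (hd' i).ne') ci)
  have c4 := Fintype.linearIndependent_iff.1 (li.comp τ τ1) (fun j => c j * R j) (by
    ext k
    have := hc' k
    rw [Fintype.sum_eq_add_sum_subtype_ne _ i, c3, zero_mul, zero_add] at this
    simpa [R1, τ, mul_assoc] using this)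
  refine c0 (_root_.funext fun j => ?_)
  by_cases hj : j = i
  · exact hj ▸ c3
  · exact (mul_eq_zero.1 (c4 ⟨j, hj⟩)).resolve_right (R0 _)

end Pool.Agent.MP_c69980_ag.H60
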