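import Pool.Agent.MP_c69980_ag.H60.Disc2

/-!
Choice of the scales and of the radius for one holomorphic disc.
-/

set_option autoImplicit false

namespace Pool.Agent.MP_c69980_ag.H60

open Finset Metric Real Filter Topology

variable {N : ℕ} {α : ℂ → Fin N → ℂ} {R L : ℝ}

/-- The radius needed at stage `k`. -/
noncomputable def rad (k : ℕ) (L : ℝ) : ℝ := 2 ^ 8 ^ (k + ⌈L⌉₊ + 16 + k + 1) + 1

lemma window (hα : DifferentiableOn ℂ α (ball 0 R)) (k : ℕ) (hR : rad k L ≤ R) (v : ℕ → ℝ) :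
    ∃ σ : ℝ, 16 ≤ σ ∧ k ≤ σ ∧ L ≤ σ ∧ σ ^ 8 < R ∧
      ∀ j < k, -sc α σ ≤ v j ∨ v j ≤ -sc α (σ ^ 8) := by
  let σ : ℕ → ℝ := fun i => 2 ^ 8 ^ (k + ⌈L⌉₊ + 16 + i)
  have h1 : ∀ i, σ i ^ 8 = σ (i + 1) := fun i => by
    simp only [σ]; rw [← pow_mul, ← pow_succ, add_assoc]
  have h2 : Monotone σ := fun i j h =>
    pow_le_pow_right₀ one_le_two (Nat.pow_le_pow_right (by norm_num) (by omega))
  have h3 : ∀ i, i ≤ k + 1 → σ i < R := fun i hi => by
    have := h2 hi
    simp only [σ, rad, ← add_assoc] at *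
    linarith
  have h4 : ∀ i, ((k + ⌈L⌉₊ + 16 : ℕ) : ℝ) ≤ σ i := fun i => by
    have a1 := (Nat.lt_pow_self (n := k + ⌈L⌉₊ + 16 + i) (by norm_num : 1 < 8)).le
    have a2 := (Nat.lt_pow_self (n := 8 ^ (k + ⌈L⌉₊ + 16 + i)) (by norm_num : 1 < 2)).le
    simp only [σ]
    exact_mod_cast (by omega : k + ⌈L⌉₊ + 16 ≤ 2 ^ 8 ^ (k + ⌈L⌉₊ + 16 + i))
  obtain ⟨i, hi, h5⟩ : ∃ i ∈ range (k + 1), ∀ j ∈ range k,
      -sc α (σ i) ≤ v j ∨ v j ≤ -sc α (σ (i + 1)) := by
    by_contra hc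
    push Not at hc
    choose! φ φ1 φ2 φ3 using hc
    obtain ⟨x, hx, y, hy, hne, e⟩ := exists_ne_map_eq_of_card_lt_of_maps_to (f := φ)
      (by simp : (range k).card < (range (k + 1)).card) φ1
    have key : ∀ x ∈ range (k + 1), ∀ y ∈ range (k + 1), x < y → φ x ≠ φ y := by
      intro x hx y hy h e
      have a1 := φ3 x hx
      have a2 := φ2 y hy
      have a3 := sc_mono hα (ρ := σ (x + 1)) (by positivity) (h2 h)
        (h3 y (by have := mem_range.1 hy; omega))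
      rw [e] at a1
      linarith
    rcases lt_or_gt_of_ne hne with h | h
    exacts [key x hx y hy h e, key y hy x hx h e.symm]
  have h6 := h4 i
  push_cast at h6
  have h7 := Nat.le_ceil L
  have h8 : (0 : ℝ) ≤ k := Nat.cast_nonneg _
  have h9 : (0 : ℝ) ≤ ⌈L⌉₊ := Nat.cast_nonneg _
  refine ⟨σ i, by linarith, by linarith, by linarith, ?_, fun j hj => ?_⟩
  · rw [h1]; exact h3 _ (by have := mem_range.1 hi; omega)
  · rw [h1]; exact h5 j (mem_range.2 hj)

/-- The characteristic at radius `r`. -/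
noncomputable def ta (α : ℂ → Fin N → ℂ) (L r : ℝ) : ℝ := circleAverage (tp α) 0 r + L + 1

/-- The properties of the chosen radius. -/
structure St (α : ℂ → Fin N → ℂ) (R L C σ r η : ℝ) (f : ℂ → ℂ) : Prop where
  r1 : 1 ≤ r
  η0 : 0 < η
  r2 : r + η ≤ 2 * σ ^ 2
  s1 : σ * sc α σ ≤ 2 ^ 14 * ta α L r
  s2 : sc α (r + η) ≤ 2 ^ 32 * ta α L r ^ 2
  s3 : 1 ≤ 2 ^ 11 * ta α L r * η
  lld : NZ R f → -sc α σ ≤ av f 1 → (∀ z, ‖z‖ = r → f z ≠ 0) ∧ ∀ j : ℕ,
    circleAverage (fun z => log⁺ ‖iteratedDeriv j f z / f z‖) 0 r ≤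
      log (3 * j.factorial) + j * (2 ^ 90 * (C + 1) + 7 * log (ta α L r))

lemma Hol.iter {f : ℂ → ℂ} (hf : Hol R f) (j : ℕ) : Hol R (iteratedDeriv j f) := by
  induction j with
  | zero => simpa using hf
  | succ j ih => rw [iteratedDeriv_succ]; exact ih.deriv isOpen_ball

lemma int_aff {u : ℂ → ℝ} {r : ℝ} (hu : CircleIntegrable u 0 r) (a b : ℝ) :
    CircleIntegrable (fun z => a + b * u z) 0 r :=
  (circleIntegrable_const _ _ _).add (hu.const_smul (a := b))

lemma avg_aff {u : ℂ → ℝ} {r : ℝ} (hu : CircleIntegrable u 0 r) (a b : ℝ) :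
    circleAverage (fun z => a + b * u z) 0 r = a + b * circleAverage u 0 r := by
  have := circleAverage_fun_add (circleIntegrable_const a 0 r) (hu.const_smul (a := b))
  rwa [circleAverage_const, circleAverage_smul] at this

lemma lld_avg {f : ℂ → ℂ} (hf : Hol R f) {r δ A τ c : ℝ} (h0 : 0 < r) (hδ : 0 < δ)
    (hR : r + δ < R) (hz : ∀ z, |‖z‖ - r| < δ → f z ≠ 0)
    (hA : ∀ z, ‖z‖ ≤ r + δ → ‖f z‖ ≤ exp A) (hτ : 1 ≤ τ) (hc : 1 ≤ c) (h1 : 3 ≤ δ * (c * τ ^ 5))
    (h2 : A + 1 - av f r ≤ c * τ ^ 2) (j : ℕ) :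
    circleAverage (fun z => log⁺ ‖iteratedDeriv j f z / f z‖) 0 r ≤
      log (3 * j.factorial) + j * (2 * c + 7 * log τ) := by
  have hs : ∀ z : ℂ, ‖z‖ = r → f z ≠ 0 := fun z h => hz z (by simpa [h] using hδ)
  have r1 : r < R := by linarith
  have i1 := hf.int h0 r1
  have i2 : CircleIntegrable (fun z => log⁺ ‖iteratedDeriv j f z / f z‖) 0 r := by
    refine ContinuousOn.circleIntegrable' (continuous_posLog.comp_continuousOn (ContinuousOn.norm
      (((hf.iter j).continuousOn.mono (sph_sub h0 r1)).div (hf.continuousOn.mono (sph_sub h0 r1))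
        fun z hz => hs z (by simpa [abs_of_pos h0] using hz))))
  have j0 : (0 : ℝ) ≤ j := Nat.cast_nonneg _
  have t2 : 0 < τ ^ 2 := by positivity
  have := avg_mono_off Set.finite_empty h0 i2 (int_aff i1 (log (3 * j.factorial) +
      j * (c + 7 * log τ + (A + 1) / τ ^ 2)) (-(j / τ ^ 2))) fun z hzr _ => by
      have sb : ∀ w ∈ ball z δ, |‖w‖ - r| < δ := fun w hw =>
        hzr ▸ (abs_norm_sub_norm_le _ _).trans_lt (mem_ball_iff_norm.1 hw)
      have e := lld_pt hδ (hf.mono fun w hw => mem_ball_zero_iff.2 (by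
        linarith [(abs_lt.1 (sb w hw)).2])) (fun w hw => hz w (sb w hw))
        (fun w hw => hA w (by linarith [(abs_lt.1 (sb w hw)).2])) j
      set M := A + 1 - log ‖f z‖ with hM
      have hM1 : 1 ≤ M := by
        have := (log_le_iff_le_exp (norm_pos_iff.2 (hs z hzr))).2 (hA z (by linarith))
        linarith
      have f1 : (1 : ℝ) ≤ j.factorial := by exact_mod_cast j.factorial_pos
      have e2 : 3 * M / δ ≤ c * τ ^ 5 * M := by
        rw [div_le_iff₀ hδ]; nlinarith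
      have e3 : 1 ≤ c * τ ^ 5 * M :=
        one_le_mul_of_one_le_of_one_le (one_le_mul_of_one_le_of_one_le hc (one_le_pow₀ hτ)) hM1
      have e4 : log M ≤ 2 * log τ + M / τ ^ 2 := by
        have := log_le_sub_one_of_pos (show 0 < M / τ ^ 2 by positivity)
        rw [log_div (by linarith) t2.ne', log_pow] at this
        push_cast at this
        linarith
      have e5 : log c ≤ c := (log_le_sub_one_of_pos (by linarith)).trans (by linarith)
      calc _ ≤ log⁺ (3 * j.factorial * (c * τ ^ 5 * M) ^ j) :=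
            posLog_le_posLog (norm_nonneg _) (e.trans (by gcongr))
        _ = log (3 * j.factorial) + j * (log c + 5 * log τ + log M) := by
            rw [posLog_eq_log (by
              rw [abs_of_pos (by positivity)]
              exact one_le_mul_of_one_le_of_one_le (by linarith) (one_le_pow₀ e3)),
              log_mul (by positivity) (by positivity), log_pow,
              log_mul (x := c * τ ^ 5) (by positivity) (by positivity),
              log_mul (x := c) (by positivity) (by positivity), log_pow]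
            push_cast; ring
        _ ≤ log (3 * j.factorial) + j * (c + 5 * log τ + (2 * log τ + M / τ ^ 2)) := by gcongr
        _ = _ := by rw [hM]; ring
  rw [avg_aff i1] at this
  have e6 : (A + 1 - av f r) / τ ^ 2 ≤ c := by rwa [div_le_iff₀ t2]
  have e7 := mul_le_mul_of_nonneg_left e6 j0
  unfold av at e7
  refine this.trans ?_
  rw [sub_div] at e7
  have : (j : ℝ) * (circleAverage (fun z => log ‖f z‖) 0 r / τ ^ 2) =
    j / τ ^ 2 * circleAverage (fun z => log ‖f z‖) 0 r := by ring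
  nlinarith

lemma stage (hα : DifferentiableOn ℂ α (ball 0 R)) (h1 : 1 ≤ ‖deriv α 0‖) (hL : ‖α 0‖ ≤ L)
    {σ C : ℝ} (hσ : 16 ≤ σ) (hR : σ ^ 8 < R) {f : ℂ → ℂ} (hf : Hol R f) (hC : 0 ≤ C)
    (hb : ∀ z ∈ ball (0 : ℂ) R, ‖f z‖ ≤ exp (C * (‖α z‖ + 1))) :
    ∃ r η, St α R L C σ r η f := by
  have σ0 : 0 < σ := by linarith
  have a1 : 2 * σ ^ 2 < R := by
    refine lt_of_le_of_lt ?_ hR
    have : σ ^ 8 = σ ^ 6 * σ ^ 2 := by ring
    have : 2 ≤ σ ^ 6 := le_trans (by linarith) (le_self_pow₀ (by linarith) (by norm_num))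
    nlinarith [sq_nonneg σ]
  have a2 : σ < σ ^ 2 := by nlinarith
  have L0 : 0 ≤ L := (norm_nonneg _).trans hL
  have b1 : σ ≤ sc α σ := by nlinarith [deriv_le_sc hα σ0 (by linarith)]
  have b2 : σ * sc α σ ≤ sc α (σ ^ 2) := by
    have := sc_schwarz hα σ0 a2 (by linarith)
    nlinarith
  have b3 : 1 ≤ sc α (σ ^ 2) := by nlinarith
  obtain ⟨r0, η0, c1, c2, c3, c4, c5⟩ := borel (S := sc α) (a := σ ^ 2) (by positivity)
    (by linarith) fun x h h' => sc_mono hα (by linarith) h' a1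
  set A := C * (sc α (r0 + η0) + L + 1) with hA
  have hAb : ∀ z, ‖z‖ ≤ r0 + η0 → ‖f z‖ ≤ exp A := fun z hz => by
    refine (hb z (mem_ball_zero_iff.2 (by linarith))).trans ?_
    have := le_sc hα (by linarith) hz
    have := norm_le_norm_sub_add (α z) (α 0)
    rw [hA]; gcongr; linarith
  obtain ⟨r, δ, d1, d2, d3, d4, d5⟩ : ∃ r δ, r0 + η0 / 8 ≤ r ∧ r ≤ r0 + η0 / 8 + η0 / 8 ∧ 0 < δ ∧
      δ ≤ η0 / 8 ∧ (NZ R f → (η0 / 8) ^ 2 ≤ δ * (2 * (4 * (r0 + η0 / 8) * (A - av f 1) + η0 / 8)) ∧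
        ∀ z, |‖z‖ - r| < δ → f z ≠ 0) := by
    by_cases hn : NZ R f
    · obtain ⟨r, δ, d1, d2, d3, d4, d5⟩ := lld_radius hf hn (u := r0 + η0 / 8) (η := η0 / 8)
        (by linarith) (by linarith) (by linarith) (by linarith)
        (av_le hf hn (by linarith) (by linarith) fun z hz => hAb z (by linarith))
      exact ⟨r, δ, d1, d2, d3, d4, fun _ => d5⟩
    · exact ⟨_, η0 / 8, le_rfl, by linarith, by linarith, le_rfl, fun h => absurd h hn⟩
  have t0 : 0 ≤ circleAverage (tp α) 0 r := circleAverage_nonneg_of_nonneg fun z _ => tp_nonneg z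
  have e1 := sc_le_tp hα (u := r0) (r := r) (by linarith) (by linarith) (by linarith) hL
  change _ ≤ _ * ta α L r at e1
  have t1 : L + 1 ≤ ta α L r := by unfold ta; linarith
  set τ := ta α L r
  have b4 : sc α (σ ^ 2) ≤ sc α r0 := sc_mono hα (by positivity) c1 (by linarith)
  have e2 : η0 ^ 2 * sc α r0 ≤ 2 ^ 12 * σ ^ 4 * τ := by
    have : 4 * r / (r - r0) ≤ 64 * σ ^ 2 / η0 := by
      rw [div_le_div_iff₀ (by linarith) c2]
      linarith [mul_le_mul_of_nonneg_right (by linarith : r ≤ 2 * σ ^ 2) c2.le,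
        mul_le_mul_of_nonneg_left (by linarith : η0 / 8 ≤ r - r0) (sq_nonneg σ)]
    have : 0 ≤ 4 * r / (r - r0) := div_nonneg (by linarith) (by linarith)
    calc _ ≤ η0 ^ 2 * ((64 * σ ^ 2 / η0) ^ 2 * τ) := by
          gcongr; exact e1.trans (by gcongr; linarith)
      _ = _ := by field_simp; ring
  have e3 : sc α (σ ^ 2) * sc α r0 ≤ 2 ^ 28 * τ ^ 2 := by
    apply le_of_mul_le_mul_left _ (show 0 < σ ^ 8 by positivity)
    calc _ = ((σ ^ 2) ^ 4 * sc α (σ ^ 2)) * sc α r0 := by ring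
      _ ≤ (16 * η0 ^ 4 * sc α r0) * sc α r0 := by gcongr; linarith
      _ = 16 * (η0 ^ 2 * sc α r0) ^ 2 := by ring
      _ ≤ 16 * (2 ^ 12 * σ ^ 4 * τ) ^ 2 := by
          have : 0 ≤ sc α r0 := by linarith
          gcongr
      _ = _ := by ring
  have e4 : σ * sc α σ ≤ 2 ^ 14 * τ := by
    refine b2.trans (le_of_sq_le_sq ?_ (by linarith))
    linarith [mul_le_mul_of_nonneg_left b4 (zero_le_one.trans b3)]
  have e5 : sc α r0 ≤ 2 ^ 28 * τ ^ 2 := by
    linarith [mul_le_mul_of_nonneg_right b3 (zero_le_one.trans (b3.trans b4))]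
  have e6 : 1 ≤ 2 ^ 8 * τ * η0 := by
    refine le_of_pow_le_pow_left₀ (n := 4) (by norm_num) (by have : 0 < τ := by linarith
                                                             positivity) ?_
    have g1 : 1 ≤ (σ ^ 2) ^ 4 * sc α (σ ^ 2) :=
      one_le_mul_of_one_le_of_one_le (one_le_pow₀ (by linarith)) b3
    have g2 : τ ^ 2 ≤ τ ^ 4 := pow_le_pow_right₀ (by linarith) (by norm_num)
    calc _ ≤ 16 * η0 ^ 4 * sc α r0 := by linarith
      _ ≤ 16 * η0 ^ 4 * (2 ^ 28 * τ ^ 4) := by gcongr; linarith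
      _ = _ := by ring
  refine ⟨r, η0 / 8, by linarith, by linarith, by linarith, e4,
    (sc_mono hα (by linarith) (by linarith) (by linarith : r0 + η0 < R)).trans (by linarith),
    by linarith, fun hn hav => ?_⟩
  obtain ⟨d6, d7⟩ := d5 hn
  refine ⟨fun z hz => d7 z (by simpa [hz] using d3), fun j => ?_⟩
  have g1 : τ ≤ τ ^ 2 := le_self_pow₀ (by linarith) (by norm_num)
  have g2 : A ≤ C * (2 ^ 33 * τ ^ 2) := by rw [hA]; gcongr; linarith
  have g3 : sc α σ ≤ 2 ^ 10 * τ := by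
    linarith [mul_le_mul_of_nonneg_right hσ (σ0.le.trans b1)]
  have g4 : r0 + η0 ≤ 2 ^ 15 * τ := by linarith [mul_le_mul_of_nonneg_left b1 σ0.le]
  have g5 := av_mono hf hn one_pos (by linarith : 1 ≤ r) (by linarith)
  have g6 : A + 1 - av f 1 ≤ (C + 1) * (2 ^ 33 * τ ^ 2) := by linarith
  have τ0 : 0 < τ := by linarith
  refine (lld_avg hf (by linarith) d3 (by linarith) d7 (fun z hz => hAb z (by linarith))
    (τ := τ) (c := 2 ^ 89 * (C + 1)) (by linarith) (by linarith) ?_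
    (by linarith [mul_nonneg hC (sq_nonneg τ), sq_nonneg τ]) j).trans
    (le_of_eq (by ring))
  have g7 : 2 * (4 * (r0 + η0 / 8) * (A - av f 1) + η0 / 8) ≤ 2 ^ 52 * (C + 1) * τ ^ 3 := by
    have k1 : (r0 + η0 / 8) * (A - av f 1) ≤ (2 ^ 15 * τ) * ((C + 1) * (2 ^ 33 * τ ^ 2)) :=
      (mul_le_mul_of_nonneg_left (by linarith) (by linarith)).trans
        (mul_le_mul_of_nonneg_right (by linarith) (by positivity))
    have k2 : τ ≤ τ ^ 3 := le_self_pow₀ (by linarith) (by norm_num)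
    have k3 : τ ^ 3 ≤ (C + 1) * τ ^ 3 := le_mul_of_one_le_left (by positivity) (by linarith)
    linarith
  have g8 := d6.trans (mul_le_mul_of_nonneg_left g7 d3.le)
  have g9 : 1 ≤ (2 ^ 11 * τ) ^ 2 * (η0 / 8) ^ 2 := by
    rw [← mul_pow]; exact one_le_pow₀ (by linarith)
  have g10 := g9.trans (mul_le_mul_of_nonneg_left g8 (by positivity))
  have g11 : 0 ≤ δ * ((C + 1) * τ ^ 5) := by positivity
  linarith

end Pool.Agent.MP_c69980_ag.H60
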