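import Mathlib

/-!
Derivations and valuation rings of finite extensions in residue characteristic zero.
-/

set_option autoImplicit false

namespace Pool.Agent.MP_c69980_ag.H60

open Finset Polynomial

variable {R K : Type} [CommRing R] [Field K] [Algebra R K]

lemma int_of_val {x : K} (h : ∀ V : ValuationSubring K, (∀ r, algebraMap R K r ∈ V) → x ∈ V) :
    IsIntegral R x := by
  by_contra hx
  have : IsIntegrallyClosedIn (integralClosure R K).toSubring K :=
    inferInstanceAs (IsIntegrallyClosedIn (integralClosure R K) K)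
  obtain ⟨V, h1, h2⟩ := (integralClosure R K).toSubring
    |>.exists_le_valuationSubring_of_isIntegrallyClosedIn (x := x) hx
  exact h2 (h V fun r => h1 ((integralClosure R K).algebraMap_mem r))

lemma val_int (V : ValuationSubring K) (hR : ∀ r, algebraMap R K r ∈ V) {x : K}
    (hx : IsIntegral R x) : x ∈ V := by
  obtain ⟨y, hy⟩ := IsIntegrallyClosed.isIntegral_iff.1
    (hx.map_of_comp_eq (T := V) ((algebraMap R K).codRestrict V hR) (RingHom.id K) rfl)
  exact (show (y : K) = x from hy) ▸ y.2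

lemma aeval_val (V : ValuationSubring K) (hR : ∀ r, algebraMap R K r ∈ V) {x : K} (hx : x ∈ V)
    (P : R[X]) : aeval x P ∈ V := by
  rw [aeval_eq_sum_range]
  exact sum_mem fun i _ => by rw [Algebra.smul_def]; exact mul_mem (hR _) (pow_mem hx _)

lemma horner_eq (x : K) (P : R[X]) (j : ℕ) :
    aeval x (divX^[j] P) = aeval x (divX^[j + 1] P) * x + algebraMap R K (P.coeff j) := by
  have : ∀ j (P : R[X]), (divX^[j] P).coeff 0 = P.coeff j := fun j => by
    induction j with
    | zero => exact fun _ => rfl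
    | succ j ih => exact fun P => by rw [Function.iterate_succ_apply, ih, coeff_divX]
  conv_lhs => rw [← divX_mul_X_add (divX^[j] P)]
  rw [map_add, map_mul, aeval_X, aeval_C, this, Function.iterate_succ_apply']

lemma horner {x : K} {P : R[X]} (h : aeval x P = 0) (j : ℕ) :
    IsIntegral R (aeval x (divX^[j] P)) := by
  refine int_of_val fun V hV => (V.mem_or_inv_mem x).elim (fun hx => aeval_val V hV hx _)
    fun hx => ?_
  by_cases x0 : x = 0
  · exact aeval_val V hV (x0 ▸ V.zero_mem) _
  induction j with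
  | zero => exact h ▸ V.zero_mem
  | succ j ih =>
    have := mul_mem (sub_mem ih (hV (P.coeff j))) hx
    rwa [horner_eq, add_sub_cancel_right, mul_inv_cancel_right₀ x0] at this

lemma loc_val (V : ValuationSubring K) (hR : ∀ r, algebraMap R K r ∈ V) {x : K} (hx : x ∈ V)
    {P : R[X]} (h : aeval x P = 0) (hP : ∃ i, V.valuation (algebraMap R K (P.coeff i)) = 1) :
    ∃ s, IsIntegral R s ∧ IsIntegral R (s * x) ∧ V.valuation s = 1 := by
  have le := fun y (hy : y ∈ V) => (V.valuation_le_one_iff y).2 hy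
  by_contra hn
  push Not at hn
  have h1 : ∀ j, V.valuation (aeval x (divX^[j] P)) < 1 := fun j => by
    rcases j with _ | j
    · simp [h]
    · refine (le _ (aeval_val V hR hx _)).lt_of_ne (hn _ (horner h _) ?_)
      have := (horner h j).sub (isIntegral_algebraMap (x := P.coeff j))
      rwa [horner_eq, add_sub_cancel_right] at this
  obtain ⟨i, hi⟩ := hP
  have h2 := V.valuation.map_sub_lt (h1 i) (map_mul V.valuation _ _ ▸
    mul_lt_one_of_lt_of_le (h1 (i + 1)) (le x hx))
  rw [horner_eq, add_sub_cancel_left, hi] at h2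
  exact lt_irrefl _ h2

variable [Algebra ℂ K] (V : ValuationSubring K)

lemma val_c (hC : ∀ c, algebraMap ℂ K c ∈ V) {c : ℂ} (hc : c ≠ 0) :
    V.valuation (algebraMap ℂ K c) = 1 := by
  refine le_antisymm ((V.valuation_le_one_iff _).2 (hC c)) ?_
  have := (V.valuation_le_one_iff _).2 (hC c⁻¹)
  rwa [map_inv₀, map_inv₀, inv_le_one₀ (by simpa [zero_lt_iff] using hc)] at this

lemma res_kill (hC : ∀ c, algebraMap ℂ K c ∈ V) (E : Derivation ℂ K K) {c b : K} (hb : b ∈ V)
    (h1 : c * E b ∈ V) (hm : ∀ g, V.valuation g < 1 → V.valuation (c * E g) < 1) (n : ℕ) :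
    ∀ a : ℕ → K, (∀ i, a i ∈ V ∧ V.valuation (c * E (a i)) < 1) → V.valuation (a n) = 1 →
      V.valuation (∑ i ∈ range (n + 1), a i * b ^ i) < 1 → V.valuation (c * E b) < 1 := by
  have le := fun y (hy : y ∈ V) => (V.valuation_le_one_iff y).2 hy
  induction n with
  | zero => intro a _ h2 h3; simp [h2] at h3
  | succ n ih =>
    intro a ha h2 h3
    by_contra hn
    have h4 : V.valuation (c * E b) = 1 := le_antisymm (le _ h1) (not_lt.1 hn)
    have hN : ∀ i : ℕ, ((i + 1 : ℕ) : K) = algebraMap ℂ K (i + 1 : ℕ) := fun i => by simp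
    refine hn (ih (fun i => (i + 1 : ℕ) * a (i + 1)) (fun i => ⟨mul_mem (natCast_mem _ _) (ha _).1,
      ?_⟩) ?_ ?_)
    · rw [E.leibniz, E.map_natCast, smul_zero, add_zero, smul_eq_mul, mul_left_comm, map_mul]
      rw [mul_comm]
      exact mul_lt_one_of_lt_of_le (ha _).2 (le _ (natCast_mem _ _))
    · rw [map_mul, h2, hN, val_c V hC (Nat.cast_ne_zero.2 n.succ_ne_zero), one_mul]
    · have h5 := hm _ h3
      have h6 : c * E (∑ i ∈ range (n + 1 + 1), a i * b ^ i) =
          ∑ i ∈ range (n + 1 + 1), c * E (a i) * b ^ i +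
            (∑ i ∈ range (n + 1), (i + 1 : ℕ) * a (i + 1) * b ^ i) * (c * E b) := by
        simp only [map_sum, E.leibniz, E.leibniz_pow, smul_eq_mul, mul_add, mul_sum, nsmul_eq_mul,
          sum_add_distrib, sum_mul]
        rw [add_comm, sum_range_succ' (fun i => c * (a i * (i * (b ^ (i - 1) * E b))))]
        simp only [Nat.cast_zero, zero_mul, mul_zero, add_zero, Nat.add_sub_cancel]
        congr 1 <;> exact sum_congr rfl fun i _ => by ring
      have h7 := V.valuation.map_sub_lt h5 (V.valuation.map_sum_lt (s := range (n + 1 + 1))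
        (f := fun i => c * E (a i) * b ^ i) one_ne_zero fun i _ => by
          rw [map_mul]; exact mul_lt_one_of_lt_of_le (ha i).2 (le _ (pow_mem hb i)))
      rwa [h6, add_sub_cancel_left, map_mul, h4, mul_one] at h7

theorem tame (L : Type) [Field L] [IsDomain R] [Algebra R L] [IsFractionRing R L] [Algebra L K]
    [IsScalarTower R L K] [FiniteDimensional L K] [IsIntegrallyClosed R] [IsNoetherianRing R]
    (hR : ∀ r, algebraMap R K r ∈ V) (hC : ∀ c, algebraMap ℂ K c ∈ V) (E : Derivation ℂ K K)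
    (hE : ∀ r, E (algebraMap R K r) ∈ V)
    (hP : ∀ g : K, ∃ P : R[X], aeval g P = 0 ∧ ∃ i, V.valuation (algebraMap R K (P.coeff i)) = 1)
    (hm : ∀ c, V.valuation c < 1 → (∀ g ∈ V, c * E g ∈ V) →
      ∀ g, V.valuation g < 1 → V.valuation (c * E g) < 1) : ∀ g ∈ V, E g ∈ V := by
  have le := fun y (hy : y ∈ V) => (V.valuation_le_one_iff y).2 hy
  have : CharZero K := charZero_of_injective_algebraMap (algebraMap ℂ K).injective
  have : CharZero L := RingHom.charZero_iff (algebraMap L K).injective |>.2 this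
  obtain ⟨s, hs⟩ := (IsIntegralClosure.finite R L K (integralClosure R K)).fg_top
  have key : ∀ c ∈ V, (∀ b ∈ s, c * E b ∈ V) → ∀ g ∈ V, c * E g ∈ V := fun c hc h g hg => by
    have h1 : ∀ b : integralClosure R K, c * E b ∈ V := fun b => by
      have hb : b ∈ Submodule.span R (s : Set (integralClosure R K)) := hs ▸ trivial
      induction hb using Submodule.span_induction with
      | mem x hx => exact h x hx
      | zero => simp
      | add a b _ _ ha hb => rw [Subalgebra.coe_add, map_add, mul_add]; exact add_mem ha hb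
      | smul r a _ ha =>
        rw [Subalgebra.coe_smul, Algebra.smul_def, E.leibniz, smul_eq_mul, smul_eq_mul, mul_add,
          mul_left_comm]
        exact add_mem (mul_mem (hR r) ha) (mul_mem hc (mul_mem (val_int V hR a.2) (hE r)))
    obtain ⟨P, p1, p2⟩ := hP g
    obtain ⟨t, t1, t2, t3⟩ := loc_val V hR hg p1 p2
    have h2 := sub_mem (h1 ⟨_, t2⟩) (mul_mem hg (h1 ⟨_, t1⟩))
    rw [E.leibniz, smul_eq_mul, smul_eq_mul, mul_add, mul_left_comm c g, add_sub_cancel_right,
      mul_left_comm, ← V.valuation_le_one_iff, map_mul, t3, one_mul] at h2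
    exact (V.valuation_le_one_iff _).1 h2
  by_cases h : ∀ b ∈ s, E b ∈ V
  · simpa using key 1 V.one_mem (by simpa using h)
  push Not at h
  obtain ⟨b1, b11, b12⟩ := h
  obtain ⟨b, hb, hb'⟩ := s.exists_max_image (fun b => V.valuation (E b)) ⟨b1, b11⟩
  have h1 : 1 < V.valuation (E b) :=
    (not_le.1 fun e => b12 ((V.valuation_le_one_iff _).1 e)).trans_le (hb' b1 b11)
  have h0 : E b ≠ 0 := fun e => by simp [e] at h1
  have h2 : V.valuation (E b)⁻¹ < 1 := by rw [map_inv₀]; exact inv_lt_one_of_one_lt₀ h1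
  have h3 := key _ ((V.valuation_le_one_iff _).1 h2.le) fun b' hb'' => by
    rw [← V.valuation_le_one_iff, map_mul, map_inv₀, inv_mul_le_iff₀ (zero_lt_one.trans h1),
      mul_one]
    exact hb' b' hb''
  obtain ⟨q, q1, q2⟩ := b.2
  have bV := val_int V hR b.2
  have := res_kill V hC E bV (h3 _ bV) (hm _ h2 h3) q.natDegree
    (fun i => algebraMap R K (q.coeff i)) (fun i => ⟨hR _, by
      rw [map_mul]; exact mul_lt_one_of_lt_of_le h2 (le _ (hE _))⟩) (by simp [q1.coeff_natDegree])
    (by rw [← eval₂_eq_sum_range, q2]; simp)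
  simp [h0] at this

/-- The unramified case. -/
lemma hm_unram (E : Derivation ℂ K K) {p : K} (h1 : V.valuation p < 1) (h2 : E p ∈ V)
    (h3 : ∀ g, V.valuation g < 1 → V.valuation g ≤ V.valuation p) (c : K)
    (hc : V.valuation c < 1) (h : ∀ g ∈ V, c * E g ∈ V) (g : K) (hg : V.valuation g < 1) :
    V.valuation (c * E g) < 1 := by
  have le := fun y (hy : y ∈ V) => (V.valuation_le_one_iff y).2 hy
  by_cases p0 : p = 0
  · have := h3 g hg
    simp only [p0, map_zero, le_zero_iff, map_eq_zero] at this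
    simp [this]
  have h4 : g / p ∈ V := by
    rw [← V.valuation_le_one_iff, map_div₀]; exact div_le_one_of_le₀ (h3 g hg) zero_le
  rw [← mul_div_cancel₀ g p0, E.leibniz, smul_eq_mul, smul_eq_mul, mul_add, mul_left_comm]
  refine V.valuation.map_add_lt ?_ ?_ <;> rw [map_mul]
  · exact mul_lt_one_of_lt_of_le h1 (le _ (h _ h4))
  · exact mul_lt_one_of_lt_of_le hc (le _ (mul_mem h4 h2))

/-- The logarithmic case. -/
lemma hm_log (L : Type) [Field L] [Algebra L K] [Algebra.IsAlgebraic L K]
    (hC : ∀ c, algebraMap ℂ K c ∈ V) (E : Derivation ℂ K K)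
    (hE : ∀ r, E (algebraMap L K r) / algebraMap L K r ∈ V) {c : K} (hc : c ∈ V)
    (h : ∀ g ∈ V, c * E g ∈ V) (g : K) : c * E g / g ∈ V := by
  by_cases g0 : g = 0
  · simp [g0]
  obtain ⟨q, q1, q2⟩ := (Algebra.IsAlgebraic.isAlgebraic (R := L) g).isIntegral
  obtain ⟨e, r, he, hr⟩ : ∃ (e : ℕ) (r : L), e ≠ 0 ∧
      V.valuation (g ^ e) = V.valuation (algebraMap L K r) := by
    by_contra hn
    push Not at hn
    rw [eval₂_eq_sum_range] at q2
    obtain ⟨j, hj, hj'⟩ := (range (q.natDegree + 1)).exists_max_image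
      (fun i => V.valuation (algebraMap L K (q.coeff i) * g ^ i)) ⟨0, by simp⟩
    have h0 : V.valuation (algebraMap L K (q.coeff j) * g ^ j) ≠ 0 := fun e => by
      have := hj' q.natDegree (by simp)
      simp [e, q1.coeff_natDegree, g0] at this
    refine h0 ?_
    rw [← V.valuation.map_sum_eq_of_lt (f := fun i => algebraMap L K (q.coeff i) * g ^ i) hj, q2,
      map_zero]
    intro i hi
    obtain ⟨i1, i2⟩ := mem_sdiff.1 hi
    refine (hj' i i1).lt_of_ne fun e => ?_
    have h1 := h0
    rw [← e] at h1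
    simp only [map_mul, map_pow, ne_eq, mul_eq_zero, not_or] at e h0 h1
    rcases lt_or_gt_of_ne (notMem_singleton.1 i2) with l | l
    · refine hn (j - i) (q.coeff i / q.coeff j) (by omega) ?_
      rw [map_div₀, map_div₀, map_pow, pow_sub₀ _ (by simpa using g0) l.le, eq_div_iff h0.1,
        mul_right_comm, mul_inv_eq_iff_eq_mul₀ h1.2, e, mul_comm]
    · refine hn (i - j) (q.coeff j / q.coeff i) (by omega) ?_
      rw [map_div₀, map_div₀, map_pow, pow_sub₀ _ (by simpa using g0) l.le, eq_div_iff h1.1,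
        mul_right_comm, mul_inv_eq_iff_eq_mul₀ h0.2, ← e, mul_comm]
  have r0 : algebraMap L K r ≠ 0 := fun z => by simp [z, g0] at hr
  have e0 : (e : K) ≠ 0 := by
    have : CharZero K := charZero_of_injective_algebraMap (algebraMap ℂ K).injective
    exact Nat.cast_ne_zero.2 he
  have v1 : V.valuation (g ^ e / algebraMap L K r) = 1 := by
    rw [map_div₀, hr, div_self (by simpa using r0)]
  have m1 : g ^ e / algebraMap L K r ∈ V := (V.valuation_le_one_iff _).1 v1.le
  have m2 : (g ^ e / algebraMap L K r)⁻¹ ∈ V := by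
    rw [← V.valuation_le_one_iff, map_inv₀, v1, inv_one]
  have := mul_mem (hC (e : ℂ)⁻¹) (add_mem (mul_mem (h _ m1) m2) (mul_mem hc (hE r)))
  obtain ⟨e, rfl⟩ := Nat.exists_eq_succ_of_ne_zero he
  convert this using 1
  simp only [E.leibniz_div, E.leibniz_pow, smul_eq_mul, nsmul_eq_mul, map_inv₀, map_natCast,
    Nat.succ_sub_one]
  simp only [pow_succ]
  field_simp
  ring

end Pool.Agent.MP_c69980_ag.H60
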