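import Pool.Agent.MP_c69980_ag.H60.Wr

/-!
Exponential-type elements of a differential field: independence and coprimality.
-/

set_option autoImplicit false

namespace Pool.Agent.MP_c69980_ag.H60

open Finset MvPolynomial

variable {K Ω : Type*} [Field K] [Field Ω] [Algebra K Ω] {σ : Type*}

/-- The monomial `w ^ γ`. -/
noncomputable def mon (w : σ → Ω) (γ : σ →₀ ℕ) : Ω := γ.prod fun i k => w i ^ k

/-- The logarithmic derivative of a monomial. -/
noncomputable def lw (ω : σ → K) (γ : σ →₀ ℕ) : K := γ.sum fun i k => (k : K) * ω i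

lemma mon_zero (w : σ → Ω) : mon w 0 = 1 := by simp [mon]

lemma mon_add (w : σ → Ω) (γ γ' : σ →₀ ℕ) : mon w (γ + γ') = mon w γ * mon w γ' :=
  Finsupp.prod_add_index' (by simp) (by simp [pow_add])

lemma mon_sum (w : σ → Ω) {ι : Type*} (s : Finset ι) (γ : ι → σ →₀ ℕ) :
    mon w (∑ i ∈ s, γ i) = ∏ i ∈ s, mon w (γ i) := by
  classical
  induction s using Finset.induction_on with
  | empty => simp [mon_zero]
  | insert a s ha ih => rw [sum_insert ha, prod_insert ha, mon_add, ih]

lemma lw_add (ω : σ → K) (γ γ' : σ →₀ ℕ) : lw ω (γ + γ') = lw ω γ + lw ω γ' :=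
  Finsupp.sum_add_index' (by simp) (by simp [add_mul])

lemma aeval_mon (w : σ → Ω) (γ : σ →₀ ℕ) (c : K) :
    aeval w (monomial γ c) = algebraMap K Ω c * mon w γ := aeval_monomial _ _ _

/-- The setting: `w l` has logarithmic derivative `ω l` in `K`, constants lie in `K`, and
distinct monomials in the `w l` are not proportional over `K`. -/
structure Tor (D : Ω →+ Ω) (d : K → K) (w : σ → Ω) (ω : σ → K) : Prop where
  leib : Leib D
  comm : ∀ c, D (algebraMap K Ω c) = algebraMap K Ω (d c)
  const : ∀ x, D x = 0 → ∃ c, x = algebraMap K Ω c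
  ne : ∀ l, w l ≠ 0
  dw : ∀ l, D (w l) = algebraMap K Ω (ω l) * w l
  ind : ∀ (γ γ' : σ →₀ ℕ) (c : K), mon w γ = algebraMap K Ω c * mon w γ' → γ = γ'

/-- The derivation on polynomials. -/
noncomputable def dpol (d : K → K) (ω : σ → K) (F : MvPolynomial σ K) : MvPolynomial σ K :=
  ∑ γ ∈ F.support, monomial γ (d (coeff γ F) + lw ω γ * coeff γ F)

variable {D : Ω →+ Ω} {d : K → K} {w : σ → Ω} {ω : σ → K}

namespace Tor

lemma mon_ne (h : Tor D d w ω) (γ : σ →₀ ℕ) : mon w γ ≠ 0 :=
  Finset.prod_ne_zero_iff.2 fun i _ => pow_ne_zero _ (h.ne i)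

lemma d_zero (h : Tor D d w ω) : d 0 = 0 := by
  have := h.comm 0
  rw [map_zero, map_zero] at this
  exact (algebraMap K Ω).injective (by rw [← this, map_zero])

lemma d_mon (h : Tor D d w ω) (γ : σ →₀ ℕ) :
    D (mon w γ) = algebraMap K Ω (lw ω γ) * mon w γ := by
  induction γ using Finsupp.induction_linear with
  | zero => simp [mon_zero, lw, h.leib.one]
  | add a b ha hb => rw [mon_add, h.leib, ha, hb, lw_add, map_add]; ring
  | single l k =>
    have e1 : mon w (Finsupp.single l k) = w l ^ k := by simp [mon]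
    have e2 : lw ω (Finsupp.single l k) = k * ω l := by simp [lw]
    rw [e1, e2]
    clear e1 e2
    induction k with
    | zero => simp [h.leib.one]
    | succ k ih => rw [pow_succ, h.leib, ih, h.dw]; push_cast; ring

lemma d_term (h : Tor D d w ω) (γ : σ →₀ ℕ) (c : K) :
    D (algebraMap K Ω c * mon w γ) = algebraMap K Ω (d c + lw ω γ * c) * mon w γ := by
  rw [h.leib, h.comm, h.d_mon]; simp; ring

lemma coeff_dpol (h : Tor D d w ω) (F : MvPolynomial σ K) (γ : σ →₀ ℕ) :
    coeff γ (dpol d ω F) = d (coeff γ F) + lw ω γ * coeff γ F := by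
  classical
  rw [dpol, coeff_sum, Finset.sum_eq_single γ]
  · simp
  · intro b _ hb; simp [hb]
  · intro hγ
    rw [notMem_support_iff.1 hγ]; simp [h.d_zero]

lemma supp_dpol (h : Tor D d w ω) (F : MvPolynomial σ K) : (dpol d ω F).support ⊆ F.support := by
  intro γ hγ
  by_contra hn
  rw [mem_support_iff, h.coeff_dpol, notMem_support_iff.1 hn] at hγ
  simp [h.d_zero] at hγ

lemma aeval_dpol (h : Tor D d w ω) (F : MvPolynomial σ K) :
    aeval w (dpol d ω F) = D (aeval w F) := by
  conv_rhs => rw [F.as_sum]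
  simp only [dpol, map_sum, aeval_mon, h.d_term]

lemma eigen (h : Tor D d w ω) {F : MvPolynomial σ K} {c : K} (hF : dpol d ω F = C c * F)
    {γ γ' : σ →₀ ℕ} (h1 : γ ∈ F.support) (h2 : γ' ∈ F.support) : γ = γ' := by
  have key : ∀ δ, D (algebraMap K Ω (coeff δ F) * mon w δ) =
      algebraMap K Ω c * (algebraMap K Ω (coeff δ F) * mon w δ) := by
    intro δ
    rw [h.d_term, ← h.coeff_dpol, hF, coeff_C_mul, map_mul, mul_assoc]
  have n1 : algebraMap K Ω (coeff γ F) ≠ 0 := by simpa using h1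
  have n2 : algebraMap K Ω (coeff γ' F) ≠ 0 := by simpa using h2
  have n3 := mul_ne_zero n2 (h.mon_ne γ')
  have e := h.leib.div (algebraMap K Ω (coeff γ F) * mon w γ) _ n3
  rw [key, key] at e
  have e2 : D (algebraMap K Ω (coeff γ F) * mon w γ /
      (algebraMap K Ω (coeff γ' F) * mon w γ')) = 0 := by
    apply (mul_eq_zero.1 (e.trans (by ring))).resolve_right (pow_ne_zero 2 n3)
  obtain ⟨c', hc'⟩ := h.const _ e2
  apply h.ind γ γ' (c' * coeff γ' F / coeff γ F)
  rw [div_eq_iff n3] at hc'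
  rw [map_div₀, map_mul]
  field_simp
  linear_combination hc'

lemma single {F : MvPolynomial σ K} {γ : σ →₀ ℕ} (hs : ∀ δ ∈ F.support, δ = γ) :
    F = monomial γ (coeff γ F) := by
  classical
  ext δ
  rw [coeff_monomial]
  split_ifs with e
  · rw [e]
  · by_contra hn
    exact e (hs δ (mem_support_iff.2 hn)).symm

lemma inj (h : Tor D d w ω) (F : MvPolynomial σ K) (hF : aeval w F = 0) : F = 0 := by
  classical
  induction hn : F.support.card using Nat.strong_induction_on generalizing F with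
  | _ n ih =>
  by_contra h0
  obtain ⟨γ, hγ⟩ := support_nonempty.2 h0
  have hc : coeff γ F ≠ 0 := mem_support_iff.1 hγ
  set c := coeff γ (dpol d ω F) / coeff γ F with hcd
  have e : dpol d ω F - C c * F = 0 := by
    apply ih _ _ _ _ rfl
    · rw [← hn]
      apply Finset.card_lt_card
      refine ⟨fun δ hδ => ?_, fun hs => ?_⟩
      · by_contra hn
        have h1 := notMem_support_iff.1 hn
        have h2 := notMem_support_iff.1 fun hh => hn (h.supp_dpol F hh)
        simp [h1, h2] at hδ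
      · have := mem_support_iff.1 (hs hγ)
        apply this
        rw [coeff_sub, coeff_C_mul, hcd]
        field_simp
        ring
    · rw [map_sub, map_mul, h.aeval_dpol, hF]; simp
  have e2 := single fun δ hδ => h.eigen (sub_eq_zero.1 e) hδ hγ
  rw [e2, aeval_mon] at hF
  exact mul_ne_zero (by simpa using hc) (h.mon_ne γ) hF

lemma dpol_mul (h : Tor D d w ω) (F G : MvPolynomial σ K) :
    dpol d ω (F * G) = dpol d ω F * G + F * dpol d ω G := by
  rw [← sub_eq_zero]
  apply h.inj
  simp only [map_sub, map_add, map_mul, h.aeval_dpol, h.leib _ _, sub_self]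

end Tor

lemma eq_C_mul_of_dvd {F G : MvPolynomial σ K} (hd : F ∣ G) (hs : G.support ⊆ F.support) :
    ∃ c, G = C c * F := by
  classical
  obtain ⟨Z, rfl⟩ := hd
  by_cases hF : F = 0
  · exact ⟨0, by simp [hF]⟩
  by_cases hZ : Z = 0
  · exact ⟨0, by simp [hZ]⟩
  have h1 : ∀ l, degreeOf l Z = 0 := by
    intro l
    have e1 := degreeOf_mul_eq (n := l) hF hZ
    have e2 : degreeOf l (F * Z) ≤ degreeOf l F := by
      rw [degreeOf_le_iff]
      exact fun m hm => monomial_le_degreeOf l (hs hm)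
    omega
  refine ⟨coeff 0 Z, ?_⟩
  rw [mul_comm]
  congr 1
  apply Tor.single
  intro δ hδ
  ext l
  have := monomial_le_degreeOf l hδ
  rw [h1] at this
  simpa using this

theorem Tor.coprime [Finite σ] (h : Tor D d w ω) {F : MvPolynomial σ K} (hF : Squarefree F)
    (hX : ∀ l, ¬ X l ∣ F) : IsRelPrime F (dpol d ω F) := by
  classical
  apply WfDvdMonoid.isRelPrime_of_no_irreducible_factors (fun hh => hF.ne_zero hh.1)
  rintro Z hZ ⟨H, rfl⟩ h2
  rw [h.dpol_mul] at h2
  have h3 : Z ∣ dpol d ω Z * H := (dvd_add_left (dvd_mul_right _ _)).1 h2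
  rcases hZ.prime.dvd_or_dvd h3 with h4 | h4
  · obtain ⟨c, hc⟩ := eq_C_mul_of_dvd h4 (h.supp_dpol Z)
    obtain ⟨γ, hγ⟩ := support_nonempty.2 hZ.ne_zero
    have e2 := Tor.single fun δ hδ => h.eigen hc hδ hγ
    by_cases h0 : γ = 0
    · apply hZ.not_isUnit
      rw [e2, h0]
      exact (IsUnit.mk0 _ (by simpa [h0] using hγ)).map (C : K →+* MvPolynomial σ K)
    · obtain ⟨l, hl⟩ : ∃ l, γ l ≠ 0 := by
        by_contra hn
        push Not at hn
        exact h0 (Finsupp.ext hn)
      apply hX l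
      apply Dvd.dvd.mul_right
      rw [e2]
      exact X_dvd_monomial.2 (Or.inr hl)
  · exact hZ.not_isUnit (hF Z (mul_dvd_mul_left Z h4))

end Pool.Agent.MP_c69980_ag.H60
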